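import Mathlib

set_option autoImplicit false

namespace Pool.Agent.H665Simp

/-- a self-similar action of the group `G` on words over the alphabet `Fin d`: `act` is the action on
letters, `sec g c` is the section of `g` at the letter `c` (products act right to left) -/
structure SS (G : Type) [Group G] (d : ℕ) where
  act : G →* Equiv.Perm (Fin d)
  sec : G → Fin d → G
  sec_mul : ∀ g h c, sec (g * h) c = sec g (act h c) * sec h c

/-- `g` dies: it acts trivially on letters and all its sections are trivial, at some finite level -/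
inductive SS.Dies {G : Type} [Group G] {d : ℕ} (S : SS G d) : G → Prop
  | one : SS.Dies S 1
  | step (g : G) : S.act g = 1 → (∀ c, SS.Dies S (S.sec g c)) → SS.Dies S g

/-- a set with a self-similar action compatible with `S` -/
structure SSet {G : Type} [Group G] {d : ℕ} (S : SS G d) (W : Type) where
  cons : Fin d × W ≃ W
  act : G →* Equiv.Perm W
  act_cons : ∀ g c w, act g (cons (c, w)) = cons (S.act g c, act (S.sec g c) w)

/-- the product `p i * p (i+1) * ... * p (i+n-1)` -/
def pr {Q : Type} [Monoid Q] (p : ℕ → Q) (i n : ℕ) : Q :=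
  ((List.range n).map (fun k => p (i + k))).prod

/-- conjugate of `u` by `p (c-1) * ... * p 0` -/
def lcf {Q : Type} [Mul Q] (p : ℕ → Q) (u : Q) : ℕ → Q
  | 0 => u
  | c + 1 => p c * lcf p u c * p c

/-- families of elements of `Q` satisfying the relations of the Thompson-like group with labels `G`;
the alphabet has `e+1` letters -/
structure Fam {G : Type} [Group G] {e : ℕ} (S : SS G (e + 1)) (Q : Type) [Group Q] where
  x : ℕ → Q
  p : ℕ → Q
  t : ℕ → Q
  l : G →* Q
  th : Equiv.Perm (Fin (e + 1)) →* Q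
  th_swap : ∀ c : Fin e, th (Equiv.swap c.castSucc c.succ) = p c
  A : ∀ i j, i < j → x j * x i = x i * x (j + e)
  B1 : ∀ i k, i < k → p k * x i = x i * p (k + e)
  B2 : ∀ i k, k + 1 < i → p k * x i = x i * p k
  B3 : ∀ i, p i * x i = x (i + 1) * pr p i (e + 1)
  C1 : ∀ i, p i * p i = 1
  C2 : ∀ i, p i * p (i + 1) * p i = p (i + 1) * p i * p (i + 1)
  C3 : ∀ i j, i + 1 < j → p i * p j = p j * p i
  T1 : ∀ M i, i + 1 < (M + 1) * e → t M * x i = x i * t (M + 1)
  T2 : ∀ M, t M * x ((M + 1) * e - 1) = pr p ((M + 1) * e - 1) e * t (M + 1)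
  T3 : ∀ M, t M * t M = 1
  T4 : ∀ M k, k + 2 < (M + 1) * e → p k * t M = t M * p k
  T5 : ∀ M, t M * p ((M + 1) * e - 2) * t M
      = p ((M + 1) * e - 2) * t M * p ((M + 1) * e - 2)
  L1 : ∀ i g, 1 ≤ i → l g * x i = x i * l g
  L2 : ∀ k g, 1 ≤ k → l g * p k = p k * l g
  L3 : ∀ M g, l g * t M = t M * l g
  L4 : ∀ g h, l g * (p 0 * l h * p 0) = (p 0 * l h * p 0) * l g
  L5 : ∀ g, l g * x 0 = x 0 * th (S.act g) *
      (List.ofFn (fun c : Fin (e + 1) => lcf p (l (S.sec g c)) c)).prod

end Pool.Agent.H665Simp
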