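import Pool.Agent.H665Simp.DefsA

set_option autoImplicit false

namespace Pool.Agent.H665Simp

namespace SSet

variable {G : Type} [Group G] {e : ℕ} {S : SS G (e + 1)} {W : Type}

/-- the cone of the letter `k` (used for `k ≤ e`) -/
def cn (Ws : SSet S W) (k : ℕ) (w : W) : W := Ws.cons (Fin.ofNat (e + 1) k, w)

/-- the cone of the word `e e ... e` (`N` letters) -/
def spine (Ws : SSet S W) (N : ℕ) (w : W) : W := (Ws.cn e)^[N] w

/-- the cone of the `k`-th leaf of the infinite right comb: `lam c = c` for `c < e`,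
`lam (k+e) = e (lam k)` -/
def lam (Ws : SSet S W) (k : ℕ) (w : W) : W := Ws.spine (k / e) (Ws.cn (k % e) w)

/-- the `k`-th leaf of the standard partition of level `M` into `(M+1)*e+1` cones -/
def leaf (Ws : SSet S W) (M k : ℕ) (w : W) : W :=
  if k < (M + 1) * e then Ws.lam k w else Ws.spine (M + 1) w

end SSet

/-- the concrete action of the families on a self-similar set -/
structure TabR {G : Type} [Group G] {e : ℕ} {S : SS G (e + 1)} {W : Type} (Ws : SSet S W)
    (x p t : ℕ → Equiv.Perm W) (l : G → Equiv.Perm W) : Prop where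
  x1 : ∀ i k w, k < i → x i (Ws.lam k w) = Ws.lam k w
  x2 : ∀ i c w, c ≤ e → x i (Ws.lam (i + c) w) = Ws.lam i (Ws.cn c w)
  x3 : ∀ i k w, i < k → x i (Ws.lam (k + e) w) = Ws.lam k w
  x4 : ∀ i M w, i < (M + 1) * e → x i (Ws.spine (M + 2) w) = Ws.spine (M + 1) w
  p1 : ∀ i w, p i (Ws.lam i w) = Ws.lam (i + 1) w
  p2 : ∀ i w, p i (Ws.lam (i + 1) w) = Ws.lam i w
  p3 : ∀ i k w, k ≠ i → k ≠ i + 1 → p i (Ws.lam k w) = Ws.lam k w
  p4 : ∀ i M w, i + 1 < (M + 1) * e → p i (Ws.spine (M + 1) w) = Ws.spine (M + 1) w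
  t1 : ∀ M w, t M (Ws.lam ((M + 1) * e - 1) w) = Ws.spine (M + 1) w
  t2 : ∀ M w, t M (Ws.spine (M + 1) w) = Ws.lam ((M + 1) * e - 1) w
  t3 : ∀ M k w, k + 1 < (M + 1) * e → t M (Ws.lam k w) = Ws.lam k w
  l1 : ∀ g w, l g (Ws.lam 0 w) = Ws.lam 0 (Ws.act g w)
  l2 : ∀ g k w, 1 ≤ k → l g (Ws.lam k w) = Ws.lam k w
  l3 : ∀ g M w, l g (Ws.spine (M + 1) w) = Ws.spine (M + 1) w

/-- the concrete action of the families on a self-similar set -/
def Tab {G : Type} [Group G] {e : ℕ} {S : SS G (e + 1)} {W : Type} (Ws : SSet S W)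
    (F : Fam S (Equiv.Perm W)) : Prop := TabR Ws F.x F.p F.t (fun g => F.l g)

/-- the `n`-th letter of the image of the sequence `w` under `g` -/
def SS.seqAct {G : Type} [Group G] {d : ℕ} (S : SS G d) : ℕ → G → (ℕ → Fin d) → Fin d
  | 0, g, w => S.act g (w 0)
  | n + 1, g, w => SS.seqAct S n (S.sec g (w 0)) (fun m => w (m + 1))

/-- a self-similar set on infinite words: `cons` and `act` are the obvious ones -/
def IsSeq {G : Type} [Group G] {d : ℕ} {S : SS G d} (Ws : SSet S (ℕ → Fin d)) : Prop :=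
  (∀ c w, Ws.cons (c, w) = fun n => Nat.casesOn n c (fun m => w m)) ∧
  ∀ g w n, Ws.act g w n = S.seqAct n g w

end Pool.Agent.H665Simp
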