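import Pool.Agent.H665Simp.DefsA

set_option autoImplicit false

namespace Pool.Agent.H665Simp

namespace Fam

variable {G : Type} [Group G] {e : ℕ} {S : SS G (e + 1)} {Q : Type} [Group Q]

/-- the adjacent transposition of the leaves `k` and `k+1` of the standard partition of level `M`
(which has `(M+1)*e+1` leaves) -/
def sg (F : Fam S Q) (M k : ℕ) : Q := if k + 1 < (M + 1) * e then F.p k else F.t M

/-- the expansion of the leaf `i` of level `M` (trivial for the last leaf) -/
def X (F : Fam S Q) (M i : ℕ) : Q := if i < (M + 1) * e then F.x i else 1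

/-- labelled permutations of the leaves of level `M` -/
def SN (F : Fam S Q) (M : ℕ) : Subgroup Q :=
  Subgroup.closure ({q | ∃ k, k < (M + 1) * e ∧ q = F.sg M k} ∪ Set.range F.l)

/-- products of expansions from level `M` to level `N` -/
inductive Chain (F : Fam S Q) : ℕ → ℕ → Q → Prop
  | nil (M : ℕ) : Chain F M M 1
  | cons (M N i : ℕ) (r : Q) : i ≤ (M + 1) * e → Chain F (M + 1) N r → Chain F M N (F.X M i * r)

/-- a homomorphism compatible with the families -/
structure Compat {Q' : Type} [Group Q'] (F : Fam S Q) (F' : Fam S Q') (α : Q →* Q') : Prop where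
  x : ∀ i, α (F.x i) = F'.x i
  p : ∀ i, α (F.p i) = F'.p i
  t : ∀ i, α (F.t i) = F'.t i
  l : ∀ g, α (F.l g) = F'.l g

/-- the families generate -/
def Gen (F : Fam S Q) : Prop :=
  Subgroup.closure (Set.range F.x ∪ Set.range F.p ∪ Set.range F.t ∪ Set.range F.l) = ⊤

/-- push-forward of the families under a homomorphism -/
def map {Q' : Type} [Group Q'] (F : Fam S Q) (f : Q →* Q') : Fam S Q' where
  x i := f (F.x i)
  p i := f (F.p i)
  t i := f (F.t i)
  l := f.comp F.l
  th := f.comp F.th
  th_swap c := by simp [F.th_swap]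
  A i j h := by rw [← map_mul, F.A i j h, map_mul]
  B1 i j h := by rw [← map_mul, F.B1 i j h, map_mul]
  B2 i j h := by rw [← map_mul, F.B2 i j h, map_mul]
  B3 i := by
    have h : ∀ (j n : ℕ), f (pr F.p j n) = pr (fun k => f (F.p k)) j n := by
      intro j n
      simp [pr, map_list_prod, Function.comp_def]
    rw [← h, ← map_mul, F.B3 i, map_mul]
  C1 i := by rw [← map_mul, F.C1, map_one]
  C2 i := by rw [← map_mul, ← map_mul, F.C2, map_mul, map_mul]
  C3 i j h := by rw [← map_mul, F.C3 i j h, map_mul]
  T1 i j h := by rw [← map_mul, F.T1 i j h, map_mul]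
  T2 M := by
    have h : ∀ (j n : ℕ), f (pr F.p j n) = pr (fun k => f (F.p k)) j n := by
      intro j n
      simp [pr, map_list_prod, Function.comp_def]
    rw [← h, ← map_mul, F.T2, map_mul]
  T3 i := by rw [← map_mul, F.T3, map_one]
  T4 i j h := by rw [← map_mul, F.T4 i j h, map_mul]
  T5 i := by rw [← map_mul, ← map_mul, F.T5, map_mul, map_mul]
  L1 i g h := by
    show f (F.l g) * f (F.x i) = f (F.x i) * f (F.l g)
    rw [← map_mul, F.L1 i g h, map_mul]
  L2 i g h := by
    show f (F.l g) * f (F.p i) = f (F.p i) * f (F.l g)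
    rw [← map_mul, F.L2 i g h, map_mul]
  L3 i g := by
    show f (F.l g) * f (F.t i) = f (F.t i) * f (F.l g)
    rw [← map_mul, F.L3 i g, map_mul]
  L4 g h := by
    show f (F.l g) * (f (F.p 0) * f (F.l h) * f (F.p 0))
      = f (F.p 0) * f (F.l h) * f (F.p 0) * f (F.l g)
    rw [← map_mul, ← map_mul, ← map_mul, F.L4 g h, map_mul]
  L5 g := by
    have h : ∀ (u : Q) (n : ℕ), f (lcf F.p u n) = lcf (fun k => f (F.p k)) (f u) n := by
      intro u n
      induction n with
      | zero => rfl
      | succ n ih => simp [lcf, ih]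
    show f (F.l g) * f (F.x 0) = f (F.x 0) * f (F.th (S.act g)) *
      (List.ofFn (fun c : Fin (e + 1) => lcf (fun k => f (F.p k)) (f (F.l (S.sec g c))) c)).prod
    rw [← map_mul, F.L5 g, map_mul, map_mul, map_list_prod, List.map_ofFn]
    congr 2
    congr 1
    funext c
    simp [h]

end Fam

end Pool.Agent.H665Simp
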