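import Pool.Agent.H665Simp.DefsA

set_option autoImplicit false

namespace Pool.Agent.H665Simp

/-- finitely many instances of the unlabelled relations, together with the shift relations -/
structure BaseV {Q : Type} [Group Q] (e : ℕ) (x p t : ℕ → Q) : Prop where
  sx : ∀ i, 1 ≤ i → x i * x 0 = x 0 * x (i + e)
  sp : ∀ i, 1 ≤ i → p i * x 0 = x 0 * p (i + e)
  st : ∀ M, t M * x 0 = x 0 * t (M + 1)
  A : ∀ i j, i < j → i ≤ e → j ≤ 2 * e + 4 → x j * x i = x i * x (j + e)
  B1 : ∀ i k, i < k → i ≤ e → k ≤ 2 * e + 4 → p k * x i = x i * p (k + e)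
  B2 : ∀ i k, k + 1 < i → k ≤ e → i ≤ 2 * e + 4 → p k * x i = x i * p k
  B3 : ∀ i, i ≤ e → p i * x i = x (i + 1) * pr p i (e + 1)
  C1 : ∀ i, i ≤ e → p i * p i = 1
  C2 : ∀ i, i ≤ e → p i * p (i + 1) * p i = p (i + 1) * p i * p (i + 1)
  C3 : ∀ i j, i + 1 < j → i ≤ e → j ≤ 2 * e + 4 → p i * p j = p j * p i
  T1 : ∀ M i, i + 1 < (M + 1) * e → i ≤ e → M ≤ 3 → t M * x i = x i * t (M + 1)
  T2 : t 0 * x (e - 1) = pr p (e - 1) e * t 1
  T3 : t 0 * t 0 = 1
  T4 : ∀ M k, k + 2 < (M + 1) * e → k ≤ e → M ≤ 3 → p k * t M = t M * p k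
  T5 : t 0 * p (e - 2) * t 0 = p (e - 2) * t 0 * p (e - 2)

/-- a word in the adjacent transpositions for the permutation `ρ` -/
theorem exists_permWord {e : ℕ} (ρ : Equiv.Perm (Fin (e + 1))) :
    ∃ l : List (Fin e), ρ = (l.map (fun c : Fin e => Equiv.swap c.castSucc c.succ)).prod := by
  have h : ρ ∈ Submonoid.closure
      (Set.range fun c : Fin e => Equiv.swap c.castSucc c.succ) := by
    rw [Equiv.Perm.mclosure_swap_castSucc_succ]; trivial
  induction h using Submonoid.closure_induction with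
  | mem x hx =>
    obtain ⟨c, rfl⟩ := hx
    exact ⟨[c], by simp⟩
  | one => exact ⟨[], by simp⟩
  | mul a b _ _ ha hb =>
    obtain ⟨l, rfl⟩ := ha
    obtain ⟨l', rfl⟩ := hb
    exact ⟨l ++ l', by simp⟩

noncomputable def permWord {e : ℕ} (ρ : Equiv.Perm (Fin (e + 1))) : List (Fin e) :=
  Classical.choose (exists_permWord ρ)

theorem permWord_spec {e : ℕ} (ρ : Equiv.Perm (Fin (e + 1))) :
    ρ = ((permWord ρ).map (fun c : Fin e => Equiv.swap c.castSucc c.succ)).prod :=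
  Classical.choose_spec (exists_permWord ρ)

/-- data presenting a group of labels with generators `Sg`, with a self-similar action depending on
a number: the words `sec s c` use the extra letter `none`, to be interpreted as a power of `pt` -/
structure LD (Sg : Type) (e : ℕ) where
  rel : Set (FreeGroup Sg)
  rel_fin : rel.Finite
  act : Sg → Equiv.Perm (Fin (e + 1))
  sec : Sg → Fin (e + 1) → FreeGroup (Option Sg)
  pt : Sg

/-- evaluation of words in `Option Sg` -/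
def evO {Q Sg : Type} [Group Q] (y : Q) (l : Sg → Q) : FreeGroup (Option Sg) →* Q :=
  FreeGroup.lift (fun o : Option Sg => o.elim y l)

/-- the label group -/
abbrev LD.Gp {Sg : Type} {e : ℕ} (D : LD Sg e) : Type := PresentedGroup D.rel

/-- `S` is the self-similar action given by the data `D` and the number `w` -/
def LD.IsSS {Sg : Type} {e : ℕ} (D : LD Sg e) (w : ℕ) (S : SS D.Gp (e + 1)) : Prop :=
  (∀ s, S.act (PresentedGroup.of s) = D.act s) ∧
  ∀ s c, S.sec (PresentedGroup.of s) c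
    = evO ((PresentedGroup.of D.pt : D.Gp) ^ w) (fun r => (PresentedGroup.of r : D.Gp)) (D.sec s c)

/-- the finitely many labelled relations -/
structure BaseL {Sg : Type} {e : ℕ} (D : LD Sg e) {Q : Type} [Group Q] (x p t : ℕ → Q)
    (l : Sg → Q) (y : Q) : Prop where
  R : ∀ r ∈ D.rel, FreeGroup.lift l r = 1
  L1 : ∀ i s, 1 ≤ i → i ≤ e + 1 → l s * x i = x i * l s
  L2 : ∀ k s, 1 ≤ k → k ≤ e + 1 → l s * p k = p k * l s
  L3 : ∀ s, l s * t 0 = t 0 * l s
  L4 : ∀ s s', l s * (p 0 * l s' * p 0) = (p 0 * l s' * p 0) * l s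
  L5 : ∀ s, l s * x 0 = x 0 * ((permWord (D.act s)).map (fun c : Fin e => p c)).prod *
      (List.ofFn (fun c : Fin (e + 1) => lcf p (evO y l (D.sec s c)) c)).prod

/-- generators of the finitely presented group -/
inductive Gn (Sg : Type) (e : ℕ) : Type
  | x (c : Fin (e + 1)) | p (c : Fin (e + 1)) | t | g (s : Sg) | y

/-- the family obtained from finitely many elements by conjugation by `a` -/
def shf {Q : Type} [Group Q] (e : ℕ) (a : Q) (b : ℕ → Q) (i : ℕ) : Q :=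
  if i = 0 then b 0 else a⁻¹ ^ ((i - 1) / e) * b (1 + (i - 1) % e) * a ^ ((i - 1) / e)

def fx {Sg : Type} {e : ℕ} {Q : Type} [Group Q] (φ : Gn Sg e → Q) : ℕ → Q :=
  shf e (φ (Gn.x 0)) (fun c => φ (Gn.x (Fin.ofNat (e + 1) c)))

def fp {Sg : Type} {e : ℕ} {Q : Type} [Group Q] (φ : Gn Sg e → Q) : ℕ → Q :=
  shf e (φ (Gn.x 0)) (fun c => φ (Gn.p (Fin.ofNat (e + 1) c)))

def ft {Sg : Type} {e : ℕ} {Q : Type} [Group Q] (φ : Gn Sg e → Q) (M : ℕ) : Q :=
  (φ (Gn.x 0))⁻¹ ^ M * φ Gn.t * (φ (Gn.x 0)) ^ M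

/-- all the finitely many relations (except the one for `y`) for an assignment `φ` -/
def BaseAll {Sg : Type} {e : ℕ} (D : LD Sg e) {Q : Type} [Group Q] (φ : Gn Sg e → Q) : Prop :=
  BaseV e (fx φ) (fp φ) (ft φ) ∧
    BaseL D (fx φ) (fp φ) (ft φ) (fun s => φ (Gn.g s)) (φ Gn.y)

end Pool.Agent.H665Simp
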