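import Pool.Agent.H665Simp.DefsD

set_option autoImplicit false

namespace Pool.Agent.H665Simp

/-- counter machines on integer counters whose steps are affine on residue classes modulo `B` -/
structure Mach (nJ nQ B : ℕ) where
  nxt : Fin nQ → (Fin nJ → Fin B) → Option (Fin nQ)
  al : Fin nQ → (Fin nJ → Fin B) → Fin nJ → ℤ
  be : Fin nQ → (Fin nJ → Fin B) → Fin nJ → ℤ
  ga : Fin nQ → (Fin nJ → Fin B) → ℤ
  pt : Fin nJ

/-- residues -/
def resd (B : ℕ) [NeZero B] {nJ : ℕ} (v : Fin nJ → ℤ) : Fin nJ → Fin B :=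
  fun j => Fin.ofNat B (v j % B).toNat

/-- one step of the machine; `w` is the parameter -/
def Mach.stp {nJ nQ B : ℕ} [NeZero B] (m : Mach nJ nQ B) (w : ℤ) (c : Fin nQ × (Fin nJ → ℤ)) :
    Option (Fin nQ × (Fin nJ → ℤ)) :=
  (m.nxt c.1 (resd B c.2)).map (fun q' => (q', fun j =>
    m.al c.1 (resd B c.2) j * (c.2 j / B) + m.be c.1 (resd B c.2) j +
      if j = m.pt then m.ga c.1 (resd B c.2) * w else 0))

/-- halting of a partial function iteration -/
inductive HaltsF {C : Type} (f : C → Option C) : C → Prop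
  | halt (c : C) : f c = none → HaltsF f c
  | step (c c' : C) : f c = some c' → HaltsF f c' → HaltsF f c

/-- generators of the label group -/
inductive Lg (nJ nQ : ℕ) : Type
  | x (j : Fin nJ) | a | u (i : Fin nQ) | s (k : Bool) | t (k : Bool)
  deriving DecidableEq

namespace Lg
variable {nJ nQ : ℕ}

instance : Finite (Lg nJ nQ) := by
  have : Function.Injective (fun g : Lg nJ nQ => (match g with
      | x j => Sum.inl (Sum.inl j)
      | a => Sum.inr (Sum.inl ())
      | u i => Sum.inl (Sum.inr i)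
      | s k => Sum.inr (Sum.inr (k, true))
      | t k => Sum.inr (Sum.inr (k, false)) : (Fin nJ ⊕ Fin nQ) ⊕ (Unit ⊕ (Bool × Bool)))) := by
    intro g h hgh
    cases g <;> cases h <;> simp_all
  exact Finite.of_injective _ this

/-- index of the matrix -/
def idx : Lg nJ nQ → ℕ
  | x j => j
  | a => nJ
  | u i => nJ + i
  | s _ => 0
  | t _ => 0

def isA : Lg nJ nQ → Bool
  | x _ => true
  | a => true
  | _ => false

def isU : Lg nJ nQ → Bool
  | x _ => true
  | u _ => true
  | _ => false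

/-- which of the three special letters is used -/
def zt : Lg nJ nQ → Option (Fin 3)
  | x _ => some 0
  | a => some 1
  | u _ => some 2
  | _ => none

end Lg

/-- base constants -/
def cst (k : ℕ) : ℕ := 3 * (k + 1)

/-- the matrix of index `k` -/
def mA (k : ℕ) (z : ℤ × ℤ) : ℤ × ℤ :=
  ((cst k : ℤ) * z.1 + ((cst k : ℤ) ^ 2 - 1) * z.2, z.1 + (cst k : ℤ) * z.2)

def b2i (b : Bool) : ℤ := if b then 1 else 0

/-- quotient by two of the image of a vector of bits -/
def quotM (k : ℕ) (r : Bool × Bool) : ℤ × ℤ :=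
  ((mA k (b2i r.1, b2i r.2)).1 / 2, (mA k (b2i r.1, b2i r.2)).2 / 2)

/-- reduction modulo 2 of the matrix of index `k` -/
def mperm (k : ℕ) : Equiv.Perm (Bool × Bool) :=
  if cst k % 2 = 0 then ⟨fun r => (r.2, r.1), fun r => (r.2, r.1), fun _ => rfl, fun _ => rfl⟩
  else ⟨fun r => (r.1, xor r.1 r.2), fun r => (r.1, xor r.1 r.2),
    fun r => by rcases r with ⟨_ | _, _ | _⟩ <;> rfl, fun r => by rcases r with ⟨_ | _, _ | _⟩ <;> rfl⟩

/-- reduction modulo 2 of the translations -/
def tperm (k : Bool) : Equiv.Perm (Bool × Bool) :=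
  if k then ⟨fun r => (r.1, !r.2), fun r => (r.1, !r.2), fun r => by simp, fun r => by simp⟩
  else ⟨fun r => (!r.1, r.2), fun r => (!r.1, r.2), fun r => by simp, fun r => by simp⟩

/-- coordinate of a pair -/
def crd (k : Bool) (r : Bool × Bool) : Bool := if k then r.2 else r.1

/-- product of powers of two elements -/
def svec {Q : Type} [Group Q] (s : Bool → Q) (v : ℤ × ℤ) : Q := s false ^ v.1 * s true ^ v.2

/-- relators of the label group -/
def relG (nJ nQ : ℕ) : Set (FreeGroup (Lg nJ nQ)) :=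
  {r | r = FreeGroup.of (Lg.s false) * FreeGroup.of (Lg.s true) *
        (FreeGroup.of (Lg.s true) * FreeGroup.of (Lg.s false))⁻¹ ∨
      r = FreeGroup.of (Lg.t false) * FreeGroup.of (Lg.t true) *
        (FreeGroup.of (Lg.t true) * FreeGroup.of (Lg.t false))⁻¹ ∨
      (∃ (g : Lg nJ nQ) (k : Bool), g.isA = true ∧
        r = FreeGroup.of g * FreeGroup.of (Lg.s k) *
          (svec (fun k => FreeGroup.of (Lg.s k)) (mA g.idx (b2i (!k), b2i k)) *
            FreeGroup.of g)⁻¹) ∨
      (∃ (g : Lg nJ nQ) (k : Bool), g.isU = true ∧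
        r = FreeGroup.of g * FreeGroup.of (Lg.t k) *
          (svec (fun k => FreeGroup.of (Lg.t k)) (mA g.idx (b2i (!k), b2i k)) *
            FreeGroup.of g)⁻¹)}

/-- the ordinary letters: simulation letters and two readers -/
abbrev Bs (nJ nQ B : ℕ) : Type :=
  (Fin nQ × (Fin nJ → Fin B) × (Fin nJ → Fin B)) ⊕ ((Bool × Bool) ⊕ (Bool × Bool))

/-- all the letters -/
abbrev Lt (nJ nQ B : ℕ) : Type := Bool × (Bs nJ nQ B ⊕ Fin 3)

section
variable {nJ nQ B : ℕ} [NeZero B]

/-- action on ordinary letters -/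
def actB : Lg nJ nQ → Equiv.Perm (Bs nJ nQ B)
  | .x j => Equiv.sumCongr
      (Equiv.prodCongr (Equiv.refl _) (Equiv.prodCongr (Equiv.refl _)
        (Equiv.addRight (Pi.single j 1))))
      (Equiv.sumCongr (mperm j) (mperm j))
  | .a => Equiv.sumCongr (Equiv.refl _) (Equiv.sumCongr (mperm nJ) (Equiv.refl _))
  | .u i => Equiv.sumCongr (Equiv.refl _) (Equiv.sumCongr (Equiv.refl _) (mperm (nJ + i)))
  | .s k => Equiv.sumCongr (Equiv.refl _) (Equiv.sumCongr (tperm k) (Equiv.refl _))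
  | .t k => Equiv.sumCongr (Equiv.refl _) (Equiv.sumCongr (Equiv.refl _) (tperm k))

/-- one-letter words -/
def wd (g : Lg nJ nQ) : FreeGroup (Option (Lg nJ nQ)) := FreeGroup.of (some g)

/-- the conjugator of the active section -/
def vW (m : Mach nJ nQ B) (i : Fin nQ) (ρ : Fin nJ → Fin B) : FreeGroup (Option (Lg nJ nQ)) :=
  (List.ofFn (fun j : Fin nJ => wd (Lg.x j) ^ m.be i ρ j)).prod * FreeGroup.of none ^ m.ga i ρ

/-- the active section -/
def uW (m : Mach nJ nQ B) (i : Fin nQ) (ρ : Fin nJ → Fin B) : FreeGroup (Option (Lg nJ nQ)) :=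
  match m.nxt i ρ with
  | none => 1
  | some i' => (vW m i ρ)⁻¹ * wd (Lg.u i') * vW m i ρ

/-- sections at ordinary letters -/
def secB (m : Mach nJ nQ B) : Lg nJ nQ → Bs nJ nQ B → FreeGroup (Option (Lg nJ nQ))
  | .x j, .inl (i, ρ, c) => if (c j : ℕ) + 1 = B then wd (.x j) ^ m.al i ρ j else 1
  | .x j, .inr (.inl r) => svec (fun k => wd (.s k)) (quotM j r) * wd (.x j)
  | .x j, .inr (.inr r) => svec (fun k => wd (.t k)) (quotM j r) * wd (.x j)
  | .a, .inl (_, _, c) => if c = 0 then wd .a else 1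
  | .a, .inr (.inl r) => svec (fun k => wd (.s k)) (quotM nJ r) * wd .a
  | .a, .inr (.inr _) => 1
  | .u i', .inl (i, ρ, c) => if i' = i ∧ c = ρ then uW m i ρ else 1
  | .u _, .inr (.inl _) => 1
  | .u i, .inr (.inr r) => svec (fun k => wd (.t k)) (quotM (nJ + i) r) * wd (.u i)
  | .s _, .inl _ => 1
  | .s k, .inr (.inl r) => if crd k r = true then wd (.s k) else 1
  | .s _, .inr (.inr _) => 1
  | .t _, .inl _ => 1
  | .t _, .inr (.inl _) => 1
  | .t k, .inr (.inr r) => if crd k r = true then wd (.t k) else 1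

/-- the section killing the abelianized section sum -/
noncomputable def wz (m : Mach nJ nQ B) (g : Lg nJ nQ) : FreeGroup (Option (Lg nJ nQ)) :=
  (((Finset.univ : Finset (Bs nJ nQ B)).toList.map (secB m g)).prod)⁻¹ * wd g ^ 2

/-- action on all letters -/
def actL (g : Lg nJ nQ) : Equiv.Perm (Lt nJ nQ B) :=
  Equiv.Perm.prodExtendRight false (Equiv.sumCongr (actB g) (Equiv.refl _))

/-- sections at all letters -/
noncomputable def secL (m : Mach nJ nQ B) (g : Lg nJ nQ) :
    Lt nJ nQ B → FreeGroup (Option (Lg nJ nQ))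
  | (false, .inl b) => secB m g b
  | (false, .inr z) => if g.zt = some z then wz m g else 1
  | (true, _) => 1

/-- the label data -/
noncomputable def DG (m : Mach nJ nQ B) (e : ℕ) (q : Lt nJ nQ B ≃ Fin (e + 1)) :
    LD (Lg nJ nQ) e where
  rel := relG nJ nQ
  rel_fin := by
    have hf : (Set.range (fun p : Lg nJ nQ × Bool × Bool =>
        FreeGroup.of p.1 * FreeGroup.of (if p.2.2 then Lg.s p.2.1 else Lg.t p.2.1) *
          (svec (fun k => FreeGroup.of (if p.2.2 then Lg.s k else Lg.t k))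
            (mA p.1.idx (b2i (!p.2.1), b2i p.2.1)) * FreeGroup.of p.1)⁻¹)).Finite :=
      Set.finite_range _
    refine ((Set.finite_singleton (FreeGroup.of (Lg.s false) * FreeGroup.of (Lg.s true) *
        (FreeGroup.of (Lg.s true) * FreeGroup.of (Lg.s false))⁻¹)).union
      ((Set.finite_singleton (FreeGroup.of (Lg.t false) * FreeGroup.of (Lg.t true) *
        (FreeGroup.of (Lg.t true) * FreeGroup.of (Lg.t false))⁻¹)).union hf)).subset ?_
    rintro r (rfl | rfl | ⟨g, k, -, rfl⟩ | ⟨g, k, -, rfl⟩)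
    · exact Or.inl rfl
    · exact Or.inr (Or.inl rfl)
    · exact Or.inr (Or.inr ⟨(g, k, true), rfl⟩)
    · exact Or.inr (Or.inr ⟨(g, k, false), rfl⟩)
  act g := q.symm.trans ((actL g).trans q)
  sec g c := secL m g (q.symm c)
  pt := Lg.x m.pt

end

/-- the label group -/
abbrev GG (nJ nQ : ℕ) : Type := PresentedGroup (relG nJ nQ)

/-- generators of the label group -/
abbrev gg {nJ nQ : ℕ} (g : Lg nJ nQ) : GG nJ nQ := PresentedGroup.of g

/-- evaluation of section words -/
def evG {nJ nQ B : ℕ} (m : Mach nJ nQ B) (w : ℕ) : FreeGroup (Option (Lg nJ nQ)) →* GG nJ nQ :=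
  evO (gg (Lg.x m.pt) ^ w) (fun r => gg r)

/-- commutator -/
def cm {Q : Type} [Group Q] (a b : Q) : Q := a * b * a⁻¹ * b⁻¹

/-- the subgroup of the label group generated by the `x j` -/
def XX (nJ nQ : ℕ) : Subgroup (GG nJ nQ) :=
  Subgroup.closure (Set.range (fun j : Fin nJ => (gg (Lg.x j) : GG nJ nQ)))

/-- permutational wreath product -/
@[ext] structure Wr (A G : Type) where
  f : A → G
  σ : Equiv.Perm A

namespace Wr
variable {A G : Type} [Group G]

instance : Mul (Wr A G) := ⟨fun a b => ⟨fun c => a.f (b.σ c) * b.f c, a.σ * b.σ⟩⟩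
instance : One (Wr A G) := ⟨⟨fun _ => 1, 1⟩⟩
instance : Inv (Wr A G) := ⟨fun a => ⟨fun c => (a.f (a.σ⁻¹ c))⁻¹, a.σ⁻¹⟩⟩

@[simp] theorem mul_f (a b : Wr A G) (c : A) : (a * b).f c = a.f (b.σ c) * b.f c := rfl
@[simp] theorem mul_σ (a b : Wr A G) : (a * b).σ = a.σ * b.σ := rfl
@[simp] theorem one_f (c : A) : (1 : Wr A G).f c = 1 := rfl
@[simp] theorem one_σ : (1 : Wr A G).σ = 1 := rfl
@[simp] theorem inv_f (a : Wr A G) (c : A) : a⁻¹.f c = (a.f (a.σ⁻¹ c))⁻¹ := rfl
@[simp] theorem inv_σ (a : Wr A G) : a⁻¹.σ = a.σ⁻¹ := rfl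

instance : Group (Wr A G) where
  mul_assoc a b c := by
    ext
    · simp [mul_assoc]
    · simp [mul_assoc]
  one_mul a := by ext <;> simp
  mul_one a := by ext <;> simp
  inv_mul_cancel a := by
    ext
    · simp
    · simp

end Wr

/-- `SL` is the wreath recursion of the label group -/
def IsSL {nJ nQ B : ℕ} [NeZero B] (m : Mach nJ nQ B) (w : ℕ)
    (SL : GG nJ nQ →* Wr (Lt nJ nQ B) (GG nJ nQ)) : Prop :=
  ∀ g : Lg nJ nQ, (SL (gg g)).σ = actL g ∧ ∀ c, (SL (gg g)).f c = evG m w (secL m g c)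

end Pool.Agent.H665Simp
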