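import Pool.Agent.H665Simp.DefsG

set_option autoImplicit false

namespace Pool.Agent.H665Simp

/-- A counter machine whose steps are affine on residue classes: in state `q` with counters `n`,
all residues modulo `B` being given by `r`, the next state is `nxt q r` (`none`: stop) and the
counter `n j` becomes `a q r j * (n j / B) + b q r j`. The number `l` bounds all `a`, `b`. -/
structure Sys (Q J : Type) where
  B : ℕ
  hB : 0 < B
  l : ℕ
  nxt : Q → (J → Fin B) → Option Q
  a : Q → (J → Fin B) → J → ℕ
  b : Q → (J → Fin B) → J → ℕ
  ha : ∀ q r j, a q r j ≤ l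
  hb : ∀ q r j, b q r j ≤ l

namespace Sys

variable {Q J : Type} (M : Sys Q J)

/-- residues of the counters -/
def res (n : J → ℕ) : J → Fin M.B := fun j => ⟨n j % M.B, Nat.mod_lt _ M.hB⟩

/-- new counters -/
def nn (q : Q) (n : J → ℕ) : J → ℕ :=
  fun j => M.a q (M.res n) j * (n j / M.B) + M.b q (M.res n) j

/-- the machine stops from the configuration -/
inductive Halts : Option Q → (J → ℕ) → Prop
  | stop (n : J → ℕ) : Halts none n
  | step (q : Q) (n : J → ℕ) : Halts (M.nxt q (M.res n)) (M.nn q n) → Halts (some q) n

/-- residue of an integer -/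
def red (z : ℤ) : Fin M.B := ⟨(z % M.B).toNat, by
  have h := M.hB
  have h1 := Int.emod_nonneg z (b := (M.B : ℤ)) (by omega)
  have h2 := Int.emod_lt_of_pos z (b := (M.B : ℤ)) (by omega)
  omega⟩

theorem red_val (z : ℤ) : ((M.red z : ℕ) : ℤ) = z % M.B := by
  have h := M.hB
  have h1 := Int.emod_nonneg z (b := (M.B : ℤ)) (by omega)
  simp [red, h1]

theorem red_eq (z : ℤ) (i : Fin M.B) (h : z % M.B = i) : M.red z = i := by
  apply Fin.ext
  have := M.red_val z
  omega

end Sys

/-- counters of the wrapped machine: `a`, `b` counters of the simulated machine, `X` stored input,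
`Y` temporary, `f` fuel, `g` used fuel -/
structure C6 where
  a : ℤ
  b : ℤ
  X : ℤ
  Y : ℤ
  f : ℤ
  g : ℤ

/-- states of the wrapped machine -/
inductive WS (Q : Type) : Type
  | sim (q : Q) | rew | ini | cp1 | cp2

/-- the wrapped machine: it restarts the simulated machine with more and more fuel -/
def wstp {Q : Type} (M : Sys Q Bool) (q0 : Q) (kc k1 k0 w : ℤ) :
    WS Q × C6 → Option (WS Q × C6)
  | (.sim q, c) =>
    if c.f % M.B = 1 then
      (M.nxt q (fun j => M.red (if j then c.b else c.a))).map (fun q' => (.sim q',
        { c with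
          a := M.a q (fun j => M.red (if j then c.b else c.a)) false * (c.a / M.B) +
            M.b q (fun j => M.red (if j then c.b else c.a)) false
          b := M.a q (fun j => M.red (if j then c.b else c.a)) true * (c.b / M.B) +
            M.b q (fun j => M.red (if j then c.b else c.a)) true
          f := c.f / M.B
          g := M.B * c.g + 1 }))
    else some (.rew, c)
  | (.rew, c) =>
    if c.g % M.B = 1 then some (.rew, { c with f := M.B * c.f + 1, g := c.g / M.B })
    else some (.ini, { c with f := M.B * c.f + 1 })
  | (.ini, c) => some (.cp1, { c with a := 0, b := w })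
  | (.cp1, c) =>
    if c.X % M.B = 1 then
      some (.cp1, { c with b := M.B * c.b + k0, X := c.X / M.B, Y := M.B * c.Y + 1 })
    else if c.X % M.B = 2 then
      some (.cp1, { c with b := M.B * c.b + k1, X := c.X / M.B, Y := M.B * c.Y + 2 })
    else some (.cp2, c)
  | (.cp2, c) =>
    if c.Y % M.B = 1 then some (.cp2, { c with X := M.B * c.X + 1, Y := c.Y / M.B })
    else if c.Y % M.B = 2 then some (.cp2, { c with X := M.B * c.X + 2, Y := c.Y / M.B })
    else some (.sim q0, { c with b := M.B * (M.B * c.b + k1) + kc })

/-- the counters of the simulated machine on the input coded by the list of bits `l` -/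
def start (B kc k1 k0 w : ℕ) (l : List Bool) : Bool → ℕ := fun j =>
  if j then kc + B * (k1 + B * (l.foldl (fun v b => B * v + (if b then k1 else k0)) w)) else 0

/-- the number whose binary digits, least significant first, are `l` followed by `1` -/
def bval (l : List Bool) : ℕ := l.foldr (fun b acc => (if b then 1 else 0) + 2 * acc) 1

/-- `n`-step reachability -/
inductive Rn {C : Type} (f : C → Option C) : ℕ → C → C → Prop
  | zero (c : C) : Rn f 0 c c
  | succ (n : ℕ) (c c' c'' : C) : f c = some c' → Rn f n c' c'' → Rn f (n + 1) c c''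

/-- `k` ones followed by `v` -/
def app1 (B : ℤ) (k : ℕ) (v : ℤ) : ℤ := (fun v => B * v + 1)^[k] v

/-- digits `1` or `2` coding the bits of `l`, followed by `v` -/
def appl (B : ℤ) (l : List Bool) (v : ℤ) : ℤ := l.foldr (fun b v => B * v + (if b then 2 else 1)) v

end Pool.Agent.H665Simp
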