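import Mathlib

set_option autoImplicit false

/-! Adapted from the library of helper740 (Words.lean, Comp.lean). -/

namespace Pool.Agent.H665Simp

/-- words in the letters `(i, true)` (the generator `i`) and `(i, false)` (its inverse) -/
abbrev Wd := List (ℕ × Bool)

/-- inverse word -/
def inv (w : Wd) : Wd := (w.map fun l => (l.1, !l.2)).reverse

section general

variable {α β γ σ : Type*} [Primcodable α] [Primcodable β] [Primcodable γ] [Primcodable σ]

lemma pp_forall {f : α → List β} {P : α → β → Prop} (hf : Primrec f)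
    (hP : PrimrecPred fun p : α × β => P p.1 p.2) : PrimrecPred fun a => ∀ b ∈ f a, P a b := by
  have h1 : PrimrecRel fun (b : β) (a : α) => P a b :=
    PrimrecPred.comp hP (Primrec.pair Primrec.snd Primrec.fst)
  exact h1.forall_mem_list.comp hf Primrec.id

lemma pp_exists {f : α → List β} {P : α → β → Prop} (hf : Primrec f)
    (hP : PrimrecPred fun p : α × β => P p.1 p.2) : PrimrecPred fun a => ∃ b ∈ f a, P a b := by
  have h1 : PrimrecRel fun (b : β) (a : α) => P a b :=
    PrimrecPred.comp hP (Primrec.pair Primrec.snd Primrec.fst)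
  exact h1.exists_mem_list.comp hf Primrec.id

lemma pp_imp {P Q : α → Prop} (hP : PrimrecPred P) (hQ : PrimrecPred Q) :
    PrimrecPred fun a => (P a → Q a) := by
  classical
  refine (hP.not.or hQ).of_eq fun a => ?_
  tauto

end general

/-- flip a letter -/
def fl (l : ℕ × Bool) : ℕ × Bool := (l.1, !l.2)

lemma pr_fl : Primrec fl := Primrec.fst.pair (Primrec.not.comp Primrec.snd)

lemma pr_inv : Primrec inv := by
  have h1 : Primrec fun w : Wd => w.map fl := Primrec.list_map Primrec.id (pr_fl.comp Primrec.snd)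
  exact Primrec.list_reverse.comp h1

/-- keep the letters with index below `n` -/
def filt (n : ℕ) (w : Wd) : Wd := w.filter fun l => l.1 < n

lemma pr_filt : Primrec₂ filt := by
  have h1 : PrimrecRel fun (l : ℕ × Bool) (n : ℕ) => l.1 < n :=
    Primrec.nat_lt.comp (Primrec.fst.comp Primrec.fst) Primrec.snd
  exact h1.listFilter.comp Primrec.snd Primrec.fst

lemma pr_reduce : Primrec (FreeGroup.reduce : Wd → Wd) := by
  have h1 : Primrec fun w : Wd => w.foldr (fun (l : ℕ × Bool) (acc : Wd) =>
      (List.casesOn acc [l] fun hd tl => if l = fl hd then tl else l :: hd :: tl : Wd)) [] := by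
    refine Primrec.list_foldr (α := Wd) (β := ℕ × Bool) (σ := Wd) (f := fun w => w)
      (g := fun _ => [])
      (h := fun _ p => (List.casesOn p.2 [p.1] fun hd tl =>
        if p.1 = fl hd then tl else p.1 :: hd :: tl : Wd)) Primrec.id (Primrec.const []) ?_
    have hacc : Primrec fun q : Wd × ((ℕ × Bool) × Wd) => q.2.2 := Primrec.snd.comp Primrec.snd
    have hl : Primrec fun q : Wd × ((ℕ × Bool) × Wd) => q.2.1 := Primrec.fst.comp Primrec.snd
    refine Primrec.list_casesOn (α := Wd × ((ℕ × Bool) × Wd)) (β := ℕ × Bool) (σ := Wd)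
      (f := fun q => q.2.2) (g := fun q => [q.2.1])
      (h := fun q r => if q.2.1 = fl r.1 then r.2 else q.2.1 :: r.1 :: r.2) hacc
      (Primrec.list_cons.comp hl (Primrec.const [])) ?_
    have hl' : Primrec fun q : (Wd × ((ℕ × Bool) × Wd)) × ((ℕ × Bool) × Wd) => q.1.2.1 :=
      hl.comp Primrec.fst
    have hhd : Primrec fun q : (Wd × ((ℕ × Bool) × Wd)) × ((ℕ × Bool) × Wd) => q.2.1 :=
      Primrec.fst.comp Primrec.snd
    have htl : Primrec fun q : (Wd × ((ℕ × Bool) × Wd)) × ((ℕ × Bool) × Wd) => q.2.2 :=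
      Primrec.snd.comp Primrec.snd
    exact Primrec.ite (Primrec.eq.comp hl' (pr_fl.comp hhd)) htl
      (Primrec.list_cons.comp hl' (Primrec.list_cons.comp hhd htl))
  refine h1.of_eq fun w => ?_
  induction w with
  | nil => rfl
  | cons l w ih =>
    rw [FreeGroup.reduce.cons, List.foldr_cons, ih]
    cases FreeGroup.reduce w with
    | nil => rfl
    | cons hd tl =>
      have e : (l = fl hd) ↔ (l.1 = hd.1 ∧ l.2 = !hd.2) := by
        unfold fl
        rw [Prod.ext_iff]
      simp only [e]

/-- a derivation: a list of conjugates of relators -/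
abbrev Der := List (Wd × Wd × Bool)

/-- the product word of a derivation -/
def flat (d : Der) : Wd :=
  d.flatMap fun t => t.1 ++ ((if t.2.2 = true then t.2.1 else inv t.2.1) ++ inv t.1)

lemma pr_flat : Primrec flat := by
  refine Primrec.list_flatMap Primrec.id ?_
  have h1 : Primrec fun q : Der × (Wd × Wd × Bool) => q.2.1 := Primrec.fst.comp Primrec.snd
  have h2 : Primrec fun q : Der × (Wd × Wd × Bool) => q.2.2.1 :=
    Primrec.fst.comp (Primrec.snd.comp Primrec.snd)
  have h3 : Primrec fun q : Der × (Wd × Wd × Bool) => q.2.2.2 :=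
    Primrec.snd.comp (Primrec.snd.comp Primrec.snd)
  have h4 : Primrec fun q : Der × (Wd × Wd × Bool) =>
      if q.2.2.2 = true then q.2.2.1 else inv q.2.2.1 :=
    Primrec.ite (Primrec.eq.comp h3 (Primrec.const true)) h2 (pr_inv.comp h2)
  exact Primrec.list_append.comp h1 (Primrec.list_append.comp h4 (pr_inv.comp h1))

/-- `d` is a derivation of `v` from `R` in the free group on `n` letters -/
def IsDer (n : ℕ) (R : List Wd) (v : Wd) (d : Der) : Prop :=
  (∀ t ∈ d, ∃ r ∈ R, t.2.1 = r) ∧ FreeGroup.reduce (filt n v) = FreeGroup.reduce (filt n (flat d))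

lemma pp_isDer : PrimrecPred fun p : (ℕ × List Wd) × Wd × Der =>
    IsDer p.1.1 p.1.2 p.2.1 p.2.2 := by
  refine PrimrecPred.and ?_ ?_
  · refine pp_forall (Primrec.snd.comp Primrec.snd) ?_
    refine pp_exists (Primrec.snd.comp (Primrec.fst.comp Primrec.fst)) ?_
    exact Primrec.eq.comp (Primrec.fst.comp (Primrec.snd.comp (Primrec.snd.comp Primrec.fst)))
      Primrec.snd
  · have hn : Primrec fun p : (ℕ × List Wd) × Wd × Der => p.1.1 := Primrec.fst.comp Primrec.fst
    have hv : Primrec fun p : (ℕ × List Wd) × Wd × Der => p.2.1 := Primrec.fst.comp Primrec.snd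
    have hd : Primrec fun p : (ℕ × List Wd) × Wd × Der => p.2.2 := Primrec.snd.comp Primrec.snd
    exact Primrec.eq.comp (pr_reduce.comp (pr_filt.comp hn hv))
      (pr_reduce.comp (pr_filt.comp hn (pr_flat.comp hd)))

/-- the relators of the target statement -/
def relsN (K : ℕ) (L : List Wd) : Set (FreeGroup ℕ) :=
  {r : FreeGroup ℕ | ∃ i : ℕ, K ≤ i ∧ r = FreeGroup.of i} ∪
    {r : FreeGroup ℕ | ∃ w ∈ L, r = FreeGroup.mk w}

end Pool.Agent.H665Simp
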