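import Mathlib
import Pool.Agent.H665Simp.DefsA

set_option autoImplicit false

namespace Pool.Agent.H665Simp

section
variable {G : Type} [Group G] {e : ℕ} {S : SS G (e + 1)} {Q : Type} [Group Q]


theorem ss_one {d : ℕ} (T : SS G d) (c : Fin d) : T.sec 1 c = 1 := by
  have h := T.sec_mul 1 1 c
  rw [mul_one, map_one, Equiv.Perm.one_apply] at h
  exact left_eq_mul.1 h

theorem ss_inv {d : ℕ} (T : SS G d) (g : G) (c : Fin d) :
    T.sec g⁻¹ c = (T.sec g (T.act g⁻¹ c))⁻¹ := by
  have h := T.sec_mul g g⁻¹ c
  rw [mul_inv_cancel, ss_one] at h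
  exact eq_inv_of_mul_eq_one_right h.symm

theorem dies_mul {d : ℕ} (T : SS G d) (g h : G) (hg : T.Dies g) (hh : T.Dies h) :
    T.Dies (g * h) := by
  induction hg generalizing h with
  | one => rw [one_mul]; exact hh
  | step g hact hsec ih =>
    cases hh with
    | one => rw [mul_one]; exact SS.Dies.step g hact hsec
    | step _ hact' hsec' =>
      refine SS.Dies.step (g * h) (by rw [map_mul, hact, hact', mul_one]) fun c => ?_
      rw [T.sec_mul, hact', Equiv.Perm.one_apply]
      exact ih c (T.sec h c) (hsec' c)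

theorem dies_inv {d : ℕ} (T : SS G d) (g : G) (hg : T.Dies g) : T.Dies g⁻¹ := by
  induction hg with
  | one => rw [inv_one]; exact SS.Dies.one
  | step g hact hsec ih =>
    refine SS.Dies.step g⁻¹ (by rw [map_inv, hact, inv_one]) fun c => ?_
    rw [ss_inv]
    exact ih _

theorem dies_conj {d : ℕ} (T : SS G d) (g h : G) (hg : T.Dies g) : T.Dies (h * g * h⁻¹) := by
  induction hg generalizing h with
  | one => rw [mul_one, mul_inv_cancel]; exact SS.Dies.one
  | step g hact hsec ih =>
    refine SS.Dies.step _ (by rw [map_mul, map_mul, hact, mul_one, ← map_mul, mul_inv_cancel, map_one])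
      fun c => ?_
    rw [T.sec_mul, ss_inv, T.sec_mul, hact, Equiv.Perm.one_apply]
    exact ih _ _

end

end Pool.Agent.H665Simp
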