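import Mathlib
import Pool.Agent.H665Simp.DefsA

set_option autoImplicit false

namespace Pool.Agent.H665Simp

section
variable {G : Type} [Group G] {e : ℕ} {S : SS G (e + 1)} {Q : Type} [Group Q]


/-- extension by a fixed point -/
def ext0 {n : ℕ} (σ : Equiv.Perm (Fin n)) : Equiv.Perm (Fin (n + 1)) :=
  Equiv.Perm.decomposeFin.symm (0, σ)

theorem ext0_zero {n : ℕ} (σ : Equiv.Perm (Fin n)) : ext0 σ 0 = 0 := by
  rw [ext0, Equiv.Perm.decomposeFin_symm_apply_zero]

theorem ext0_succ {n : ℕ} (σ : Equiv.Perm (Fin n)) (x : Fin n) : ext0 σ x.succ = (σ x).succ := by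
  rw [ext0, Equiv.Perm.decomposeFin_symm_apply_succ, Equiv.swap_self, Equiv.refl_apply]

theorem ext0_ext {n : ℕ} {a b : Equiv.Perm (Fin (n + 1))} (h0 : a 0 = b 0)
    (h : ∀ x : Fin n, a x.succ = b x.succ) : a = b := by
  apply Equiv.ext
  intro x
  refine Fin.cases h0 h x

theorem ext0_one {n : ℕ} : ext0 (1 : Equiv.Perm (Fin n)) = 1 :=
  ext0_ext (by rw [ext0_zero, Equiv.Perm.one_apply])
    (fun x => by rw [ext0_succ, Equiv.Perm.one_apply, Equiv.Perm.one_apply])

theorem ext0_mul {n : ℕ} (σ τ : Equiv.Perm (Fin n)) : ext0 (σ * τ) = ext0 σ * ext0 τ :=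
  ext0_ext (by rw [Equiv.Perm.mul_apply, ext0_zero, ext0_zero, ext0_zero])
    (fun x => by rw [Equiv.Perm.mul_apply, ext0_succ, ext0_succ, ext0_succ, Equiv.Perm.mul_apply])

theorem ext0_swap {n : ℕ} (a b : Fin n) : ext0 (Equiv.swap a b) = Equiv.swap a.succ b.succ :=
  ext0_ext (by
    rw [ext0_zero, Equiv.swap_apply_of_ne_of_ne (Fin.succ_ne_zero a).symm (Fin.succ_ne_zero b).symm])
    (fun x => by rw [ext0_succ, (Fin.succ_injective n).swap_apply])

/-- the stabilizer of `0` is generated by the adjacent transpositions not moving `0` -/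
theorem stab_gen (n : ℕ) (ρ : Equiv.Perm (Fin (n + 1))) (h : ρ 0 = 0) :
    ρ ∈ Subgroup.closure {s : Equiv.Perm (Fin (n + 1)) |
      ∃ k : Fin n, 1 ≤ (k : ℕ) ∧ s = Equiv.swap k.castSucc k.succ} := by
  obtain ⟨σ, hσ⟩ : ∃ σ : Equiv.Perm (Fin n), ρ = ext0 σ := by
    have h1 : ρ = Equiv.Perm.decomposeFin.symm (Equiv.Perm.decomposeFin ρ) :=
      (Equiv.symm_apply_apply _ ρ).symm
    generalize hq : Equiv.Perm.decomposeFin ρ = q at h1
    obtain ⟨p, σ⟩ := q
    refine ⟨σ, ?_⟩
    have h2 : p = 0 := by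
      rw [h1, Equiv.Perm.decomposeFin_symm_apply_zero] at h
      exact h
    rw [h1, h2]
    rfl
  rw [hσ]
  clear hσ h ρ
  cases n with
  | zero =>
    have : σ = 1 := Subsingleton.elim _ _
    rw [this, ext0_one]
    exact Subgroup.one_mem _
  | succ m =>
    have hmem : σ ∈ Submonoid.closure
        (Set.range fun i : Fin m => Equiv.swap i.castSucc i.succ) := by
      rw [Equiv.Perm.mclosure_swap_castSucc_succ]
      exact Submonoid.mem_top σ
    induction hmem using Submonoid.closure_induction with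
    | mem x hx =>
      obtain ⟨i, rfl⟩ := hx
      apply Subgroup.subset_closure
      refine ⟨i.succ, by simp, ?_⟩
      show ext0 (Equiv.swap i.castSucc i.succ) = _
      rw [ext0_swap, Fin.succ_castSucc]
    | one => rw [ext0_one]; exact Subgroup.one_mem _
    | mul x y _ _ hx hy => rw [ext0_mul]; exact Subgroup.mul_mem _ hx hy

end

end Pool.Agent.H665Simp
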