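import Mathlib
import Pool.Agent.H665Simp.DefsA
import Pool.Agent.H665Simp.DefsD
import Pool.Agent.H665Simp.P_stab_gen
import Pool.Agent.H665Simp.P_ss_basic

set_option autoImplicit false

namespace Pool.Agent.H665Simp

section
variable {Q : Type} [Group Q] {e : ℕ}
variable {G : Type} [Group G] {e : ℕ} {S : SS G (e + 1)} {Q : Type} [Group Q]


theorem L5a_mul {M : Type} [Group M] : ∀ (n : ℕ) (a b : Fin n → M),
    (∀ i j, i ≠ j → Commute (a i) (b j)) →
    (List.ofFn a).prod * (List.ofFn b).prod = (List.ofFn (fun i => a i * b i)).prod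
  | 0, a, b, _ => by simp
  | n + 1, a, b, h => by
    have ih := L5a_mul n (fun i => a i.succ) (fun i => b i.succ)
      (fun i j hij => h _ _ (fun h' => hij (Fin.succ_injective _ h')))
    rw [List.ofFn_succ, List.ofFn_succ, List.ofFn_succ, List.prod_cons, List.prod_cons,
      List.prod_cons, ← ih]
    have hc : Commute (List.ofFn (fun i : Fin n => a i.succ)).prod (b 0) := by
      apply Commute.list_prod_left
      intro x hx
      rw [List.mem_ofFn] at hx
      obtain ⟨i, rfl⟩ := hx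
      exact h _ _ (Fin.succ_ne_zero i)
    have := hc.eq
    calc a 0 * (List.ofFn fun i => a i.succ).prod * (b 0 * (List.ofFn fun i => b i.succ).prod)
        = a 0 * ((List.ofFn fun i => a i.succ).prod * b 0) * (List.ofFn fun i => b i.succ).prod := by
          group
      _ = a 0 * (b 0 * (List.ofFn fun i => a i.succ).prod) * (List.ofFn fun i => b i.succ).prod := by
          rw [this]
      _ = _ := by group

theorem L5a_perm {M : Type} [Group M] (n : ℕ) (a : Fin n → M) (ρ : Equiv.Perm (Fin n))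
    (h : ∀ i j, i ≠ j → Commute (a i) (a j)) :
    (List.ofFn (fun i => a (ρ i))).prod = (List.ofFn a).prod := by
  have hp : (List.ofFn (a ∘ ρ)).Perm (List.ofFn a) := Equiv.Perm.ofFn_comp_perm ρ a
  refine List.Perm.prod_eq' hp ?_
  rw [List.pairwise_ofFn]
  intro i j hij
  exact h _ _ (fun h' => (ne_of_lt hij) (ρ.injective h'))

theorem L5a_two {n : ℕ} (a b c c' : Fin n) (hab : a ≠ b) (hcc : c ≠ c') :
    ∃ ρ : Equiv.Perm (Fin n), ρ a = c ∧ ρ b = c' := by
  refine ⟨Equiv.swap (Equiv.swap a c b) c' * Equiv.swap a c, ?_, ?_⟩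
  · rw [Equiv.Perm.mul_apply, Equiv.swap_apply_left]
    apply Equiv.swap_apply_of_ne_of_ne
    · intro h
      have h2 : Equiv.swap a c a = Equiv.swap a c b := by rw [Equiv.swap_apply_left]; exact h
      exact hab ((Equiv.swap a c).injective h2)
    · exact hcc
  · rw [Equiv.Perm.mul_apply, Equiv.swap_apply_left]

theorem L5a_lcf (p : ℕ → Q) (th : Equiv.Perm (Fin (e + 1)) →* Q)
    (hth : ∀ c : Fin e, th (Equiv.swap c.castSucc c.succ) = p c)
    (hC1 : ∀ i, p i * p i = 1) :
    ∀ (c : ℕ) (hc : c < e + 1), ∃ ρ : Equiv.Perm (Fin (e + 1)), ρ 0 = ⟨c, hc⟩ ∧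
      ∀ u : Q, lcf p u c = th ρ * u * (th ρ)⁻¹ := by
  intro c
  induction c with
  | zero => intro hc; exact ⟨1, rfl, fun u => by simp [lcf]⟩
  | succ c ih =>
    intro hc
    obtain ⟨ρ, h0, h1⟩ := ih (by omega)
    have hc' : c < e := by omega
    refine ⟨Equiv.swap (Fin.castSucc ⟨c, hc'⟩) (Fin.succ ⟨c, hc'⟩) * ρ, ?_, ?_⟩
    · rw [Equiv.Perm.mul_apply, h0]
      exact Equiv.swap_apply_left (Fin.castSucc ⟨c, hc'⟩) (Fin.succ ⟨c, hc'⟩)
    · intro u
      have hinv : (p c)⁻¹ = p c := inv_eq_of_mul_eq_one_left (hC1 c)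
      rw [lcf, h1, map_mul, hth, mul_inv_rev]
      simp only
      rw [hinv]
      simp only [mul_assoc]

/-- the expansion relation for labels extends from generators to the whole group of labels -/
theorem L5_all {Sg : Type} (D : LD Sg e) (w : ℕ) (S : SS D.Gp (e + 1)) (hS : D.IsSS w S)
    (x0 : Q) (p : ℕ → Q) (l : D.Gp →* Q) (th : Equiv.Perm (Fin (e + 1)) →* Q)
    (hth : ∀ c : Fin e, th (Equiv.swap c.castSucc c.succ) = p c)
    (hC1 : ∀ i, p i * p i = 1) (he : 3 ≤ e)
    (h2 : ∀ g k, 1 ≤ k → l g * p k = p k * l g)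
    (h4 : ∀ g h, l g * (p 0 * l h * p 0) = (p 0 * l h * p 0) * l g)
    (h5 : ∀ s, l (PresentedGroup.of s) * x0 = x0 * th (D.act s) *
      (List.ofFn (fun c : Fin (e + 1) =>
        lcf p (l (S.sec (PresentedGroup.of s) c)) c)).prod) :
    ∀ g, l g * x0 = x0 * th (S.act g) *
      (List.ofFn (fun c : Fin (e + 1) => lcf p (l (S.sec g c)) c)).prod := by
  -- permutations fixing `0` commute with labels
  have hfix : ∀ ρ : Equiv.Perm (Fin (e + 1)), ρ 0 = 0 → ∀ g, Commute (th ρ) (l g) := by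
    intro ρ hρ g
    have hmem := stab_gen e ρ hρ
    clear hρ
    induction hmem using Subgroup.closure_induction with
    | mem x hx =>
      obtain ⟨k, hk, rfl⟩ := hx
      rw [hth]
      exact (h2 g k hk).symm
    | one => rw [map_one]; exact Commute.one_left _
    | mul x y _ _ hx hy => rw [map_mul]; exact hx.mul_left hy
    | inv x _ hx => rw [map_inv]; exact hx.inv_left
  -- conjugates of labels
  let K : Fin (e + 1) → D.Gp → Q := fun c u => lcf p (l u) c
  have hK : ∀ (ρ : Equiv.Perm (Fin (e + 1))) (u : D.Gp), K (ρ 0) u = th ρ * l u * (th ρ)⁻¹ := by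
    intro ρ u
    obtain ⟨σ, h0, h1⟩ := L5a_lcf p th hth hC1 (ρ 0) (ρ 0).isLt
    have h0' : σ 0 = ρ 0 := h0
    have h3 : (σ⁻¹ * ρ) 0 = 0 := by
      rw [Equiv.Perm.mul_apply, ← h0']; exact σ.symm_apply_apply 0
    have h4' := (hfix _ h3 u).eq
    have h5' : ρ = σ * (σ⁻¹ * ρ) := by group
    change lcf p (l u) (ρ 0) = _
    rw [h1]
    conv_rhs => rw [h5']
    rw [map_mul th σ (σ⁻¹ * ρ), mul_inv_rev]
    calc th σ * l u * (th σ)⁻¹
        = th σ * (l u * th (σ⁻¹ * ρ)) * (th (σ⁻¹ * ρ))⁻¹ * (th σ)⁻¹ := by group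
      _ = th σ * (th (σ⁻¹ * ρ) * l u) * (th (σ⁻¹ * ρ))⁻¹ * (th σ)⁻¹ := by rw [h4']
      _ = _ := by group
  have htr : ∀ c : Fin (e + 1), ∃ σ : Equiv.Perm (Fin (e + 1)), σ 0 = c :=
    fun c => ⟨Equiv.swap 0 c, Equiv.swap_apply_left _ _⟩
  have hK2 : ∀ (ρ : Equiv.Perm (Fin (e + 1))) (c : Fin (e + 1)) (u : D.Gp),
      th ρ * K c u * (th ρ)⁻¹ = K (ρ c) u := by
    intro ρ c u
    obtain ⟨σ, rfl⟩ := htr c
    have h6 : ρ (σ 0) = (ρ * σ) 0 := rfl
    rw [h6, hK, hK, map_mul, mul_inv_rev]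
    group
  have hKmul : ∀ c u v, K c (u * v) = K c u * K c v := by
    intro c u v
    obtain ⟨σ, rfl⟩ := htr c
    rw [hK, hK, hK, map_mul]
    group
  have h01 : (0 : Fin (e + 1)) ≠ 1 := by
    intro h
    have := congrArg Fin.val h
    rw [Fin.val_zero, Fin.val_one'] at this
    rw [Nat.mod_eq_of_lt (by omega)] at this
    omega
  have hK0 : ∀ u, K 0 u = l u := fun u => by
    change lcf p (l u) ((0 : Fin (e + 1)) : ℕ) = l u
    rw [Fin.val_zero, lcf]
  have hK1 : ∀ u, K 1 u = p 0 * l u * p 0 := fun u => by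
    change lcf p (l u) ((1 : Fin (e + 1)) : ℕ) = p 0 * l u * p 0
    rw [Fin.val_one', Nat.mod_eq_of_lt (by omega), lcf, lcf]
  have hcomm : ∀ c c' : Fin (e + 1), c ≠ c' → ∀ u v, Commute (K c u) (K c' v) := by
    intro c c' hcc u v
    obtain ⟨ρ, rfl, rfl⟩ := L5a_two 0 1 c c' h01 hcc
    have h7 : Commute (K 0 u) (K 1 v) := by
      rw [hK0, hK1]; exact h4 u v
    rw [← hK2, ← hK2]
    exact (Commute.conj_iff (th ρ)).mpr h7
  let Pi : (Fin (e + 1) → D.Gp) → Q := fun f => (List.ofFn (fun c => K c (f c))).prod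
  have hPimul : ∀ f f', Pi f * Pi f' = Pi (fun c => f c * f' c) := by
    intro f f'
    change (List.ofFn (fun c => K c (f c))).prod * (List.ofFn (fun c => K c (f' c))).prod =
      (List.ofFn (fun c => K c (f c * f' c))).prod
    rw [L5a_mul _ _ _ (fun i j hij => hcomm i j hij _ _)]
    congr 2
    funext c
    rw [hKmul]
  have hPiconj : ∀ (ρ : Equiv.Perm (Fin (e + 1))) f, Pi f * th ρ = th ρ * Pi (fun c => f (ρ c)) := by
    intro ρ f
    have h8 : MulAut.conj (th ρ) (Pi (fun c => f (ρ c))) = Pi f := by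
      change MulAut.conj (th ρ) ((List.ofFn (fun c => K c (f (ρ c)))).prod) =
        (List.ofFn (fun c => K c (f c))).prod
      rw [map_list_prod, List.map_ofFn]
      rw [← L5a_perm _ (fun c => K c (f c)) ρ (fun i j hij => hcomm i j hij _ _)]
      congr 2
      funext c
      simp only [Function.comp_apply, MulAut.conj_apply]
      rw [hK2]
    rw [← h8, MulAut.conj_apply]
    group
  let Θ : D.Gp →* Q := MonoidHom.mk' (fun g => th (S.act g) * Pi (S.sec g)) (by
    intro g h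
    have h9 : S.sec (g * h) = fun c => S.sec g (S.act h c) * S.sec h c := by
      funext c; exact S.sec_mul g h c
    rw [h9, ← hPimul, map_mul, map_mul]
    have h10 := hPiconj (S.act h) (S.sec g)
    calc th (S.act g) * th (S.act h) * (Pi (fun c => S.sec g (S.act h c)) * Pi (fun c => S.sec h c))
        = th (S.act g) * (th (S.act h) * Pi (fun c => S.sec g (S.act h c))) * Pi (S.sec h) := by
          group
      _ = th (S.act g) * (Pi (S.sec g) * th (S.act h)) * Pi (S.sec h) := by rw [h10]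
      _ = _ := by group)
  let Ψ : D.Gp →* Q := (MulAut.conj x0⁻¹).toMonoidHom.comp l
  have hΨΘ : Ψ = Θ := by
    apply PresentedGroup.ext
    intro s
    change x0⁻¹ * l (PresentedGroup.of s) * x0⁻¹⁻¹ = th (S.act (PresentedGroup.of s)) * Pi (S.sec (PresentedGroup.of s))
    rw [inv_inv, mul_assoc, h5 s, hS.1 s]
    change x0⁻¹ * (x0 * th (D.act s) * Pi (S.sec (PresentedGroup.of s))) = _
    group
  intro g
  have h11 : x0⁻¹ * l g * x0⁻¹⁻¹ = th (S.act g) * Pi (S.sec g) := DFunLike.congr_fun hΨΘ g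
  change l g * x0 = x0 * th (S.act g) * Pi (S.sec g)
  rw [mul_assoc, ← h11]
  group

end

end Pool.Agent.H665Simp
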