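import Mathlib
import Pool.Agent.H665Simp.DefsA
import Pool.Agent.H665Simp.DefsB

set_option autoImplicit false

namespace Pool.Agent.H665Simp

section
variable {G : Type} [Group G] {e : ℕ} {S : SS G (e + 1)} {W : Type}


theorem lam_lt (Ws : SSet S W) (k : ℕ) (hk : k < e) (w : W) : Ws.lam k w = Ws.cn k w := by
  unfold SSet.lam SSet.spine
  rw [Nat.div_eq_of_lt hk, Nat.mod_eq_of_lt hk]
  rfl

theorem lam_add (Ws : SSet S W) (he : 1 ≤ e) (k : ℕ) (w : W) :
    Ws.lam (k + e) w = Ws.cn e (Ws.lam k w) := by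
  unfold SSet.lam SSet.spine
  rw [Nat.add_div_right k (by omega), Nat.add_mod_right, Function.iterate_succ_apply']

theorem spine_succ (Ws : SSet S W) (N : ℕ) (w : W) :
    Ws.spine (N + 1) w = Ws.cn e (Ws.spine N w) := by
  unfold SSet.spine
  rw [Function.iterate_succ_apply']

theorem spine_succ' (Ws : SSet S W) (N : ℕ) (w : W) :
    Ws.spine (N + 1) w = Ws.spine N (Ws.cn e w) := by
  unfold SSet.spine
  rw [Function.iterate_succ_apply]

theorem cn_inj (Ws : SSet S W) (k k' : ℕ) (hk : k ≤ e) (hk' : k' ≤ e) (w w' : W)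
    (h : Ws.cn k w = Ws.cn k' w') : k = k' ∧ w = w' := by
  unfold SSet.cn at h
  have h1 := Ws.cons.injective h
  rw [Prod.mk.injEq] at h1
  refine ⟨?_, h1.2⟩
  have h2 := congrArg Fin.val h1.1
  simp only [Fin.val_ofNat] at h2
  rwa [Nat.mod_eq_of_lt (by omega), Nat.mod_eq_of_lt (by omega)] at h2

theorem cn_surj (Ws : SSet S W) (z : W) : ∃ k w, k ≤ e ∧ z = Ws.cn k w := by
  obtain ⟨⟨c, w⟩, rfl⟩ := Ws.cons.surjective z
  refine ⟨c.val, w, by have := c.isLt; omega, ?_⟩
  unfold SSet.cn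
  congr 2
  apply Fin.ext
  simp only [Fin.val_ofNat]
  rw [Nat.mod_eq_of_lt c.isLt]

theorem lam_inj (Ws : SSet S W) (he : 1 ≤ e) (k k' : ℕ) (w w' : W)
    (h : Ws.lam k w = Ws.lam k' w') : k = k' ∧ w = w' := by
  induction k using Nat.strong_induction_on generalizing k' with
  | _ k ih =>
    rcases lt_or_ge k e with h1 | h1
    · rcases lt_or_ge k' e with h2 | h2
      · rw [lam_lt Ws k h1, lam_lt Ws k' h2] at h
        exact cn_inj Ws k k' h1.le h2.le w w' h
      · obtain ⟨m, rfl⟩ : ∃ m, k' = m + e := ⟨k' - e, by omega⟩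
        rw [lam_lt Ws k h1, lam_add Ws he] at h
        have := (cn_inj Ws k e h1.le le_rfl _ _ h).1
        omega
    · obtain ⟨n, rfl⟩ : ∃ n, k = n + e := ⟨k - e, by omega⟩
      rcases lt_or_ge k' e with h2 | h2
      · rw [lam_lt Ws k' h2, lam_add Ws he] at h
        have := (cn_inj Ws e k' le_rfl h2.le _ _ h).1
        omega
      · obtain ⟨m, rfl⟩ : ∃ m, k' = m + e := ⟨k' - e, by omega⟩
        rw [lam_add Ws he, lam_add Ws he] at h
        have h3 := (cn_inj Ws e e le_rfl le_rfl _ _ h).2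
        obtain ⟨h4, h5⟩ := ih n (by omega) m h3
        exact ⟨by omega, h5⟩

theorem lam_ne_spine_aux (Ws : SSet S W) (he : 1 ≤ e) (M k : ℕ) (hk : k < (M + 1) * e) (w w' : W)
    (h : Ws.lam k w = Ws.spine (M + 1) w') : False := by
  induction M generalizing k with
  | zero =>
    have hk' : k < e := by simpa using hk
    rw [lam_lt Ws k hk', spine_succ] at h
    have := (cn_inj Ws k e hk'.le le_rfl _ _ h).1
    omega
  | succ M ih =>
    rw [spine_succ] at h
    rcases lt_or_ge k e with h1 | h1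
    · rw [lam_lt Ws k h1] at h
      have := (cn_inj Ws k e h1.le le_rfl _ _ h).1
      omega
    · obtain ⟨n, rfl⟩ : ∃ n, k = n + e := ⟨k - e, by omega⟩
      rw [lam_add Ws he] at h
      have h3 := (cn_inj Ws e e le_rfl le_rfl _ _ h).2
      refine ih n ?_ h3
      have : (M + 1 + 1) * e = (M + 1) * e + e := by ring
      omega

theorem spine_inj_aux (Ws : SSet S W) (N : ℕ) (w w' : W)
    (h : Ws.spine N w = Ws.spine N w') : w = w' := by
  induction N with
  | zero => exact h
  | succ N ih =>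
    rw [spine_succ, spine_succ] at h
    exact ih (cn_inj Ws e e le_rfl le_rfl _ _ h).2

theorem leaf_inj (Ws : SSet S W) (he : 1 ≤ e) (M k k' : ℕ) (hk : k ≤ (M + 1) * e)
    (hk' : k' ≤ (M + 1) * e) (w w' : W)
    (h : Ws.leaf M k w = Ws.leaf M k' w') : k = k' ∧ w = w' := by
  unfold SSet.leaf at h
  by_cases h1 : k < (M + 1) * e
  · rw [if_pos h1] at h
    by_cases h2 : k' < (M + 1) * e
    · rw [if_pos h2] at h
      exact lam_inj Ws he k k' w w' h
    · rw [if_neg h2] at h
      exact (lam_ne_spine_aux Ws he M k h1 w w' h).elim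
  · rw [if_neg h1] at h
    by_cases h2 : k' < (M + 1) * e
    · rw [if_pos h2] at h
      exact (lam_ne_spine_aux Ws he M k' h2 w' w h.symm).elim
    · rw [if_neg h2] at h
      exact ⟨by omega, spine_inj_aux Ws (M + 1) w w' h⟩

theorem leaf_cover (Ws : SSet S W) (he : 1 ≤ e) (M : ℕ) (z : W) :
    ∃ k w, k ≤ (M + 1) * e ∧ z = Ws.leaf M k w := by
  induction M generalizing z with
  | zero =>
    obtain ⟨k, w, hk, rfl⟩ := cn_surj Ws z
    refine ⟨k, w, by omega, ?_⟩
    unfold SSet.leaf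
    rcases lt_or_eq_of_le hk with h1 | h1
    · rw [if_pos (by omega), lam_lt Ws k h1]
    · subst h1
      rw [if_neg (by omega)]
      rfl
  | succ M ih =>
    obtain ⟨k, w, hk, rfl⟩ := cn_surj Ws z
    have hme : (M + 1 + 1) * e = (M + 1) * e + e := by ring
    rcases lt_or_eq_of_le hk with h1 | h1
    · refine ⟨k, w, by omega, ?_⟩
      unfold SSet.leaf
      rw [if_pos (by omega), lam_lt Ws k h1]
    · obtain ⟨k', w', hk', rfl⟩ := ih w
      refine ⟨k' + e, w', by omega, ?_⟩
      rw [h1]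
      unfold SSet.leaf
      by_cases h2 : k' < (M + 1) * e
      · rw [if_pos h2, if_pos (by omega), lam_add Ws he]
      · rw [if_neg h2, if_neg (by omega), ← spine_succ]

/-- leaves below the last leaf -/
theorem spine_cn (Ws : SSet S W) (he : 1 ≤ e) (M c : ℕ) (hc : c < e) (w : W) :
    Ws.spine (M + 1) (Ws.cn c w) = Ws.lam ((M + 1) * e + c) w := by
  have h1 : ((M + 1) * e + c) / e = M + 1 ∧ ((M + 1) * e + c) % e = c := by
    rw [Nat.div_mod_unique (by omega)]
    exact ⟨by ring, hc⟩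
  unfold SSet.lam
  rw [h1.1, h1.2]

/-- two permutations agreeing on the leaves of some level are equal -/
theorem perm_ext_leaf (Ws : SSet S W) (he : 1 ≤ e) (M : ℕ) (f g : Equiv.Perm W)
    (h1 : ∀ k w, k < (M + 1) * e → f (Ws.lam k w) = g (Ws.lam k w))
    (h2 : ∀ w, f (Ws.spine (M + 1) w) = g (Ws.spine (M + 1) w)) : f = g := by
  apply Equiv.ext
  intro z
  obtain ⟨k, w, hk, rfl⟩ := leaf_cover Ws he M z
  unfold SSet.leaf
  by_cases h : k < (M + 1) * e
  · rw [if_pos h]
    exact h1 k w h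
  · rw [if_neg h]
    exact h2 w

end

end Pool.Agent.H665Simp
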