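import Mathlib
import Pool.Agent.H665Simp.DefsA
import Pool.Agent.H665Simp.DefsB
import Pool.Agent.H665Simp.DefsC
import Pool.Agent.H665Simp.P_leaf_basic

set_option autoImplicit false

namespace Pool.Agent.H665Simp

section
variable {G : Type} [Group G] {e : ℕ} {S : SS G (e + 1)} {Q : Type} [Group Q]
variable {G : Type} [Group G] {e : ℕ} {S : SS G (e + 1)} {Q : Type} [Group Q] {W : Type}
variable {G : Type} [Group G] {e : ℕ} {S : SS G (e + 1)} {W : Type}


theorem leaf_of_lt (Ws : SSet S W) (M k : ℕ) (h : k < (M + 1) * e) (w : W) :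
    Ws.leaf M k w = Ws.lam k w := by
  unfold SSet.leaf
  rw [if_pos h]

theorem leaf_of_ge (Ws : SSet S W) (M k : ℕ) (h : ¬ k < (M + 1) * e) (w : W) :
    Ws.leaf M k w = Ws.spine (M + 1) w := by
  unfold SSet.leaf
  rw [if_neg h]

theorem tab_X_leaf (Ws : SSet S W) (he : 3 ≤ e) (F0 : Fam S (Equiv.Perm W)) (T : Tab Ws F0)
    (M i c : ℕ) (hi : i ≤ (M + 1) * e) (hc : c ≤ e) (w : W) :
    F0.X M i (Ws.leaf (M + 1) (i + c) w) = Ws.leaf M i (Ws.cn c w) := by
  have T' : TabR Ws F0.x F0.p F0.t (fun g => F0.l g) := T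
  have e2 : (M + 1 + 1) * e = (M + 1) * e + e := by ring
  by_cases h : i < (M + 1) * e
  · have h1 : F0.X M i = F0.x i := by
      unfold Fam.X
      rw [if_pos h]
    rw [h1, leaf_of_lt Ws (M + 1) (i + c) (by omega), leaf_of_lt Ws M i h]
    exact T'.x2 i c w hc
  · have h1 : F0.X M i = 1 := by
      unfold Fam.X
      rw [if_neg h]
    have h2 : i = (M + 1) * e := by omega
    rw [h1, leaf_of_ge Ws M i h, Equiv.Perm.one_apply]
    rcases Nat.lt_or_ge c e with hc' | hc'
    · rw [leaf_of_lt Ws (M + 1) (i + c) (by omega), h2]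
      exact (spine_cn Ws (by omega) M c hc' w).symm
    · have h3 : c = e := by omega
      rw [leaf_of_ge Ws (M + 1) (i + c) (by omega), h3]
      exact spine_succ' Ws (M + 1) w

theorem tab_sg_leaf (Ws : SSet S W) (he : 3 ≤ e) (F0 : Fam S (Equiv.Perm W)) (T : Tab Ws F0)
    (M : ℕ) (k : Fin ((M + 1) * e)) (j : Fin ((M + 1) * e + 1)) (w : W) :
    F0.sg M k (Ws.leaf M j w) = Ws.leaf M (Equiv.swap k.castSucc k.succ j) w := by
  have T' : TabR Ws F0.x F0.p F0.t (fun g => F0.l g) := T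
  have hk := k.isLt
  have hj := j.isLt
  by_cases h : (k : ℕ) + 1 < (M + 1) * e
  · have h1 : F0.sg M k = F0.p k := by
      unfold Fam.sg
      rw [if_pos h]
    rw [h1]
    by_cases ha : j = k.castSucc
    · rw [ha, Equiv.swap_apply_left]
      have e1 : ((k.castSucc : Fin ((M + 1) * e + 1)) : ℕ) = k := rfl
      have e2 : ((k.succ : Fin ((M + 1) * e + 1)) : ℕ) = k + 1 := rfl
      rw [e1, e2, leaf_of_lt Ws M _ hk, leaf_of_lt Ws M _ h]
      exact T'.p1 k w
    · by_cases hb : j = k.succ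
      · rw [hb, Equiv.swap_apply_right]
        have e1 : ((k.castSucc : Fin ((M + 1) * e + 1)) : ℕ) = k := rfl
        have e2 : ((k.succ : Fin ((M + 1) * e + 1)) : ℕ) = k + 1 := rfl
        rw [e1, e2, leaf_of_lt Ws M _ hk, leaf_of_lt Ws M _ h]
        exact T'.p2 k w
      · rw [Equiv.swap_apply_of_ne_of_ne ha hb]
        have ha' : (j : ℕ) ≠ k := fun h => ha (Fin.ext h)
        have hb' : (j : ℕ) ≠ k + 1 := fun h => hb (Fin.ext h)
        by_cases hc : (j : ℕ) < (M + 1) * e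
        · rw [leaf_of_lt Ws M _ hc]
          exact T'.p3 k j w ha' hb'
        · rw [leaf_of_ge Ws M _ hc]
          exact T'.p4 k M w h
  · have h1 : F0.sg M k = F0.t M := by
      unfold Fam.sg
      rw [if_neg h]
    have hk1 : (k : ℕ) = (M + 1) * e - 1 := by omega
    rw [h1]
    by_cases ha : j = k.castSucc
    · rw [ha, Equiv.swap_apply_left]
      have e1 : ((k.castSucc : Fin ((M + 1) * e + 1)) : ℕ) = k := rfl
      have e2 : ((k.succ : Fin ((M + 1) * e + 1)) : ℕ) = k + 1 := rfl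
      rw [e1, e2, leaf_of_lt Ws M _ hk, leaf_of_ge Ws M _ h, hk1]
      exact T'.t1 M w
    · by_cases hb : j = k.succ
      · rw [hb, Equiv.swap_apply_right]
        have e1 : ((k.castSucc : Fin ((M + 1) * e + 1)) : ℕ) = k := rfl
        have e2 : ((k.succ : Fin ((M + 1) * e + 1)) : ℕ) = k + 1 := rfl
        rw [e1, e2, leaf_of_lt Ws M _ hk, leaf_of_ge Ws M _ h, hk1]
        exact T'.t2 M w
      · rw [Equiv.swap_apply_of_ne_of_ne ha hb]
        have ha' : (j : ℕ) ≠ k := fun h => ha (Fin.ext h)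
        have hb' : (j : ℕ) ≠ k + 1 := fun h => hb (Fin.ext h)
        rw [leaf_of_lt Ws M _ (by omega)]
        exact T'.t3 M j w (by omega)

theorem tab_l_leaf (Ws : SSet S W) (he : 3 ≤ e) (F0 : Fam S (Equiv.Perm W)) (T : Tab Ws F0)
    (M : ℕ) (g : G) (w : W) :
    F0.l g (Ws.leaf M 0 w) = Ws.leaf M 0 (Ws.act g w) ∧
    ∀ k, 1 ≤ k → k ≤ (M + 1) * e → F0.l g (Ws.leaf M k w) = Ws.leaf M k w := by
  have T' : TabR Ws F0.x F0.p F0.t (fun g => F0.l g) := T
  have h0 : 0 < (M + 1) * e := by positivity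
  constructor
  · rw [leaf_of_lt Ws M _ h0, leaf_of_lt Ws M _ h0]
    exact T'.l1 g w
  · intro k hk hk'
    by_cases h : k < (M + 1) * e
    · rw [leaf_of_lt Ws M _ h]
      exact T'.l2 g k w hk
    · rw [leaf_of_ge Ws M _ h]
      exact T'.l3 g M w

end

end Pool.Agent.H665Simp
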