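import Mathlib
import Pool.Agent.H665Simp.DefsA
import Pool.Agent.H665Simp.DefsB
import Pool.Agent.H665Simp.DefsC
import Pool.Agent.H665Simp.P_leaf_basic
import Pool.Agent.H665Simp.P_tab_leaf

set_option autoImplicit false

namespace Pool.Agent.H665Simp

section
variable {G : Type} [Group G] {e : ℕ} {S : SS G (e + 1)} {Q : Type} [Group Q]
variable {G : Type} [Group G] {e : ℕ} {S : SS G (e + 1)} {Q : Type} [Group Q] {W : Type}
variable {G : Type} [Group G] {e : ℕ} {S : SS G (e + 1)} {W : Type}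


/-- action of a labelled permutation on the leaves -/
theorem SN_act (Ws : SSet S W) (he : 3 ≤ e) (F : Fam S Q) (F0 : Fam S (Equiv.Perm W))
    (T : Tab Ws F0) (α : Q →* Equiv.Perm W) (hα : F.Compat F0 α) (M : ℕ)
    (Θ : Equiv.Perm (Fin ((M + 1) * e + 1)) →* Q) (Λ : (Fin ((M + 1) * e + 1) → G) →* Q)
    (h1 : ∀ k : Fin ((M + 1) * e), Θ (Equiv.swap k.castSucc k.succ) = F.sg M k)
    (h2 : ∀ g, Λ (Pi.mulSingle 0 g) = F.l g)
    (h3 : ∀ ρ f, Θ ρ * Λ f = Λ (fun k => f (ρ⁻¹ k)) * Θ ρ)
    (ρ : Equiv.Perm (Fin ((M + 1) * e + 1))) (f : Fin ((M + 1) * e + 1) → G)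
    (k : Fin ((M + 1) * e + 1)) (w : W) :
    α (Θ ρ * Λ f) (Ws.leaf M k w) = Ws.leaf M (ρ k : Fin ((M + 1) * e + 1)) (Ws.act (f k) w) := by
  classical
  have hsg : ∀ k : Fin ((M + 1) * e), α (F.sg M k) = F0.sg M k := by
    intro k
    unfold Fam.sg
    split_ifs
    · exact hα.p _
    · exact hα.t _
  have hΘ : ∀ ρ : Equiv.Perm (Fin ((M + 1) * e + 1)), ∀ (j : Fin ((M + 1) * e + 1)) (w : W),
      α (Θ ρ) (Ws.leaf M j w) = Ws.leaf M (ρ j : Fin ((M + 1) * e + 1)) w := by
    intro ρ
    have hρ : ρ ∈ Submonoid.closure (Set.range fun i : Fin ((M + 1) * e) =>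
        Equiv.swap i.castSucc i.succ) := by
      rw [Equiv.Perm.mclosure_swap_castSucc_succ]
      trivial
    induction hρ using Submonoid.closure_induction with
    | mem x hx =>
      obtain ⟨k, rfl⟩ := hx
      intro j w
      beta_reduce
      rw [h1, hsg]
      exact tab_sg_leaf Ws he F0 T M k j w
    | one =>
      intro j w
      rw [map_one, map_one]
      rfl
    | mul x y _ _ hx hy =>
      intro j w
      rw [map_mul, map_mul, Equiv.Perm.mul_apply, hy, hx]
      rfl
  have h0 : ∀ (g : G) (j : Fin ((M + 1) * e + 1)) (w : W),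
      α (Λ (Pi.mulSingle 0 g)) (Ws.leaf M j w) =
        Ws.leaf M j (Ws.act ((Pi.mulSingle 0 g : Fin ((M + 1) * e + 1) → G) j) w) := by
    intro g j w
    rw [h2, hα.l]
    by_cases hj : j = 0
    · subst hj
      rw [Pi.mulSingle_eq_same]
      exact (tab_l_leaf Ws he F0 T M g w).1
    · rw [Pi.mulSingle_eq_of_ne hj, map_one, Equiv.Perm.one_apply]
      refine (tab_l_leaf Ws he F0 T M g w).2 j ?_ ?_
      · rw [Nat.one_le_iff_ne_zero]
        intro h
        apply hj
        ext
        exact h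
      · exact Nat.lt_succ_iff.1 j.2
  have hs : ∀ (i : Fin ((M + 1) * e + 1)) (g : G) (j : Fin ((M + 1) * e + 1)) (w : W),
      α (Λ (Pi.mulSingle i g)) (Ws.leaf M j w) =
        Ws.leaf M j (Ws.act ((Pi.mulSingle i g : Fin ((M + 1) * e + 1) → G) j) w) := by
    intro i g j w
    have h4 : Λ (Pi.mulSingle i g) = Θ (Equiv.swap 0 i) * Λ (Pi.mulSingle 0 g) *
        Θ (Equiv.swap 0 i)⁻¹ := by
      rw [h3, mul_assoc, ← map_mul, mul_inv_cancel, map_one, mul_one]
      congr 1
      funext a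
      have h5 : (Equiv.swap 0 i)⁻¹ a = Equiv.swap 0 i a := by rw [Equiv.swap_inv]
      rw [h5]
      by_cases ha : a = i
      · subst ha
        rw [Equiv.swap_apply_right, Pi.mulSingle_eq_same, Pi.mulSingle_eq_same]
      · rw [Pi.mulSingle_eq_of_ne ha, Pi.mulSingle_eq_of_ne]
        intro h6
        apply ha
        rw [Equiv.swap_apply_eq_iff, Equiv.swap_apply_left] at h6
        exact h6
    rw [h4, map_mul, map_mul, Equiv.Perm.mul_apply, Equiv.Perm.mul_apply, hΘ, h0, hΘ,
      Equiv.swap_inv]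
    have h7 : Equiv.swap 0 i (Equiv.swap 0 i j) = j := by
      rw [Equiv.swap_apply_self]
    rw [h7]
    congr 3
    by_cases ha : j = i
    · subst ha
      rw [Equiv.swap_apply_right, Pi.mulSingle_eq_same, Pi.mulSingle_eq_same]
    · rw [Pi.mulSingle_eq_of_ne ha, Pi.mulSingle_eq_of_ne]
      intro h6
      apply ha
      rw [Equiv.swap_apply_eq_iff, Equiv.swap_apply_left] at h6
      exact h6
  have hΛ : ∀ (f : Fin ((M + 1) * e + 1) → G) (j : Fin ((M + 1) * e + 1)) (w : W),
      α (Λ f) (Ws.leaf M j w) = Ws.leaf M j (Ws.act (f j) w) := by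
    let H : Subgroup (Fin ((M + 1) * e + 1) → G) :=
      { carrier := {f | ∀ (j : Fin ((M + 1) * e + 1)) (w : W),
          α (Λ f) (Ws.leaf M j w) = Ws.leaf M j (Ws.act (f j) w)}
        mul_mem' := by
          intro a b ha hb j w
          rw [map_mul, map_mul, Equiv.Perm.mul_apply, hb, ha, Pi.mul_apply, map_mul]
          rfl
        one_mem' := by
          intro j w
          rw [map_one, map_one, Pi.one_apply, map_one]
          rfl
        inv_mem' := by
          intro a ha j w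
          rw [map_inv, map_inv, Equiv.Perm.inv_eq_iff_eq, ha, Pi.inv_apply, map_inv,
            ← Equiv.Perm.mul_apply, mul_inv_cancel]
          rfl }
    intro f
    have hf : f ∈ H := Subgroup.pi_mem_of_mulSingle_mem f fun i => hs i (f i)
    exact hf
  rw [map_mul, Equiv.Perm.mul_apply, hΛ, hΘ]

end

end Pool.Agent.H665Simp
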