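import Mathlib
import Pool.Agent.H665Simp.DefsA
import Pool.Agent.H665Simp.DefsC

set_option autoImplicit false

namespace Pool.Agent.H665Simp

section
variable {G : Type} [Group G] {e : ℕ} {S : SS G (e + 1)} {Q : Type} [Group Q]


/-- elementary facts on `SN` -/
theorem SN_sg (F : Fam S Q) (M k : ℕ) (hk : k < (M + 1) * e) : F.sg M k ∈ F.SN M :=
  Subgroup.subset_closure (Or.inl ⟨k, hk, rfl⟩)

theorem SN_l (F : Fam S Q) (M : ℕ) (g : G) : F.l g ∈ F.SN M :=
  Subgroup.subset_closure (Or.inr ⟨g, rfl⟩)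

theorem SN_p (F : Fam S Q) (M k : ℕ) (hk : k + 1 < (M + 1) * e) : F.p k ∈ F.SN M := by
  have h := SN_sg F M k (by omega)
  unfold Fam.sg at h
  rwa [if_pos hk] at h

theorem SN_t (F : Fam S Q) (he : 1 ≤ e) (M : ℕ) : F.t M ∈ F.SN M := by
  have h1 : 1 ≤ (M + 1) * e := Nat.mul_pos (Nat.succ_pos M) he
  have h := SN_sg F M ((M + 1) * e - 1) (by omega)
  unfold Fam.sg at h
  rwa [if_neg (by omega)] at h

theorem SN_th (F : Fam S Q) (he : 3 ≤ e) (M : ℕ) (ρ : Equiv.Perm (Fin (e + 1))) :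
    F.th ρ ∈ F.SN (M + 1) := by
  have h1 : ρ ∈ Submonoid.closure (Set.range fun i : Fin e => Equiv.swap i.castSucc i.succ) := by
    rw [Equiv.Perm.mclosure_swap_castSucc_succ]
    exact Submonoid.mem_top ρ
  have h2 : Submonoid.closure (Set.range fun i : Fin e => Equiv.swap i.castSucc i.succ) ≤
      (F.SN (M + 1)).toSubmonoid.comap F.th := by
    rw [Submonoid.closure_le]
    rintro _ ⟨c, rfl⟩
    show F.th (Equiv.swap c.castSucc c.succ) ∈ F.SN (M + 1)
    rw [F.th_swap]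
    refine SN_p F (M + 1) c ?_
    have hc := c.2
    nlinarith
  exact h2 h1

end

end Pool.Agent.H665Simp
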