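import Mathlib
import Pool.Agent.H665Simp.DefsA

set_option autoImplicit false

namespace Pool.Agent.H665Simp

section
variable {G : Type} [Group G] {e : ℕ} {S : SS G (e + 1)} {Q : Type} [Group Q]


/-- auxiliary product `s 0 * s 1 * ... * s (k-1)` -/
def cxd {Q : Type} [Group Q] (s : ℕ → Q) : ℕ → Q
  | 0 => 1
  | k + 1 => cxd s k * s k

theorem cxd_comm {Q : Type} [Group Q] (s : ℕ → Q) (m : ℕ)
    (hc : ∀ i j, i + 1 < j → j < m → s i * s j = s j * s i) (i : ℕ) (him : i < m) :
    ∀ k, k < i → cxd s k * s i = s i * cxd s k := by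
  intro k
  induction k with
  | zero => intro _; simp [cxd]
  | succ k ih =>
    intro hk
    have h1 := ih (by omega)
    have h2 := hc k i (by omega) him
    simp only [cxd]
    rw [mul_assoc, h2, ← mul_assoc, h1, mul_assoc]

theorem cxd_shift {Q : Type} [Group Q] (s : ℕ → Q) (m : ℕ)
    (h3 : ∀ i, i + 1 < m → s i * s (i + 1) * s i = s (i + 1) * s i * s (i + 1))
    (hc : ∀ i j, i + 1 < j → j < m → s i * s j = s j * s i) (i : ℕ) :
    ∀ k, i + 1 < k → k ≤ m → cxd s k * s i = s (i + 1) * cxd s k := by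
  intro k
  induction k with
  | zero => intro h; omega
  | succ k ih =>
    intro hk hkm
    rcases Nat.lt_or_ge (i + 1) k with h | h
    · have h1 := ih h (by omega)
      have h2 := hc i k (by omega) (by omega)
      simp only [cxd]
      rw [mul_assoc, ← h2, ← mul_assoc, h1, mul_assoc]
    · have hk' : k = i + 1 := by omega
      subst hk'
      have h1 := cxd_comm s m hc (i + 1) (by omega) i (by omega)
      have h2 := h3 i (by omega)
      simp only [cxd]
      rw [mul_assoc (cxd s i) (s i), mul_assoc (cxd s i), h2, ← mul_assoc, ← mul_assoc, h1]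
      simp only [mul_assoc]

theorem cox_card : ∀ (m : ℕ) (Q : Type) (_ : Group Q) (s : ℕ → Q),
    (∀ i, i < m → s i * s i = 1) →
    (∀ i, i + 1 < m → s i * s (i + 1) * s i = s (i + 1) * s i * s (i + 1)) →
    (∀ i j, i + 1 < j → j < m → s i * s j = s j * s i) →
    Finite (Subgroup.closure {q : Q | ∃ i, i < m ∧ s i = q}) ∧
    Nat.card (Subgroup.closure {q : Q | ∃ i, i < m ∧ s i = q}) ≤ (m + 1).factorial := by
  intro m
  induction m with
  | zero =>
    intro Q _ s _ _ _
    have : {q : Q | ∃ i, i < 0 ∧ s i = q} = ∅ := by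
      ext q; simp
    rw [this, Subgroup.closure_empty]
    refine ⟨inferInstance, ?_⟩
    simp
  | succ m ih =>
    intro Q _ s h2 h3 hc
    obtain ⟨hfin, hcard⟩ := ih Q _ (fun i => s (i + 1)) (fun i hi => h2 _ (by omega))
      (fun i hi => h3 _ (by omega)) (fun i j hij hj => hc _ _ (by omega) (by omega))
    set H' := Subgroup.closure {q : Q | ∃ i, i < m ∧ s (i + 1) = q} with hH'
    set φ : H' × Fin (m + 2) → Q := fun x => (x.1 : Q) * cxd s x.2 with hφ
    have hmem : ∀ i, 1 ≤ i → i < m + 1 → s i ∈ H' := by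
      intro i h1 hi
      obtain ⟨j, rfl⟩ : ∃ j, i = j + 1 := ⟨i - 1, by omega⟩
      exact Subgroup.subset_closure ⟨j, by omega, rfl⟩
    have hinv : ∀ i, i < m + 1 → (s i)⁻¹ = s i := fun i hi => inv_eq_of_mul_eq_one_left (h2 i hi)
    have hstep : ∀ x ∈ Set.range φ, ∀ i, i < m + 1 → x * s i ∈ Set.range φ := by
      rintro _ ⟨⟨⟨h, hh⟩, ⟨k, hk⟩⟩, rfl⟩ i hi
      simp only [hφ]
      rcases Nat.lt_trichotomy i k with hik | hik | hik
      · rcases Nat.lt_or_ge (i + 1) k with h' | h'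
        · -- shift
          refine ⟨⟨⟨h * s (i + 1), H'.mul_mem hh (hmem _ (by omega) (by omega))⟩, ⟨k, hk⟩⟩, ?_⟩
          simp only
          rw [mul_assoc, mul_assoc, cxd_shift s (m + 1) h3 hc i k h' (by omega)]
        · have hk' : k = i + 1 := by omega
          subst hk'
          refine ⟨⟨⟨h, hh⟩, ⟨i, by omega⟩⟩, ?_⟩
          simp only [cxd]
          rw [mul_assoc, mul_assoc, h2 i hi, mul_one]
      · subst hik
        refine ⟨⟨⟨h, hh⟩, ⟨i + 1, by omega⟩⟩, ?_⟩
        simp only [cxd]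
        rw [mul_assoc]
      · refine ⟨⟨⟨h * s i, H'.mul_mem hh (hmem _ (by omega) (by omega))⟩, ⟨k, hk⟩⟩, ?_⟩
        simp only
        rw [mul_assoc, mul_assoc, cxd_comm s (m + 1) hc i hi k hik]
    have key : ∀ x, x ∈ Subgroup.closure {q : Q | ∃ i, i < m + 1 ∧ s i = q} →
        x ∈ Set.range φ := by
      intro x hx
      induction hx using Subgroup.closure_induction_right with
      | one => exact ⟨⟨1, ⟨0, by omega⟩⟩, by simp [hφ, cxd]⟩
      | mul_right x hx y hy ih' =>
        obtain ⟨i, hi, rfl⟩ := hy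
        exact hstep x ih' i hi
      | mul_inv_cancel x hx y hy ih' =>
        obtain ⟨i, hi, rfl⟩ := hy
        rw [hinv i hi]
        exact hstep x ih' i hi
    have hsub : (Subgroup.closure {q : Q | ∃ i, i < m + 1 ∧ s i = q} : Set Q) ⊆ Set.range φ :=
      fun x hx => key x hx
    have hrf : (Set.range φ).Finite := Set.finite_range φ
    refine ⟨(hrf.subset hsub).to_subtype, ?_⟩
    calc Nat.card (Subgroup.closure {q : Q | ∃ i, i < m + 1 ∧ s i = q})
        = Set.ncard (Subgroup.closure {q : Q | ∃ i, i < m + 1 ∧ s i = q} : Set Q) := by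
          rw [← Nat.card_coe_set_eq]; rfl
      _ ≤ Set.ncard (Set.range φ) := Set.ncard_le_ncard hsub hrf
      _ ≤ Nat.card (H' × Fin (m + 2)) := by
          rw [← Set.image_univ, ← Set.ncard_univ]
          exact Set.ncard_image_le (Set.toFinite _)
      _ = Nat.card H' * (m + 2) := by rw [Nat.card_prod]; simp
      _ ≤ (m + 1).factorial * (m + 2) := Nat.mul_le_mul_right _ hcard
      _ = (m + 1 + 1).factorial := by rw [Nat.factorial_succ (m + 1)]; ring


/-- the adjacent transposition, extended by `1` -/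
def cxt (n : ℕ) (i : ℕ) : Equiv.Perm (Fin (n + 1)) :=
  if h : i < n then Equiv.swap (⟨i, h⟩ : Fin n).castSucc (⟨i, h⟩ : Fin n).succ else 1

theorem cxt_sq (n i : ℕ) (h : i < n) : cxt n i * cxt n i = 1 := by
  simp only [cxt, h, dif_pos]
  exact Equiv.swap_mul_self _ _

theorem cxt_braid (n i : ℕ) (h : i + 1 < n) :
    cxt n i * cxt n (i + 1) * cxt n i = cxt n (i + 1) * cxt n i * cxt n (i + 1) := by
  have h0 : i < n := by omega
  simp only [cxt, h, h0, dif_pos]
  have e1 : (⟨i, h0⟩ : Fin n).succ = (⟨i + 1, h⟩ : Fin n).castSucc := rfl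
  rw [e1]
  have a1 : (⟨i, h0⟩ : Fin n).castSucc ≠ (⟨i + 1, h⟩ : Fin n).castSucc := by
    intro h'; simp [Fin.ext_iff] at h'
  have a2 : (⟨i, h0⟩ : Fin n).castSucc ≠ (⟨i + 1, h⟩ : Fin n).succ := by
    intro h'; simp [Fin.ext_iff] at h'; omega
  have a3 : (⟨i + 1, h⟩ : Fin n).castSucc ≠ (⟨i + 1, h⟩ : Fin n).succ := by
    intro h'; simp [Fin.ext_iff] at h'
  rw [Equiv.swap_mul_swap_mul_swap a1 a2]
  rw [Equiv.swap_comm (⟨i, h0⟩ : Fin n).castSucc (⟨i + 1, h⟩ : Fin n).castSucc,
    Equiv.swap_comm (⟨i + 1, h⟩ : Fin n).castSucc (⟨i + 1, h⟩ : Fin n).succ]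
  rw [Equiv.swap_mul_swap_mul_swap a3.symm a2.symm]
  rw [Equiv.swap_comm]

theorem cxt_comm (n i j : ℕ) (hij : i + 1 < j) (hj : j < n) :
    cxt n i * cxt n j = cxt n j * cxt n i := by
  have h0 : i < n := by omega
  simp only [cxt, hj, h0, dif_pos]
  have := Equiv.Perm.disjoint_swap_swap (x := (⟨i, h0⟩ : Fin n).castSucc)
    (y := (⟨i, h0⟩ : Fin n).succ) (z := (⟨j, hj⟩ : Fin n).castSucc)
    (t := (⟨j, hj⟩ : Fin n).succ) (by
      simp [Fin.ext_iff]
      omega)
  exact this.commute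


/-- universal property of the Coxeter presentation of the symmetric group -/
theorem cox_lift {Q : Type} [Group Q] (n : ℕ) (s : ℕ → Q)
    (h2 : ∀ i, i < n → s i * s i = 1)
    (h3 : ∀ i, i + 1 < n → s i * s (i + 1) * s i = s (i + 1) * s i * s (i + 1))
    (hc : ∀ i j, i + 1 < j → j < n → s i * s j = s j * s i) :
    ∃ f : Equiv.Perm (Fin (n + 1)) →* Q,
      ∀ i : Fin n, f (Equiv.swap i.castSucc i.succ) = s i := by
  set t : ℕ → Q × Equiv.Perm (Fin (n + 1)) := fun i => (s i, cxt n i) with ht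
  obtain ⟨hfin, hcard⟩ := cox_card n (Q × Equiv.Perm (Fin (n + 1))) inferInstance t
    (fun i hi => by
      simp only [ht, Prod.mk_mul_mk, h2 i hi, cxt_sq n i hi]; rfl)
    (fun i hi => by
      simp only [ht, Prod.mk_mul_mk, h3 i hi, cxt_braid n i hi])
    (fun i j hij hj => by
      simp only [ht, Prod.mk_mul_mk, hc i j hij hj, cxt_comm n i j hij hj])
  set K := Subgroup.closure {q : Q × Equiv.Perm (Fin (n + 1)) | ∃ i, i < n ∧ t i = q} with hK
  have hmem : ∀ i, i < n → t i ∈ K := fun i hi => Subgroup.subset_closure ⟨i, hi, rfl⟩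
  let sn : K →* Equiv.Perm (Fin (n + 1)) := (MonoidHom.snd Q (Equiv.Perm (Fin (n + 1)))).comp K.subtype
  have hsurj : Function.Surjective sn := by
    rw [← MonoidHom.range_eq_top, eq_top_iff]
    have htop : Subgroup.closure (Set.range fun i : Fin n => Equiv.swap i.castSucc i.succ) = ⊤ :=
      Subgroup.closure_eq_top_of_mclosure_eq_top (Equiv.Perm.mclosure_swap_castSucc_succ n)
    rw [← htop, Subgroup.closure_le]
    rintro _ ⟨i, rfl⟩
    refine ⟨⟨t i, hmem i i.2⟩, ?_⟩
    simp [sn, ht, cxt]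
    rfl
  have hcardP : Nat.card (Equiv.Perm (Fin (n + 1))) = (n + 1).factorial := by
    rw [Nat.card_eq_fintype_card, Fintype.card_perm, Fintype.card_fin]
  have hbij : Function.Bijective sn := by
    refine Function.Surjective.bijective_of_nat_card_le hsurj ?_
    rw [hcardP]
    exact hcard
  let eq : K ≃* Equiv.Perm (Fin (n + 1)) := MulEquiv.ofBijective sn hbij
  refine ⟨((MonoidHom.fst Q (Equiv.Perm (Fin (n + 1)))).comp K.subtype).comp eq.symm.toMonoidHom, ?_⟩
  intro i
  have hi : eq ⟨t i, hmem i i.2⟩ = Equiv.swap i.castSucc i.succ := by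
    simp [eq, sn, ht, cxt]
    rfl
  have hi' : eq.symm (Equiv.swap i.castSucc i.succ) = ⟨t i, hmem i i.2⟩ := by
    rw [← hi, MulEquiv.symm_apply_apply]
  simp [hi', ht]

end

end Pool.Agent.H665Simp
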