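import Mathlib
import Pool.Agent.H665Simp.DefsA
import Pool.Agent.H665Simp.DefsC
import Pool.Agent.H665Simp.P_cox_lift

set_option autoImplicit false

namespace Pool.Agent.H665Simp

section
variable {G : Type} [Group G] {e : ℕ} {S : SS G (e + 1)} {Q : Type} [Group Q]


/-- the symmetric group on the leaves of level `M` maps to `Q` -/
theorem theta_exists (F : Fam S Q) (he : 3 ≤ e) (M : ℕ) :
    ∃ Θ : Equiv.Perm (Fin ((M + 1) * e + 1)) →* Q,
      ∀ k : Fin ((M + 1) * e), Θ (Equiv.swap k.castSucc k.succ) = F.sg M k := by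
  have hN : 3 ≤ (M + 1) * e := by nlinarith [Nat.zero_le (M * e)]
  refine cox_lift ((M + 1) * e) (F.sg M) ?_ ?_ ?_
  · intro i hi
    unfold Fam.sg
    split_ifs with h
    · exact F.C1 i
    · exact F.T3 M
  · intro i hi
    have e1 : F.sg M i = F.p i := if_pos hi
    rw [e1]
    by_cases h : i + 1 + 1 < (M + 1) * e
    · have e2 : F.sg M (i + 1) = F.p (i + 1) := if_pos h
      rw [e2]; exact F.C2 i
    · have e2 : F.sg M (i + 1) = F.t M := if_neg h
      have e3 : i = (M + 1) * e - 2 := by omega
      rw [e2, e3]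
      exact (F.T5 M).symm
  · intro i j hij hj
    have e1 : F.sg M i = F.p i := if_pos (by omega)
    rw [e1]
    by_cases h : j + 1 < (M + 1) * e
    · have e2 : F.sg M j = F.p j := if_pos h
      rw [e2]; exact F.C3 i j hij
    · have e2 : F.sg M j = F.t M := if_neg h
      rw [e2]
      exact F.T4 M i (by omega)

end

end Pool.Agent.H665Simp
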