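import Mathlib
import Pool.Agent.H665Simp.DefsA
import Pool.Agent.H665Simp.DefsC
import Pool.Agent.H665Simp.P_stab_gen
import Pool.Agent.H665Simp.P_theta_exists
import Pool.Agent.H665Simp.P_SN_mem

set_option autoImplicit false

namespace Pool.Agent.H665Simp

section
variable {G : Type} [Group G] {e : ℕ} {S : SS G (e + 1)} {Q : Type} [Group Q]



theorem theta_comm_14770 (F : Fam S Q) (M : ℕ)
    (Θ : Equiv.Perm (Fin ((M + 1) * e + 1)) →* Q)
    (hΘ : ∀ k : Fin ((M + 1) * e), Θ (Equiv.swap k.castSucc k.succ) = F.sg M k)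
    (ρ : Equiv.Perm (Fin ((M + 1) * e + 1))) (hρ : ρ 0 = 0) (g : G) :
    Θ ρ * F.l g = F.l g * Θ ρ := by
  have h := stab_gen ((M + 1) * e) ρ hρ
  clear hρ
  induction h using Subgroup.closure_induction with
  | mem s hs =>
    obtain ⟨k, hk, rfl⟩ := hs
    rw [hΘ]
    unfold Fam.sg
    split_ifs
    · exact (F.L2 k g hk).symm
    · exact (F.L3 M g).symm
  | one => simp
  | mul x y _ _ hx hy =>
    rw [map_mul, mul_assoc, hy, ← mul_assoc, hx, mul_assoc]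
  | inv x _ hx =>
    rw [map_inv]
    rw [inv_mul_eq_iff_eq_mul, ← mul_assoc, hx, mul_assoc, mul_inv_cancel, mul_one]

/-- structure of the labelled permutations -/
theorem SN_struct (F : Fam S Q) (he : 3 ≤ e) (M : ℕ) :
    ∃ (Θ : Equiv.Perm (Fin ((M + 1) * e + 1)) →* Q) (Λ : (Fin ((M + 1) * e + 1) → G) →* Q),
      (∀ k : Fin ((M + 1) * e), Θ (Equiv.swap k.castSucc k.succ) = F.sg M k) ∧
      (∀ g, Λ (Pi.mulSingle 0 g) = F.l g) ∧
      (∀ ρ f, Θ ρ * Λ f = Λ (fun k => f (ρ⁻¹ k)) * Θ ρ) ∧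
      (∀ σ, σ ∈ F.SN M → ∃ ρ f, σ = Θ ρ * Λ f) := by
  classical
  obtain ⟨Θ, hΘ⟩ := theta_exists F he M
  have hn : 3 ≤ (M + 1) * e := le_trans he (Nat.le_mul_of_pos_left e (Nat.succ_pos M))
  have hcom := fun ρ (hρ : ρ 0 = 0) g => theta_comm_14770 F M Θ hΘ ρ hρ g
  let Lam : Fin ((M + 1) * e + 1) → (G →* Q) := fun k =>
    (MulAut.conj (Θ (Equiv.swap 0 k))).toMonoidHom.comp F.l
  have hLam : ∀ k g, Lam k g = Θ (Equiv.swap 0 k) * F.l g * (Θ (Equiv.swap 0 k))⁻¹ :=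
    fun k g => rfl
  have hLam0 : ∀ g, Lam 0 g = F.l g := by
    intro g
    rw [hLam, Equiv.swap_self]
    change Θ 1 * F.l g * (Θ 1)⁻¹ = F.l g
    simp
  have hconj : ∀ ρ k g, Θ ρ * Lam k g * (Θ ρ)⁻¹ = Lam (ρ k) g := by
    intro ρ k g
    set τ : Equiv.Perm (Fin ((M + 1) * e + 1)) := (Equiv.swap 0 (ρ k))⁻¹ * ρ * Equiv.swap 0 k with hτ
    have hτ0 : τ 0 = 0 := by
      rw [hτ]
      simp [Equiv.Perm.mul_apply]
    have hc := hcom τ hτ0 g
    have e1 : Θ ρ * Θ (Equiv.swap 0 k) = Θ (Equiv.swap 0 (ρ k)) * Θ τ := by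
      rw [← map_mul, ← map_mul]
      congr 1
      rw [hτ]
      group
    rw [hLam, hLam]
    calc Θ ρ * (Θ (Equiv.swap 0 k) * F.l g * (Θ (Equiv.swap 0 k))⁻¹) * (Θ ρ)⁻¹
        = (Θ ρ * Θ (Equiv.swap 0 k)) * F.l g * (Θ ρ * Θ (Equiv.swap 0 k))⁻¹ := by group
      _ = Θ (Equiv.swap 0 (ρ k)) * (Θ τ * F.l g) * (Θ (Equiv.swap 0 (ρ k)) * Θ τ)⁻¹ := by
          rw [e1]; group
      _ = Θ (Equiv.swap 0 (ρ k)) * F.l g * (Θ (Equiv.swap 0 (ρ k)))⁻¹ := by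
          rw [hc]; group
  have h01 : ∀ g h, Lam 0 g * Lam 1 h = Lam 1 h * Lam 0 g := by
    intro g h
    have hp : Θ (Equiv.swap 0 1) = F.p 0 := by
      have h1 := hΘ ⟨0, by omega⟩
      have e1 : (⟨0, by omega⟩ : Fin ((M + 1) * e)).castSucc = 0 := rfl
      have e2 : (⟨0, by omega⟩ : Fin ((M + 1) * e)).succ = 1 := by
        ext
        simp
        rw [Nat.mod_eq_of_lt (by omega)]
      rw [e1, e2] at h1
      rw [h1]
      unfold Fam.sg
      rw [if_pos (by change 0 + 1 < (M + 1) * e; omega)]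
    have hpi : (F.p 0)⁻¹ = F.p 0 := inv_eq_of_mul_eq_one_right (F.C1 0)
    rw [hLam0, hLam, hp, hpi]
    exact F.L4 g h
  have hcomm : Pairwise fun i j => ∀ x y, Commute (Lam i x) (Lam j y) := by
    intro k k' hkk g h
    obtain ⟨ρ, hρ0, hρ1⟩ : ∃ ρ : Equiv.Perm (Fin ((M + 1) * e + 1)), ρ 0 = k ∧ ρ 1 = k' := by
      have h01' : (0 : Fin ((M + 1) * e + 1)) ≠ 1 := by
        intro h
        have := congrArg Fin.val h
        simp at this
        omega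
      set k'' := (Equiv.swap 0 k)⁻¹ k' with hk''
      have hne : k'' ≠ 0 := by
        intro h
        rw [hk''] at h
        have : k' = (Equiv.swap 0 k) 0 :=
          (Equiv.apply_symm_apply (Equiv.swap 0 k) k').symm.trans
            (congrArg (Equiv.swap 0 k) h)
        rw [Equiv.swap_apply_left] at this
        exact hkk this.symm
      refine ⟨Equiv.swap 0 k * Equiv.swap 1 k'', ?_, ?_⟩
      · rw [Equiv.Perm.mul_apply, Equiv.swap_apply_of_ne_of_ne h01' hne.symm,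
          Equiv.swap_apply_left]
      · rw [Equiv.Perm.mul_apply, Equiv.swap_apply_left, hk'']
        simp
    rw [← hρ0, ← hρ1, ← hconj, ← hconj]
    have := h01 g h
    change _ * _ = _ * _
    calc Θ ρ * Lam 0 g * (Θ ρ)⁻¹ * (Θ ρ * Lam 1 h * (Θ ρ)⁻¹)
        = Θ ρ * (Lam 0 g * Lam 1 h) * (Θ ρ)⁻¹ := by group
      _ = Θ ρ * (Lam 1 h * Lam 0 g) * (Θ ρ)⁻¹ := by rw [this]
      _ = _ := by group
  set Λ : (Fin ((M + 1) * e + 1) → G) →* Q := MonoidHom.noncommPiCoprod Lam hcomm with hΛ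
  have hΛs : ∀ k g, Λ (Pi.mulSingle k g) = Lam k g := by
    intro k g
    rw [hΛ, MonoidHom.noncommPiCoprod_mulSingle]
  have hequiv : ∀ ρ f, Θ ρ * Λ f = Λ (fun k => f (ρ⁻¹ k)) * Θ ρ := by
    intro ρ f
    let φ1 : (Fin ((M + 1) * e + 1) → G) →* Q := (MulAut.conj (Θ ρ)).toMonoidHom.comp Λ
    let φ2 : (Fin ((M + 1) * e + 1) → G) →* Q := Λ.comp
      { toFun := fun f k => f (ρ⁻¹ k)
        map_one' := rfl
        map_mul' := fun _ _ => rfl }
    have h12 : φ1 = φ2 := by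
      apply MonoidHom.pi_ext
      intro k g
      change Θ ρ * Λ (Pi.mulSingle k g) * (Θ ρ)⁻¹ = Λ (fun j => (Pi.mulSingle k g : _ → G) (ρ⁻¹ j))
      have e1 : (fun j => (Pi.mulSingle k g : Fin ((M + 1) * e + 1) → G) (ρ⁻¹ j))
          = Pi.mulSingle (ρ k) g := by
        funext j
        by_cases hj : j = ρ k
        · subst hj
          simp
        · rw [Pi.mulSingle_eq_of_ne hj, Pi.mulSingle_eq_of_ne]
          intro h
          apply hj
          rw [← h]; simp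
      rw [e1, hΛs, hΛs, hconj]
    have h3 : φ1 f = φ2 f := by rw [h12]
    have h4 : Θ ρ * Λ f * (Θ ρ)⁻¹ = Λ (fun k => f (ρ⁻¹ k)) := h3
    rw [← h4]; group
  refine ⟨Θ, Λ, hΘ, fun g => by rw [hΛs, hLam0], hequiv, ?_⟩
  intro σ hσ
  unfold Fam.SN at hσ
  induction hσ using Subgroup.closure_induction with
  | mem s hs =>
    rcases hs with ⟨k, hk, rfl⟩ | ⟨g, rfl⟩
    · exact ⟨Equiv.swap (⟨k, hk⟩ : Fin ((M + 1) * e)).castSucc (⟨k, hk⟩ : Fin ((M + 1) * e)).succ, 1,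
        by rw [hΘ, map_one, mul_one]⟩
    · exact ⟨1, Pi.mulSingle 0 g, by rw [hΛs, hLam0, map_one, one_mul]⟩
  | one => exact ⟨1, 1, by rw [map_one, map_one, mul_one]⟩
  | mul x y _ _ hx hy =>
    obtain ⟨ρ, f, rfl⟩ := hx
    obtain ⟨ρ', f', rfl⟩ := hy
    refine ⟨ρ * ρ', (fun k => f (ρ' k)) * f', ?_⟩
    have h1 := hequiv ρ' (fun k => f (ρ' k))
    have e1 : (fun k => (fun k => f (ρ' k)) (ρ'⁻¹ k)) = f := by
      funext k
      simp
    rw [e1] at h1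
    rw [map_mul, map_mul, mul_assoc, ← mul_assoc (Λ f), ← h1]
    group
  | inv x _ hx =>
    obtain ⟨ρ, f, rfl⟩ := hx
    refine ⟨ρ⁻¹, fun k => (f⁻¹) (ρ⁻¹ k), ?_⟩
    have h1 := hequiv ρ⁻¹ (fun k => (f⁻¹) (ρ⁻¹ k))
    have e1 : (fun k => (fun k => (f⁻¹) (ρ⁻¹ k)) ((ρ⁻¹)⁻¹ k)) = f⁻¹ := by
      funext k
      simp
    rw [e1] at h1
    rw [h1, map_inv, map_inv, mul_inv_rev]

end

end Pool.Agent.H665Simp
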