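import Mathlib
import Pool.Agent.H665Simp.DefsA

set_option autoImplicit false

namespace Pool.Agent.H665Simp

section
variable {G : Type} [Group G] {e : ℕ} {S : SS G (e + 1)} {Q : Type} [Group Q] {W : Type}


/-- a normal subgroup containing (the image of) a 3-cycle identifies all adjacent transpositions -/
theorem alt_mod (n : ℕ) (Θ : Equiv.Perm (Fin (n + 1)) →* Q) (N : Subgroup Q) [N.Normal]
    (a b c : Fin (n + 1)) (hab : a ≠ b) (hbc : b ≠ c) (hac : a ≠ c)
    (h : Θ (Equiv.swap a b * Equiv.swap b c) ∈ N) (k k' : Fin n) :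
    Θ (Equiv.swap k.castSucc k.succ) * (Θ (Equiv.swap k'.castSucc k'.succ))⁻¹ ∈ N := by
  have h3 : (Equiv.swap a b * Equiv.swap b c).IsThreeCycle := by
    rw [Equiv.swap_comm a b]
    exact Equiv.Perm.isThreeCycle_swap_mul_swap_same hab.symm hbc hac
  have hall : alternatingGroup (Fin (n + 1)) ≤ N.comap Θ := by
    rw [← Equiv.Perm.closure_three_cycles_eq_alternating, Subgroup.closure_le]
    intro σ hσ
    have hσ' : σ.IsThreeCycle := hσ
    have hconj : IsConj (Equiv.swap a b * Equiv.swap b c) σ := by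
      rw [Equiv.Perm.isConj_iff_cycleType_eq, h3.cycleType, hσ'.cycleType]
    rw [isConj_iff] at hconj
    obtain ⟨τ, hτ⟩ := hconj
    rw [← hτ]
    have hn : (N.comap Θ).Normal := inferInstance
    exact hn.conj_mem _ h τ
  have hsign : Equiv.swap k.castSucc k.succ * (Equiv.swap k'.castSucc k'.succ)⁻¹ ∈
      alternatingGroup (Fin (n + 1)) := by
    rw [Equiv.Perm.mem_alternatingGroup, map_mul, Equiv.Perm.sign_inv,
      Equiv.Perm.sign_swap (Fin.castSucc_lt_succ).ne, Equiv.Perm.sign_swap (Fin.castSucc_lt_succ).ne]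
    rfl
  have h4 := hall hsign
  rw [Subgroup.mem_comap, map_mul, map_inv] at h4
  exact h4

end

end Pool.Agent.H665Simp
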