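import Mathlib
import Pool.Agent.H665Simp.DefsA
import Pool.Agent.H665Simp.DefsD
import Pool.Agent.H665Simp.DefsG

set_option autoImplicit false

namespace Pool.Agent.H665Simp

section
variable {nJ nQ B : ℕ} [NeZero B]


theorem sa_resd_val (v : Fin nJ → ℤ) (j : Fin nJ) :
    (((resd B v j : Fin B) : ℕ) : ℤ) = v j % (B : ℤ) := by
  have hB : (0 : ℤ) < (B : ℤ) := by exact_mod_cast Nat.pos_of_ne_zero (NeZero.ne B)
  have h1 : 0 ≤ v j % (B : ℤ) := Int.emod_nonneg _ hB.ne'
  have h2 : v j % (B : ℤ) < (B : ℤ) := Int.emod_lt_of_pos _ hB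
  change (((v j % (B : ℤ)).toNat % B : ℕ) : ℤ) = _
  rw [Nat.mod_eq_of_lt (by omega), Int.toNat_of_nonneg h1]

theorem sa_ext {c : Fin nJ → Fin B} {v : Fin nJ → ℤ}
    (h : ∀ j, ((c j : ℕ) : ℤ) = v j % (B : ℤ)) : c = resd B v := by
  ext j
  have := sa_resd_val (B := B) v j
  rw [← h j] at this
  exact_mod_cast this.symm

/-- the claim for one element -/
def SaP (m : Mach nJ nQ B) (SL : GG nJ nQ →* Wr (Lt nJ nQ B) (GG nJ nQ))
    (ab : GG nJ nQ →* Multiplicative (Fin nJ → ℤ)) (g : GG nJ nQ) : Prop :=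
  ∀ (i : Fin nQ) (ρ c : Fin nJ → Fin B),
    (SL g).σ (false, Sum.inl (Sum.inl (i, ρ, c))) =
      (false, Sum.inl (Sum.inl (i, ρ,
        resd B (fun j => ((c j : ℕ) : ℤ) + (ab g).toAdd j)))) ∧
    ∀ j, (ab ((SL g).f (false, Sum.inl (Sum.inl (i, ρ, c))))).toAdd j =
      m.al i ρ j * ((((c j : ℕ) : ℤ) + (ab g).toAdd j) / B)

theorem sa_c_div (c : Fin B) : ((c : ℕ) : ℤ) / (B : ℤ) = 0 := by
  have := c.2
  exact Int.ediv_eq_zero_of_lt (by positivity) (by exact_mod_cast this)

theorem sa_c_mod (c : Fin B) : ((c : ℕ) : ℤ) % (B : ℤ) = ((c : ℕ) : ℤ) := by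
  have := c.2
  exact Int.emod_eq_of_lt (by positivity) (by exact_mod_cast this)

theorem sa_mul (m : Mach nJ nQ B) (SL : GG nJ nQ →* Wr (Lt nJ nQ B) (GG nJ nQ))
    (ab : GG nJ nQ →* Multiplicative (Fin nJ → ℤ)) (g h : GG nJ nQ)
    (hg : SaP m SL ab g) (hh : SaP m SL ab h) : SaP m SL ab (g * h) := by
  have hB : (0 : ℤ) < (B : ℤ) := by exact_mod_cast Nat.pos_of_ne_zero (NeZero.ne B)
  intro i ρ c
  obtain ⟨h1, h2⟩ := hh i ρ c
  obtain ⟨h3, h4⟩ := hg i ρ (resd B (fun j => ((c j : ℕ) : ℤ) + (ab h).toAdd j))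
  constructor
  · rw [map_mul, Wr.mul_σ, Equiv.Perm.mul_apply, h1, h3]
    refine congrArg (fun z => ((false, Sum.inl (Sum.inl (i, ρ, z))) : Lt nJ nQ B)) (sa_ext ?_)
    intro j
    rw [sa_resd_val, sa_resd_val, map_mul, toAdd_mul, Pi.add_apply]
    rw [Int.emod_add_emod]
    congr 1
    ring
  · intro j
    rw [map_mul, Wr.mul_f, h1, map_mul, toAdd_mul, Pi.add_apply, h2, h4, sa_resd_val, map_mul,
      toAdd_mul, Pi.add_apply, ← mul_add]
    congr 1
    have e1 := Int.emod_add_mul_ediv (((c j : ℕ) : ℤ) + (ab h).toAdd j) (B : ℤ)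
    have e2 : ((c j : ℕ) : ℤ) + ((ab g).toAdd j + (ab h).toAdd j) =
        ((((c j : ℕ) : ℤ) + (ab h).toAdd j) % (B : ℤ) + (ab g).toAdd j) +
          (B : ℤ) * ((((c j : ℕ) : ℤ) + (ab h).toAdd j) / (B : ℤ)) := by
      linarith
    rw [e2, Int.add_mul_ediv_left _ _ hB.ne']

theorem sa_inv (m : Mach nJ nQ B) (SL : GG nJ nQ →* Wr (Lt nJ nQ B) (GG nJ nQ))
    (ab : GG nJ nQ →* Multiplicative (Fin nJ → ℤ)) (g : GG nJ nQ)
    (hg : SaP m SL ab g) : SaP m SL ab g⁻¹ := by
  have hB : (0 : ℤ) < (B : ℤ) := by exact_mod_cast Nat.pos_of_ne_zero (NeZero.ne B)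
  intro i ρ c
  obtain ⟨h3, h4⟩ := hg i ρ (resd B (fun j => ((c j : ℕ) : ℤ) + (ab g⁻¹).toAdd j))
  have hc : resd B (fun j => ((resd B (fun j => ((c j : ℕ) : ℤ) + (ab g⁻¹).toAdd j) j : ℕ) : ℤ) +
      (ab g).toAdd j) = c := by
    symm
    apply sa_ext
    intro j
    rw [sa_resd_val, map_inv, toAdd_inv, Pi.neg_apply, Int.emod_add_emod]
    rw [← sa_c_mod (c j)]
    congr 1
    rw [sa_c_mod]
    ring
  have hσ : (SL g)⁻¹.σ (false, Sum.inl (Sum.inl (i, ρ, c))) =
      (false, Sum.inl (Sum.inl (i, ρ,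
        resd B (fun j => ((c j : ℕ) : ℤ) + (ab g⁻¹).toAdd j)))) := by
    rw [Wr.inv_σ, Equiv.Perm.inv_eq_iff_eq, h3, hc]
  constructor
  · rw [map_inv SL, hσ]
  · intro j
    rw [map_inv SL, Wr.inv_f]
    rw [Wr.inv_σ] at hσ
    rw [hσ, map_inv ab, toAdd_inv, Pi.neg_apply, h4, sa_resd_val, ← mul_neg]
    congr 1
    have e1 := Int.emod_add_mul_ediv (((c j : ℕ) : ℤ) + (ab g⁻¹).toAdd j) (B : ℤ)
    have e3 : (ab g⁻¹).toAdd j = - (ab g).toAdd j := by
      rw [map_inv, toAdd_inv, Pi.neg_apply]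
    have e2 : (((c j : ℕ) : ℤ) + (ab g⁻¹).toAdd j) % (B : ℤ) + (ab g).toAdd j =
        ((c j : ℕ) : ℤ) + (B : ℤ) * (-((((c j : ℕ) : ℤ) + (ab g⁻¹).toAdd j) / (B : ℤ))) := by
      linarith
    rw [e2, Int.add_mul_ediv_left _ _ hB.ne', sa_c_div]
    ring

theorem sa_one (m : Mach nJ nQ B) (SL : GG nJ nQ →* Wr (Lt nJ nQ B) (GG nJ nQ))
    (ab : GG nJ nQ →* Multiplicative (Fin nJ → ℤ)) : SaP m SL ab 1 := by
  intro i ρ c
  constructor
  · rw [map_one, map_one, Wr.one_σ, Equiv.Perm.one_apply]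
    refine congrArg (fun z => ((false, Sum.inl (Sum.inl (i, ρ, z))) : Lt nJ nQ B)) (sa_ext ?_)
    intro j
    rw [toAdd_one, Pi.zero_apply, add_zero, sa_c_mod]
  · intro j
    rw [map_one, Wr.one_f, map_one, toAdd_one, Pi.zero_apply, add_zero, sa_c_div, mul_zero]

/-- elements with trivial `ab` and trivial action and trivial `ab` of sections -/
theorem sa_triv (m : Mach nJ nQ B) (SL : GG nJ nQ →* Wr (Lt nJ nQ B) (GG nJ nQ))
    (ab : GG nJ nQ →* Multiplicative (Fin nJ → ℤ)) (g : GG nJ nQ) (h0 : ab g = 1)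
    (h1 : ∀ (i : Fin nQ) (ρ c : Fin nJ → Fin B),
      (SL g).σ (false, Sum.inl (Sum.inl (i, ρ, c))) = (false, Sum.inl (Sum.inl (i, ρ, c))))
    (h2 : ∀ (i : Fin nQ) (ρ c : Fin nJ → Fin B),
      ab ((SL g).f (false, Sum.inl (Sum.inl (i, ρ, c)))) = 1) : SaP m SL ab g := by
  intro i ρ c
  constructor
  · rw [h1, h0]
    refine congrArg (fun z => ((false, Sum.inl (Sum.inl (i, ρ, z))) : Lt nJ nQ B)) (sa_ext ?_)
    intro j
    rw [toAdd_one, Pi.zero_apply, add_zero, sa_c_mod]
  · intro j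
    rw [h2, h0, toAdd_one, Pi.zero_apply, add_zero, sa_c_div, mul_zero]

theorem sa_evG_wd (m : Mach nJ nQ B) (w : ℕ) (g : Lg nJ nQ) : evG m w (wd g) = gg g := by
  simp [evG, evO, wd]

/-- action and sections on the simulation letters -/
theorem sim_act (m : Mach nJ nQ B) (w : ℕ)
    (SL : GG nJ nQ →* Wr (Lt nJ nQ B) (GG nJ nQ)) (h : IsSL m w SL)
    (ab : GG nJ nQ →* Multiplicative (Fin nJ → ℤ))
    (hx : ∀ j, ab (gg (Lg.x j)) = Multiplicative.ofAdd (Pi.single j 1)) (ha : ab (gg Lg.a) = 1)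
    (hu : ∀ i, ab (gg (Lg.u i)) = 1) (hs : ∀ k, ab (gg (Lg.s k)) = 1)
    (ht : ∀ k, ab (gg (Lg.t k)) = 1) (g : GG nJ nQ) (i : Fin nQ) (ρ c : Fin nJ → Fin B) :
    (SL g).σ (false, Sum.inl (Sum.inl (i, ρ, c))) =
      (false, Sum.inl (Sum.inl (i, ρ,
        resd B (fun j => ((c j : ℕ) : ℤ) + (ab g).toAdd j)))) ∧
    ∀ j, (ab ((SL g).f (false, Sum.inl (Sum.inl (i, ρ, c))))).toAdd j =
      m.al i ρ j * ((((c j : ℕ) : ℤ) + (ab g).toAdd j) / B) := by
  have hB : (0 : ℤ) < (B : ℤ) := by exact_mod_cast Nat.pos_of_ne_zero (NeZero.ne B)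
  have hgen : ∀ s : Lg nJ nQ, SaP m SL ab (gg s) := by
    intro s
    obtain ⟨hσ, hf⟩ := h s
    cases s with
    | x k =>
      intro i ρ c
      constructor
      · rw [hσ]
        have e : actL (B := B) (Lg.x k : Lg nJ nQ) (false, Sum.inl (Sum.inl (i, ρ, c))) =
            (false, Sum.inl (Sum.inl (i, ρ, c + Pi.single k 1))) := by
          unfold actL
          rw [Equiv.Perm.prodExtendRight_apply_eq]
          rfl
        rw [e]
        refine congrArg (fun z => ((false, Sum.inl (Sum.inl (i, ρ, z))) : Lt nJ nQ B)) (sa_ext ?_)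
        intro j
        rw [hx, toAdd_ofAdd]
        have e1 : (((c + Pi.single k 1 : Fin nJ → Fin B) j : Fin B) : ℕ) =
            ((c j : ℕ) + (if j = k then 1 else 0)) % B := by
          rw [Pi.add_apply, Fin.val_add]
          by_cases hjk : j = k
          · subst hjk
            rw [Pi.single_eq_same, if_pos rfl, Fin.val_one', Nat.add_mod_mod]
          · rw [Pi.single_eq_of_ne hjk, if_neg hjk, Fin.val_zero]
        rw [e1]
        push_cast
        congr 2
        by_cases hjk : j = k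
        · subst hjk; simp
        · simp [hjk]
      · intro j
        rw [hf, hx, toAdd_ofAdd]
        change (ab (evG m w (if (c k : ℕ) + 1 = B then wd (.x k) ^ m.al i ρ k else 1))).toAdd j = _
        have hck : ((c k : ℕ) : ℤ) < (B : ℤ) := by exact_mod_cast (c k).2
        split_ifs with hck1
        · rw [map_zpow, sa_evG_wd, map_zpow, hx, toAdd_zpow, toAdd_ofAdd, Pi.smul_apply]
          by_cases hjk : j = k
          · subst hjk
            rw [Pi.single_eq_same, smul_eq_mul, mul_one]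
            have : ((c j : ℕ) : ℤ) + 1 = (B : ℤ) := by exact_mod_cast hck1
            rw [this, Int.ediv_self hB.ne', mul_one]
          · rw [Pi.single_eq_of_ne hjk, smul_zero, add_zero, sa_c_div, mul_zero]
        · rw [map_one, map_one, toAdd_one, Pi.zero_apply]
          by_cases hjk : j = k
          · subst hjk
            rw [Pi.single_eq_same]
            have hlt : ((c j : ℕ) : ℤ) + 1 < (B : ℤ) := by
              have : (c j : ℕ) + 1 < B := lt_of_le_of_ne (c j).2 hck1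
              exact_mod_cast this
            rw [Int.ediv_eq_zero_of_lt (by positivity) hlt, mul_zero]
          · rw [Pi.single_eq_of_ne hjk, add_zero, sa_c_div, mul_zero]
    | a =>
      refine sa_triv m SL ab _ ha ?_ ?_
      · intro i ρ c
        rw [hσ]
        unfold actL
        rw [Equiv.Perm.prodExtendRight_apply_eq]
        rfl
      · intro i ρ c
        rw [hf]
        change ab (evG m w (if c = 0 then wd Lg.a else 1)) = 1
        split_ifs
        · rw [sa_evG_wd, ha]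
        · rw [map_one, map_one]
    | u k =>
      refine sa_triv m SL ab _ (hu k) ?_ ?_
      · intro i ρ c
        rw [hσ]
        unfold actL
        rw [Equiv.Perm.prodExtendRight_apply_eq]
        rfl
      · intro i ρ c
        rw [hf]
        change ab (evG m w (if k = i ∧ c = ρ then uW m i ρ else 1)) = 1
        split_ifs
        · unfold uW
          cases hn : m.nxt i ρ with
          | none => simp
          | some i' =>
            simp only [map_mul, map_inv, sa_evG_wd, hu, mul_one, inv_mul_cancel]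
        · rw [map_one, map_one]
    | s k =>
      refine sa_triv m SL ab _ (hs k) ?_ ?_
      · intro i ρ c
        rw [hσ]
        unfold actL
        rw [Equiv.Perm.prodExtendRight_apply_eq]
        rfl
      · intro i ρ c
        rw [hf]
        change ab (evG m w 1) = 1
        rw [map_one, map_one]
    | t k =>
      refine sa_triv m SL ab _ (ht k) ?_ ?_
      · intro i ρ c
        rw [hσ]
        unfold actL
        rw [Equiv.Perm.prodExtendRight_apply_eq]
        rfl
      · intro i ρ c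
        rw [hf]
        change ab (evG m w 1) = 1
        rw [map_one, map_one]
  have hall : SaP m SL ab g := by
    have hmem : g ∈ Subgroup.closure (Set.range (PresentedGroup.of : Lg nJ nQ → GG nJ nQ)) := by
      rw [PresentedGroup.closure_range_of]
      trivial
    induction hmem using Subgroup.closure_induction with
    | mem y hy =>
      obtain ⟨s, rfl⟩ := hy
      exact hgen s
    | one => exact sa_one m SL ab
    | mul y z _ _ hy hz => exact sa_mul m SL ab y z hy hz
    | inv y _ hy => exact sa_inv m SL ab y hy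
  exact hall i ρ c

end

end Pool.Agent.H665Simp
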