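import Mathlib
import Pool.Agent.H665Simp.DefsA
import Pool.Agent.H665Simp.DefsD
import Pool.Agent.H665Simp.DefsG
import Pool.Agent.H665Simp.P_sim_act

set_option autoImplicit false

namespace Pool.Agent.H665Simp

section
variable {nJ nQ B : ℕ} [NeZero B]


section cHelpers

theorem cW_conj {A G : Type} [Group G] (u g : Wr A G) (c : A) (h1 : u.σ (g.σ c) = g.σ c) :
    (g⁻¹ * u * g).σ c = c ∧ (g⁻¹ * u * g).f c = (g.f c)⁻¹ * u.f (g.σ c) * g.f c := by
  constructor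
  · simp [h1]
  · simp [h1]

theorem cW_silA {A G : Type} [Group G] (a b : Wr A G) (c : A) (h1 : a.σ c = c)
    (h2 : a.f c = 1) (h3 : a.σ (b.σ⁻¹ c) = b.σ⁻¹ c) (h4 : a.f (b.σ⁻¹ c) = 1) :
    (cm a b).σ c = c ∧ (cm a b).f c = 1 := by
  have h5 : a.σ⁻¹ (b.σ⁻¹ c) = b.σ⁻¹ c := by
    rw [Equiv.Perm.inv_eq_iff_eq]; exact h3.symm
  have h6 : b.σ (b.σ⁻¹ c) = c := by simp
  constructor
  · simp only [cm, Wr.mul_σ, Wr.inv_σ, Equiv.Perm.mul_apply]
    rw [h5, h6, h1]
  · simp only [cm, Wr.mul_f, Wr.inv_σ, Wr.inv_f]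
    rw [h5, h6, h2, h4]
    simp

theorem cW_silB {A G : Type} [Group G] (a b : Wr A G) (c : A) (h1 : b.σ c = c)
    (h2 : b.f c = 1) (h3 : b.σ (a.σ⁻¹ c) = a.σ⁻¹ c) (h4 : b.f (a.σ⁻¹ c) = 1) :
    (cm a b).σ c = c ∧ (cm a b).f c = 1 := by
  have h5 : b.σ⁻¹ c = c := by
    rw [Equiv.Perm.inv_eq_iff_eq]; exact h1.symm
  constructor
  · simp only [cm, Wr.mul_σ, Wr.inv_σ, Equiv.Perm.mul_apply]
    rw [h5, h3]
    simp
  · simp only [cm, Wr.mul_f, Wr.inv_σ, Wr.inv_f]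
    rw [h5, h3, h2, h4]
    simp

theorem cW_fix {A G : Type} [Group G] (a b : Wr A G) (c : A) (h1 : a.σ c = c)
    (h2 : b.σ c = c) :
    (cm a b).σ c = c ∧ (cm a b).f c = cm (a.f c) (b.f c) := by
  have h5 : b.σ⁻¹ c = c := by
    rw [Equiv.Perm.inv_eq_iff_eq]; exact h2.symm
  have h6 : a.σ⁻¹ c = c := by
    rw [Equiv.Perm.inv_eq_iff_eq]; exact h1.symm
  constructor
  · simp only [cm, Wr.mul_σ, Wr.inv_σ, Equiv.Perm.mul_apply]
    rw [h5, h6, h2, h1]
  · simp only [cm, Wr.mul_f, Wr.inv_σ, Wr.inv_f]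
    rw [h5, h6, h2]

theorem c_inv (m : Mach nJ nQ B) (w : ℕ)
    (SL : GG nJ nQ →* Wr (Lt nJ nQ B) (GG nJ nQ)) (h : IsSL m w SL)
    (W : Set (Lt nJ nQ B)) (hW : ∀ (s : Lg nJ nQ) c, actL s c ∈ W ↔ c ∈ W)
    (g : GG nJ nQ) : ∀ c, (SL g).σ c ∈ W ↔ c ∈ W := by
  have hg : g ∈ Subgroup.closure (Set.range (PresentedGroup.of (rels := relG nJ nQ))) := by
    rw [PresentedGroup.closure_range_of]; trivial
  induction hg using Subgroup.closure_induction with
  | mem x hx =>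
    intro c
    obtain ⟨s, rfl⟩ := hx
    have := (h s).1
    rw [this]
    exact hW s c
  | one => intro c; simp
  | mul x y _ _ hx hy =>
    intro c
    rw [map_mul, Wr.mul_σ, Equiv.Perm.mul_apply, hx, hy]
  | inv x _ hx =>
    intro c
    rw [map_inv, Wr.inv_σ, ← hx ((SL x).σ⁻¹ c)]
    simp

theorem c_act_false (s : Lg nJ nQ) (x : Bs nJ nQ B ⊕ Fin 3) :
    (actL s : Equiv.Perm (Lt nJ nQ B)) (false, x)
      = (false, Equiv.sumCongr (actB s) (Equiv.refl _) x) := by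
  unfold actL
  rw [Equiv.Perm.prodExtendRight_apply_eq]

theorem c_act_true (s : Lg nJ nQ) (x : Bs nJ nQ B ⊕ Fin 3) :
    (actL s : Equiv.Perm (Lt nJ nQ B)) (true, x) = (true, x) := by
  unfold actL
  rw [Equiv.Perm.prodExtendRight_apply_ne]
  simp

theorem c_act_spec (s : Lg nJ nQ) (z : Fin 3) :
    (actL s : Equiv.Perm (Lt nJ nQ B)) (false, Sum.inr z) = (false, Sum.inr z) := by
  rw [c_act_false]; rfl

theorem c_act_ord (s : Lg nJ nQ) (b : Bs nJ nQ B) :
    (actL s : Equiv.Perm (Lt nJ nQ B)) (false, Sum.inl b) = (false, Sum.inl (actB s b)) := by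
  rw [c_act_false]; rfl

theorem c_fix_true (m : Mach nJ nQ B) (w : ℕ)
    (SL : GG nJ nQ →* Wr (Lt nJ nQ B) (GG nJ nQ)) (h : IsSL m w SL)
    (g : GG nJ nQ) (x : Bs nJ nQ B ⊕ Fin 3) : (SL g).σ (true, x) = (true, x) := by
  have := (c_inv m w SL h {(true, x)} (fun s c => by
    simp only [Set.mem_singleton_iff]
    constructor
    · intro hc
      rw [← c_act_true s x] at hc
      exact (actL s).injective hc
    · rintro rfl; exact c_act_true s x) g (true, x)).mpr rfl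
  exact this

theorem c_fix_spec (m : Mach nJ nQ B) (w : ℕ)
    (SL : GG nJ nQ →* Wr (Lt nJ nQ B) (GG nJ nQ)) (h : IsSL m w SL)
    (g : GG nJ nQ) (z : Fin 3) : (SL g).σ (false, Sum.inr z) = (false, Sum.inr z) := by
  have := (c_inv m w SL h {(false, Sum.inr z)} (fun s c => by
    simp only [Set.mem_singleton_iff]
    constructor
    · intro hc
      rw [← c_act_spec s z] at hc
      exact (actL s).injective hc
    · rintro rfl; exact c_act_spec s z) g (false, Sum.inr z)).mpr rfl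
  exact this

theorem c_r1_mem (s : Lg nJ nQ) (c : Lt nJ nQ B) :
    (actL s c ∈ {c : Lt nJ nQ B | ∃ r, c = (false, Sum.inl (Sum.inr (Sum.inl r)))}) ↔
    c ∈ {c : Lt nJ nQ B | ∃ r, c = (false, Sum.inl (Sum.inr (Sum.inl r)))} := by
  rcases c with ⟨_ | _, x⟩
  · rcases x with (x | r | r) | z
    · rw [c_act_ord]; cases s <;> simp [actB]
    · refine ⟨fun _ => ⟨r, rfl⟩, fun _ => ?_⟩
      rw [c_act_ord]; cases s <;> exact ⟨_, rfl⟩
    · rw [c_act_ord]; cases s <;> simp [actB]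
    · rw [c_act_spec]
  · rw [c_act_true]

theorem c_r2_mem (s : Lg nJ nQ) (c : Lt nJ nQ B) :
    (actL s c ∈ {c : Lt nJ nQ B | ∃ r, c = (false, Sum.inl (Sum.inr (Sum.inr r)))}) ↔
    c ∈ {c : Lt nJ nQ B | ∃ r, c = (false, Sum.inl (Sum.inr (Sum.inr r)))} := by
  rcases c with ⟨_ | _, x⟩
  · rcases x with (x | r | r) | z
    · rw [c_act_ord]; cases s <;> simp [actB]
    · rw [c_act_ord]; cases s <;> simp [actB]
    · refine ⟨fun _ => ⟨r, rfl⟩, fun _ => ?_⟩
      rw [c_act_ord]; cases s <;> exact ⟨_, rfl⟩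
    · rw [c_act_spec]
  · rw [c_act_true]

theorem c_evG_wd (m : Mach nJ nQ B) (w : ℕ) (s : Lg nJ nQ) : evG m w (wd s) = gg s := by
  simp [evG, evO, wd]

theorem c_evG_none (m : Mach nJ nQ B) (w : ℕ) :
    evG m w (FreeGroup.of none) = gg (Lg.x m.pt) ^ w := by
  simp [evG, evO]

theorem c_evG_vW (m : Mach nJ nQ B) (w : ℕ) (i : Fin nQ) (ρ : Fin nJ → Fin B) :
    evG m w (vW m i ρ) = (List.ofFn (fun j : Fin nJ => (gg (Lg.x j) : GG nJ nQ) ^ m.be i ρ j)).prod *
      ((gg (Lg.x m.pt) ^ w : GG nJ nQ)) ^ m.ga i ρ := by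
  unfold vW
  rw [map_mul, map_zpow, c_evG_none, map_list_prod, List.map_ofFn]
  congr 3
  funext j
  simp only [Function.comp_apply, map_zpow, c_evG_wd]

theorem c_V_mem (m : Mach nJ nQ B) (w : ℕ) (i : Fin nQ) (ρ : Fin nJ → Fin B) :
    evG m w (vW m i ρ) ∈ XX nJ nQ := by
  rw [c_evG_vW]
  have hx : ∀ j, (gg (Lg.x j) : GG nJ nQ) ∈ XX nJ nQ := fun j =>
    Subgroup.subset_closure ⟨j, rfl⟩
  refine mul_mem (list_prod_mem fun y hy => ?_) (zpow_mem (pow_mem (hx _) _) _)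
  rw [List.mem_ofFn] at hy
  obtain ⟨j, rfl⟩ := hy
  exact zpow_mem (hx j) _

theorem c_V_ab (m : Mach nJ nQ B) (w : ℕ)
    (ab : GG nJ nQ →* Multiplicative (Fin nJ → ℤ))
    (hx : ∀ j, ab (gg (Lg.x j)) = Multiplicative.ofAdd (Pi.single j 1))
    (i : Fin nQ) (ρ : Fin nJ → Fin B) (j : Fin nJ) :
    (ab (evG m w (vW m i ρ))).toAdd j = m.be i ρ j + if j = m.pt then m.ga i ρ * w else 0 := by
  rw [c_evG_vW, map_mul, map_list_prod, List.map_ofFn, List.prod_ofFn, toAdd_mul, toAdd_prod,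
    Pi.add_apply, Finset.sum_apply]
  congr 1
  · rw [Finset.sum_eq_single j]
    · simp only [Function.comp_apply, map_zpow, hx, toAdd_zpow, toAdd_ofAdd, Pi.smul_apply,
        Pi.single_eq_same, smul_eq_mul, mul_one]
    · intro k _ hk
      simp only [Function.comp_apply, map_zpow, hx, toAdd_zpow, toAdd_ofAdd, Pi.smul_apply]
      rw [Pi.single_eq_of_ne hk.symm]; simp
    · intro hj; exact absurd (Finset.mem_univ j) hj
  · rw [map_zpow, map_pow, hx, toAdd_zpow, toAdd_pow, toAdd_ofAdd]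
    by_cases hj : j = m.pt
    · rw [if_pos hj, hj, Pi.smul_apply, Pi.smul_apply, Pi.single_eq_same]
      simp
    · rw [if_neg hj, Pi.smul_apply, Pi.smul_apply, Pi.single_eq_of_ne hj]
      simp

theorem c_f_mem (m : Mach nJ nQ B) (w : ℕ)
    (SL : GG nJ nQ →* Wr (Lt nJ nQ B) (GG nJ nQ)) (h : IsSL m w SL)
    (ab : GG nJ nQ →* Multiplicative (Fin nJ → ℤ))
    (hx : ∀ j, ab (gg (Lg.x j)) = Multiplicative.ofAdd (Pi.single j 1)) (ha : ab (gg Lg.a) = 1)
    (hu : ∀ i, ab (gg (Lg.u i)) = 1) (hs : ∀ k, ab (gg (Lg.s k)) = 1)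
    (ht : ∀ k, ab (gg (Lg.t k)) = 1) (g : GG nJ nQ) (hg : g ∈ XX nJ nQ) :
    ∀ (i : Fin nQ) (ρ c : Fin nJ → Fin B),
      (SL g).f (false, Sum.inl (Sum.inl (i, ρ, c))) ∈ XX nJ nQ := by
  have hx' : ∀ j, (gg (Lg.x j) : GG nJ nQ) ∈ XX nJ nQ := fun j =>
    Subgroup.subset_closure ⟨j, rfl⟩
  unfold XX at hg
  induction hg using Subgroup.closure_induction with
  | mem x hx =>
    intro i ρ c
    obtain ⟨j, rfl⟩ := hx
    have := (h (Lg.x j)).2 (false, Sum.inl (Sum.inl (i, ρ, c)))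
    rw [this]
    simp only [secL, secB]
    split_ifs
    · rw [map_zpow, c_evG_wd]; exact zpow_mem (hx' j) _
    · rw [map_one]; exact one_mem _
  | one => intro i ρ c; rw [map_one]; exact one_mem _
  | mul x y _ _ hx2 hy2 =>
    intro i ρ c
    rw [map_mul, Wr.mul_f, (sim_act m w SL h ab hx ha hu hs ht y i ρ c).1]
    exact mul_mem (hx2 _ _ _) (hy2 _ _ _)
  | inv x _ hx2 =>
    intro i ρ c
    have h1 := (sim_act m w SL h ab hx ha hu hs ht x⁻¹ i ρ c).1
    rw [map_inv, Wr.inv_σ] at h1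
    rw [map_inv, Wr.inv_f, h1]
    exact inv_mem (hx2 _ _ _)

end cHelpers


/-- sections of the conjugates of `u i` and of `a` on the simulation letters -/
theorem conj_sim (m : Mach nJ nQ B) (w : ℕ)
    (SL : GG nJ nQ →* Wr (Lt nJ nQ B) (GG nJ nQ)) (h : IsSL m w SL)
    (ab : GG nJ nQ →* Multiplicative (Fin nJ → ℤ))
    (hx : ∀ j, ab (gg (Lg.x j)) = Multiplicative.ofAdd (Pi.single j 1)) (ha : ab (gg Lg.a) = 1)
    (hu : ∀ i, ab (gg (Lg.u i)) = 1) (hs : ∀ k, ab (gg (Lg.s k)) = 1)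
    (ht : ∀ k, ab (gg (Lg.t k)) = 1) (g : GG nJ nQ) (i : Fin nQ) :
    (SL (cm (gg Lg.a) (g⁻¹ * gg (Lg.u i) * g))).σ = 1 ∧
    (∀ c, c ≠ (false, Sum.inl (Sum.inl (i, resd B (ab g).toAdd, 0))) →
      (SL (cm (gg Lg.a) (g⁻¹ * gg (Lg.u i) * g))).f c = 1) ∧
    (m.stp w (i, (ab g).toAdd) = none →
      (SL (cm (gg Lg.a) (g⁻¹ * gg (Lg.u i) * g))).f
        (false, Sum.inl (Sum.inl (i, resd B (ab g).toAdd, 0))) = 1) ∧
    (∀ i' v', m.stp w (i, (ab g).toAdd) = some (i', v') →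
      ∃ g', (ab g').toAdd = v' ∧ (g ∈ XX nJ nQ → g' ∈ XX nJ nQ) ∧
        (SL (cm (gg Lg.a) (g⁻¹ * gg (Lg.u i) * g))).f
        (false, Sum.inl (Sum.inl (i, resd B (ab g).toAdd, 0)))
          = cm (gg Lg.a) (g'⁻¹ * gg (Lg.u i') * g')) := by
  set A := SL (gg Lg.a) with hA
  set U := SL (gg (Lg.u i)) with hU
  set Gd := SL g with hGd
  have hcm : SL (cm (gg Lg.a) (g⁻¹ * gg (Lg.u i) * g)) = cm A (Gd⁻¹ * U * Gd) := by
    simp only [cm, map_mul, map_inv, ← hA, ← hU, ← hGd]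
  rw [hcm]
  -- data of A and U
  have hAσ : A.σ = actL Lg.a := (h Lg.a).1
  have hAf : ∀ c, A.f c = evG m w (secL m Lg.a c) := (h Lg.a).2
  have hUσ : U.σ = actL (Lg.u i) := (h (Lg.u i)).1
  have hUf : ∀ c, U.f c = evG m w (secL m (Lg.u i) c) := (h (Lg.u i)).2
  -- simulation letters
  have hsim : ∀ (i0 : Fin nQ) (ρ0 c0 : Fin nJ → Fin B),
      (cm A (Gd⁻¹ * U * Gd)).σ (false, Sum.inl (Sum.inl (i0, ρ0, c0)))
        = (false, Sum.inl (Sum.inl (i0, ρ0, c0))) ∧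
      (cm A (Gd⁻¹ * U * Gd)).f (false, Sum.inl (Sum.inl (i0, ρ0, c0)))
        = cm (if c0 = 0 then gg Lg.a else 1)
          ((Gd.f (false, Sum.inl (Sum.inl (i0, ρ0, c0))))⁻¹ *
            (if i = i0 ∧ resd B (fun j => ((c0 j : ℕ) : ℤ) + (ab g).toAdd j) = ρ0 then
              evG m w (uW m i0 ρ0) else 1) * Gd.f (false, Sum.inl (Sum.inl (i0, ρ0, c0)))) := by
    intro i0 ρ0 c0
    have e1 : A.σ (false, Sum.inl (Sum.inl (i0, ρ0, c0)))
        = (false, Sum.inl (Sum.inl (i0, ρ0, c0))) := by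
      rw [hAσ, c_act_ord]; rfl
    have e2 := (sim_act m w SL h ab hx ha hu hs ht g i0 ρ0 c0).1
    rw [← hGd] at e2
    have e3 : U.σ (Gd.σ (false, Sum.inl (Sum.inl (i0, ρ0, c0))))
        = Gd.σ (false, Sum.inl (Sum.inl (i0, ρ0, c0))) := by
      rw [e2, hUσ, c_act_ord]; rfl
    obtain ⟨e4, e5⟩ := cW_conj U Gd _ e3
    obtain ⟨e6, e7⟩ := cW_fix A (Gd⁻¹ * U * Gd) _ e1 e4
    refine ⟨e6, ?_⟩
    rw [e7, e5, e2, hAf, hUf]
    simp only [secL, secB]
    congr 1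
    · split_ifs
      · rw [c_evG_wd]
      · rw [map_one]
    · congr 2
      split_ifs
      · rfl
      · rw [map_one]
  -- all the other letters
  have hoth : ∀ c : Lt nJ nQ B, (∀ x, c ≠ (false, Sum.inl (Sum.inl x))) →
      (cm A (Gd⁻¹ * U * Gd)).σ c = c ∧ (cm A (Gd⁻¹ * U * Gd)).f c = 1 := by
    intro c hc
    rcases c with ⟨_ | _, x⟩
    · rcases x with (x | r | r) | z
      · exact absurd rfl (hc x)
      · -- reader 1 : U silent
        have hUs : ∀ c ∈ {c : Lt nJ nQ B | ∃ r, c = (false, Sum.inl (Sum.inr (Sum.inl r)))},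
            (Gd⁻¹ * U * Gd).σ c = c ∧ (Gd⁻¹ * U * Gd).f c = 1 := by
          intro c hc
          have h1 := (c_inv m w SL h _ c_r1_mem g c).mpr hc
          obtain ⟨r, hr⟩ := h1
          rw [← hGd] at hr
          have e3 : U.σ (Gd.σ c) = Gd.σ c := by
            rw [hr, hUσ, c_act_ord]; rfl
          obtain ⟨e4, e5⟩ := cW_conj U Gd _ e3
          refine ⟨e4, ?_⟩
          rw [e5, hr, hUf]
          simp [secL, secB]
        have hc1 : ((false, Sum.inl (Sum.inr (Sum.inl r))) : Lt nJ nQ B) ∈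
            {c : Lt nJ nQ B | ∃ r, c = (false, Sum.inl (Sum.inr (Sum.inl r)))} := ⟨r, rfl⟩
        have hc2 : (A.σ⁻¹ ((false, Sum.inl (Sum.inr (Sum.inl r))) : Lt nJ nQ B)) ∈
            {c : Lt nJ nQ B | ∃ r, c = (false, Sum.inl (Sum.inr (Sum.inl r)))} := by
          have h1 := (c_inv m w SL h _ c_r1_mem (gg Lg.a)⁻¹
            ((false, Sum.inl (Sum.inr (Sum.inl r))) : Lt nJ nQ B)).mpr hc1
          rw [map_inv, Wr.inv_σ] at h1
          exact h1
        exact cW_silB A _ _ (hUs _ hc1).1 (hUs _ hc1).2 (hUs _ hc2).1 (hUs _ hc2).2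
      · -- reader 2 : A silent
        have hAs : ∀ c ∈ {c : Lt nJ nQ B | ∃ r, c = (false, Sum.inl (Sum.inr (Sum.inr r)))},
            A.σ c = c ∧ A.f c = 1 := by
          rintro c ⟨r, rfl⟩
          constructor
          · rw [hAσ, c_act_ord]; rfl
          · rw [hAf]; simp [secL, secB]
        have hc1 : ((false, Sum.inl (Sum.inr (Sum.inr r))) : Lt nJ nQ B) ∈
            {c : Lt nJ nQ B | ∃ r, c = (false, Sum.inl (Sum.inr (Sum.inr r)))} := ⟨r, rfl⟩
        have hc2 : ((Gd⁻¹ * U * Gd).σ⁻¹ ((false, Sum.inl (Sum.inr (Sum.inr r))) : Lt nJ nQ B)) ∈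
            {c : Lt nJ nQ B | ∃ r, c = (false, Sum.inl (Sum.inr (Sum.inr r)))} := by
          have h1 := (c_inv m w SL h _ c_r2_mem (g⁻¹ * gg (Lg.u i) * g)⁻¹
            ((false, Sum.inl (Sum.inr (Sum.inr r))) : Lt nJ nQ B)).mpr hc1
          rw [map_inv, Wr.inv_σ, map_mul, map_mul, map_inv] at h1
          exact h1
        exact cW_silA A _ _ (hAs _ hc1).1 (hAs _ hc1).2 (hAs _ hc2).1 (hAs _ hc2).2
      · -- special letters
        have e2 : Gd.σ (false, Sum.inr z) = (false, Sum.inr z) := c_fix_spec m w SL h g z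
        have e1 : A.σ (false, Sum.inr z) = (false, Sum.inr z) := by
          rw [hAσ, c_act_spec]
        have e3 : U.σ (Gd.σ (false, Sum.inr z)) = Gd.σ (false, Sum.inr z) := by
          rw [e2, hUσ, c_act_spec]
        obtain ⟨e4, e5⟩ := cW_conj U Gd _ e3
        obtain ⟨e6, e7⟩ := cW_fix A (Gd⁻¹ * U * Gd) _ e1 e4
        refine ⟨e6, ?_⟩
        rw [e7, e5, e2, hAf, hUf]
        by_cases hz : z = 1
        · subst hz
          have h1 : ¬ ((Lg.u i : Lg nJ nQ).zt = some 1) := by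
            show ¬ (some (2 : Fin 3) = some 1)
            decide
          have h2 : secL m (Lg.u i) ((false, Sum.inr 1) : Lt nJ nQ B) = 1 := by
            show (if (Lg.u i : Lg nJ nQ).zt = some 1 then wz m (Lg.u i) else 1) = 1
            rw [if_neg h1]
          rw [h2, map_one]
          simp [cm]
        · have h1 : ¬ ((Lg.a : Lg nJ nQ).zt = some z) := by
            show ¬ (some (1 : Fin 3) = some z)
            intro h'; exact hz (Option.some.inj h').symm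
          have h2 : secL m Lg.a ((false, Sum.inr z) : Lt nJ nQ B) = 1 := by
            show (if (Lg.a : Lg nJ nQ).zt = some z then wz m Lg.a else 1) = 1
            rw [if_neg h1]
          rw [h2, map_one]
          simp [cm]
    · -- dummies
      have e2 : Gd.σ (true, x) = (true, x) := c_fix_true m w SL h g x
      have e1 : A.σ (true, x) = (true, x) := by
        rw [hAσ, c_act_true]
      have e3 : U.σ (Gd.σ (true, x)) = Gd.σ (true, x) := by
        rw [e2, hUσ, c_act_true]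
      obtain ⟨e4, e5⟩ := cW_conj U Gd _ e3
      obtain ⟨e6, e7⟩ := cW_fix A (Gd⁻¹ * U * Gd) _ e1 e4
      refine ⟨e6, ?_⟩
      rw [e7, e5, e2, hAf, hUf]
      simp [secL, cm]
  have hres : resd B (fun j => ((((0 : Fin nJ → Fin B) j : Fin B) : ℕ) : ℤ) + (ab g).toAdd j)
      = resd B (ab g).toAdd := by
    congr 1
    funext j
    simp
  have hspec := (hsim i (resd B (ab g).toAdd) 0).2
  rw [hres, if_pos rfl, if_pos ⟨rfl, rfl⟩] at hspec
  refine ⟨?_, ?_, ?_, ?_⟩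
  · apply Equiv.ext
    intro c
    by_cases hc : ∃ x, c = (false, Sum.inl (Sum.inl x))
    · obtain ⟨⟨i0, ρ0, c0⟩, rfl⟩ := hc
      exact (hsim i0 ρ0 c0).1
    · push Not at hc
      exact (hoth c hc).1
  · intro c hne
    by_cases hc : ∃ x, c = (false, Sum.inl (Sum.inl x))
    · obtain ⟨⟨i0, ρ0, c0⟩, rfl⟩ := hc
      rw [(hsim i0 ρ0 c0).2]
      by_cases h0 : c0 = 0
      · subst h0
        rw [hres]
        have : ¬ (i = i0 ∧ resd B (ab g).toAdd = ρ0) := by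
          rintro ⟨rfl, rfl⟩
          exact hne rfl
        rw [if_neg this]
        simp [cm]
      · rw [if_neg h0]
        simp [cm]
    · push Not at hc
      exact (hoth c hc).2
  · intro hn
    rw [hspec]
    unfold Mach.stp at hn
    rw [Option.map_eq_none_iff] at hn
    have : uW m i (resd B (ab g).toAdd) = 1 := by
      unfold uW
      simp only at hn
      rw [hn]
    rw [this, map_one]
    simp [cm]
  · intro i' v' hn
    unfold Mach.stp at hn
    rw [Option.map_eq_some_iff] at hn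
    obtain ⟨q, hq, hqv⟩ := hn
    simp only [Prod.mk.injEq] at hqv hq
    obtain ⟨rfl, rfl⟩ := hqv
    refine ⟨evG m w (vW m i (resd B (ab g).toAdd)) *
      Gd.f (false, Sum.inl (Sum.inl (i, resd B (ab g).toAdd, 0))), ?_, ?_, ?_⟩
    · funext j
      rw [map_mul, toAdd_mul, Pi.add_apply, c_V_ab m w ab hx,
        (sim_act m w SL h ab hx ha hu hs ht g i (resd B (ab g).toAdd) 0).2 j]
      have e0 : ((((0 : Fin nJ → Fin B) j : Fin B) : ℕ) : ℤ) = 0 := by simp
      rw [e0, zero_add]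
      ring
    · intro hg
      exact mul_mem (c_V_mem m w i _) (c_f_mem m w SL h ab hx ha hu hs ht g hg i _ _)
    · rw [hspec]
      have : uW m i (resd B (ab g).toAdd) = (vW m i (resd B (ab g).toAdd))⁻¹ * wd (Lg.u q) *
          vW m i (resd B (ab g).toAdd) := by
        unfold uW
        rw [hq]
      rw [this, map_mul, map_mul, map_inv, c_evG_wd]
      congr 1
      rw [mul_inv_rev]
      simp only [mul_assoc]

end

end Pool.Agent.H665Simp
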