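import Mathlib
import Pool.Agent.H665Simp.DefsA
import Pool.Agent.H665Simp.DefsD
import Pool.Agent.H665Simp.DefsG

set_option autoImplicit false

namespace Pool.Agent.H665Simp

section
variable {nJ nQ B : ℕ} [NeZero B]


/-- powers of two commuting elements -/
theorem svec_add {Q : Type} [Group Q] (s : Bool → Q) (hs : s false * s true = s true * s false)
    (v v' : ℤ × ℤ) : svec s (v + v') = svec s v * svec s v' := by
  have hc : Commute (s false) (s true) := hs
  have h1 : Commute (s true ^ v.2) (s false ^ v'.1) := (hc.symm).zpow_zpow _ _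
  unfold svec
  rw [Prod.fst_add, Prod.snd_add, zpow_add, zpow_add, mul_assoc (s false ^ v.1) (s true ^ v.2),
    ← mul_assoc (s true ^ v.2) (s false ^ v'.1), h1.eq]
  simp only [mul_assoc]

theorem svec_map {Q Q' : Type} [Group Q] [Group Q'] (f : Q →* Q') (s : Bool → Q) (v : ℤ × ℤ) :
    f (svec s v) = svec (fun k => f (s k)) v := by
  unfold svec
  rw [map_mul, map_zpow, map_zpow]

theorem mA_add (k : ℕ) (v v' : ℤ × ℤ) : mA k (v + v') = mA k v + mA k v' := by
  unfold mA
  ext <;> simp <;> ring

theorem mA_zero (k : ℕ) : mA k 0 = 0 := by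
  unfold mA
  ext <;> simp

theorem svec_zero {Q : Type} [Group Q] (s : Bool → Q) : svec s 0 = 1 := by
  simp [svec]

/-- conjugation extends additively -/
theorem svec_conj {Q : Type} [Group Q] (s : Bool → Q) (hs : s false * s true = s true * s false)
    (g : Q) (k : ℕ) (hg : ∀ b, g * s b = svec s (mA k (b2i (!b), b2i b)) * g) (v : ℤ × ℤ) :
    g * svec s v = svec s (mA k v) * g := by
  have hadd : ∀ v v' : ℤ × ℤ, g * svec s v = svec s (mA k v) * g →
      g * svec s v' = svec s (mA k v') * g → g * svec s (v + v') = svec s (mA k (v + v')) * g := by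
    intro v v' h h'
    rw [svec_add s hs, mA_add, svec_add s hs, ← mul_assoc, h, mul_assoc, h', mul_assoc]
  have hneg : ∀ v : ℤ × ℤ, g * svec s v = svec s (mA k v) * g →
      g * svec s (-v) = svec s (mA k (-v)) * g := by
    intro v h
    have h1 : svec s v * svec s (-v) = 1 := by
      rw [← svec_add s hs, add_neg_cancel, svec_zero]
    have h2 : svec s (mA k (-v)) * svec s (mA k v) = 1 := by
      rw [← svec_add s hs, ← mA_add, neg_add_cancel, mA_zero, svec_zero]
    calc g * svec s (-v) = (svec s (mA k (-v)) * svec s (mA k v)) * g * svec s (-v) := by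
          rw [h2, one_mul]
      _ = svec s (mA k (-v)) * (g * svec s v) * svec s (-v) := by
          rw [h]; simp only [mul_assoc]
      _ = svec s (mA k (-v)) * g * (svec s v * svec s (-v)) := by simp only [mul_assoc]
      _ = svec s (mA k (-v)) * g := by rw [h1, mul_one]
  have h0 : g * svec s 0 = svec s (mA k 0) * g := by
    rw [mA_zero, svec_zero, mul_one, one_mul]
  have he : ∀ b, g * svec s (b2i (!b), b2i b) = svec s (mA k (b2i (!b), b2i b)) * g := by
    intro b
    have h1 : svec s (b2i (!b), b2i b) = s b := by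
      cases b <;> simp [svec, b2i]
    rw [h1, hg b]
  have hz : ∀ (e : ℤ × ℤ), g * svec s e = svec s (mA k e) * g → ∀ n : ℤ,
      g * svec s (n • e) = svec s (mA k (n • e)) * g := by
    intro e h n
    induction n using Int.induction_on with
    | zero => rw [zero_smul]; exact h0
    | succ n ih =>
      rw [add_smul, one_smul]
      exact hadd _ _ ih h
    | pred n ih =>
      rw [sub_smul, one_smul, sub_eq_add_neg]
      exact hadd _ _ ih (hneg _ h)
  have hv : v = v.1 • ((b2i (!false), b2i false) : ℤ × ℤ) + v.2 • ((b2i (!true), b2i true) : ℤ × ℤ) := by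
    ext <;> simp [b2i]
  rw [hv]
  exact hadd _ _ (hz _ (he false) _) (hz _ (he true) _)

end

end Pool.Agent.H665Simp
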