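import Mathlib
import Pool.Agent.H665Simp.DefsA
import Pool.Agent.H665Simp.DefsD
import Pool.Agent.H665Simp.DefsG
import Pool.Agent.H665Simp.P_svec_basic

set_option autoImplicit false

namespace Pool.Agent.H665Simp

section
variable {nJ nQ B : ℕ} [NeZero B]


theorem homs_gen {nJ nQ : ℕ} {Q : Type} [Group Q] (f : Lg nJ nQ → Q)
    (h1 : f (Lg.s false) * f (Lg.s true) = f (Lg.s true) * f (Lg.s false))
    (h2 : f (Lg.t false) * f (Lg.t true) = f (Lg.t true) * f (Lg.t false))
    (h3 : ∀ (g : Lg nJ nQ) (k : Bool), g.isA = true → f g * f (Lg.s k) =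
      svec (fun k => f (Lg.s k)) (mA g.idx (b2i (!k), b2i k)) * f g)
    (h4 : ∀ (g : Lg nJ nQ) (k : Bool), g.isU = true → f g * f (Lg.t k) =
      svec (fun k => f (Lg.t k)) (mA g.idx (b2i (!k), b2i k)) * f g) :
    ∃ F : GG nJ nQ →* Q, ∀ g, F (gg g) = f g := by
  have h : ∀ r ∈ relG nJ nQ, FreeGroup.lift f r = 1 := by
    rintro r (rfl | rfl | ⟨g, k, hg, rfl⟩ | ⟨g, k, hg, rfl⟩)
    · simp only [map_mul, map_inv, FreeGroup.lift_apply_of]
      rw [h1]
      group
    · simp only [map_mul, map_inv, FreeGroup.lift_apply_of]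
      rw [h2]
      group
    · simp only [map_mul, map_inv, FreeGroup.lift_apply_of, svec_map]
      rw [h3 g k hg]
      group
    · simp only [map_mul, map_inv, FreeGroup.lift_apply_of, svec_map]
      rw [h4 g k hg]
      group
  exact ⟨PresentedGroup.toGroup h, fun g => PresentedGroup.toGroup.of h⟩

theorem homs_svec_one {Q : Type} [Group Q] (v : ℤ × ℤ) : svec (fun _ => (1 : Q)) v = 1 := by
  simp [svec]

/-- the matrix as a permutation -/
def homs_mP (k : ℕ) : Equiv.Perm (ℤ × ℤ) where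
  toFun := mA k
  invFun z := ((cst k : ℤ) * z.1 - ((cst k : ℤ) ^ 2 - 1) * z.2, -z.1 + (cst k : ℤ) * z.2)
  left_inv z := by
    unfold mA
    ext
    · show (cst k : ℤ) * ((cst k : ℤ) * z.1 + ((cst k : ℤ) ^ 2 - 1) * z.2) -
        ((cst k : ℤ) ^ 2 - 1) * (z.1 + (cst k : ℤ) * z.2) = z.1
      ring
    · show -((cst k : ℤ) * z.1 + ((cst k : ℤ) ^ 2 - 1) * z.2) +
        (cst k : ℤ) * (z.1 + (cst k : ℤ) * z.2) = z.2
      ring
  right_inv z := by
    unfold mA
    ext
    · show (cst k : ℤ) * ((cst k : ℤ) * z.1 - ((cst k : ℤ) ^ 2 - 1) * z.2) +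
        ((cst k : ℤ) ^ 2 - 1) * (-z.1 + (cst k : ℤ) * z.2) = z.1
      ring
    · show ((cst k : ℤ) * z.1 - ((cst k : ℤ) ^ 2 - 1) * z.2) +
        (cst k : ℤ) * (-z.1 + (cst k : ℤ) * z.2) = z.2
      ring

theorem homs_mP_apply (k : ℕ) (z : ℤ × ℤ) : homs_mP k z = mA k z := rfl

/-- translations -/
def homs_tr : Multiplicative (ℤ × ℤ) →* Equiv.Perm (ℤ × ℤ) where
  toFun v := Equiv.addRight (Multiplicative.toAdd v)
  map_one' := by
    ext z <;> simp
  map_mul' a b := by
    apply Equiv.ext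
    intro z
    show z + (Multiplicative.toAdd a + Multiplicative.toAdd b) =
      (z + Multiplicative.toAdd b) + Multiplicative.toAdd a
    abel

theorem homs_tr_apply (v z : ℤ × ℤ) : homs_tr (Multiplicative.ofAdd v) z = z + v := rfl

theorem homs_svec_tr (v : ℤ × ℤ) :
    svec (fun k => homs_tr (Multiplicative.ofAdd (b2i (!k), b2i k))) v
      = homs_tr (Multiplicative.ofAdd v) := by
  rw [← svec_map homs_tr]
  congr 1
  unfold svec
  rw [← ofAdd_zsmul, ← ofAdd_zsmul, ← ofAdd_add]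
  congr 1
  ext <;> simp [b2i]

theorem homs_mA_add (k : ℕ) (z v : ℤ × ℤ) : mA k (z + v) = mA k z + mA k v := by
  unfold mA
  ext
  · show (cst k : ℤ) * (z.1 + v.1) + ((cst k : ℤ) ^ 2 - 1) * (z.2 + v.2) =
      ((cst k : ℤ) * z.1 + ((cst k : ℤ) ^ 2 - 1) * z.2) +
        ((cst k : ℤ) * v.1 + ((cst k : ℤ) ^ 2 - 1) * v.2)
    ring
  · show (z.1 + v.1) + (cst k : ℤ) * (z.2 + v.2) =
      (z.1 + (cst k : ℤ) * z.2) + (v.1 + (cst k : ℤ) * v.2)
    ring

theorem homs_conj (k : ℕ) (b : Bool) :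
    homs_mP k * homs_tr (Multiplicative.ofAdd (b2i (!b), b2i b)) =
      svec (fun k => homs_tr (Multiplicative.ofAdd (b2i (!k), b2i k)))
        (mA k (b2i (!b), b2i b)) * homs_mP k := by
  rw [homs_svec_tr]
  apply Equiv.ext
  intro z
  show mA k (z + (b2i (!b), b2i b)) = mA k z + mA k (b2i (!b), b2i b)
  exact homs_mA_add _ _ _

theorem homs_comm :
    homs_tr (Multiplicative.ofAdd (b2i (!false), b2i false)) *
      homs_tr (Multiplicative.ofAdd (b2i (!true), b2i true)) =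
    homs_tr (Multiplicative.ofAdd (b2i (!true), b2i true)) *
      homs_tr (Multiplicative.ofAdd (b2i (!false), b2i false)) := by
  rw [← MonoidHom.map_mul, ← MonoidHom.map_mul, mul_comm]

/-- exponent sums of the `x j` -/
theorem ab_exists (nJ nQ : ℕ) : ∃ ab : GG nJ nQ →* Multiplicative (Fin nJ → ℤ),
    (∀ j, ab (gg (Lg.x j)) = Multiplicative.ofAdd (Pi.single j 1)) ∧ ab (gg Lg.a) = 1 ∧
    (∀ i, ab (gg (Lg.u i)) = 1) ∧ (∀ k, ab (gg (Lg.s k)) = 1) ∧ (∀ k, ab (gg (Lg.t k)) = 1) := by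
  obtain ⟨F, hF⟩ := homs_gen (nJ := nJ) (nQ := nQ) (Q := Multiplicative (Fin nJ → ℤ))
    (fun g => match g with
      | .x j => Multiplicative.ofAdd (Pi.single j 1)
      | _ => 1)
    rfl rfl
    (by
      intro g k _
      show _ * 1 = svec (fun _ => 1) _ * _
      rw [homs_svec_one, mul_one, one_mul])
    (by
      intro g k _
      show _ * 1 = svec (fun _ => 1) _ * _
      rw [homs_svec_one, mul_one, one_mul])
  exact ⟨F, fun j => hF _, hF _, fun i => hF _, fun k => hF _, fun k => hF _⟩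

theorem s3_exists (nJ nQ : ℕ) : ∃ f : GG nJ nQ →* Equiv.Perm (Fin 3),
    (∀ j, f (gg (Lg.x j)) = 1) ∧ f (gg Lg.a) = Equiv.swap 0 1 ∧
    (∀ i, f (gg (Lg.u i)) = Equiv.swap 1 2) ∧ (∀ k, f (gg (Lg.s k)) = 1) ∧
    (∀ k, f (gg (Lg.t k)) = 1) := by
  obtain ⟨F, hF⟩ := homs_gen (nJ := nJ) (nQ := nQ) (Q := Equiv.Perm (Fin 3))
    (fun g => match g with
      | .a => Equiv.swap 0 1
      | .u _ => Equiv.swap 1 2
      | _ => 1)
    rfl rfl
    (by
      intro g k _
      show _ * 1 = svec (fun _ => 1) _ * _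
      rw [homs_svec_one, mul_one, one_mul])
    (by
      intro g k _
      show _ * 1 = svec (fun _ => 1) _ * _
      rw [homs_svec_one, mul_one, one_mul])
  exact ⟨F, fun j => hF _, hF _, fun i => hF _, fun k => hF _, fun k => hF _⟩

/-- affine action of the first half -/
theorem dA_exists (nJ nQ : ℕ) : ∃ dA : GG nJ nQ →* Equiv.Perm (ℤ × ℤ),
    (∀ g : Lg nJ nQ, g.isA = true → ∀ z, dA (gg g) z = mA g.idx z) ∧
    (∀ k z, dA (gg (Lg.s k)) z = z + (b2i (!k), b2i k)) ∧
    (∀ i, dA (gg (Lg.u i)) = 1) ∧ (∀ k, dA (gg (Lg.t k)) = 1) := by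
  obtain ⟨F, hF⟩ := homs_gen (nJ := nJ) (nQ := nQ) (Q := Equiv.Perm (ℤ × ℤ))
    (fun g => match g with
      | .x j => homs_mP (Lg.x j : Lg nJ nQ).idx
      | .a => homs_mP (Lg.a : Lg nJ nQ).idx
      | .s k => homs_tr (Multiplicative.ofAdd (b2i (!k), b2i k))
      | _ => 1)
    homs_comm rfl
    (by
      intro g k hg
      cases g with
      | x j => exact homs_conj _ _
      | a => exact homs_conj _ _
      | u i => exact absurd hg (by simp [Lg.isA])
      | s k => exact absurd hg (by simp [Lg.isA])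
      | t k => exact absurd hg (by simp [Lg.isA]))
    (by
      intro g k _
      show _ * 1 = svec (fun _ => 1) _ * _
      rw [homs_svec_one, mul_one, one_mul])
  refine ⟨F, ?_, ?_, fun i => hF _, fun k => hF _⟩
  · intro g hg z
    rw [hF]
    cases g with
    | x j => rfl
    | a => rfl
    | u i => exact absurd hg (by simp [Lg.isA])
    | s k => exact absurd hg (by simp [Lg.isA])
    | t k => exact absurd hg (by simp [Lg.isA])
  · intro k z
    rw [hF]
    rfl

/-- affine action of the second half -/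
theorem dU_exists (nJ nQ : ℕ) : ∃ dU : GG nJ nQ →* Equiv.Perm (ℤ × ℤ),
    (∀ g : Lg nJ nQ, g.isU = true → ∀ z, dU (gg g) z = mA g.idx z) ∧
    (∀ k z, dU (gg (Lg.t k)) z = z + (b2i (!k), b2i k)) ∧
    (dU (gg Lg.a) = 1) ∧ (∀ k, dU (gg (Lg.s k)) = 1) := by
  obtain ⟨F, hF⟩ := homs_gen (nJ := nJ) (nQ := nQ) (Q := Equiv.Perm (ℤ × ℤ))
    (fun g => match g with
      | .x j => homs_mP (Lg.x j : Lg nJ nQ).idx
      | .u i => homs_mP (Lg.u i : Lg nJ nQ).idx
      | .t k => homs_tr (Multiplicative.ofAdd (b2i (!k), b2i k))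
      | _ => 1)
    rfl homs_comm
    (by
      intro g k _
      show _ * 1 = svec (fun _ => 1) _ * _
      rw [homs_svec_one, mul_one, one_mul])
    (by
      intro g k hg
      cases g with
      | x j => exact homs_conj _ _
      | u i => exact homs_conj _ _
      | a => exact absurd hg (by simp [Lg.isU])
      | s k => exact absurd hg (by simp [Lg.isU])
      | t k => exact absurd hg (by simp [Lg.isU]))
  refine ⟨F, ?_, ?_, hF _, fun k => hF _⟩
  · intro g hg z
    rw [hF]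
    cases g with
    | x j => rfl
    | u i => rfl
    | a => exact absurd hg (by simp [Lg.isU])
    | s k => exact absurd hg (by simp [Lg.isU])
    | t k => exact absurd hg (by simp [Lg.isU])
  · intro k z
    rw [hF]
    rfl

end

end Pool.Agent.H665Simp
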