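import Mathlib
import Pool.Agent.H665Simp.DefsA
import Pool.Agent.H665Simp.DefsD
import Pool.Agent.H665Simp.DefsG
import Pool.Agent.H665Simp.P_svec_basic

set_option autoImplicit false

namespace Pool.Agent.H665Simp

section
variable {nJ nQ B : ℕ} [NeZero B]


theorem rd_b2i (x : Bool) : b2i x = 0 ∨ b2i x = 1 := by cases x <;> simp [b2i]

theorem rd_b2i_not (x : Bool) : b2i (!x) = 1 - b2i x := by cases x <;> simp [b2i]

theorem rd_b2i_inj (x y : Bool) (h : b2i x = b2i y) : x = y := by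
  cases x <;> cases y <;> simp_all [b2i]

theorem rd_crd (b : Bool) (r : Bool × Bool) : crd b (tperm b r) = !crd b r := by
  rcases r with ⟨_ | _, _ | _⟩ <;> cases b <;> rfl

theorem rd_crd' (b : Bool) (r : Bool × Bool) : crd (!b) (tperm b r) = crd (!b) r := by
  rcases r with ⟨_ | _, _ | _⟩ <;> cases b <;> rfl

theorem rd_inv (b : Bool) (r : Bool × Bool) : (tperm b)⁻¹ r = tperm b r := by
  rw [Equiv.Perm.inv_eq_iff_eq]
  rcases r with ⟨_ | _, _ | _⟩ <;> cases b <;> rfl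

theorem rd_tf {Q : Type} [Group Q] (s : Bool → Q) (T : Bool → Wr (Bool × Bool) Q)
    (hT : ∀ b, (T b).σ = tperm b ∧ ∀ r, (T b).f r = if crd b r = true then s b else 1)
    (b : Bool) (r : Bool × Bool) : (T b).f r = s b ^ b2i (crd b r) := by
  rw [(hT b).2]
  cases crd b r <;> simp [b2i]

theorem rd_pow {Q : Type} [Group Q] (s : Bool → Q) (T : Bool → Wr (Bool × Bool) Q)
    (hT : ∀ b, (T b).σ = tperm b ∧ ∀ r, (T b).f r = if crd b r = true then s b else 1)
    (b : Bool) (n : ℤ) : ∀ r, b2i (crd b ((T b ^ n).σ r)) = (b2i (crd b r) + n) % 2 ∧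
      crd (!b) ((T b ^ n).σ r) = crd (!b) r ∧
      (T b ^ n).f r = s b ^ ((b2i (crd b r) + n) / 2) := by
  induction n using Int.induction_on with
  | zero =>
    intro r
    rw [zpow_zero]
    refine ⟨?_, rfl, ?_⟩
    · show b2i (crd b r) = _
      rcases rd_b2i (crd b r) with h | h <;> rw [h] <;> norm_num
    · show (1 : Q) = _
      rcases rd_b2i (crd b r) with h | h <;> rw [h] <;> norm_num
  | succ n ih =>
    intro r
    obtain ⟨h1, h2, h3⟩ := ih (tperm b r)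
    rw [rd_crd, rd_b2i_not] at h1 h3
    rw [rd_crd'] at h2
    rw [zpow_add_one]
    refine ⟨?_, ?_, ?_⟩
    · rw [Wr.mul_σ, (hT b).1, Equiv.Perm.mul_apply, h1]
      omega
    · rw [Wr.mul_σ, (hT b).1, Equiv.Perm.mul_apply, h2]
    · rw [Wr.mul_f, (hT b).1, h3, rd_tf s T hT, ← zpow_add]
      congr 1
      omega
  | pred n ih =>
    intro r
    obtain ⟨h1, h2, h3⟩ := ih (tperm b r)
    rw [rd_crd, rd_b2i_not] at h1 h3
    rw [rd_crd'] at h2
    rw [zpow_sub_one]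
    refine ⟨?_, ?_, ?_⟩
    · rw [Wr.mul_σ, Wr.inv_σ, (hT b).1, Equiv.Perm.mul_apply, rd_inv, h1]
      omega
    · rw [Wr.mul_σ, Wr.inv_σ, (hT b).1, Equiv.Perm.mul_apply, rd_inv, h2]
    · rw [Wr.mul_f, Wr.inv_f, Wr.inv_σ, (hT b).1, rd_inv, h3, rd_tf s T hT, rd_crd, rd_b2i_not,
        ← zpow_neg, ← zpow_add]
      congr 1
      omega

theorem rd_svec {Q : Type} [Group Q] (s : Bool → Q) (T : Bool → Wr (Bool × Bool) Q)
    (hT : ∀ b, (T b).σ = tperm b ∧ ∀ r, (T b).f r = if crd b r = true then s b else 1)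
    (v : ℤ × ℤ) (r : Bool × Bool) : b2i ((svec T v).σ r).1 = (b2i r.1 + v.1) % 2 ∧
      b2i ((svec T v).σ r).2 = (b2i r.2 + v.2) % 2 ∧
      (svec T v).f r = svec s ((b2i r.1 + v.1) / 2, (b2i r.2 + v.2) / 2) := by
  obtain ⟨h1, h2, h3⟩ := rd_pow s T hT true v.2 r
  obtain ⟨h4, h5, h6⟩ := rd_pow s T hT false v.1 ((T true ^ v.2).σ r)
  have h1' : b2i ((T true ^ v.2).σ r).2 = (b2i r.2 + v.2) % 2 := h1
  have h2' : ((T true ^ v.2).σ r).1 = r.1 := h2
  have h3' : (T true ^ v.2).f r = s true ^ ((b2i r.2 + v.2) / 2) := h3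
  have h4' : b2i ((T false ^ v.1).σ ((T true ^ v.2).σ r)).1 =
    (b2i ((T true ^ v.2).σ r).1 + v.1) % 2 := h4
  have h5' : ((T false ^ v.1).σ ((T true ^ v.2).σ r)).2 = ((T true ^ v.2).σ r).2 := h5
  have h6' : (T false ^ v.1).f ((T true ^ v.2).σ r) =
    s false ^ ((b2i ((T true ^ v.2).σ r).1 + v.1) / 2) := h6
  refine ⟨?_, ?_, ?_⟩
  · show b2i ((T false ^ v.1).σ ((T true ^ v.2).σ r)).1 = _
    rw [h4', h2']
  · show b2i ((T false ^ v.1).σ ((T true ^ v.2).σ r)).2 = _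
    rw [h5', h1']
  · show (T false ^ v.1).f ((T true ^ v.2).σ r) * (T true ^ v.2).f r =
      s false ^ ((b2i r.1 + v.1) / 2) * s true ^ ((b2i r.2 + v.2) / 2)
    rw [h6', h3', h2']

theorem rd_mperm (k : ℕ) (r : Bool × Bool) :
    b2i (mperm k r).1 = (mA k (b2i r.1, b2i r.2)).1 % 2 ∧
    b2i (mperm k r).2 = (mA k (b2i r.1, b2i r.2)).2 % 2 := by
  obtain ⟨C, hC⟩ : ∃ C : ℤ, C = (cst k : ℤ) := ⟨_, rfl⟩
  have hS : ∃ S : ℤ, S = C ^ 2 ∧ S % 2 = C % 2 := by
    refine ⟨C ^ 2, rfl, ?_⟩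
    rcases Int.even_or_odd' C with ⟨q, hq | hq⟩
    · rw [hq, show (2 * q) ^ 2 = 2 * (2 * q ^ 2) by ring]; omega
    · rw [hq, show (2 * q + 1) ^ 2 = 2 * (2 * q ^ 2 + 2 * q) + 1 by ring]; omega
  obtain ⟨S, hS1, hS2⟩ := hS
  unfold mperm mA
  rw [← hC, ← hS1]
  by_cases h : cst k % 2 = 0
  · rw [if_pos h]
    have h' : C % 2 = 0 := by omega
    rcases r with ⟨_ | _, _ | _⟩ <;> simp [b2i] <;> omega
  · rw [if_neg h]
    have h' : C % 2 = 1 := by omega
    rcases r with ⟨_ | _, _ | _⟩ <;> simp [b2i] <;> omega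

theorem rd_mA (k : ℕ) (b : Bool) (r : Bool × Bool) :
    (crd b r = false → mA k (b2i (tperm b r).1, b2i (tperm b r).2) =
      mA k (b2i r.1, b2i r.2) + mA k (b2i (!b), b2i b)) ∧
    (crd b r = true → mA k (b2i r.1, b2i r.2) =
      mA k (b2i (tperm b r).1, b2i (tperm b r).2) + mA k (b2i (!b), b2i b)) := by
  have key : ∀ x y x' y' u v : ℤ, x = x' + u → y = y' + v →
      mA k (x, y) = mA k (x', y') + mA k (u, v) := by
    intro x y x' y' u v h1 h2
    subst h1 h2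
    unfold mA
    ext
    · show _ = _ + _
      simp only
      ring
    · show _ = _ + _
      simp only
      ring
  constructor
  · intro h
    refine key _ _ _ _ _ _ ?_ ?_
    · revert h
      rcases r with ⟨_ | _, _ | _⟩ <;> cases b <;> simp [b2i, tperm, crd]
    · revert h
      rcases r with ⟨_ | _, _ | _⟩ <;> cases b <;> simp [b2i, tperm, crd]
  · intro h
    refine key _ _ _ _ _ _ ?_ ?_
    · revert h
      rcases r with ⟨_ | _, _ | _⟩ <;> cases b <;> simp [b2i, tperm, crd]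
    · revert h
      rcases r with ⟨_ | _, _ | _⟩ <;> cases b <;> simp [b2i, tperm, crd]

/-- the affine automaton satisfies the relations of the semidirect product -/
theorem reader_comm {Q : Type} [Group Q] (s : Bool → Q)
    (hs : s false * s true = s true * s false) (T : Bool → Wr (Bool × Bool) Q)
    (hT : ∀ b, (T b).σ = tperm b ∧ ∀ r, (T b).f r = if crd b r = true then s b else 1) :
    T false * T true = T true * T false := by
  apply Wr.ext
  · funext r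
    rw [Wr.mul_f, Wr.mul_f, (hT true).1, (hT false).1, (hT false).2, (hT true).2, (hT true).2,
      (hT false).2]
    rcases r with ⟨_ | _, _ | _⟩ <;> simp [crd, tperm, hs]
  · rw [Wr.mul_σ, Wr.mul_σ, (hT true).1, (hT false).1]
    ext r <;> rcases r with ⟨_ | _, _ | _⟩ <;> rfl

theorem reader_conj {Q : Type} [Group Q] (s : Bool → Q)
    (hs : s false * s true = s true * s false) (T : Bool → Wr (Bool × Bool) Q)
    (hT : ∀ b, (T b).σ = tperm b ∧ ∀ r, (T b).f r = if crd b r = true then s b else 1)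
    (g : Q) (k : ℕ) (hg : ∀ b, g * s b = svec s (mA k (b2i (!b), b2i b)) * g)
    (R : Wr (Bool × Bool) Q) (hR : R.σ = mperm k ∧ ∀ r, R.f r = svec s (quotM k r) * g) (b : Bool) :
    R * T b = svec T (mA k (b2i (!b), b2i b)) * R := by
  obtain ⟨w, hw⟩ : ∃ w, w = mA k (b2i (!b), b2i b) := ⟨_, rfl⟩
  rw [← hw]
  apply Wr.ext
  · funext r
    obtain ⟨h1, h2, h3⟩ := rd_svec s T hT w (mperm k r)
    obtain ⟨m1, m2⟩ := rd_mperm k r
    obtain ⟨a1, a2⟩ := rd_mA k b r
    rw [← hw] at a1 a2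
    rw [Wr.mul_f, Wr.mul_f, (hT b).1, hR.1, hR.2, hR.2, h3, m1, m2, ← mul_assoc,
      ← svec_add s hs, (hT b).2]
    cases hc : crd b r with
    | false =>
      rw [if_neg (by simp), mul_one]
      congr 2
      unfold quotM
      rw [a1 hc]
      ext
      · show ((mA k (b2i r.1, b2i r.2)).1 + w.1) / 2 =
          ((mA k (b2i r.1, b2i r.2)).1 % 2 + w.1) / 2 + (mA k (b2i r.1, b2i r.2)).1 / 2
        omega
      · show ((mA k (b2i r.1, b2i r.2)).2 + w.2) / 2 =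
          ((mA k (b2i r.1, b2i r.2)).2 % 2 + w.2) / 2 + (mA k (b2i r.1, b2i r.2)).2 / 2
        omega
    | true =>
      rw [if_pos rfl, mul_assoc, hg, ← hw, ← mul_assoc, ← svec_add s hs]
      congr 2
      unfold quotM
      rw [a2 hc]
      obtain ⟨z, hz⟩ : ∃ z, z = mA k (b2i (tperm b r).1, b2i (tperm b r).2) := ⟨_, rfl⟩
      rw [← hz]
      ext
      · show z.1 / 2 + w.1 = ((z.1 + w.1) % 2 + w.1) / 2 + (z.1 + w.1) / 2
        omega
      · show z.2 / 2 + w.2 = ((z.2 + w.2) % 2 + w.2) / 2 + (z.2 + w.2) / 2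
        omega
  · rw [Wr.mul_σ, Wr.mul_σ, (hT b).1, hR.1]
    apply Equiv.ext
    intro r
    rw [Equiv.Perm.mul_apply, Equiv.Perm.mul_apply]
    obtain ⟨h1, h2, h3⟩ := rd_svec s T hT w (mperm k r)
    obtain ⟨m1, m2⟩ := rd_mperm k r
    obtain ⟨n1, n2⟩ := rd_mperm k (tperm b r)
    obtain ⟨a1, a2⟩ := rd_mA k b r
    rw [← hw] at a1 a2
    rw [m1] at h1
    rw [m2] at h2
    cases hc : crd b r with
    | false =>
      rw [a1 hc] at n1 n2
      have n1' : b2i (mperm k (tperm b r)).1 = ((mA k (b2i r.1, b2i r.2)).1 + w.1) % 2 := n1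
      have n2' : b2i (mperm k (tperm b r)).2 = ((mA k (b2i r.1, b2i r.2)).2 + w.2) % 2 := n2
      refine Prod.ext (rd_b2i_inj _ _ ?_) (rd_b2i_inj _ _ ?_)
      · rw [h1, n1']; omega
      · rw [h2, n2']; omega
    | true =>
      rw [a2 hc] at h1 h2
      obtain ⟨z, hz⟩ : ∃ z, z = mA k (b2i (tperm b r).1, b2i (tperm b r).2) := ⟨_, rfl⟩
      rw [← hz] at h1 h2 n1 n2
      have h1' : b2i ((svec T w).σ (mperm k r)).1 = ((z.1 + w.1) % 2 + w.1) % 2 := h1
      have h2' : b2i ((svec T w).σ (mperm k r)).2 = ((z.2 + w.2) % 2 + w.2) % 2 := h2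
      refine Prod.ext (rd_b2i_inj _ _ ?_) (rd_b2i_inj _ _ ?_)
      · rw [h1', n1]; omega
      · rw [h2', n2]; omega

end

end Pool.Agent.H665Simp
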