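import Mathlib
import Pool.Agent.H665Simp.DefsA
import Pool.Agent.H665Simp.DefsD
import Pool.Agent.H665Simp.DefsG
import Pool.Agent.H665Simp.P_svec_basic
import Pool.Agent.H665Simp.P_reader

set_option autoImplicit false

namespace Pool.Agent.H665Simp

section
variable {nJ nQ B : ℕ} [NeZero B]


/-- block embedding of wreath products -/
noncomputable def slIot {P A Q : Type} [Group Q] (e : P ↪ A) : Wr P Q →* Wr A Q where
  toFun W := ⟨Function.extend e W.f (fun _ => 1), W.σ.viaEmbedding e⟩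
  map_one' := by
    ext c
    · show Function.extend e (fun _ => (1 : Q)) (fun _ => 1) c = 1
      by_cases h : ∃ r, e r = c
      · obtain ⟨r, rfl⟩ := h
        rw [e.injective.extend_apply]
      · rw [Function.extend_apply' _ _ _ h]
    · show (Equiv.Perm.viaEmbedding (1 : Equiv.Perm P) e) c = c
      have := map_one (Equiv.Perm.viaEmbeddingHom e)
      rw [Equiv.Perm.viaEmbeddingHom_apply] at this
      rw [this]; rfl
  map_mul' := by
    intro W W'
    ext c
    · show Function.extend e (W * W').f (fun _ => 1) c =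
        Function.extend e W.f (fun _ => 1) ((W'.σ.viaEmbedding e) c) *
          Function.extend e W'.f (fun _ => 1) c
      by_cases h : ∃ r, e r = c
      · obtain ⟨r, rfl⟩ := h
        rw [Equiv.Perm.viaEmbedding_apply, e.injective.extend_apply, e.injective.extend_apply,
          e.injective.extend_apply]
        rfl
      · rw [Equiv.Perm.viaEmbedding_apply_of_notMem _ _ _ (fun ⟨r, hr⟩ => h ⟨r, hr⟩),
          Function.extend_apply' _ _ _ h, Function.extend_apply' _ _ _ h,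
          Function.extend_apply' _ _ _ h, mul_one]
    · show ((W.σ * W'.σ).viaEmbedding e) c = (W.σ.viaEmbedding e) ((W'.σ.viaEmbedding e) c)
      have := map_mul (Equiv.Perm.viaEmbeddingHom e) W.σ W'.σ
      simp only [Equiv.Perm.viaEmbeddingHom_apply] at this
      rw [this]; rfl

theorem slIot_f {P A Q : Type} [Group Q] (e : P ↪ A) (W : Wr P Q) (r : P) :
    (slIot e W).f (e r) = W.f r := by
  show Function.extend e W.f (fun _ => 1) (e r) = W.f r
  exact e.injective.extend_apply _ _ _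

theorem slIot_f' {P A Q : Type} [Group Q] (e : P ↪ A) (W : Wr P Q) (c : A)
    (h : ¬ ∃ r, e r = c) : (slIot e W).f c = 1 := by
  show Function.extend e W.f (fun _ => 1) c = 1
  rw [Function.extend_apply' _ _ _ h]

theorem slIot_σ {P A Q : Type} [Group Q] (e : P ↪ A) (W : Wr P Q) (r : P) :
    (slIot e W).σ (e r) = e (W.σ r) := Equiv.Perm.viaEmbedding_apply _ _ _

theorem slIot_σ' {P A Q : Type} [Group Q] (e : P ↪ A) (W : Wr P Q) (c : A)
    (h : ¬ ∃ r, e r = c) : (slIot e W).σ c = c :=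
  Equiv.Perm.viaEmbedding_apply_of_notMem _ _ _ (fun ⟨r, hr⟩ => h ⟨r, hr⟩)

theorem sl_block {P A Q : Type} [Group Q] (e : P ↪ A) (X : Wr A Q) (R T T' : Wr P Q)
    (h : ∀ r, X.σ (e r) = e (R.σ r) ∧ X.f (e r) = R.f r) (hR : R * T = T' * R) :
    X * slIot e T = slIot e T' * X := by
  have hf : ∀ r, R.f (T.σ r) * T.f r = T'.f (R.σ r) * R.f r := fun r =>
    congrFun (congrArg Wr.f hR) r
  have hσ : ∀ r, R.σ (T.σ r) = T'.σ (R.σ r) := fun r =>
    congrArg (fun p : Equiv.Perm P => p r) (congrArg Wr.σ hR)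
  have hout : ∀ c, (¬ ∃ r, e r = c) → ¬ ∃ r, e r = X.σ c := by
    rintro c hc ⟨r, hr⟩
    apply hc
    refine ⟨R.σ.symm r, ?_⟩
    have h1 := (h (R.σ.symm r)).1
    rw [Equiv.apply_symm_apply, hr] at h1
    exact X.σ.injective h1
  ext c
  · show X.f ((slIot e T).σ c) * (slIot e T).f c = (slIot e T').f (X.σ c) * X.f c
    by_cases hc : ∃ r, e r = c
    · obtain ⟨r, rfl⟩ := hc
      rw [slIot_σ, slIot_f, (h _).2, (h r).1, (h r).2, slIot_f]
      exact hf r
    · rw [slIot_σ' _ _ _ hc, slIot_f' _ _ _ hc, slIot_f' _ _ _ (hout c hc), mul_one, one_mul]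
  · show X.σ ((slIot e T).σ c) = (slIot e T').σ (X.σ c)
    by_cases hc : ∃ r, e r = c
    · obtain ⟨r, rfl⟩ := hc
      rw [slIot_σ, (h _).1, (h r).1, slIot_σ, hσ]
    · rw [slIot_σ' _ _ _ hc, slIot_σ' _ _ _ (hout c hc)]

/-- the first reader -/
def slE1 : (Bool × Bool) ↪ Lt nJ nQ B :=
  ⟨fun r => (false, .inl (.inr (.inl r))), fun a b h => by simpa using h⟩

/-- the second reader -/
def slE2 : (Bool × Bool) ↪ Lt nJ nQ B :=
  ⟨fun r => (false, .inl (.inr (.inr r))), fun a b h => by simpa using h⟩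

theorem slE1_apply (r : Bool × Bool) :
    (slE1 r : Lt nJ nQ B) = (false, .inl (.inr (.inl r))) := rfl

theorem slE2_apply (r : Bool × Bool) :
    (slE2 r : Lt nJ nQ B) = (false, .inl (.inr (.inr r))) := rfl

/-- the image of a generator -/
noncomputable def slG (m : Mach nJ nQ B) (w : ℕ) (g : Lg nJ nQ) :
    Wr (Lt nJ nQ B) (GG nJ nQ) := ⟨fun c => evG m w (secL m g c), actL g⟩

theorem sl_ev_wd (m : Mach nJ nQ B) (w : ℕ) (g : Lg nJ nQ) : evG m w (wd g) = gg g := by
  unfold evG evO wd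
  rw [FreeGroup.lift_apply_of]
  rfl

theorem sl_ev_svec (m : Mach nJ nQ B) (w : ℕ) (h : Bool → Lg nJ nQ) (v : ℤ × ℤ)
    (g : Lg nJ nQ) : evG m w (svec (fun k => wd (h k)) v * wd g) =
      svec (fun k => gg (h k)) v * gg g := by
  rw [map_mul, svec_map, sl_ev_wd]
  simp only [sl_ev_wd]

theorem sl_mk_rel {r : FreeGroup (Lg nJ nQ)} (h : r ∈ relG nJ nQ) :
    PresentedGroup.mk (relG nJ nQ) r = 1 :=
  (QuotientGroup.eq_one_iff r).2 (Subgroup.subset_normalClosure h)

theorem sl_rel_s : (gg (Lg.s false) : GG nJ nQ) * gg (Lg.s true) =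
    gg (Lg.s true) * gg (Lg.s false) := by
  have h := sl_mk_rel (nJ := nJ) (nQ := nQ) (Or.inl rfl)
  rw [map_mul, map_inv, mul_inv_eq_one, map_mul, map_mul] at h
  exact h

theorem sl_rel_t : (gg (Lg.t false) : GG nJ nQ) * gg (Lg.t true) =
    gg (Lg.t true) * gg (Lg.t false) := by
  have h := sl_mk_rel (nJ := nJ) (nQ := nQ) (Or.inr (Or.inl rfl))
  rw [map_mul, map_inv, mul_inv_eq_one, map_mul, map_mul] at h
  exact h

theorem sl_rel_gs (g : Lg nJ nQ) (hg : g.isA = true) (b : Bool) :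
    (gg g : GG nJ nQ) * gg (Lg.s b) =
      svec (fun k => gg (Lg.s k)) (mA g.idx (b2i (!b), b2i b)) * gg g := by
  have h := sl_mk_rel (nJ := nJ) (nQ := nQ) (Or.inr (Or.inr (Or.inl ⟨g, b, hg, rfl⟩)))
  rw [map_mul, map_inv, mul_inv_eq_one, map_mul, map_mul, svec_map] at h
  exact h

theorem sl_rel_gt (g : Lg nJ nQ) (hg : g.isU = true) (b : Bool) :
    (gg g : GG nJ nQ) * gg (Lg.t b) =
      svec (fun k => gg (Lg.t k)) (mA g.idx (b2i (!b), b2i b)) * gg g := by
  have h := sl_mk_rel (nJ := nJ) (nQ := nQ) (Or.inr (Or.inr (Or.inr ⟨g, b, hg, rfl⟩)))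
  rw [map_mul, map_inv, mul_inv_eq_one, map_mul, map_mul, svec_map] at h
  exact h

/-- the block of `s k` -/
def slTs (nJ nQ : ℕ) (k : Bool) : Wr (Bool × Bool) (GG nJ nQ) :=
  ⟨fun r => if crd k r = true then gg (.s k) else 1, tperm k⟩

/-- the block of `t k` -/
def slTt (nJ nQ : ℕ) (k : Bool) : Wr (Bool × Bool) (GG nJ nQ) :=
  ⟨fun r => if crd k r = true then gg (.t k) else 1, tperm k⟩

theorem sl_act_false (g : Lg nJ nQ) (b : Bs nJ nQ B ⊕ Fin 3) :
    actL g (false, b) = (false, (Equiv.sumCongr (actB g) (Equiv.refl _)) b) :=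
  Equiv.Perm.prodExtendRight_apply_eq _ _ _

theorem sl_act_true (g : Lg nJ nQ) (b : Bs nJ nQ B ⊕ Fin 3) :
    actL g (true, b) = (true, b) :=
  Equiv.Perm.prodExtendRight_apply_ne _ (by simp) _

theorem sl_s_eq (m : Mach nJ nQ B) (w : ℕ) (k : Bool) :
    slG m w (.s k) = slIot slE1 (slTs nJ nQ k) := by
  have key : ∀ c : Lt nJ nQ B, (slG m w (.s k)).f c = (slIot slE1 (slTs nJ nQ k)).f c ∧
      (slG m w (.s k)).σ c = (slIot slE1 (slTs nJ nQ k)).σ c := by
    rintro ⟨_ | _, ((z | (r | r)) | z)⟩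
    · have hc : ¬ ∃ r, (slE1 : (Bool × Bool) ↪ Lt nJ nQ B) r = (false, .inl (.inl z)) := by
        rintro ⟨r, hr⟩; rw [slE1_apply] at hr; simp at hr
      rw [slIot_f' _ _ _ hc, slIot_σ' _ _ _ hc]
      refine ⟨?_, ?_⟩
      · show evG m w 1 = 1
        exact map_one _
      · exact sl_act_false _ _
    · rw [show ((false, .inl (.inr (.inl r))) : Lt nJ nQ B) = slE1 r from rfl, slIot_f, slIot_σ]
      refine ⟨?_, ?_⟩
      · show evG m w (if crd k r = true then wd (.s k) else 1) =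
          if crd k r = true then gg (.s k) else 1
        split_ifs
        · exact sl_ev_wd m w _
        · exact map_one _
      · exact sl_act_false _ _
    · have hc : ¬ ∃ r', (slE1 : (Bool × Bool) ↪ Lt nJ nQ B) r' =
          (false, .inl (.inr (.inr r))) := by
        rintro ⟨r, hr⟩; rw [slE1_apply] at hr; simp at hr
      rw [slIot_f' _ _ _ hc, slIot_σ' _ _ _ hc]
      refine ⟨?_, ?_⟩
      · show evG m w 1 = 1
        exact map_one _
      · exact sl_act_false _ _
    · have hc : ¬ ∃ r', (slE1 : (Bool × Bool) ↪ Lt nJ nQ B) r' = (false, .inr z) := by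
        rintro ⟨r, hr⟩; rw [slE1_apply] at hr; simp at hr
      rw [slIot_f' _ _ _ hc, slIot_σ' _ _ _ hc]
      refine ⟨?_, ?_⟩
      · show evG m w (if (Lg.s k : Lg nJ nQ).zt = some z then wz m (.s k) else 1) = 1
        rw [if_neg (by simp [Lg.zt])]
        exact map_one _
      · exact sl_act_false _ _
    all_goals
      have hc : ∀ y, ¬ ∃ r', (slE1 : (Bool × Bool) ↪ Lt nJ nQ B) r' = (true, y) := by
        rintro y ⟨r, hr⟩; rw [slE1_apply] at hr; simp at hr
      rw [slIot_f' _ _ _ (hc _), slIot_σ' _ _ _ (hc _)]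
      refine ⟨?_, ?_⟩
      · show evG m w 1 = 1
        exact map_one _
      · exact sl_act_true _ _
  exact Wr.ext (funext fun c => (key c).1) (Equiv.ext fun c => (key c).2)

theorem sl_t_eq (m : Mach nJ nQ B) (w : ℕ) (k : Bool) :
    slG m w (.t k) = slIot slE2 (slTt nJ nQ k) := by
  have key : ∀ c : Lt nJ nQ B, (slG m w (.t k)).f c = (slIot slE2 (slTt nJ nQ k)).f c ∧
      (slG m w (.t k)).σ c = (slIot slE2 (slTt nJ nQ k)).σ c := by
    rintro ⟨_ | _, ((z | (r | r)) | z)⟩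
    · have hc : ¬ ∃ r, (slE2 : (Bool × Bool) ↪ Lt nJ nQ B) r = (false, .inl (.inl z)) := by
        rintro ⟨r, hr⟩; rw [slE2_apply] at hr; simp at hr
      rw [slIot_f' _ _ _ hc, slIot_σ' _ _ _ hc]
      refine ⟨?_, ?_⟩
      · show evG m w 1 = 1
        exact map_one _
      · exact sl_act_false _ _
    · have hc : ¬ ∃ r', (slE2 : (Bool × Bool) ↪ Lt nJ nQ B) r' =
          (false, .inl (.inr (.inl r))) := by
        rintro ⟨r, hr⟩; rw [slE2_apply] at hr; simp at hr
      rw [slIot_f' _ _ _ hc, slIot_σ' _ _ _ hc]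
      refine ⟨?_, ?_⟩
      · show evG m w 1 = 1
        exact map_one _
      · exact sl_act_false _ _
    · rw [show ((false, .inl (.inr (.inr r))) : Lt nJ nQ B) = slE2 r from rfl, slIot_f, slIot_σ]
      refine ⟨?_, ?_⟩
      · show evG m w (if crd k r = true then wd (.t k) else 1) =
          if crd k r = true then gg (.t k) else 1
        split_ifs
        · exact sl_ev_wd m w _
        · exact map_one _
      · exact sl_act_false _ _
    · have hc : ¬ ∃ r', (slE2 : (Bool × Bool) ↪ Lt nJ nQ B) r' = (false, .inr z) := by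
        rintro ⟨r, hr⟩; rw [slE2_apply] at hr; simp at hr
      rw [slIot_f' _ _ _ hc, slIot_σ' _ _ _ hc]
      refine ⟨?_, ?_⟩
      · show evG m w (if (Lg.t k : Lg nJ nQ).zt = some z then wz m (.t k) else 1) = 1
        rw [if_neg (by simp [Lg.zt])]
        exact map_one _
      · exact sl_act_false _ _
    all_goals
      have hc : ∀ y, ¬ ∃ r', (slE2 : (Bool × Bool) ↪ Lt nJ nQ B) r' = (true, y) := by
        rintro y ⟨r, hr⟩; rw [slE2_apply] at hr; simp at hr
      rw [slIot_f' _ _ _ (hc _), slIot_σ' _ _ _ (hc _)]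
      refine ⟨?_, ?_⟩
      · show evG m w 1 = 1
        exact map_one _
      · exact sl_act_true _ _
  exact Wr.ext (funext fun c => (key c).1) (Equiv.ext fun c => (key c).2)

/-- the block of `g` at the first reader -/
noncomputable def slR1 (g : Lg nJ nQ) : Wr (Bool × Bool) (GG nJ nQ) :=
  ⟨fun r => svec (fun k => gg (.s k)) (quotM g.idx r) * gg g, mperm g.idx⟩

/-- the block of `g` at the second reader -/
noncomputable def slR2 (g : Lg nJ nQ) : Wr (Bool × Bool) (GG nJ nQ) :=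
  ⟨fun r => svec (fun k => gg (.t k)) (quotM g.idx r) * gg g, mperm g.idx⟩

theorem sl_g1 (m : Mach nJ nQ B) (w : ℕ) (g : Lg nJ nQ) (hg : g.isA = true) (r : Bool × Bool) :
    (slG m w g).σ (slE1 r) = slE1 ((slR1 g).σ r) ∧
      (slG m w g).f (slE1 r) = (slR1 g).f r := by
  cases g with
  | x j => exact ⟨sl_act_false _ _, sl_ev_svec m w Lg.s _ _⟩
  | a => exact ⟨sl_act_false _ _, sl_ev_svec m w Lg.s _ _⟩
  | u i => simp [Lg.isA] at hg
  | s k => simp [Lg.isA] at hg
  | t k => simp [Lg.isA] at hg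

theorem sl_g2 (m : Mach nJ nQ B) (w : ℕ) (g : Lg nJ nQ) (hg : g.isU = true) (r : Bool × Bool) :
    (slG m w g).σ (slE2 r) = slE2 ((slR2 g).σ r) ∧
      (slG m w g).f (slE2 r) = (slR2 g).f r := by
  cases g with
  | x j => exact ⟨sl_act_false _ _, sl_ev_svec m w Lg.t _ _⟩
  | a => simp [Lg.isU] at hg
  | u i => exact ⟨sl_act_false _ _, sl_ev_svec m w Lg.t _ _⟩
  | s k => simp [Lg.isU] at hg
  | t k => simp [Lg.isU] at hg

theorem sl_rels (m : Mach nJ nQ B) (w : ℕ) (r : FreeGroup (Lg nJ nQ)) (hr : r ∈ relG nJ nQ) :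
    FreeGroup.lift (slG m w) r = 1 := by
  have hTs : ∀ b, (slTs nJ nQ b).σ = tperm b ∧
      ∀ r, (slTs nJ nQ b).f r = if crd b r = true then gg (.s b) else 1 := fun b =>
    ⟨rfl, fun r => rfl⟩
  have hTt : ∀ b, (slTt nJ nQ b).σ = tperm b ∧
      ∀ r, (slTt nJ nQ b).f r = if crd b r = true then gg (.t b) else 1 := fun b =>
    ⟨rfl, fun r => rfl⟩
  rcases hr with rfl | rfl | ⟨g, k, hg, rfl⟩ | ⟨g, k, hg, rfl⟩
  · rw [map_mul, map_inv, mul_inv_eq_one, map_mul, map_mul, FreeGroup.lift_apply_of,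
      FreeGroup.lift_apply_of, sl_s_eq, sl_s_eq, ← map_mul, ← map_mul,
      reader_comm (fun k => gg (Lg.s k)) sl_rel_s (slTs nJ nQ) hTs]
  · rw [map_mul, map_inv, mul_inv_eq_one, map_mul, map_mul, FreeGroup.lift_apply_of,
      FreeGroup.lift_apply_of, sl_t_eq, sl_t_eq, ← map_mul, ← map_mul,
      reader_comm (fun k => gg (Lg.t k)) sl_rel_t (slTt nJ nQ) hTt]
  · have h1 := reader_conj (fun k => gg (Lg.s k)) sl_rel_s (slTs nJ nQ) hTs (gg g) g.idx
      (sl_rel_gs g hg) (slR1 g) ⟨rfl, fun r => rfl⟩ k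
    have h2 := sl_block slE1 (slG m w g) (slR1 g) _ _ (sl_g1 m w g hg) h1
    rw [map_mul, map_inv, mul_inv_eq_one, map_mul, map_mul, FreeGroup.lift_apply_of,
      FreeGroup.lift_apply_of, svec_map, sl_s_eq, h2, svec_map]
    simp only [FreeGroup.lift_apply_of, sl_s_eq]
  · have h1 := reader_conj (fun k => gg (Lg.t k)) sl_rel_t (slTt nJ nQ) hTt (gg g) g.idx
      (sl_rel_gt g hg) (slR2 g) ⟨rfl, fun r => rfl⟩ k
    have h2 := sl_block slE2 (slG m w g) (slR2 g) _ _ (sl_g2 m w g hg) h1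
    rw [map_mul, map_inv, mul_inv_eq_one, map_mul, map_mul, FreeGroup.lift_apply_of,
      FreeGroup.lift_apply_of, svec_map, sl_t_eq, h2, svec_map]
    simp only [FreeGroup.lift_apply_of, sl_t_eq]

/-- the wreath recursion of the label group exists -/
theorem sl_exists (m : Mach nJ nQ B) (w : ℕ) :
    ∃ SL : GG nJ nQ →* Wr (Lt nJ nQ B) (GG nJ nQ), IsSL m w SL := by
  refine ⟨PresentedGroup.toGroup (sl_rels m w), fun g => ?_⟩
  rw [show PresentedGroup.toGroup (sl_rels m w) (gg g) = slG m w g from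
    PresentedGroup.toGroup.of (sl_rels m w)]
  exact ⟨rfl, fun c => rfl⟩

end

end Pool.Agent.H665Simp
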