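import Mathlib
import Pool.Agent.H665Simp.DefsA
import Pool.Agent.H665Simp.DefsD
import Pool.Agent.H665Simp.DefsG

set_option autoImplicit false

namespace Pool.Agent.H665Simp

section
variable {nJ nQ B : ℕ} [NeZero B]


theorem ss_of_sl (m : Mach nJ nQ B) (w : ℕ) (e : ℕ) (q : Lt nJ nQ B ≃ Fin (e + 1))
    (SL : GG nJ nQ →* Wr (Lt nJ nQ B) (GG nJ nQ)) (h : IsSL m w SL) :
    ∃ S : SS (GG nJ nQ) (e + 1), (DG m e q).IsSS w S := by
  refine ⟨{ act := { toFun := fun g => q.symm.trans (((SL g).σ).trans q)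
                     map_one' := ?_
                     map_mul' := ?_ }
            sec := fun g c => (SL g).f (q.symm c)
            sec_mul := ?_ }, ?_, ?_⟩
  · ext c
    simp
  · intro a b
    ext c
    simp
  · intro g k c
    simp
  · intro s
    show q.symm.trans (((SL (gg s)).σ).trans q) = q.symm.trans ((actL s).trans q)
    rw [(h s).1]
  · intro s c
    show (SL (gg s)).f (q.symm c) = evG m w (secL m s (q.symm c))
    exact (h s).2 _

theorem sl_of_ss (m : Mach nJ nQ B) (w : ℕ) (e : ℕ) (q : Lt nJ nQ B ≃ Fin (e + 1))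
    (S : SS (GG nJ nQ) (e + 1)) (hS : (DG m e q).IsSS w S)
    (SL : GG nJ nQ →* Wr (Lt nJ nQ B) (GG nJ nQ)) (h : IsSL m w SL) (g : GG nJ nQ)
    (c : Lt nJ nQ B) : S.act g (q c) = q ((SL g).σ c) ∧ S.sec g (q c) = (SL g).f c := by
  have hg : g ∈ Subgroup.closure (Set.range (PresentedGroup.of (rels := relG nJ nQ))) := by
    rw [PresentedGroup.closure_range_of]
    exact Subgroup.mem_top g
  have hone : ∀ c, S.sec 1 c = 1 := by
    intro c
    have h1 := S.sec_mul 1 1 c
    rw [mul_one, map_one, Equiv.Perm.one_apply] at h1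
    exact (left_eq_mul.mp h1)
  induction hg using Subgroup.closure_induction generalizing c with
  | mem x hx =>
    obtain ⟨s, rfl⟩ := hx
    constructor
    · have h1 : S.act (PresentedGroup.of s) = q.symm.trans ((actL s).trans q) := hS.1 s
      rw [h1]
      have h2 : (SL (PresentedGroup.of s)).σ = actL s := (h s).1
      rw [h2]
      simp
    · have h1 : S.sec (PresentedGroup.of s) (q c) = evG m w (secL m s (q.symm (q c))) :=
        hS.2 s (q c)
      rw [h1, Equiv.symm_apply_apply]
      exact ((h s).2 c).symm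
  | one =>
    constructor
    · simp
    · rw [hone, map_one, Wr.one_f]
  | mul x y _ _ hx hy =>
    constructor
    · rw [map_mul, map_mul, Equiv.Perm.mul_apply, (hy c).1, (hx _).1, Wr.mul_σ,
        Equiv.Perm.mul_apply]
    · rw [S.sec_mul, (hy c).1, (hy c).2, (hx _).2, map_mul, Wr.mul_f]
  | inv x _ hx =>
    have h1 : S.act x⁻¹ (q c) = q ((SL x).σ⁻¹ c) := by
      rw [map_inv, Equiv.Perm.inv_eq_iff_eq, (hx _).1]; simp
    constructor
    · rw [h1, map_inv, Wr.inv_σ]
    · have h2 := S.sec_mul x x⁻¹ (q c)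
      rw [mul_inv_cancel, hone, h1, (hx _).2] at h2
      rw [map_inv, Wr.inv_f]
      exact eq_inv_of_mul_eq_one_right h2.symm

end

end Pool.Agent.H665Simp
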