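import Mathlib
import Pool.Agent.H665Simp.DefsA
import Pool.Agent.H665Simp.DefsB
import Pool.Agent.H665Simp.DefsD
import Pool.Agent.H665Simp.DefsG
import Pool.Agent.H665Simp.P_sl_exists
import Pool.Agent.H665Simp.P_ss_of_sl
import Pool.Agent.H665Simp.P_homs
import Pool.Agent.H665Simp.P_conj_sim

set_option autoImplicit false

namespace Pool.Agent.H665Simp

section
variable {nJ nQ B : ℕ} [NeZero B]
variable {G : Type} [Group G] {e : ℕ} {S : SS G (e + 1)} {Q : Type} [Group Q]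


theorem bad_surj (nJ nQ : ℕ) (ab : GG nJ nQ →* Multiplicative (Fin nJ → ℤ))
    (hx : ∀ j, ab (gg (Lg.x j)) = Multiplicative.ofAdd (Pi.single j 1)) (v : Fin nJ → ℤ) :
    ∃ h ∈ XX nJ nQ, (ab h).toAdd = v := by
  have key : ∀ T : Finset (Fin nJ), ∃ h ∈ XX nJ nQ,
      (ab h).toAdd = ∑ j ∈ T, Pi.single j (v j) := by
    intro T
    induction T using Finset.induction_on with
    | empty => exact ⟨1, Subgroup.one_mem _, by simp⟩
    | insert j T hj ih =>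
      obtain ⟨h, hh, hv⟩ := ih
      have hjm : (gg (Lg.x j) : GG nJ nQ) ∈ XX nJ nQ := Subgroup.subset_closure ⟨j, rfl⟩
      refine ⟨gg (Lg.x j) ^ v j * h,
        Subgroup.mul_mem _ (Subgroup.zpow_mem _ hjm _) hh, ?_⟩
      rw [Finset.sum_insert hj, map_mul, toAdd_mul, hv, map_zpow, toAdd_zpow, hx]
      congr 1
      rw [toAdd_ofAdd]
      funext i
      by_cases hi : i = j
      · subst hi
        simp
      · simp [Pi.single_eq_of_ne hi]
  obtain ⟨h, hh, hv⟩ := key Finset.univ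
  refine ⟨h, hh, ?_⟩
  rw [hv, Finset.univ_sum_single]

/-- if the machine does not halt from some configuration then there is a persistent element -/
theorem bad (m : Mach nJ nQ B) (w : ℕ) (e : ℕ) (q : Lt nJ nQ B ≃ Fin (e + 1))
    (S : SS (GG nJ nQ) (e + 1)) (hS : (DG m e q).IsSS w S)
    (hh : ¬ ∀ c, HaltsF (m.stp w) c) :
    ∃ (z : ℕ → Fin (e + 1)) (g : ℕ → GG nJ nQ), (∀ n, S.act (g n) = 1) ∧
      (∀ n, S.sec (g n) (z n) = g (n + 1)) ∧ (∀ n c, c ≠ z n → S.sec (g n) c = 1) ∧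
      ∀ n, g n ≠ 1 := by
  classical
  obtain ⟨SL, hSL⟩ := sl_exists (nJ := nJ) (nQ := nQ) (B := B) m w
  obtain ⟨ab, hx, ha, hu, hs, ht⟩ := ab_exists nJ nQ
  obtain ⟨f, hfx, hfa, hfu, -, -⟩ := s3_exists nJ nQ
  -- the element attached to a state
  obtain ⟨el, hel⟩ : ∃ el : Fin nQ × GG nJ nQ → GG nJ nQ,
      el = fun p => cm (gg Lg.a) (p.2⁻¹ * gg (Lg.u p.1) * p.2) := ⟨_, rfl⟩
  obtain ⟨lt, hlt⟩ : ∃ lt : Fin nQ × GG nJ nQ → Lt nJ nQ B,
      lt = fun p => (false, Sum.inl (Sum.inl (p.1, resd B (ab p.2).toAdd, 0))) := ⟨_, rfl⟩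
  have hnext : ∀ p : {p : Fin nQ × GG nJ nQ // p.2 ∈ XX nJ nQ ∧
      ¬ HaltsF (m.stp w) (p.1, (ab p.2).toAdd)},
      ∃ p' : {p : Fin nQ × GG nJ nQ // p.2 ∈ XX nJ nQ ∧
        ¬ HaltsF (m.stp w) (p.1, (ab p.2).toAdd)}, (SL (el p.1)).f (lt p.1) = el p'.1 := by
    rintro ⟨⟨i, h⟩, hhX, hhH⟩
    obtain ⟨-, -, h3, h4⟩ := conj_sim m w SL hSL ab hx ha hu hs ht h i
    rcases hst : m.stp w (i, (ab h).toAdd) with _ | ⟨i', v'⟩
    · exact absurd (HaltsF.halt _ hst) hhH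
    · obtain ⟨g', hg1, hg2, hg3⟩ := h4 i' v' hst
      refine ⟨⟨(i', g'), hg2 hhX, ?_⟩, ?_⟩
      · intro hc
        rw [hg1] at hc
        exact hhH (HaltsF.step _ _ hst hc)
      · rw [hel, hlt]
        exact hg3
  choose nx hnx using hnext
  push Not at hh
  obtain ⟨⟨i0, v0⟩, h0⟩ := hh
  obtain ⟨g0, hg0X, hg0⟩ := bad_surj nJ nQ ab hx v0
  have hst0 : g0 ∈ XX nJ nQ ∧ ¬ HaltsF (m.stp w) (i0, (ab g0).toAdd) := by
    rw [hg0]
    exact ⟨hg0X, h0⟩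
  obtain ⟨sq, hsq⟩ : ∃ sq : ℕ → {p : Fin nQ × GG nJ nQ // p.2 ∈ XX nJ nQ ∧
      ¬ HaltsF (m.stp w) (p.1, (ab p.2).toAdd)}, ∀ n, sq (n + 1) = nx (sq n) :=
    ⟨fun n => Nat.rec ⟨(i0, g0), hst0⟩ (fun _ p => nx p) n, fun n => rfl⟩
  refine ⟨fun n => q (lt (sq n).1), fun n => el (sq n).1, ?_, ?_, ?_, ?_⟩
  · intro n
    obtain ⟨h1, -, -, -⟩ := conj_sim m w SL hSL ab hx ha hu hs ht (sq n).1.2 (sq n).1.1
    ext c
    obtain ⟨c', rfl⟩ := q.surjective c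
    rw [(sl_of_ss m w e q S hS SL hSL (el (sq n).1) c').1, hel]
    rw [h1]
    rfl
  · intro n
    show S.sec (el (sq n).1) (q (lt (sq n).1)) = el (sq (n + 1)).1
    rw [(sl_of_ss m w e q S hS SL hSL (el (sq n).1) (lt (sq n).1)).2, hnx, hsq]
  · intro n c hc
    obtain ⟨c', rfl⟩ := q.surjective c
    have hc' : c' ≠ lt (sq n).1 := fun h => hc (by rw [h])
    obtain ⟨-, h2, -, -⟩ := conj_sim m w SL hSL ab hx ha hu hs ht (sq n).1.2 (sq n).1.1
    show S.sec (el (sq n).1) (q c') = 1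
    rw [(sl_of_ss m w e q S hS SL hSL (el (sq n).1) c').2, hel]
    refine h2 c' ?_
    rw [hlt] at hc'
    exact hc'
  · intro n hn
    have hker : XX nJ nQ ≤ f.ker := by
      unfold XX
      rw [Subgroup.closure_le]
      rintro _ ⟨j, rfl⟩
      exact hfx j
    have hf1 : f (sq n).1.2 = 1 := hker (sq n).2.1
    have hfn : f (el (sq n).1) = 1 := by
      have hn' : el (sq n).1 = 1 := hn
      rw [hn', map_one]
    rw [hel] at hfn
    simp only [cm, map_mul, map_inv, hf1, hfa, hfu, inv_one, one_mul, mul_one] at hfn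
    revert hfn
    decide

end

end Pool.Agent.H665Simp
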