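import Mathlib
import Pool.Agent.H665Simp.DefsA
import Pool.Agent.H665Simp.DefsD

set_option autoImplicit false

namespace Pool.Agent.H665Simp

section
variable {Q : Type} [Group Q] {e : ℕ}


theorem base_A_shift (x : ℕ → Q) (h : ∀ i, 1 ≤ i → x i * x 0 = x 0 * x (i + e)) (i j : ℕ)
    (hi : 1 ≤ i) (hij : i < j) (R : x j * x i = x i * x (j + e)) :
    x (j + e) * x (i + e) = x (i + e) * x (j + e + e) := by
  have h1 := h i hi
  have h2 := h j (by omega)
  have h3 := h (j + e) (by omega)
  apply mul_left_cancel (a := x 0)
  calc x 0 * (x (j + e) * x (i + e)) = (x 0 * x (j + e)) * x (i + e) := by rw [mul_assoc]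
    _ = x j * (x 0 * x (i + e)) := by rw [← h2, mul_assoc]
    _ = (x j * x i) * x 0 := by rw [← h1, mul_assoc]
    _ = x i * (x (j + e) * x 0) := by rw [R, mul_assoc]
    _ = (x i * x 0) * x (j + e + e) := by rw [h3, mul_assoc]
    _ = x 0 * (x (i + e) * x (j + e + e)) := by rw [h1, mul_assoc]

theorem base_A (he : 3 ≤ e) (x p t : ℕ → Q) (B : BaseV e x p t) :
    ∀ i j, i < j → x j * x i = x i * x (j + e) := by
  intro i j
  induction j using Nat.strong_induction_on generalizing i with
  | _ j ih =>
    intro hij
    rcases Nat.eq_zero_or_pos i with h0 | h0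
    · subst h0
      exact B.sx j (by omega)
    rcases Nat.lt_or_ge e i with h1 | h1
    · have h2 := ih (j - e) (by omega) (i - e) (by omega)
      have h3 := base_A_shift x B.sx (i - e) (j - e) (by omega) (by omega) h2
      have e1 : i - e + e = i := by omega
      have e2 : j - e + e = j := by omega
      rw [e1, e2] at h3
      exact h3
    rcases Nat.lt_or_ge (2 * e + 4) j with h2 | h2
    · have a1 := ih (j - e) (by omega) (e + 1) (by omega)
      have a2 := B.A i (e + 1) (by omega) h1 (by omega)
      have a3 := ih (j - e) (by omega) i (by omega)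
      have a4 := base_A_shift x B.sx (e + 1) (j - e) (by omega) (by omega) a1
      have e2 : j - e + e = j := by omega
      rw [e2] at a1 a3 a4
      apply mul_left_cancel (a := x (e + 1))
      calc x (e + 1) * (x j * x i) = (x (e + 1) * x j) * x i := by rw [mul_assoc]
        _ = x (j - e) * (x (e + 1) * x i) := by rw [← a1, mul_assoc]
        _ = (x (j - e) * x i) * x (e + 1 + e) := by rw [a2, mul_assoc]
        _ = x i * (x j * x (e + 1 + e)) := by rw [a3, mul_assoc]
        _ = (x i * x (e + 1 + e)) * x (j + e) := by rw [a4, mul_assoc]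
        _ = x (e + 1) * (x i * x (j + e)) := by rw [← a2, mul_assoc]
    · exact B.A i j hij h1 h2

end

end Pool.Agent.H665Simp
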