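import Mathlib
import Pool.Agent.H665Simp.DefsA
import Pool.Agent.H665Simp.DefsD
import Pool.Agent.H665Simp.P_base_A

set_option autoImplicit false

namespace Pool.Agent.H665Simp

section
variable {Q : Type} [Group Q] {e : ℕ}


theorem base_B1 (he : 3 ≤ e) (x p t : ℕ → Q) (B : BaseV e x p t) :
    ∀ i k, i < k → p k * x i = x i * p (k + e) := by
  have hx : ∀ i, 1 ≤ i → x (i + e) = (x 0)⁻¹ * x i * x 0 := by
    intro i hi
    rw [mul_assoc, B.sx i hi, inv_mul_cancel_left]
  have hp : ∀ i, 1 ≤ i → p (i + e) = (x 0)⁻¹ * p i * x 0 := by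
    intro i hi
    rw [mul_assoc, B.sp i hi, inv_mul_cancel_left]
  have shift : ∀ i k, 1 ≤ i → 1 ≤ k → p k * x i = x i * p (k + e) →
      p (k + e) * x (i + e) = x (i + e) * p (k + e + e) := by
    intro i k hi hk h
    rw [hp (k + e) (by omega), hx i hi, hp k hk]
    have h1 : (x 0)⁻¹ * p k * x 0 * ((x 0)⁻¹ * x i * x 0) = (x 0)⁻¹ * (p k * x i) * x 0 := by
      group
    have h2 : (x 0)⁻¹ * x i * x 0 * ((x 0)⁻¹ * ((x 0)⁻¹ * p k * x 0) * x 0) =
        (x 0)⁻¹ * (x i * ((x 0)⁻¹ * p k * x 0)) * x 0 := by group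
    rw [h1, h2, h, hp k hk]
  have small : ∀ k i, 1 ≤ i → i ≤ e → i < k → p k * x i = x i * p (k + e) := by
    intro k
    induction k using Nat.strong_induction_on with
    | _ k ih =>
      intro i hi hie hik
      by_cases hk : k ≤ 2 * e + 4
      · exact B.B1 i k hik hie hk
      · obtain ⟨a, rfl⟩ : ∃ a, k = a + e + e := ⟨k - 2 * e, by omega⟩
        -- R(1, a)
        have r1 := ih a (by omega) 1 le_rfl (by omega) (by omega)
        have r2 := shift 1 a le_rfl (by omega) r1
        -- r2 : p (a+e) * x (1+e) = x (1+e) * p (a+e+e)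
        have r3 := shift (1 + e) (a + e) (by omega) (by omega) r2
        -- r3 : p (a+e+e) * x (1+e+e) = x (1+e+e) * p (a+e+e+e)
        have r4 := ih (a + e) (by omega) i hi hie (by omega)
        -- r4 : p (a+e) * x i = x i * p (a+e+e)
        have r5 := base_A he x p t B i (1 + e) (by omega)
        -- r5 : x (1+e) * x i = x i * x (1+e+e)
        have e1 : p (a + e + e) = (x (1 + e))⁻¹ * p (a + e) * x (1 + e) := by
          rw [mul_assoc, r2, inv_mul_cancel_left]
        have e2 : p (a + e + e + e) = (x (1 + e + e))⁻¹ * p (a + e + e) * x (1 + e + e) := by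
          rw [mul_assoc, r3, inv_mul_cancel_left]
        have e3 : p (a + e) = x i * p (a + e + e) * (x i)⁻¹ := by
          rw [← r4, mul_inv_cancel_right]
        have e4 : x (1 + e) = x i * x (1 + e + e) * (x i)⁻¹ := by
          rw [← r5, mul_inv_cancel_right]
        calc p (a + e + e) * x i = (x (1 + e))⁻¹ * p (a + e) * x (1 + e) * x i := by rw [← e1]
          _ = (x i * x (1 + e + e) * (x i)⁻¹)⁻¹ * (x i * p (a + e + e) * (x i)⁻¹) *
                (x i * x (1 + e + e) * (x i)⁻¹) * x i := by rw [← e3, ← e4]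
          _ = x i * ((x (1 + e + e))⁻¹ * p (a + e + e) * x (1 + e + e)) := by group
          _ = x i * p (a + e + e + e) := by rw [← e2]
  intro i
  induction i using Nat.strong_induction_on with
  | _ i ih =>
    intro k hik
    rcases Nat.eq_zero_or_pos i with rfl | hi
    · exact B.sp k hik
    · by_cases hie : i ≤ e
      · exact small k i hi hie hik
      · obtain ⟨b, rfl⟩ : ∃ b, i = b + e := ⟨i - e, by omega⟩
        obtain ⟨a, rfl⟩ : ∃ a, k = a + e := ⟨k - e, by omega⟩
        exact shift b a (by omega) (by omega) (ih b (by omega) a (by omega))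

end

end Pool.Agent.H665Simp
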