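import Mathlib
import Pool.Agent.H665Simp.DefsA
import Pool.Agent.H665Simp.DefsD
import Pool.Agent.H665Simp.P_base_A

set_option autoImplicit false

namespace Pool.Agent.H665Simp

section
variable {Q : Type} [Group Q] {e : ℕ}


theorem base_B2 (he : 3 ≤ e) (x p t : ℕ → Q) (B : BaseV e x p t) :
    ∀ i k, k + 1 < i → p k * x i = x i * p k := by
  intro i
  induction i using Nat.strong_induction_on with
  | _ i ih =>
    intro k hk
    rcases Nat.lt_or_ge e k with hke | hke
    · -- conjugation by `x 0`
      have h1 := ih (i - e) (by omega) (k - e) (by omega)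
      have h2 := B.sx (i - e) (by omega)
      have h3 := B.sp (k - e) (by omega)
      rw [Nat.sub_add_cancel (by omega)] at h2 h3
      have e2 : x i = (x 0)⁻¹ * x (i - e) * x 0 := by
        rw [mul_assoc, h2, inv_mul_cancel_left]
      have e3 : p k = (x 0)⁻¹ * p (k - e) * x 0 := by
        rw [mul_assoc, h3, inv_mul_cancel_left]
      rw [e2, e3]
      have e4 : (x 0)⁻¹ * p (k - e) * x 0 * ((x 0)⁻¹ * x (i - e) * x 0) =
          (x 0)⁻¹ * (p (k - e) * x (i - e)) * x 0 := by group
      have e5 : (x 0)⁻¹ * x (i - e) * x 0 * ((x 0)⁻¹ * p (k - e) * x 0) =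
          (x 0)⁻¹ * (x (i - e) * p (k - e)) * x 0 := by group
      rw [e4, e5, h1]
    · rcases Nat.lt_or_ge (2 * e + 4) i with hi | hi
      · have h1 := base_A he x p t B (e + 2) (i - e) (by omega)
        rw [Nat.sub_add_cancel (by omega)] at h1
        have h2 : Commute (p k) (x (e + 2)) := B.B2 (e + 2) k (by omega) hke (by omega)
        have h3 : Commute (p k) (x (i - e)) := ih (i - e) (by omega) k (by omega)
        have e1 : x i = (x (e + 2))⁻¹ * (x (i - e) * x (e + 2)) := by
          rw [h1, inv_mul_cancel_left]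
        rw [e1]
        exact (h2.inv_right).mul_right (h3.mul_right h2)
      · exact B.B2 i k hk hke hi

end

end Pool.Agent.H665Simp
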