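import Mathlib
import Pool.Agent.H665Simp.DefsA
import Pool.Agent.H665Simp.DefsD
import Pool.Agent.H665Simp.P_base_A

set_option autoImplicit false

namespace Pool.Agent.H665Simp

section
variable {Q : Type} [Group Q] {e : ℕ}


theorem base_cx (x p t : ℕ → Q) (B : BaseV e x p t) (i : ℕ) (hi : 1 ≤ i) :
    x (i + e) = MulAut.conj (x 0)⁻¹ (x i) := by
  rw [MulAut.conj_apply, mul_assoc, inv_inv, B.sx i hi, inv_mul_cancel_left]

theorem base_cp (x p t : ℕ → Q) (B : BaseV e x p t) (i : ℕ) (hi : 1 ≤ i) :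
    p (i + e) = MulAut.conj (x 0)⁻¹ (p i) := by
  rw [MulAut.conj_apply, mul_assoc, inv_inv, B.sp i hi, inv_mul_cancel_left]

theorem base_cpr (x p t : ℕ → Q) (B : BaseV e x p t) (i : ℕ) (hi : 1 ≤ i) (n : ℕ) :
    pr p (i + e) n = MulAut.conj (x 0)⁻¹ (pr p i n) := by
  unfold pr
  rw [map_list_prod, List.map_map]
  congr 1
  apply List.map_congr_left
  intro k _
  simp only [Function.comp]
  rw [show i + e + k = (i + k) + e by ring]
  exact base_cp x p t B (i + k) (by omega)

theorem base_B3 (he : 3 ≤ e) (x p t : ℕ → Q) (B : BaseV e x p t) :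
    ∀ i, p i * x i = x (i + 1) * pr p i (e + 1) := by
  intro i
  induction i using Nat.strong_induction_on with
  | _ i ih =>
    by_cases h : i ≤ e
    · exact B.B3 i h
    · obtain ⟨j, rfl⟩ : ∃ j, i = j + e := ⟨i - e, by omega⟩
      have hj : 1 ≤ j := by omega
      rw [base_cpr x p t B j hj, base_cp x p t B j hj, base_cx x p t B j hj,
        show j + e + 1 = (j + 1) + e by ring, base_cx x p t B (j + 1) (by omega),
        ← map_mul, ← map_mul, ih j (by omega)]

theorem base_C1 (he : 3 ≤ e) (x p t : ℕ → Q) (B : BaseV e x p t) : ∀ i, p i * p i = 1 := by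
  intro i
  induction i using Nat.strong_induction_on with
  | _ i ih =>
    by_cases h : i ≤ e
    · exact B.C1 i h
    · obtain ⟨j, rfl⟩ : ∃ j, i = j + e := ⟨i - e, by omega⟩
      have hj : 1 ≤ j := by omega
      rw [base_cp x p t B j hj, ← map_mul, ih j (by omega), map_one]

theorem base_C2 (he : 3 ≤ e) (x p t : ℕ → Q) (B : BaseV e x p t) :
    ∀ i, p i * p (i + 1) * p i = p (i + 1) * p i * p (i + 1) := by
  intro i
  induction i using Nat.strong_induction_on with
  | _ i ih =>
    by_cases h : i ≤ e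
    · exact B.C2 i h
    · obtain ⟨j, rfl⟩ : ∃ j, i = j + e := ⟨i - e, by omega⟩
      have hj : 1 ≤ j := by omega
      rw [show j + e + 1 = (j + 1) + e by ring, base_cp x p t B j hj,
        base_cp x p t B (j + 1) (by omega), ← map_mul, ← map_mul, ← map_mul, ← map_mul,
        ih j (by omega)]

end

end Pool.Agent.H665Simp
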