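import Mathlib
import Pool.Agent.H665Simp.DefsA
import Pool.Agent.H665Simp.DefsD
import Pool.Agent.H665Simp.P_base_A
import Pool.Agent.H665Simp.P_base_B1
import Pool.Agent.H665Simp.P_base_B2

set_option autoImplicit false

namespace Pool.Agent.H665Simp

section
variable {Q : Type} [Group Q] {e : ℕ}


theorem base_C3 (he : 3 ≤ e) (x p t : ℕ → Q) (B : BaseV e x p t) :
    ∀ i j, i + 1 < j → p i * p j = p j * p i := by
  intro i j
  induction j using Nat.strong_induction_on generalizing i with
  | _ j ih =>
    intro hij
    by_cases hi : i ≤ e
    · by_cases hj : j ≤ 2 * e + 4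
      · exact B.C3 i j hij hi hj
      · have h1 : p (j - e) * x (e + 2) = x (e + 2) * p j := by
          have h := base_B1 he x p t B (e + 2) (j - e) (by omega)
          rwa [show j - e + e = j by omega] at h
        have h2 : p i * x (e + 2) = x (e + 2) * p i :=
          base_B2 he x p t B (e + 2) i (by omega)
        have h3 : p i * p (j - e) = p (j - e) * p i := ih (j - e) (by omega) i (by omega)
        have h4 : x (e + 2) * (p i * p j) = x (e + 2) * (p j * p i) := by
          rw [← mul_assoc, ← h2, mul_assoc, ← h1, ← mul_assoc, h3, mul_assoc, h2, ← mul_assoc,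
            h1, mul_assoc]
        exact mul_left_cancel h4
    · have h1 : p (i - e) * x 0 = x 0 * p i := by
        have h := B.sp (i - e) (by omega)
        rwa [show i - e + e = i by omega] at h
      have h2 : p (j - e) * x 0 = x 0 * p j := by
        have h := B.sp (j - e) (by omega)
        rwa [show j - e + e = j by omega] at h
      have h3 : p (i - e) * p (j - e) = p (j - e) * p (i - e) :=
        ih (j - e) (by omega) (i - e) (by omega)
      have h4 : x 0 * (p i * p j) = x 0 * (p j * p i) := by
        rw [← mul_assoc, ← h1, mul_assoc, ← h2, ← mul_assoc, h3, mul_assoc, h1, ← mul_assoc,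
          h2, mul_assoc]
      exact mul_left_cancel h4

end

end Pool.Agent.H665Simp
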