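import Mathlib
import Pool.Agent.H665Simp.DefsA
import Pool.Agent.H665Simp.DefsD
import Pool.Agent.H665Simp.P_base_A

set_option autoImplicit false

namespace Pool.Agent.H665Simp

section
variable {Q : Type} [Group Q] {e : ℕ}


theorem base_T1_shift (x p t : ℕ → Q) (B : BaseV e x p t) (M i : ℕ) (hi : 1 ≤ i)
    (h : t M * x i = x i * t (M + 1)) : t (M + 1) * x (i + e) = x (i + e) * t (M + 2) := by
  have h1 : x (i + e) = (x 0)⁻¹ * x i * x 0 := by
    have := B.sx i hi
    rw [mul_assoc, this]; group
  have h2 : t (M + 1) = (x 0)⁻¹ * t M * x 0 := by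
    have := B.st M
    rw [mul_assoc, this]; group
  have h3 : t (M + 2) = (x 0)⁻¹ * t (M + 1) * x 0 := by
    have := B.st (M + 1)
    rw [mul_assoc, this]; group
  calc t (M + 1) * x (i + e) = ((x 0)⁻¹ * t M * x 0) * ((x 0)⁻¹ * x i * x 0) := by
        rw [← h1, ← h2]
    _ = (x 0)⁻¹ * (t M * x i) * x 0 := by group
    _ = (x 0)⁻¹ * (x i * t (M + 1)) * x 0 := by rw [h]
    _ = ((x 0)⁻¹ * x i * x 0) * ((x 0)⁻¹ * t (M + 1) * x 0) := by group
    _ = x (i + e) * t (M + 2) := by rw [← h1, ← h3]

theorem base_T1 (he : 3 ≤ e) (x p t : ℕ → Q) (B : BaseV e x p t) :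
    ∀ M i, i + 1 < (M + 1) * e → t M * x i = x i * t (M + 1) := by
  intro M
  induction M using Nat.strong_induction_on with
  | _ M IH =>
    -- shifted indices
    have big : ∀ i, e + 1 ≤ i → i + 1 < (M + 1) * e → t M * x i = x i * t (M + 1) := by
      intro i hi hlt
      obtain ⟨N, rfl⟩ : ∃ N, M = N + 1 := by
        rcases M with _ | N
        · exfalso
          simp only [zero_add, one_mul] at hlt
          omega
        · exact ⟨N, rfl⟩
      obtain ⟨j, rfl⟩ : ∃ j, i = j + e := ⟨i - e, by omega⟩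
      refine base_T1_shift x p t B N j (by omega) (IH N (by omega) j ?_)
      have : (N + 1 + 1) * e = (N + 1) * e + e := by ring
      omega
    intro i hi
    rcases Nat.eq_zero_or_pos i with h0 | hpos
    · subst h0; exact B.st M
    by_cases hbig : e + 1 ≤ i
    · exact big i hbig hi
    by_cases hM : M ≤ 3
    · exact B.T1 M i hi (by omega) hM
    obtain ⟨N, rfl⟩ : ∃ N, M = N + 1 := ⟨M - 1, by omega⟩
    have hN : 3 ≤ N := by omega
    have hNe : 4 * e ≤ (N + 1) * e := Nat.mul_le_mul_right e (by omega)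
    have hNe' : (N + 1 + 1) * e = (N + 1) * e + e := by ring
    have h1 : t N * x (e + 1) = x (e + 1) * t (N + 1) := IH N (by omega) (e + 1) (by omega)
    have h2 : t N * x i = x i * t (N + 1) := IH N (by omega) i (by omega)
    have h3 : t (N + 1) * x (e + 1 + e) = x (e + 1 + e) * t (N + 1 + 1) :=
      big (e + 1 + e) (by omega) (by omega)
    have h4 : x (e + 1) * x i = x i * x (e + 1 + e) := base_A he x p t B i (e + 1) (by omega)
    -- cancel
    have key : x (e + 1) * (t (N + 1) * x i) = x (e + 1) * (x i * t (N + 1 + 1)) := by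
      calc x (e + 1) * (t (N + 1) * x i) = (x (e + 1) * t (N + 1)) * x i := by group
        _ = (t N * x (e + 1)) * x i := by rw [h1]
        _ = t N * (x (e + 1) * x i) := by group
        _ = t N * (x i * x (e + 1 + e)) := by rw [h4]
        _ = (t N * x i) * x (e + 1 + e) := by group
        _ = (x i * t (N + 1)) * x (e + 1 + e) := by rw [h2]
        _ = x i * (t (N + 1) * x (e + 1 + e)) := by group
        _ = x i * (x (e + 1 + e) * t (N + 1 + 1)) := by rw [h3]
        _ = (x i * x (e + 1 + e)) * t (N + 1 + 1) := by group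
        _ = (x (e + 1) * x i) * t (N + 1 + 1) := by rw [h4]
        _ = x (e + 1) * (x i * t (N + 1 + 1)) := by group
    exact mul_left_cancel key

end

end Pool.Agent.H665Simp
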