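import Mathlib
import Pool.Agent.H665Simp.DefsA
import Pool.Agent.H665Simp.DefsD
import Pool.Agent.H665Simp.P_base_A
import Pool.Agent.H665Simp.P_base_B1
import Pool.Agent.H665Simp.P_base_T1

set_option autoImplicit false

namespace Pool.Agent.H665Simp

section
variable {Q : Type} [Group Q] {e : ℕ}


/-- an element commuting with the first few generators commutes with all (except `x 0`, `p 0`) -/
theorem base_L1 (he : 3 ≤ e) (x p t : ℕ → Q) (B : BaseV e x p t) (u : Q)
    (h1 : ∀ i, 1 ≤ i → i ≤ e + 1 → u * x i = x i * u) :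
    ∀ i, 1 ≤ i → u * x i = x i * u := by
  intro i
  induction i using Nat.strong_induction_on with
  | _ i ih =>
    intro hi
    rcases Nat.lt_or_ge (e + 1) i with hlt | hle
    · have hj1 : 1 < i - e := by omega
      have hA := base_A he x p t B 1 (i - e) hj1
      rw [Nat.sub_add_cancel (by omega : e ≤ i)] at hA
      have c1 : Commute u (x 1) := h1 1 le_rfl (by omega)
      have c2 : Commute u (x (i - e)) := ih (i - e) (by omega) (by omega)
      have hx : x i = (x 1)⁻¹ * (x (i - e) * x 1) := by rw [hA, inv_mul_cancel_left]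
      rw [hx]
      exact (c1.inv_right).mul_right (c2.mul_right c1)
    · exact h1 i hi hle

theorem base_L2 (he : 3 ≤ e) (x p t : ℕ → Q) (B : BaseV e x p t) (u : Q)
    (h1 : u * x 1 = x 1 * u)
    (h2 : ∀ i, 1 ≤ i → i ≤ e + 1 → u * p i = p i * u) :
    ∀ i, 1 ≤ i → u * p i = p i * u := by
  intro i
  induction i using Nat.strong_induction_on with
  | _ i ih =>
    intro hi
    rcases Nat.lt_or_ge (e + 1) i with hlt | hle
    · have hj1 : 1 < i - e := by omega
      have hA := base_B1 he x p t B 1 (i - e) hj1
      rw [Nat.sub_add_cancel (by omega : e ≤ i)] at hA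
      have c1 : Commute u (x 1) := h1
      have c2 : Commute u (p (i - e)) := ih (i - e) (by omega) (by omega)
      have hx : p i = (x 1)⁻¹ * (p (i - e) * x 1) := by rw [hA, inv_mul_cancel_left]
      rw [hx]
      exact (c1.inv_right).mul_right (c2.mul_right c1)
    · exact h2 i hi hle

theorem base_L3 (he : 3 ≤ e) (x p t : ℕ → Q) (B : BaseV e x p t) (u : Q)
    (h1 : u * x 1 = x 1 * u) (h2 : u * t 0 = t 0 * u) :
    ∀ i, u * t i = t i * u := by
  intro i
  induction i with
  | zero => exact h2
  | succ i ih =>
    have hA := base_T1 he x p t B i 1 (by nlinarith)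
    have c1 : Commute u (x 1) := h1
    have c2 : Commute u (t i) := ih
    have hx : t (i + 1) = (x 1)⁻¹ * (t i * x 1) := by rw [hA, inv_mul_cancel_left]
    rw [hx]
    exact (c1.inv_right).mul_right (c2.mul_right c1)

end

end Pool.Agent.H665Simp
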