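import Mathlib
import Pool.Agent.H665Simp.DefsA
import Pool.Agent.H665Simp.DefsD
import Pool.Agent.H665Simp.P_base_A

set_option autoImplicit false

namespace Pool.Agent.H665Simp

section
variable {Q : Type} [Group Q] {e : ℕ}


theorem bt_sh_mul {a u v u' v' : Q} (h : u * a = a * v) (h' : u' * a = a * v') :
    (u * u') * a = a * (v * v') := by
  rw [mul_assoc, h', ← mul_assoc, h, mul_assoc]

theorem bt_sh_eq {a u v u' v' : Q} (h : u * a = a * v) (h' : u' * a = a * v') (huu : u = u') :
    v = v' := by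
  have h1 : a * v = a * v' := by rw [← h, ← h', huu]
  exact mul_left_cancel h1

theorem bt_pr (x p t : ℕ → Q) (B : BaseV e x p t) (i n : ℕ) (hi : 1 ≤ i) :
    pr p i n * x 0 = x 0 * pr p (i + e) n := by
  induction n with
  | zero => simp [pr]
  | succ n ih =>
    have h1 : ∀ j, pr p j (n + 1) = pr p j n * p (j + n) := by
      intro j
      simp [pr, List.range_succ]
    rw [h1, h1]
    have h2 := B.sp (i + n) (by omega)
    have h3 : i + n + e = i + e + n := by omega
    rw [h3] at h2
    exact bt_sh_mul ih h2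

theorem base_T2 (he : 3 ≤ e) (x p t : ℕ → Q) (B : BaseV e x p t) :
    ∀ M, t M * x ((M + 1) * e - 1) = pr p ((M + 1) * e - 1) e * t (M + 1) := by
  intro M
  induction M with
  | zero =>
    have := B.T2
    rw [zero_add, one_mul]
    exact this
  | succ M ih =>
    have hM : 3 ≤ (M + 1) * e := le_trans he (Nat.le_mul_of_pos_left e (Nat.succ_pos M))
    have h0 : (M + 1) * e - 1 + e = (M + 1 + 1) * e - 1 := by
      have : (M + 1 + 1) * e = (M + 1) * e + e := by ring
      omega
    have h1 := B.sx ((M + 1) * e - 1) (by omega)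
    have h2 := bt_pr x p t B ((M + 1) * e - 1) e (by omega)
    rw [h0] at h1 h2
    exact bt_sh_eq (bt_sh_mul (B.st M) h1) (bt_sh_mul h2 (B.st (M + 1))) ih

theorem base_T3 (he : 3 ≤ e) (x p t : ℕ → Q) (B : BaseV e x p t) : ∀ M, t M * t M = 1 := by
  intro M
  induction M with
  | zero => exact B.T3
  | succ M ih =>
    have h1 : (1 : Q) * x 0 = x 0 * 1 := by rw [one_mul, mul_one]
    exact bt_sh_eq (bt_sh_mul (B.st M) (B.st M)) h1 ih

theorem base_T5 (he : 3 ≤ e) (x p t : ℕ → Q) (B : BaseV e x p t) :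
    ∀ M, t M * p ((M + 1) * e - 2) * t M
      = p ((M + 1) * e - 2) * t M * p ((M + 1) * e - 2) := by
  intro M
  induction M with
  | zero =>
    have := B.T5
    rw [zero_add, one_mul]
    exact this
  | succ M ih =>
    have hM : 3 ≤ (M + 1) * e := le_trans he (Nat.le_mul_of_pos_left e (Nat.succ_pos M))
    have h0 : (M + 1) * e - 2 + e = (M + 1 + 1) * e - 2 := by
      have : (M + 1 + 1) * e = (M + 1) * e + e := by ring
      omega
    have h1 := B.sp ((M + 1) * e - 2) (by omega)
    rw [h0] at h1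
    exact bt_sh_eq (bt_sh_mul (bt_sh_mul (B.st M) h1) (B.st M))
      (bt_sh_mul (bt_sh_mul h1 (B.st M)) h1) ih

end

end Pool.Agent.H665Simp
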