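import Mathlib
import Pool.Agent.H665Simp.DefsA
import Pool.Agent.H665Simp.DefsD
import Pool.Agent.H665Simp.P_base_A
import Pool.Agent.H665Simp.P_base_B2
import Pool.Agent.H665Simp.P_base_T1

set_option autoImplicit false

namespace Pool.Agent.H665Simp

section
variable {Q : Type} [Group Q] {e : ℕ}


theorem j15912_comm {a b c a' b' : Q} (h1 : a * c = c * a') (h2 : b * c = c * b')
    (h : a * b = b * a) : a' * b' = b' * a' := by
  have e1 : c * (a' * b') = c * (b' * a') := by
    rw [← mul_assoc, ← h1, mul_assoc, ← h2, ← mul_assoc, h, mul_assoc, h1, ← mul_assoc, h2,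
      mul_assoc]
  exact mul_left_cancel e1

theorem base_T4 (he : 3 ≤ e) (x p t : ℕ → Q) (B : BaseV e x p t) :
    ∀ M k, k + 2 < (M + 1) * e → p k * t M = t M * p k := by
  intro M
  induction M with
  | zero =>
    intro k hk
    exact B.T4 0 k hk (by omega) (by omega)
  | succ M ih =>
    intro k hk
    have e1 : (M + 1 + 1) * e = (M + 1) * e + e := by ring
    by_cases hk1 : k ≤ e
    · by_cases hM : M + 1 ≤ 3
      · exact B.T4 (M + 1) k hk hk1 hM
      · have e2 : 4 * e ≤ (M + 1) * e := Nat.mul_le_mul_right _ (by omega)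
        exact j15912_comm (c := x (e + 2)) (base_B2 he x p t B (e + 2) k (by omega))
          (base_T1 he x p t B M (e + 2) (by omega)) (ih k (by omega))
    · obtain ⟨k', rfl⟩ : ∃ k', k = k' + e := ⟨k - e, by omega⟩
      exact j15912_comm (c := x 0) (B.sp k' (by omega)) (B.st M) (ih k' (by omega))

end

end Pool.Agent.H665Simp
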