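import Mathlib
import Pool.Agent.H665Simp.DefsA
import Pool.Agent.H665Simp.DefsD

set_option autoImplicit false

namespace Pool.Agent.H665Simp

section
variable {Q : Type} [Group Q] {e : ℕ}


/-- finitely definable by relators -/
def FD671 {Sg : Type} {e : ℕ} (P : ∀ (Q : Type) [Group Q], (Gn Sg e → Q) → Prop) : Prop :=
  ∃ R : Set (FreeGroup (Gn Sg e)), R.Finite ∧
      ∀ (Q : Type) [Group Q] (φ : Gn Sg e → Q), (∀ r ∈ R, FreeGroup.lift φ r = 1) ↔ P Q φ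

theorem FD671.congr {Sg : Type} {e : ℕ} {P P' : ∀ (Q : Type) [Group Q], (Gn Sg e → Q) → Prop}
    (h : FD671 P) (hP : ∀ (Q : Type) [Group Q] (φ : Gn Sg e → Q), P Q φ ↔ P' Q φ) : FD671 P' := by
  obtain ⟨R, hR, h⟩ := h
  exact ⟨R, hR, fun Q _ φ => (h Q φ).trans (hP Q φ)⟩

theorem FD671.and {Sg : Type} {e : ℕ} {P P' : ∀ (Q : Type) [Group Q], (Gn Sg e → Q) → Prop}
    (h : FD671 P) (h' : FD671 P') : FD671 (fun Q _ φ => P Q φ ∧ P' Q φ) := by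
  obtain ⟨R, hR, h⟩ := h
  obtain ⟨R', hR', h'⟩ := h'
  refine ⟨R ∪ R', hR.union hR', fun Q _ φ => ?_⟩
  show (∀ r ∈ R ∪ R', (FreeGroup.lift φ) r = 1) ↔ (P Q φ ∧ P' Q φ)
  rw [← h Q φ, ← h' Q φ]
  constructor
  · intro hh
    exact ⟨fun r hr => hh r (Or.inl hr), fun r hr => hh r (Or.inr hr)⟩
  · rintro ⟨h1, h2⟩ r (hr | hr)
    · exact h1 r hr
    · exact h2 r hr

theorem FD671.ball {Sg : Type} {e : ℕ} {ι : Type} (s : Set ι) (hs : s.Finite)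
    {P : ι → ∀ (Q : Type) [Group Q], (Gn Sg e → Q) → Prop} (h : ∀ i ∈ s, FD671 (P i)) :
    FD671 (fun Q _ φ => ∀ i ∈ s, P i Q φ) := by
  classical
  have h' : ∀ i : ι, ∃ R : Set (FreeGroup (Gn Sg e)), R.Finite ∧ (i ∈ s →
      ∀ (Q : Type) [Group Q] (φ : Gn Sg e → Q), (∀ r ∈ R, FreeGroup.lift φ r = 1) ↔ P i Q φ) := by
    intro i
    by_cases hi : i ∈ s
    · obtain ⟨R, hR, hh⟩ := h i hi
      exact ⟨R, hR, fun _ => hh⟩
    · exact ⟨∅, Set.finite_empty, fun hi' => absurd hi' hi⟩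
  choose R hR hh using h'
  refine ⟨⋃ i ∈ s, R i, hs.biUnion fun i _ => hR i, fun Q _ φ => ?_⟩
  constructor
  · intro h1 i hi
    rw [← hh i hi Q φ]
    intro r hr
    exact h1 r (Set.mem_biUnion hi hr)
  · intro h1 r hr
    rw [Set.mem_iUnion₂] at hr
    obtain ⟨i, hi, hr⟩ := hr
    exact (hh i hi Q φ).2 (h1 i hi) r hr

theorem FD671.eq {Sg : Type} {e : ℕ} (u v : FreeGroup (Gn Sg e)) :
    FD671 (fun Q _ (φ : Gn Sg e → Q) => FreeGroup.lift φ u = FreeGroup.lift φ v) := by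
  refine ⟨{u * v⁻¹}, Set.finite_singleton _, fun Q _ φ => ?_⟩
  simp only [Set.mem_singleton_iff, forall_eq, map_mul, map_inv]
  exact mul_inv_eq_one

theorem shf_nat671 {Q Q' : Type} [Group Q] [Group Q'] (f : Q →* Q') (e : ℕ) (a : Q) (b : ℕ → Q)
    (i : ℕ) : f (shf e a b i) = shf e (f a) (fun k => f (b k)) i := by
  unfold shf
  split_ifs
  · rfl
  · simp only [map_mul, map_pow, map_inv]

theorem nat_fx671 {Sg : Type} {e : ℕ} {Q : Type} [Group Q] (φ : Gn Sg e → Q) (i : ℕ) :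
    FreeGroup.lift φ (fx (FreeGroup.of : Gn Sg e → FreeGroup (Gn Sg e)) i) = fx φ i := by
  unfold fx
  rw [shf_nat671]
  simp only [FreeGroup.lift_apply_of]

theorem nat_fp671 {Sg : Type} {e : ℕ} {Q : Type} [Group Q] (φ : Gn Sg e → Q) (i : ℕ) :
    FreeGroup.lift φ (fp (FreeGroup.of : Gn Sg e → FreeGroup (Gn Sg e)) i) = fp φ i := by
  unfold fp
  rw [shf_nat671]
  simp only [FreeGroup.lift_apply_of]

theorem nat_ft671 {Sg : Type} {e : ℕ} {Q : Type} [Group Q] (φ : Gn Sg e → Q) (i : ℕ) :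
    FreeGroup.lift φ (ft (FreeGroup.of : Gn Sg e → FreeGroup (Gn Sg e)) i) = ft φ i := by
  unfold ft
  simp only [map_mul, map_pow, map_inv, FreeGroup.lift_apply_of]

theorem nat_g671 {Sg : Type} {e : ℕ} {Q : Type} [Group Q] (φ : Gn Sg e → Q) (a : Gn Sg e) :
    FreeGroup.lift φ (FreeGroup.of a) = φ a := FreeGroup.lift_apply_of

theorem pr_nat671 {Q Q' : Type} [Group Q] [Group Q'] (f : Q →* Q') (p : ℕ → Q) (i n : ℕ) :
    f (pr p i n) = pr (fun k => f (p k)) i n := by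
  unfold pr
  rw [map_list_prod, List.map_map]
  rfl

theorem lcf_nat671 {Q Q' : Type} [Group Q] [Group Q'] (f : Q →* Q') (p : ℕ → Q) (u : Q) (c : ℕ) :
    f (lcf p u c) = lcf (fun k => f (p k)) (f u) c := by
  induction c with
  | zero => rfl
  | succ c ih => simp only [lcf, map_mul, ih]

theorem evO_nat671 {Q Q' Sg : Type} [Group Q] [Group Q'] (f : Q →* Q') (y : Q) (l : Sg → Q)
    (w : FreeGroup (Option Sg)) : f (evO y l w) = evO (f y) (fun s => f (l s)) w := by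
  unfold evO
  have h : f.comp (FreeGroup.lift (fun o : Option Sg => o.elim y l)) =
      FreeGroup.lift (fun o : Option Sg => o.elim (f y) (fun s => f (l s))) := by
    ext o
    cases o <;> simp
  exact DFunLike.congr_fun h w

theorem prod_nat671 {Q Q' : Type} [Group Q] [Group Q'] (f : Q →* Q') {ι : Type} (L : List ι)
    (p : ι → Q) : f (L.map p).prod = (L.map fun c => f (p c)).prod := by
  rw [map_list_prod, List.map_map]
  rfl

theorem ofFn_nat671 {Q Q' : Type} [Group Q] [Group Q'] (f : Q →* Q') {n : ℕ}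
    (p : Fin n → Q) : f (List.ofFn p).prod = (List.ofFn fun c => f (p c)).prod := by
  rw [map_list_prod, List.map_ofFn]
  rfl

theorem shf_rel671 {Q : Type} [Group Q] (e : ℕ) (he : 0 < e) (a : Q) (b : ℕ → Q) (i : ℕ)
    (hi : 1 ≤ i) : shf e a b i * a = a * shf e a b (i + e) := by
  unfold shf
  rw [if_neg (by omega), if_neg (by omega)]
  have h1 : (i + e - 1) / e = (i - 1) / e + 1 := by
    have : i + e - 1 = (i - 1) + e := by omega
    rw [this, Nat.add_div_right _ he]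
  have h2 : (i + e - 1) % e = (i - 1) % e := by
    have : i + e - 1 = (i - 1) + e := by omega
    rw [this, Nat.add_mod_right]
  rw [h1, h2, pow_succ' a⁻¹, pow_succ a]
  group

theorem fx_zero671 {Sg : Type} {e : ℕ} {Q : Type} [Group Q] (φ : Gn Sg e → Q) :
    fx φ 0 = φ (Gn.x 0) := by
  unfold fx shf
  rw [if_pos rfl]
  rfl

/-- the relations `BaseAll` are given by finitely many relators -/
theorem base_finite {Sg : Type} [Finite Sg] (D : LD Sg e) (he : 3 ≤ e) :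
    ∃ R : Set (FreeGroup (Gn Sg e)), R.Finite ∧
      ∀ (Q : Type) [Group Q] (φ : Gn Sg e → Q),
        (∀ r ∈ R, FreeGroup.lift φ r = 1) ↔ BaseAll D φ := by
  classical
  let X : ℕ → FreeGroup (Gn Sg e) := fx (FreeGroup.of : Gn Sg e → FreeGroup (Gn Sg e))
  let P : ℕ → FreeGroup (Gn Sg e) := fp (FreeGroup.of : Gn Sg e → FreeGroup (Gn Sg e))
  let T : ℕ → FreeGroup (Gn Sg e) := ft (FreeGroup.of : Gn Sg e → FreeGroup (Gn Sg e))
  have hX : ∀ (Q : Type) [Group Q] (φ : Gn Sg e → Q) (i : ℕ), FreeGroup.lift φ (X i) = fx φ i :=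
    fun Q _ φ i => nat_fx671 φ i
  have hP : ∀ (Q : Type) [Group Q] (φ : Gn Sg e → Q) (i : ℕ), FreeGroup.lift φ (P i) = fp φ i :=
    fun Q _ φ i => nat_fp671 φ i
  have hT : ∀ (Q : Type) [Group Q] (φ : Gn Sg e → Q) (i : ℕ), FreeGroup.lift φ (T i) = ft φ i :=
    fun Q _ φ i => nat_ft671 φ i
  have fin2 : ∀ (p : ℕ → ℕ → Prop) (N M : ℕ), (∀ i j, p i j → i ≤ N ∧ j ≤ M) →
      Set.Finite {q : ℕ × ℕ | p q.1 q.2} := by
    intro p N M h
    refine ((Set.finite_Iic N).prod (Set.finite_Iic M)).subset ?_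
    rintro ⟨i, j⟩ hq
    exact ⟨(h i j hq).1, (h i j hq).2⟩
  -- the fields
  have fA : FD671 (fun Q _ (φ : Gn Sg e → Q) => ∀ i j, i < j → i ≤ e → j ≤ 2 * e + 4 →
      fx φ j * fx φ i = fx φ i * fx φ (j + e)) := by
    refine (FD671.ball {q : ℕ × ℕ | q.1 < q.2 ∧ q.1 ≤ e ∧ q.2 ≤ 2 * e + 4}
      (fin2 (fun i j => i < j ∧ i ≤ e ∧ j ≤ 2 * e + 4) e (2 * e + 4) (fun i j h => ⟨h.2.1, h.2.2⟩))
      (fun q _ => FD671.eq (X q.2 * X q.1) (X q.1 * X (q.2 + e)))).congr ?_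
    intro Q _ φ
    simp only [map_mul, hX]
    exact ⟨fun h i j h1 h2 h3 => h (i, j) ⟨h1, h2, h3⟩, fun h q hq => h q.1 q.2 hq.1 hq.2.1 hq.2.2⟩
  have fB1 : FD671 (fun Q _ (φ : Gn Sg e → Q) => ∀ i k, i < k → i ≤ e → k ≤ 2 * e + 4 →
      fp φ k * fx φ i = fx φ i * fp φ (k + e)) := by
    refine (FD671.ball {q : ℕ × ℕ | q.1 < q.2 ∧ q.1 ≤ e ∧ q.2 ≤ 2 * e + 4}
      (fin2 (fun i j => i < j ∧ i ≤ e ∧ j ≤ 2 * e + 4) e (2 * e + 4) (fun i j h => ⟨h.2.1, h.2.2⟩))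
      (fun q _ => FD671.eq (P q.2 * X q.1) (X q.1 * P (q.2 + e)))).congr ?_
    intro Q _ φ
    simp only [map_mul, hX, hP]
    exact ⟨fun h i j h1 h2 h3 => h (i, j) ⟨h1, h2, h3⟩, fun h q hq => h q.1 q.2 hq.1 hq.2.1 hq.2.2⟩
  have fB2 : FD671 (fun Q _ (φ : Gn Sg e → Q) => ∀ i k, k + 1 < i → k ≤ e → i ≤ 2 * e + 4 →
      fp φ k * fx φ i = fx φ i * fp φ k) := by
    refine (FD671.ball {q : ℕ × ℕ | q.2 + 1 < q.1 ∧ q.2 ≤ e ∧ q.1 ≤ 2 * e + 4}
      (fin2 (fun i k => k + 1 < i ∧ k ≤ e ∧ i ≤ 2 * e + 4) (2 * e + 4) e (fun i j h => ⟨h.2.2, h.2.1⟩))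
      (fun q _ => FD671.eq (P q.2 * X q.1) (X q.1 * P q.2))).congr ?_
    intro Q _ φ
    simp only [map_mul, hX, hP]
    exact ⟨fun h i j h1 h2 h3 => h (i, j) ⟨h1, h2, h3⟩, fun h q hq => h q.1 q.2 hq.1 hq.2.1 hq.2.2⟩
  have fB3 : FD671 (fun Q _ (φ : Gn Sg e → Q) => ∀ i, i ≤ e →
      fp φ i * fx φ i = fx φ (i + 1) * pr (fp φ) i (e + 1)) := by
    refine (FD671.ball (Set.Iic e) (Set.finite_Iic e)
      (fun i _ => FD671.eq (P i * X i) (X (i + 1) * pr P i (e + 1)))).congr ?_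
    intro Q _ φ
    simp only [map_mul, hX, hP, pr_nat671]
    exact Iff.rfl
  have fC1 : FD671 (fun Q _ (φ : Gn Sg e → Q) => ∀ i, i ≤ e → fp φ i * fp φ i = 1) := by
    refine (FD671.ball (Set.Iic e) (Set.finite_Iic e)
      (fun i _ => FD671.eq (P i * P i) 1)).congr ?_
    intro Q _ φ
    simp only [map_mul, hP, map_one]
    exact Iff.rfl
  have fC2 : FD671 (fun Q _ (φ : Gn Sg e → Q) => ∀ i, i ≤ e →
      fp φ i * fp φ (i + 1) * fp φ i = fp φ (i + 1) * fp φ i * fp φ (i + 1)) := by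
    refine (FD671.ball (Set.Iic e) (Set.finite_Iic e)
      (fun i _ => FD671.eq (P i * P (i + 1) * P i) (P (i + 1) * P i * P (i + 1)))).congr ?_
    intro Q _ φ
    simp only [map_mul, hP]
    exact Iff.rfl
  have fC3 : FD671 (fun Q _ (φ : Gn Sg e → Q) => ∀ i j, i + 1 < j → i ≤ e → j ≤ 2 * e + 4 →
      fp φ i * fp φ j = fp φ j * fp φ i) := by
    refine (FD671.ball {q : ℕ × ℕ | q.1 + 1 < q.2 ∧ q.1 ≤ e ∧ q.2 ≤ 2 * e + 4}
      (fin2 (fun i j => i + 1 < j ∧ i ≤ e ∧ j ≤ 2 * e + 4) e (2 * e + 4) (fun i j h => ⟨h.2.1, h.2.2⟩))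
      (fun q _ => FD671.eq (P q.1 * P q.2) (P q.2 * P q.1))).congr ?_
    intro Q _ φ
    simp only [map_mul, hP]
    exact ⟨fun h i j h1 h2 h3 => h (i, j) ⟨h1, h2, h3⟩, fun h q hq => h q.1 q.2 hq.1 hq.2.1 hq.2.2⟩
  have fT1 : FD671 (fun Q _ (φ : Gn Sg e → Q) => ∀ M i, i + 1 < (M + 1) * e → i ≤ e → M ≤ 3 →
      ft φ M * fx φ i = fx φ i * ft φ (M + 1)) := by
    refine (FD671.ball {q : ℕ × ℕ | q.2 + 1 < (q.1 + 1) * e ∧ q.2 ≤ e ∧ q.1 ≤ 3}
      (fin2 (fun M i => i + 1 < (M + 1) * e ∧ i ≤ e ∧ M ≤ 3) 3 e (fun i j h => ⟨h.2.2, h.2.1⟩))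
      (fun q _ => FD671.eq (T q.1 * X q.2) (X q.2 * T (q.1 + 1)))).congr ?_
    intro Q _ φ
    simp only [map_mul, hX, hT]
    exact ⟨fun h i j h1 h2 h3 => h (i, j) ⟨h1, h2, h3⟩, fun h q hq => h q.1 q.2 hq.1 hq.2.1 hq.2.2⟩
  have fT2 : FD671 (fun Q _ (φ : Gn Sg e → Q) =>
      ft φ 0 * fx φ (e - 1) = pr (fp φ) (e - 1) e * ft φ 1) := by
    refine (FD671.eq (T 0 * X (e - 1)) (pr P (e - 1) e * T 1)).congr ?_
    intro Q _ φ
    simp only [map_mul, hX, hP, hT, pr_nat671]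
  have fT3 : FD671 (fun Q _ (φ : Gn Sg e → Q) => ft φ 0 * ft φ 0 = 1) := by
    refine (FD671.eq (T 0 * T 0) 1).congr ?_
    intro Q _ φ
    simp only [map_mul, hT, map_one]
  have fT4 : FD671 (fun Q _ (φ : Gn Sg e → Q) => ∀ M k, k + 2 < (M + 1) * e → k ≤ e → M ≤ 3 →
      fp φ k * ft φ M = ft φ M * fp φ k) := by
    refine (FD671.ball {q : ℕ × ℕ | q.2 + 2 < (q.1 + 1) * e ∧ q.2 ≤ e ∧ q.1 ≤ 3}
      (fin2 (fun M i => i + 2 < (M + 1) * e ∧ i ≤ e ∧ M ≤ 3) 3 e (fun i j h => ⟨h.2.2, h.2.1⟩))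
      (fun q _ => FD671.eq (P q.2 * T q.1) (T q.1 * P q.2))).congr ?_
    intro Q _ φ
    simp only [map_mul, hP, hT]
    exact ⟨fun h i j h1 h2 h3 => h (i, j) ⟨h1, h2, h3⟩, fun h q hq => h q.1 q.2 hq.1 hq.2.1 hq.2.2⟩
  have fT5 : FD671 (fun Q _ (φ : Gn Sg e → Q) =>
      ft φ 0 * fp φ (e - 2) * ft φ 0 = fp φ (e - 2) * ft φ 0 * fp φ (e - 2)) := by
    refine (FD671.eq (T 0 * P (e - 2) * T 0) (P (e - 2) * T 0 * P (e - 2))).congr ?_
    intro Q _ φ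
    simp only [map_mul, hP, hT]
  have gR : FD671 (fun Q _ (φ : Gn Sg e → Q) => ∀ r ∈ D.rel,
      FreeGroup.lift (fun s => φ (Gn.g s)) r = 1) := by
    refine (FD671.ball D.rel D.rel_fin (fun r _ => FD671.eq (FreeGroup.map Gn.g r) 1)).congr ?_
    intro Q _ φ
    have h : ∀ r, FreeGroup.lift φ (FreeGroup.map Gn.g r) =
        FreeGroup.lift (fun s => φ (Gn.g s)) r := by
      intro r
      have h1 : (FreeGroup.lift φ).comp (FreeGroup.map Gn.g) =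
          FreeGroup.lift (fun s => φ (Gn.g s)) := by
        ext s
        simp
      exact DFunLike.congr_fun h1 r
    simp only [h, map_one]
  have gL1 : FD671 (fun Q _ (φ : Gn Sg e → Q) => ∀ i s, 1 ≤ i → i ≤ e + 1 →
      φ (Gn.g s) * fx φ i = fx φ i * φ (Gn.g s)) := by
    refine (FD671.ball (Set.Icc 1 (e + 1) ×ˢ (Set.univ : Set Sg))
      ((Set.finite_Icc 1 (e + 1)).prod Set.finite_univ)
      (fun q _ => FD671.eq (FreeGroup.of (Gn.g q.2) * X q.1) (X q.1 * FreeGroup.of (Gn.g q.2)))).congr ?_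
    intro Q _ φ
    simp only [map_mul, hX, nat_g671]
    exact ⟨fun h i s h1 h2 => h (i, s) ⟨⟨h1, h2⟩, trivial⟩, fun h q hq => h q.1 q.2 hq.1.1 hq.1.2⟩
  have gL2 : FD671 (fun Q _ (φ : Gn Sg e → Q) => ∀ k s, 1 ≤ k → k ≤ e + 1 →
      φ (Gn.g s) * fp φ k = fp φ k * φ (Gn.g s)) := by
    refine (FD671.ball (Set.Icc 1 (e + 1) ×ˢ (Set.univ : Set Sg))
      ((Set.finite_Icc 1 (e + 1)).prod Set.finite_univ)
      (fun q _ => FD671.eq (FreeGroup.of (Gn.g q.2) * P q.1) (P q.1 * FreeGroup.of (Gn.g q.2)))).congr ?_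
    intro Q _ φ
    simp only [map_mul, hP, nat_g671]
    exact ⟨fun h i s h1 h2 => h (i, s) ⟨⟨h1, h2⟩, trivial⟩, fun h q hq => h q.1 q.2 hq.1.1 hq.1.2⟩
  have gL3 : FD671 (fun Q _ (φ : Gn Sg e → Q) => ∀ s,
      φ (Gn.g s) * ft φ 0 = ft φ 0 * φ (Gn.g s)) := by
    refine (FD671.ball (Set.univ : Set Sg) Set.finite_univ
      (fun s _ => FD671.eq (FreeGroup.of (Gn.g s) * T 0) (T 0 * FreeGroup.of (Gn.g s)))).congr ?_
    intro Q _ φ
    simp only [map_mul, hT, nat_g671]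
    exact ⟨fun h s => h s trivial, fun h s _ => h s⟩
  have gL4 : FD671 (fun Q _ (φ : Gn Sg e → Q) => ∀ s s',
      φ (Gn.g s) * (fp φ 0 * φ (Gn.g s') * fp φ 0) =
        (fp φ 0 * φ (Gn.g s') * fp φ 0) * φ (Gn.g s)) := by
    refine (FD671.ball (Set.univ : Set (Sg × Sg)) Set.finite_univ
      (fun q _ => FD671.eq (FreeGroup.of (Gn.g q.1) * (P 0 * FreeGroup.of (Gn.g q.2) * P 0))
        ((P 0 * FreeGroup.of (Gn.g q.2) * P 0) * FreeGroup.of (Gn.g q.1)))).congr ?_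
    intro Q _ φ
    simp only [map_mul, hP, nat_g671]
    exact ⟨fun h s s' => h (s, s') trivial, fun h q _ => h q.1 q.2⟩
  have gL5 : FD671 (fun Q _ (φ : Gn Sg e → Q) => ∀ s,
      φ (Gn.g s) * fx φ 0 = fx φ 0 * ((permWord (D.act s)).map (fun c : Fin e => fp φ c)).prod *
      (List.ofFn (fun c : Fin (e + 1) =>
        lcf (fp φ) (evO (φ Gn.y) (fun s => φ (Gn.g s)) (D.sec s c)) c)).prod) := by
    refine (FD671.ball (Set.univ : Set Sg) Set.finite_univ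
      (fun s _ => FD671.eq (FreeGroup.of (Gn.g s) * X 0)
        (X 0 * ((permWord (D.act s)).map (fun c : Fin e => P c)).prod *
          (List.ofFn (fun c : Fin (e + 1) =>
            lcf P (evO (FreeGroup.of Gn.y) (fun s => FreeGroup.of (Gn.g s)) (D.sec s c)) c)).prod))).congr ?_
    intro Q _ φ
    simp only [map_mul, hX, nat_g671, prod_nat671, ofFn_nat671, lcf_nat671, evO_nat671, hP]
    exact ⟨fun h s => h s trivial, fun h s _ => h s⟩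
  have he0 : 0 < e := by omega
  refine ((fA.and (fB1.and (fB2.and (fB3.and (fC1.and (fC2.and (fC3.and (fT1.and (fT2.and (fT3.and
    (fT4.and fT5))))))))))).and (gR.and (gL1.and (gL2.and (gL3.and (gL4.and gL5)))))).congr ?_
  intro Q _ φ
  constructor
  · rintro ⟨⟨hA, hB1, hB2, hB3, hC1, hC2, hC3, hT1, hT2, hT3, hT4, hT5⟩, hR, hL1, hL2, hL3, hL4, hL5⟩
    refine ⟨⟨?_, ?_, ?_, hA, hB1, hB2, hB3, hC1, hC2, hC3, hT1, hT2, hT3, hT4, hT5⟩,
      ⟨hR, hL1, hL2, hL3, hL4, hL5⟩⟩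
    · intro i hi
      rw [fx_zero671]
      exact shf_rel671 e he0 _ _ i hi
    · intro i hi
      rw [fx_zero671]
      exact shf_rel671 e he0 _ _ i hi
    · intro M
      rw [fx_zero671]
      unfold ft
      rw [pow_succ' (φ (Gn.x 0))⁻¹, pow_succ (φ (Gn.x 0))]
      group
  · rintro ⟨⟨_, _, _, hA, hB1, hB2, hB3, hC1, hC2, hC3, hT1, hT2, hT3, hT4, hT5⟩,
      ⟨hR, hL1, hL2, hL3, hL4, hL5⟩⟩
    exact ⟨⟨hA, hB1, hB2, hB3, hC1, hC2, hC3, hT1, hT2, hT3, hT4, hT5⟩, hR, hL1, hL2, hL3, hL4, hL5⟩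

end

end Pool.Agent.H665Simp
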