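import Mathlib
import Pool.Agent.H665Simp.DefsA
import Pool.Agent.H665Simp.DefsD

set_option autoImplicit false

namespace Pool.Agent.H665Simp

section
variable {Q : Type} [Group Q] {e : ℕ}


theorem shf_zero (a : Q) (b : ℕ → Q) : shf e a b 0 = b 0 := by
  simp [shf]

theorem shf_small (a : Q) (b : ℕ → Q) (i : ℕ) (h : i ≤ e) : shf e a b i = b i := by
  rcases Nat.eq_zero_or_pos i with hi | hi
  · subst hi
    simp [shf]
  · have h1 : (i - 1) / e = 0 := Nat.div_eq_of_lt (by omega)
    have h2 : (i - 1) % e = i - 1 := Nat.mod_eq_of_lt (by omega)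
    have h3 : 1 + (i - 1) = i := by omega
    simp only [shf, h1, h2, h3]
    rw [if_neg (by omega)]
    simp

theorem shf_shift (he : 1 ≤ e) (a : Q) (b : ℕ → Q) (i : ℕ) (h : 1 ≤ i) :
    shf e a b i * a = a * shf e a b (i + e) := by
  have h1 : (i + e - 1) / e = (i - 1) / e + 1 := by
    rw [show i + e - 1 = (i - 1) + e by omega, Nat.add_div_right _ (by omega)]
  have h2 : (i + e - 1) % e = (i - 1) % e := by
    rw [show i + e - 1 = (i - 1) + e by omega, Nat.add_mod_right]
  simp only [shf, h1, h2]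
  rw [if_neg (by omega), if_neg (by omega)]
  rw [pow_succ' a⁻¹, pow_succ a]
  group

theorem shf_unique (he : 1 ≤ e) (b : ℕ → Q) (x0 : Q)
    (h : ∀ i, 1 ≤ i → b i * x0 = x0 * b (i + e)) (b' : ℕ → Q) (hb : ∀ i, i ≤ e → b' i = b i) :
    shf e x0 b' = b := by
  funext i
  induction i using Nat.strong_induction_on with
  | _ i ih =>
    by_cases hi : i ≤ e
    · rw [shf_small x0 b' i hi, hb i hi]
    · obtain ⟨j, rfl⟩ : ∃ j, i = j + e := ⟨i - e, by omega⟩
      have hj : 1 ≤ j := by omega
      have h1 := shf_shift he x0 b' j hj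
      rw [ih j (by omega), h j hj] at h1
      exact (mul_left_cancel h1).symm

end

end Pool.Agent.H665Simp
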