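import Mathlib
import Pool.Agent.H665Simp.DefsA
import Pool.Agent.H665Simp.DefsD
import Pool.Agent.H665Simp.P_shf_basic

set_option autoImplicit false

namespace Pool.Agent.H665Simp

section
variable {Q : Type} [Group Q] {e : ℕ}


theorem base_of_fam_evO {Q Q' Sg : Type} [Group Q] [Group Q'] (f : Q →* Q') (y : Q) (l : Sg → Q)
    (u : FreeGroup (Option Sg)) : f (evO y l u) = evO (f y) (fun s => f (l s)) u := by
  have h : f.comp (evO y l) = evO (f y) (fun s => f (l s)) := by
    refine FreeGroup.ext_hom _ _ fun o => ?_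
    show f (FreeGroup.lift _ (FreeGroup.of o)) = FreeGroup.lift _ (FreeGroup.of o)
    rw [FreeGroup.lift_apply_of, FreeGroup.lift_apply_of]
    cases o <;> rfl
  exact DFunLike.congr_fun h u

/-- the assignment -/
def base_of_fam_phi {Sg : Type} (D : LD Sg e) (w : ℕ) {S : SS D.Gp (e + 1)} (F : Fam S Q) :
    Gn Sg e → Q
  | Gn.x c => F.x c
  | Gn.p c => F.p c
  | Gn.t => F.t 0
  | Gn.g s => F.l (PresentedGroup.of s)
  | Gn.y => F.l (PresentedGroup.of D.pt) ^ w

theorem base_of_fam_val (i : ℕ) (h : i ≤ e) : ((Fin.ofNat (e + 1) i : Fin (e + 1)) : ℕ) = i :=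
  Nat.mod_eq_of_lt (Nat.lt_succ_of_le h)

theorem base_of_fam_fx {Sg : Type} (D : LD Sg e) (he : 3 ≤ e) (w : ℕ) {S : SS D.Gp (e + 1)}
    (F : Fam S Q) : fx (base_of_fam_phi D w F) = F.x := by
  have h0 : base_of_fam_phi D w F (Gn.x 0) = F.x 0 := by
    show F.x ((0 : Fin (e + 1)) : ℕ) = F.x 0
    rw [Fin.val_zero]
  unfold fx
  rw [h0]
  refine shf_unique (by omega) F.x (F.x 0) (fun i hi => F.A 0 i hi) _ fun i hi => ?_
  show F.x ((Fin.ofNat (e + 1) i : Fin (e + 1)) : ℕ) = F.x i
  rw [base_of_fam_val i hi]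

theorem base_of_fam_fp {Sg : Type} (D : LD Sg e) (he : 3 ≤ e) (w : ℕ) {S : SS D.Gp (e + 1)}
    (F : Fam S Q) : fp (base_of_fam_phi D w F) = F.p := by
  have h0 : base_of_fam_phi D w F (Gn.x 0) = F.x 0 := by
    show F.x ((0 : Fin (e + 1)) : ℕ) = F.x 0
    rw [Fin.val_zero]
  unfold fp
  rw [h0]
  refine shf_unique (by omega) F.p (F.x 0) (fun i hi => F.B1 0 i hi) _ fun i hi => ?_
  show F.p ((Fin.ofNat (e + 1) i : Fin (e + 1)) : ℕ) = F.p i
  rw [base_of_fam_val i hi]

theorem base_of_fam_ft {Sg : Type} (D : LD Sg e) (he : 3 ≤ e) (w : ℕ) {S : SS D.Gp (e + 1)}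
    (F : Fam S Q) : ft (base_of_fam_phi D w F) = F.t := by
  have h0 : base_of_fam_phi D w F (Gn.x 0) = F.x 0 := by
    show F.x ((0 : Fin (e + 1)) : ℕ) = F.x 0
    rw [Fin.val_zero]
  have h1 : ∀ M, (F.x 0)⁻¹ ^ M * F.t 0 * (F.x 0) ^ M = F.t M := by
    intro M
    induction M with
    | zero => rw [pow_zero, pow_zero, one_mul, mul_one]
    | succ M ih =>
      have h2 : F.t M * F.x 0 = F.x 0 * F.t (M + 1) := by
        refine F.T1 M 0 ?_
        nlinarith
      have h3 : F.t (M + 1) = (F.x 0)⁻¹ * (F.t M * F.x 0) := by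
        rw [h2, inv_mul_cancel_left]
      rw [h3, ← ih, pow_succ' (F.x 0)⁻¹ M, pow_succ (F.x 0) M]
      simp only [mul_assoc]
  funext M
  unfold ft
  rw [h0]
  exact h1 M

/-- families give an assignment satisfying the relations -/
theorem base_of_fam {Sg : Type} (D : LD Sg e) (he : 3 ≤ e) (w : ℕ) (S : SS D.Gp (e + 1))
    (hS : D.IsSS w S) (F : Fam S Q) :
    ∃ φ : Gn Sg e → Q, BaseAll D φ ∧ φ Gn.y = φ (Gn.g D.pt) ^ w ∧
      fx φ = F.x ∧ fp φ = F.p ∧ ft φ = F.t ∧ ∀ s, F.l (PresentedGroup.of s) = φ (Gn.g s) := by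
  refine ⟨base_of_fam_phi D w F, ⟨?_, ?_⟩, rfl, base_of_fam_fx D he w F,
    base_of_fam_fp D he w F, base_of_fam_ft D he w F, fun s => rfl⟩
  · rw [base_of_fam_fx D he w F, base_of_fam_fp D he w F, base_of_fam_ft D he w F]
    refine
      { sx := fun i hi => F.A 0 i hi
        sp := fun i hi => F.B1 0 i hi
        st := fun M => F.T1 M 0 (by nlinarith)
        A := fun i j h _ _ => F.A i j h
        B1 := fun i k h _ _ => F.B1 i k h
        B2 := fun i k h _ _ => F.B2 i k h
        B3 := fun i _ => F.B3 i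
        C1 := fun i _ => F.C1 i
        C2 := fun i _ => F.C2 i
        C3 := fun i j h _ _ => F.C3 i j h
        T1 := fun M i h _ _ => F.T1 M i h
        T2 := ?_
        T3 := F.T3 0
        T4 := fun M k h _ _ => F.T4 M k h
        T5 := ?_ }
    · have h := F.T2 0
      rw [zero_add, one_mul] at h
      exact h
    · have h := F.T5 0
      rw [zero_add, one_mul] at h
      exact h
  · rw [base_of_fam_fx D he w F, base_of_fam_fp D he w F, base_of_fam_ft D he w F]
    refine
      { R := ?_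
        L1 := fun i s h _ => F.L1 i _ h
        L2 := fun k s h _ => F.L2 k _ h
        L3 := fun s => F.L3 0 _
        L4 := fun s s' => F.L4 _ _
        L5 := ?_ }
    · intro r hr
      have h1 : F.l.comp (PresentedGroup.mk D.rel) =
          FreeGroup.lift (fun s => base_of_fam_phi D w F (Gn.g s)) := by
        refine FreeGroup.ext_hom _ _ fun s => ?_
        rw [FreeGroup.lift_apply_of]
        rfl
      rw [← h1]
      show F.l (PresentedGroup.mk D.rel r) = 1
      rw [PresentedGroup.one_of_mem hr, map_one]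
    · intro s
      have h := F.L5 (PresentedGroup.of s)
      rw [hS.1 s] at h
      have h1 : F.th (D.act s) =
          ((permWord (D.act s)).map (fun c : Fin e => F.p c)).prod := by
        conv_lhs => rw [permWord_spec (D.act s)]
        rw [map_list_prod, List.map_map]
        congr 1
        refine List.map_congr_left fun c _ => ?_
        exact F.th_swap c
      have h2 : ∀ c, F.l (S.sec (PresentedGroup.of s) c) =
          evO (base_of_fam_phi D w F Gn.y) (fun s => base_of_fam_phi D w F (Gn.g s))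
            (D.sec s c) := by
        intro c
        rw [hS.2 s c, base_of_fam_evO, map_pow]
        rfl
      rw [h1] at h
      simp only [h2] at h
      exact h

end

end Pool.Agent.H665Simp
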