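import Mathlib
import Pool.Agent.H665Simp.DefsA
import Pool.Agent.H665Simp.DefsC

set_option autoImplicit false

namespace Pool.Agent.H665Simp

section
variable {G : Type} [Group G] {e : ℕ} {S : SS G (e + 1)} {Q : Type} [Group Q]


theorem chain_trans (F : Fam S Q) (M N K : ℕ) (r s : Q) (hr : F.Chain M N r)
    (hs : F.Chain N K s) : F.Chain M K (r * s) := by
  induction hr with
  | nil M => rwa [one_mul]
  | cons M N i r hi _ ih =>
    rw [mul_assoc]
    exact Fam.Chain.cons M K i (r * s) hi (ih hs)

theorem chain_le (F : Fam S Q) (M N : ℕ) (r : Q) (hr : F.Chain M N r) : M ≤ N := by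
  induction hr with
  | nil M => exact le_refl M
  | cons M N i r hi _ ih => omega

/-- the trivial chain (expanding the last leaf each time) -/
theorem chain_one (F : Fam S Q) (M N : ℕ) (h : M ≤ N) : F.Chain M N 1 := by
  obtain ⟨k, rfl⟩ := Nat.exists_eq_add_of_le h
  clear h
  induction k generalizing M with
  | zero => exact Fam.Chain.nil M
  | succ k ih =>
    have h1 := Fam.Chain.cons (F := F) M (M + 1 + k) ((M + 1) * e) 1 le_rfl (ih (M + 1))
    have h2 : F.X M ((M + 1) * e) = 1 := by
      unfold Fam.X
      rw [if_neg (lt_irrefl _)]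
    rw [h2, one_mul] at h1
    rw [show M + (k + 1) = M + 1 + k by omega]
    exact h1

end

end Pool.Agent.H665Simp
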