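import Mathlib
import Pool.Agent.H665Simp.DefsA
import Pool.Agent.H665Simp.DefsB
import Pool.Agent.H665Simp.DefsC
import Pool.Agent.H665Simp.P_chain_basic
import Pool.Agent.H665Simp.P_leaf_basic
import Pool.Agent.H665Simp.P_tab_leaf

set_option autoImplicit false

namespace Pool.Agent.H665Simp

section
variable {G : Type} [Group G] {e : ℕ} {S : SS G (e + 1)} {Q : Type} [Group Q]
variable {G : Type} [Group G] {e : ℕ} {S : SS G (e + 1)} {Q : Type} [Group Q] {W : Type}
variable {G : Type} [Group G] {e : ℕ} {S : SS G (e + 1)} {W : Type}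


theorem chain_leaf_cn (Ws : SSet S (ℕ → Fin (e + 1))) (hs : IsSeq Ws) (c : Fin (e + 1))
    (w : ℕ → Fin (e + 1)) (j : ℕ) : Ws.cn (c : ℕ) w j = if j = 0 then c else w (j - 1) := by
  have h1 : Fin.ofNat (e + 1) (c : ℕ) = c := Fin.ext (by simp [Fin.ofNat]; have := c.2; omega)
  unfold SSet.cn
  rw [h1, hs.1]
  cases j with
  | zero => rfl
  | succ j => rfl

theorem chain_leaf_aux (Ws : SSet S (ℕ → Fin (e + 1))) (hs : IsSeq Ws) (he : 3 ≤ e) (F : Fam S Q)
    (F0 : Fam S (Equiv.Perm (ℕ → Fin (e + 1)))) (T : Tab Ws F0)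
    (α : Q →* Equiv.Perm (ℕ → Fin (e + 1))) (hα : F.Compat F0 α) (z : ℕ → Fin (e + 1)) (m : ℕ) :
    ∃ M r k, F.Chain 0 M r ∧ k ≤ (M + 1) * e ∧
      ∀ w i, α r (Ws.leaf M k w) i = if i ≤ m then z i else w (i - (m + 1)) := by
  induction m with
  | zero =>
    refine ⟨0, 1, (z 0 : ℕ), Fam.Chain.nil 0, by have := (z 0).2; omega, ?_⟩
    intro w i
    have h1 : Ws.leaf 0 (z 0 : ℕ) w = Ws.cn (z 0 : ℕ) w := by
      unfold SSet.leaf
      split_ifs with h
      · exact lam_lt Ws _ (by omega) w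
      · have h2 : ((z 0 : Fin (e + 1)) : ℕ) = e := by have := (z 0).2; omega
        rw [spine_succ, h2]
        rfl
    rw [map_one, Equiv.Perm.one_apply, h1, chain_leaf_cn Ws hs]
    by_cases hi : i = 0
    · subst hi
      simp
    · rw [if_neg hi, if_neg (by omega)]
  | succ m ih =>
    obtain ⟨M, r, k, hch, hk, hr⟩ := ih
    have hz := (z (m + 1)).2
    refine ⟨M + 1, r * (F.X M k * 1), k + (z (m + 1) : ℕ),
      chain_trans F 0 M (M + 1) r _ hch (Fam.Chain.cons M (M + 1) k 1 hk (Fam.Chain.nil (M + 1))),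
      ?_, ?_⟩
    · have : (M + 1 + 1) * e = (M + 1) * e + e := by ring
      omega
    · intro w i
      have hX : α (F.X M k) = F0.X M k := by
        unfold Fam.X
        split_ifs
        · exact hα.x k
        · exact map_one α
      rw [mul_one, map_mul, Equiv.Perm.mul_apply, hX,
        tab_X_leaf Ws he F0 T M k _ hk (by omega) w, hr]
      by_cases hi : i ≤ m
      · rw [if_pos hi, if_pos (by omega)]
      · rw [if_neg hi, chain_leaf_cn Ws hs]
        by_cases hi2 : i = m + 1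
        · subst hi2
          simp
        · rw [if_neg (by omega), if_neg (by omega)]
          congr 1

/-- every cone contains a leaf of some chain of expansions -/
theorem chain_leaf (Ws : SSet S (ℕ → Fin (e + 1))) (hs : IsSeq Ws) (he : 3 ≤ e) (F : Fam S Q)
    (F0 : Fam S (Equiv.Perm (ℕ → Fin (e + 1)))) (T : Tab Ws F0)
    (α : Q →* Equiv.Perm (ℕ → Fin (e + 1))) (hα : F.Compat F0 α) (z : ℕ → Fin (e + 1)) (m : ℕ) :
    ∃ M r k, F.Chain 0 M r ∧ k ≤ (M + 1) * e ∧
      ∀ w i, i ≤ m → α r (Ws.leaf M k w) i = z i := by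
  obtain ⟨M, r, k, h1, h2, h3⟩ := chain_leaf_aux Ws hs he F F0 T α hα z m
  refine ⟨M, r, k, h1, h2, ?_⟩
  intro w i hi
  rw [h3, if_pos hi]

end

end Pool.Agent.H665Simp
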