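import Mathlib
import Pool.Agent.H665Simp.DefsA
import Pool.Agent.H665Simp.DefsC
import Pool.Agent.H665Simp.P_SN_mem

set_option autoImplicit false

namespace Pool.Agent.H665Simp

section
variable {G : Type} [Group G] {e : ℕ} {S : SS G (e + 1)} {Q : Type} [Group Q]


theorem pr_mem' (F : Fam S Q) (M i n : ℕ) (h : ∀ c < n, i + c + 1 < (M + 1) * e) :
    pr F.p i n ∈ F.SN M := by
  unfold pr
  apply Subgroup.list_prod_mem
  intro q hq
  rw [List.mem_map] at hq
  obtain ⟨c, hc, rfl⟩ := hq
  exact SN_p F M (i + c) (h c (List.mem_range.1 hc))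

theorem lcf_mem' (F : Fam S Q) (M : ℕ) (g : G) (c : ℕ) (hc : c < (M + 1) * e) :
    lcf F.p (F.l g) c ∈ F.SN M := by
  induction c with
  | zero => exact SN_l F M g
  | succ c ih =>
    have h1 := ih (by omega)
    have h2 := SN_p F M c hc
    exact (F.SN M).mul_mem ((F.SN M).mul_mem h2 h1) h2

/-- a labelled permutation can be pushed through one expansion -/
theorem step1 (F : Fam S Q) (he : 3 ≤ e) (M : ℕ) (σ : Q) (hσ : σ ∈ F.SN M) (i : ℕ)
    (hi : i ≤ (M + 1) * e) :
    ∃ j, j ≤ (M + 1) * e ∧ ∃ σ', σ' ∈ F.SN (M + 1) ∧ σ * F.X M i = F.X M j * σ' := by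
  obtain ⟨L, hL⟩ : ∃ L, L = (M + 1) * e := ⟨_, rfl⟩
  have hL1 : (M + 1 + 1) * e = L + e := by rw [hL]; ring
  have hL3 : e ≤ L := by rw [hL]; nlinarith
  have hX : ∀ k, k < L → F.X M k = F.x k := by
    intro k hk
    unfold Fam.X
    rw [if_pos (by omega)]
  have hXL : F.X M L = 1 := by
    unfold Fam.X
    rw [if_neg (by omega)]
  rw [← hL] at hi ⊢
  have hp : ∀ k, k + 1 < L + e → F.p k ∈ F.SN (M + 1) := fun k hk =>
    SN_p F (M + 1) k (by omega)
  have hpr : ∀ i n, (∀ c < n, i + c + 1 < L + e) → pr F.p i n ∈ F.SN (M + 1) := by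
    intro i n h
    exact pr_mem' F (M + 1) i n (fun c hc => by have := h c hc; omega)
  have hgen1 : ∀ k, k < L → ∀ i, i ≤ L → ∃ j, j ≤ L ∧ ∃ σ', σ' ∈ F.SN (M + 1) ∧
      F.sg M k * F.X M i = F.X M j * σ' := by
    intro k hk i hi
    by_cases hk1 : k + 1 < L
    · have hsg : F.sg M k = F.p k := by
        unfold Fam.sg
        rw [if_pos (by omega)]
      rw [hsg]
      rcases Nat.lt_or_ge i L with hiL | hiL
      · rw [hX i hiL]
        rcases lt_trichotomy i k with h1 | h1 | h1
        · refine ⟨i, hi, F.p (k + e), hp _ (by omega), ?_⟩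
          rw [hX i hiL]
          exact F.B1 i k h1
        · subst h1
          refine ⟨i + 1, by omega, pr F.p i (e + 1), hpr _ _ (fun c hc => by omega), ?_⟩
          rw [hX (i + 1) hk1]
          exact F.B3 i
        · rcases Nat.lt_or_ge (k + 1) i with h2 | h2
          · refine ⟨i, hi, F.p k, hp _ (by omega), ?_⟩
            rw [hX i hiL]
            exact F.B2 i k h2
          · have h3 : i = k + 1 := by omega
            subst h3
            refine ⟨k, by omega, (pr F.p k (e + 1))⁻¹,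
              (F.SN (M + 1)).inv_mem (hpr _ _ (fun c hc => by omega)), ?_⟩
            rw [hX k hk, eq_mul_inv_iff_mul_eq, mul_assoc, ← F.B3 k, ← mul_assoc, F.C1, one_mul]
      · have h1 : i = L := le_antisymm hi hiL
        subst h1
        refine ⟨i, le_rfl, F.p k, hp _ (by omega), ?_⟩
        rw [hXL, mul_one, one_mul]
    · have hsg : F.sg M k = F.t M := by
        unfold Fam.sg
        rw [if_neg (by omega)]
      have hk2 : k = L - 1 := by omega
      have hT2 := F.T2 M
      rw [← hL] at hT2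
      have hW : pr F.p (L - 1) e * F.t (M + 1) ∈ F.SN (M + 1) :=
        (F.SN (M + 1)).mul_mem (hpr _ _ (fun c hc => by omega))
          (SN_t F (by omega) (M + 1))
      rw [hsg]
      rcases Nat.lt_or_ge i L with hiL | hiL
      · rw [hX i hiL]
        rcases Nat.lt_or_ge (i + 1) L with h1 | h1
        · refine ⟨i, hi, F.t (M + 1), SN_t F (by omega) (M + 1), ?_⟩
          rw [hX i hiL]
          exact F.T1 M i (by omega)
        · have h2 : i = L - 1 := by omega
          subst h2
          refine ⟨L, le_rfl, _, hW, ?_⟩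
          rw [hXL, one_mul]
          exact hT2
      · have h1 : i = L := le_antisymm hi hiL
        rw [h1]
        refine ⟨L - 1, by omega, (pr F.p (L - 1) e * F.t (M + 1))⁻¹,
          (F.SN (M + 1)).inv_mem hW, ?_⟩
        rw [hXL, mul_one, hX (L - 1) (by omega), eq_mul_inv_iff_mul_eq, ← hT2, ← mul_assoc,
          F.T3, one_mul]
  have hgen2 : ∀ g, ∀ i, i ≤ L → ∃ j, j ≤ L ∧ ∃ σ', σ' ∈ F.SN (M + 1) ∧
      F.l g * F.X M i = F.X M j * σ' := by
    intro g i hi
    rcases Nat.lt_or_ge i L with hiL | hiL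
    · rw [hX i hiL]
      rcases Nat.eq_zero_or_pos i with h0 | h0
      · subst h0
        refine ⟨0, Nat.zero_le _, F.th (S.act g) *
          (List.ofFn (fun c : Fin (e + 1) => lcf F.p (F.l (S.sec g c)) c)).prod, ?_, ?_⟩
        · apply (F.SN (M + 1)).mul_mem (SN_th F he M _)
          apply Subgroup.list_prod_mem
          intro q hq
          rw [List.mem_ofFn] at hq
          obtain ⟨c, rfl⟩ := hq
          exact lcf_mem' F (M + 1) _ _ (by have := c.2; omega)
        · rw [hX 0 hiL, F.L5 g, mul_assoc]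
      · refine ⟨i, hi, F.l g, SN_l F (M + 1) g, ?_⟩
        rw [hX i hiL]
        exact F.L1 i g h0
    · have h1 : i = L := le_antisymm hi hiL
      rw [h1]
      refine ⟨L, le_rfl, F.l g, SN_l F (M + 1) g, ?_⟩
      rw [hXL, mul_one, one_mul]
  have hinv : ∀ k, (F.sg M k)⁻¹ = F.sg M k := by
    intro k
    unfold Fam.sg
    split_ifs
    · exact inv_eq_of_mul_eq_one_left (F.C1 k)
    · exact inv_eq_of_mul_eq_one_left (F.T3 M)
  have key : ∀ σ ∈ F.SN M, ∀ i, i ≤ L → ∃ j, j ≤ L ∧ ∃ σ', σ' ∈ F.SN (M + 1) ∧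
      σ * F.X M i = F.X M j * σ' := by
    intro σ hσ
    unfold Fam.SN at hσ
    induction hσ using Subgroup.closure_induction'' with
    | mem x hx =>
      rcases hx with ⟨k, hk, rfl⟩ | ⟨g, rfl⟩
      · exact hgen1 k (by omega)
      · exact hgen2 g
    | inv_mem x hx =>
      rcases hx with ⟨k, hk, rfl⟩ | ⟨g, rfl⟩
      · rw [hinv]
        exact hgen1 k (by omega)
      · rw [← map_inv]
        exact hgen2 g⁻¹
    | one =>
      intro i hi
      exact ⟨i, hi, 1, (F.SN (M + 1)).one_mem, by rw [one_mul, mul_one]⟩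
    | mul x y _ _ hx hy =>
      intro i hi
      obtain ⟨j, hj, τ, hτ, h1⟩ := hy i hi
      obtain ⟨k, hk, ρ, hρ, h2⟩ := hx j hj
      refine ⟨k, hk, ρ * τ, (F.SN (M + 1)).mul_mem hρ hτ, ?_⟩
      rw [mul_assoc, h1, ← mul_assoc, h2, mul_assoc]
  exact key σ hσ i hi

end

end Pool.Agent.H665Simp
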