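import Mathlib
import Pool.Agent.H665Simp.DefsA
import Pool.Agent.H665Simp.DefsC
import Pool.Agent.H665Simp.P_step1

set_option autoImplicit false

namespace Pool.Agent.H665Simp

section
variable {G : Type} [Group G] {e : ℕ} {S : SS G (e + 1)} {Q : Type} [Group Q]


/-- a labelled permutation can be pushed through a chain of expansions -/
theorem chain_push (F : Fam S Q) (he : 3 ≤ e) (M N : ℕ) (σ r : Q) (hσ : σ ∈ F.SN M)
    (hr : F.Chain M N r) :
    ∃ r' σ', F.Chain M N r' ∧ σ' ∈ F.SN N ∧ σ * r = r' * σ' := by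
  induction hr generalizing σ with
  | nil M =>
    exact ⟨1, σ, Fam.Chain.nil M, hσ, by simp⟩
  | cons M N i r hi hr ih =>
    obtain ⟨j, hj, σ1, hσ1, h1⟩ := step1 F he M σ hσ i hi
    obtain ⟨r2, σ2, hr2, hσ2, h2⟩ := ih σ1 hσ1
    refine ⟨F.X M j * r2, σ2, Fam.Chain.cons M N j r2 hj hr2, hσ2, ?_⟩
    rw [← mul_assoc, h1, mul_assoc, h2, mul_assoc]

end

end Pool.Agent.H665Simp
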