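import Mathlib
import Pool.Agent.H665Simp.DefsA
import Pool.Agent.H665Simp.DefsC

set_option autoImplicit false

namespace Pool.Agent.H665Simp

section
variable {G : Type} [Group G] {e : ℕ} {S : SS G (e + 1)} {Q : Type} [Group Q]


theorem chain_sorted_insert (F : Fam S Q) (B : ℕ) (l : List ℕ) :
    ∀ i : ℕ, l.Pairwise (· ≤ ·) → (∀ a ∈ l, a < B) → i + e * l.length < B →
      ∃ l' : List ℕ, l'.Pairwise (· ≤ ·) ∧ (∀ a ∈ l', a < B) ∧ l'.length = l.length + 1 ∧
        F.x i * (l.map F.x).prod = (l'.map F.x).prod ∧
        ∀ b, b ≤ i → (∀ a ∈ l, b ≤ a) → ∀ a ∈ l', b ≤ a := by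
  induction l with
  | nil =>
    intro i _ _ hi
    refine ⟨[i], List.pairwise_singleton _ _, ?_, rfl, by simp, ?_⟩
    · intro a ha
      rw [List.mem_singleton] at ha
      subst ha
      simpa using hi
    · intro b hb _ a ha
      rw [List.mem_singleton] at ha
      subst ha
      exact hb
  | cons h t ih =>
    intro i hs hB hi
    rw [List.pairwise_cons] at hs
    rcases le_or_gt i h with hih | hih
    · refine ⟨i :: h :: t, ?_, ?_, rfl, by simp, ?_⟩
      · rw [List.pairwise_cons, List.pairwise_cons]
        refine ⟨?_, hs⟩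
        intro a ha
        rcases List.mem_cons.1 ha with rfl | ha
        · exact hih
        · exact hih.trans (hs.1 a ha)
      · intro a ha
        rcases List.mem_cons.1 ha with rfl | ha
        · have : 0 ≤ e * (h :: t).length := Nat.zero_le _
          omega
        · exact hB a ha
      · intro b hb hb' a ha
        rcases List.mem_cons.1 ha with rfl | ha
        · exact hb
        · exact hb' a ha
    · have hlen : (i + e) + e * t.length < B := by
        rw [List.length_cons, mul_add, mul_one] at hi
        omega
      obtain ⟨l', h1, h2, h3, h4, h5⟩ := ih (i + e) hs.2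
        (fun a ha => hB a (List.mem_cons_of_mem _ ha)) hlen
      refine ⟨h :: l', ?_, ?_, ?_, ?_, ?_⟩
      · rw [List.pairwise_cons]
        exact ⟨h5 h (by omega) hs.1, h1⟩
      · intro a ha
        rcases List.mem_cons.1 ha with rfl | ha
        · exact hB _ List.mem_cons_self
        · exact h2 a ha
      · rw [List.length_cons, List.length_cons, h3]
      · rw [List.map_cons, List.prod_cons, List.map_cons, List.prod_cons, ← h4, ← mul_assoc,
          F.A h i hih, mul_assoc]
      · intro b hb hb' a ha
        rcases List.mem_cons.1 ha with rfl | ha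
        · exact hb' _ List.mem_cons_self
        · exact h5 b (by omega) (fun c hc => hb' c (List.mem_cons_of_mem _ hc)) a ha

/-- a chain is a product of the `x i` with nondecreasing indices -/
theorem chain_sorted (F : Fam S Q) (he : 3 ≤ e) (M N : ℕ) (r : Q) (hr : F.Chain M N r) :
    ∃ l : List ℕ, l.Pairwise (· ≤ ·) ∧ (∀ i ∈ l, i < N * e) ∧ r = (l.map F.x).prod := by
  have key : ∃ l : List ℕ, l.Pairwise (· ≤ ·) ∧ (∀ i ∈ l, i < N * e) ∧
      r = (l.map F.x).prod ∧ l.length + M ≤ N := by
    induction hr with
    | nil M => exact ⟨[], List.Pairwise.nil, by simp, by simp, by simp⟩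
    | cons M N i r hi _ ih =>
      obtain ⟨l, h1, h2, h3, h4⟩ := ih
      by_cases hlt : i < (M + 1) * e
      · have hB : i + e * l.length < N * e := by
          have h5 : (l.length + (M + 1)) * e ≤ N * e := Nat.mul_le_mul_right e h4
          have h6 : (l.length + (M + 1)) * e = e * l.length + (M + 1) * e := by ring
          omega
        obtain ⟨l', g1, g2, g3, g4, _⟩ := chain_sorted_insert F (N * e) l i h1 h2 hB
        refine ⟨l', g1, g2, ?_, by omega⟩
        rw [← g4, h3]
        unfold Fam.X
        rw [if_pos hlt]
      · refine ⟨l, h1, h2, ?_, by omega⟩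
        unfold Fam.X
        rw [if_neg hlt, one_mul]
        exact h3
  obtain ⟨l, h1, h2, h3, _⟩ := key
  exact ⟨l, h1, h2, h3⟩

end

end Pool.Agent.H665Simp
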