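import Mathlib
import Pool.Agent.H665Simp.DefsA
import Pool.Agent.H665Simp.DefsB
import Pool.Agent.H665Simp.DefsD
import Pool.Agent.H665Simp.DefsG

set_option autoImplicit false

namespace Pool.Agent.H665Simp

section
variable {nJ nQ B : ℕ} [NeZero B]


theorem coinv_gen (m : Mach nJ nQ B) (w : ℕ) (e : ℕ) (q : Lt nJ nQ B ≃ Fin (e + 1))
    (S : SS (GG nJ nQ) (e + 1)) (hS : (DG m e q).IsSS w S)
    (C : Type) [CommGroup C] (φ : GG nJ nQ →* C) (hφ : ∀ g, φ g = ∏ c, φ (S.sec g c))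
    (g : Lg nJ nQ) :
    φ (gg g) = (∏ b : Bs nJ nQ B, φ (evG m w (secB m g b))) *
      ∏ z : Fin 3, φ (evG m w (if g.zt = some z then wz m g else 1)) := by
  have h1 : ∀ c, S.sec (gg g) c = evG m w (secL m g (q.symm c)) := fun c => hS.2 g c
  rw [hφ (gg g)]
  simp only [h1]
  rw [Equiv.prod_comp q.symm (fun c => φ (evG m w (secL m g c))), Fintype.prod_prod_type,
    Fintype.prod_bool]
  have h2 : (∏ y : Bs nJ nQ B ⊕ Fin 3, φ (evG m w (secL m g (true, y)))) = 1 := by
    apply Finset.prod_eq_one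
    intro y _
    simp [secL]
  rw [h2, one_mul, Fintype.prod_sum_type]
  rfl

theorem evG_wd (m : Mach nJ nQ B) (w : ℕ) (g : Lg nJ nQ) : evG m w (wd g) = gg g := by
  unfold evG evO wd
  simp

theorem phi_wz (m : Mach nJ nQ B) (w : ℕ) (C : Type) [CommGroup C] (φ : GG nJ nQ →* C)
    (g : Lg nJ nQ) : φ (evG m w (wz m g)) =
      (∏ b : Bs nJ nQ B, φ (evG m w (secB m g b)))⁻¹ * φ (gg g) ^ 2 := by
  unfold wz
  rw [map_mul, map_mul, map_inv, map_inv, map_pow, map_pow, evG_wd]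
  congr 2
  rw [map_list_prod, map_list_prod, List.map_map, List.map_map]
  rw [← Finset.prod_map_toList]
  rfl

theorem eq_one_of_sq {C : Type} [CommGroup C] {a : C} (h : a = a ^ 2) : a = 1 := by
  rw [pow_two] at h
  exact left_eq_mul.mp h

theorem coinv_zt (m : Mach nJ nQ B) (w : ℕ) (e : ℕ) (q : Lt nJ nQ B ≃ Fin (e + 1))
    (S : SS (GG nJ nQ) (e + 1)) (hS : (DG m e q).IsSS w S)
    (C : Type) [CommGroup C] (φ : GG nJ nQ →* C) (hφ : ∀ g, φ g = ∏ c, φ (S.sec g c))
    (g : Lg nJ nQ) (z0 : Fin 3) (hg : g.zt = some z0) : φ (gg g) = 1 := by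
  apply eq_one_of_sq
  have h := coinv_gen m w e q S hS C φ hφ g
  have h3 : (∏ z : Fin 3, φ (evG m w (if g.zt = some z then wz m g else 1)))
      = φ (evG m w (wz m g)) := by
    rw [Finset.prod_eq_single z0]
    · simp [hg]
    · intro b _ hb
      have : ¬ (g.zt = some b) := by
        rw [hg]
        intro h'
        exact hb (Option.some_injective _ h').symm
      simp [this]
    · intro h'
      exact absurd (Finset.mem_univ _) h'
  rw [h3, phi_wz, mul_inv_cancel_left] at h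
  exact h

theorem coinv_s (m : Mach nJ nQ B) (w : ℕ) (e : ℕ) (q : Lt nJ nQ B ≃ Fin (e + 1))
    (S : SS (GG nJ nQ) (e + 1)) (hS : (DG m e q).IsSS w S)
    (C : Type) [CommGroup C] (φ : GG nJ nQ →* C) (hφ : ∀ g, φ g = ∏ c, φ (S.sec g c))
    (k : Bool) : φ (gg (Lg.s k)) = 1 := by
  apply eq_one_of_sq
  have h := coinv_gen m w e q S hS C φ hφ (Lg.s k)
  have h3 : (∏ z : Fin 3, φ (evG m w (if (Lg.s k : Lg nJ nQ).zt = some z then wz m (Lg.s k)
      else 1))) = 1 := by
    apply Finset.prod_eq_one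
    intro z _
    simp [Lg.zt]
  rw [h3, mul_one, Fintype.prod_sum_type, Fintype.prod_sum_type] at h
  have h4 : (∏ x : Fin nQ × (Fin nJ → Fin B) × (Fin nJ → Fin B),
      φ (evG m w (secB m (Lg.s k) (Sum.inl x)))) = 1 := by
    apply Finset.prod_eq_one
    intro z _
    simp [secB]
  have h5 : (∏ x : Bool × Bool, φ (evG m w (secB m (Lg.s k) (Sum.inr (Sum.inr x))))) = 1 := by
    apply Finset.prod_eq_one
    intro z _
    simp [secB]
  have h6 : (∏ x : Bool × Bool, φ (evG m w (secB m (Lg.s k) (Sum.inr (Sum.inl x)))))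
      = φ (gg (Lg.s k)) ^ 2 := by
    rw [Fintype.prod_prod_type, Fintype.prod_bool, Fintype.prod_bool, Fintype.prod_bool]
    cases k
    · simp [secB, crd, evG_wd, pow_two]
    · simp [secB, crd, evG_wd, pow_two]
  rw [h4, h5, h6, one_mul, mul_one] at h
  exact h

theorem coinv_t (m : Mach nJ nQ B) (w : ℕ) (e : ℕ) (q : Lt nJ nQ B ≃ Fin (e + 1))
    (S : SS (GG nJ nQ) (e + 1)) (hS : (DG m e q).IsSS w S)
    (C : Type) [CommGroup C] (φ : GG nJ nQ →* C) (hφ : ∀ g, φ g = ∏ c, φ (S.sec g c))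
    (k : Bool) : φ (gg (Lg.t k)) = 1 := by
  apply eq_one_of_sq
  have h := coinv_gen m w e q S hS C φ hφ (Lg.t k)
  have h3 : (∏ z : Fin 3, φ (evG m w (if (Lg.t k : Lg nJ nQ).zt = some z then wz m (Lg.t k)
      else 1))) = 1 := by
    apply Finset.prod_eq_one
    intro z _
    simp [Lg.zt]
  rw [h3, mul_one, Fintype.prod_sum_type, Fintype.prod_sum_type] at h
  have h4 : (∏ x : Fin nQ × (Fin nJ → Fin B) × (Fin nJ → Fin B),
      φ (evG m w (secB m (Lg.t k) (Sum.inl x)))) = 1 := by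
    apply Finset.prod_eq_one
    intro z _
    simp [secB]
  have h5 : (∏ x : Bool × Bool, φ (evG m w (secB m (Lg.t k) (Sum.inr (Sum.inl x))))) = 1 := by
    apply Finset.prod_eq_one
    intro z _
    simp [secB]
  have h6 : (∏ x : Bool × Bool, φ (evG m w (secB m (Lg.t k) (Sum.inr (Sum.inr x)))))
      = φ (gg (Lg.t k)) ^ 2 := by
    rw [Fintype.prod_prod_type, Fintype.prod_bool, Fintype.prod_bool, Fintype.prod_bool]
    cases k
    · simp [secB, crd, evG_wd, pow_two]
    · simp [secB, crd, evG_wd, pow_two]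
  rw [h4, h5, h6, one_mul, one_mul] at h
  exact h

/-- the coinvariants of the recursion are trivial -/
theorem coinv (m : Mach nJ nQ B) (w : ℕ) (e : ℕ) (q : Lt nJ nQ B ≃ Fin (e + 1))
    (S : SS (GG nJ nQ) (e + 1)) (hS : (DG m e q).IsSS w S)
    (C : Type) [CommGroup C] (φ : GG nJ nQ →* C) (hφ : ∀ g, φ g = ∏ c, φ (S.sec g c)) :
    φ = 1 := by
  apply PresentedGroup.ext
  intro g
  show φ (gg g) = 1
  cases g with
  | x j => exact coinv_zt m w e q S hS C φ hφ _ 0 rfl
  | a => exact coinv_zt m w e q S hS C φ hφ _ 1 rfl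
  | u i => exact coinv_zt m w e q S hS C φ hφ _ 2 rfl
  | s k => exact coinv_s m w e q S hS C φ hφ k
  | t k => exact coinv_t m w e q S hS C φ hφ k

end

end Pool.Agent.H665Simp
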