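import Mathlib
import Pool.Agent.H665Simp.DefsA
import Pool.Agent.H665Simp.DefsC

set_option autoImplicit false

namespace Pool.Agent.H665Simp

section
variable {G : Type} [Group G] {e : ℕ} {S : SS G (e + 1)} {Q : Type} [Group Q] {W : Type}


theorem collapse_pr (p : ℕ → Q) (z : Q) (h : ∀ k, p k = z) (i n : ℕ) : pr p i n = z ^ n := by
  simp [pr, h]

/-- if all the transpositions of some level coincide, then the group without labels is trivial -/
theorem collapse (F : Fam S Q) (he : 3 ≤ e) (hodd : Odd e) (M : ℕ) (hM : 1 ≤ M)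
    (h : ∀ k k', k < (M + 1) * e → k' < (M + 1) * e → F.sg M k = F.sg M k') :
    (∀ i, F.p i = 1) ∧ (∀ i, F.x i = 1) ∧ (∀ i, F.t i = 1) := by
  have h2e : 2 * e ≤ (M + 1) * e := Nat.mul_le_mul_right e (by omega)
  have hp : ∀ k, k + 1 < (M + 1) * e → F.p k = F.p 0 := by
    intro k hk
    have h1 := h k 0 (by omega) (by omega)
    unfold Fam.sg at h1
    rw [if_pos hk, if_pos (by omega)] at h1
    exact h1
  have ht : F.t M = F.p 0 := by
    have h1 := h ((M + 1) * e - 1) 0 (by omega) (by omega)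
    unfold Fam.sg at h1
    rw [if_neg (by omega), if_pos (by omega)] at h1
    exact h1
  have hx0 : F.p 0 * F.x 0 = F.x 0 * F.p 0 := by
    have h1 := F.B1 0 1 (by omega)
    rw [hp 1 (by omega), hp (1 + e) (by omega)] at h1
    exact h1
  have hpa : ∀ k, F.p k = F.p 0 := by
    intro k
    induction k using Nat.strong_induction_on with
    | _ k ih =>
      by_cases hk : k + 1 < (M + 1) * e
      · exact hp k hk
      · obtain ⟨j, rfl⟩ : ∃ j, k = j + e := ⟨k - e, by omega⟩
        have h1 := F.B1 0 j (by omega)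
        rw [ih j (by omega), hx0] at h1
        exact (mul_left_cancel h1).symm
  have hxc : ∀ i, F.p 0 * F.x i = F.x i * F.p 0 := by
    intro i
    have h1 := F.B1 i (i + 1) (by omega)
    rw [hpa (i + 1), hpa (i + 1 + e)] at h1
    exact h1
  have hz2 : F.p 0 * F.p 0 = 1 := F.C1 0
  have hze : F.p 0 ^ (e + 1) = 1 := by
    obtain ⟨m, hm⟩ := hodd
    have : e + 1 = 2 * (m + 1) := by omega
    rw [this, pow_mul, pow_two, hz2, one_pow]
  have hxs : ∀ i, F.x (i + 1) = F.p 0 * F.x i := by
    intro i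
    have h1 := F.B3 i
    rw [collapse_pr F.p (F.p 0) hpa, hze, mul_one, hpa i] at h1
    exact h1.symm
  have hxn : ∀ n, F.x n = F.p 0 ^ n * F.x 0 := by
    intro n
    induction n with
    | zero => simp
    | succ n ih => rw [hxs n, ih, pow_succ', mul_assoc]
  have hz : F.p 0 = 1 := by
    have h1 := F.A 0 1 (by omega)
    rw [hxn (1 + e), hxn 1, add_comm 1 e, hze, one_mul, pow_one, mul_assoc] at h1
    exact mul_eq_right.mp h1
  have hpp : ∀ i, F.p i = 1 := fun i => (hpa i).trans hz
  have hxx : ∀ i, F.x i = F.x 0 := by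
    intro i
    rw [hxn i, hz, one_pow, one_mul]
  have hts : ∀ n, F.t (n + 1) = 1 ↔ F.t n = 1 := by
    intro n
    have h1 := F.T1 n 0 (by nlinarith)
    constructor
    · intro h2
      rw [h2, mul_one] at h1
      exact mul_eq_right.mp h1
    · intro h2
      rw [h2, one_mul] at h1
      exact (left_eq_mul.mp h1)
  have ht0 : ∀ n, F.t n = 1 ↔ F.t 0 = 1 := by
    intro n
    induction n with
    | zero => exact Iff.rfl
    | succ n ih => rw [hts n, ih]
  have htt : ∀ n, F.t n = 1 := by
    intro n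
    rw [ht0 n, ← ht0 M, ht, hz]
  refine ⟨hpp, ?_, htt⟩
  intro i
  have h1 := F.T2 0
  rw [collapse_pr F.p 1 hpp, htt, htt, one_pow, one_mul, one_mul, hxx] at h1
  rw [hxx i, h1]

end

end Pool.Agent.H665Simp
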