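import Mathlib
import Pool.Agent.H665Simp.DefsA
import Pool.Agent.H665Simp.DefsC

set_option autoImplicit false

namespace Pool.Agent.H665Simp

section
variable {G : Type} [Group G] {e : ℕ} {S : SS G (e + 1)} {Q : Type} [Group Q] {W : Type}


theorem collapse_lcf_one (p : ℕ → Q) (hp : ∀ i, p i = 1) (u : Q) : ∀ n : ℕ, lcf p u n = u := by
  intro n
  induction n with
  | zero => rfl
  | succ n ih => simp [lcf, ih, hp]

theorem collapse_th_one (F : Fam S Q) (hp : ∀ i, F.p i = 1) : ∀ ρ, F.th ρ = 1 := by
  intro ρ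
  have h1 : ρ ∈ Submonoid.closure
      (Set.range fun i : Fin e => Equiv.swap i.castSucc i.succ) := by
    rw [Equiv.Perm.mclosure_swap_castSucc_succ]
    exact Submonoid.mem_top _
  induction h1 using Submonoid.closure_induction with
  | mem x hx =>
    obtain ⟨i, rfl⟩ := hx
    rw [F.th_swap, hp]
  | one => exact map_one _
  | mul x y _ _ hx hy => rw [map_mul, hx, hy, one_mul]

theorem collapse_labels (F : Fam S Q) (he : 3 ≤ e) (hgen : F.Gen) (hp : ∀ i, F.p i = 1)
    (hx : ∀ i, F.x i = 1) (ht : ∀ i, F.t i = 1)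
    (hco : ∀ (C : Type) [CommGroup C] (φ : G →* C), (∀ g, φ g = ∏ c, φ (S.sec g c)) → φ = 1) :
    ∀ q : Q, q = 1 := by
  have hcomm : ∀ g h, F.l g * F.l h = F.l h * F.l g := by
    intro g h
    have := F.L4 g h
    simpa [hp] using this
  have hprod : ∀ g, F.l g = (List.ofFn (fun c : Fin (e + 1) => F.l (S.sec g c))).prod := by
    intro g
    have := F.L5 g
    rw [hx, mul_one, collapse_th_one F hp, one_mul, one_mul] at this
    rw [this]
    congr 2
    funext c
    exact collapse_lcf_one F.p hp _ _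
  let inst : CommGroup F.l.range :=
    { (inferInstance : Group F.l.range) with
      mul_comm := by
        rintro ⟨a, ⟨g, rfl⟩⟩ ⟨b, ⟨h, rfl⟩⟩
        apply Subtype.ext
        exact hcomm g h }
  have hφ := hco F.l.range F.l.rangeRestrict (by
    intro g
    apply Subtype.ext
    rw [← List.prod_ofFn]
    show F.l g = F.l.range.subtype _
    rw [map_list_prod, List.map_ofFn, hprod g]
    rfl)
  have hl : ∀ g, F.l g = 1 := by
    intro g
    have h2 : (F.l.rangeRestrict g : F.l.range) = 1 := by
      have := congrArg (fun f : G →* F.l.range => f g) hφ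
      exact this
    have h3 := congrArg Subtype.val h2
    exact h3
  intro q
  have hq : q ∈ Subgroup.closure
      (Set.range F.x ∪ Set.range F.p ∪ Set.range F.t ∪ Set.range F.l) := by
    have : Subgroup.closure
      (Set.range F.x ∪ Set.range F.p ∪ Set.range F.t ∪ Set.range F.l) = ⊤ := hgen
    rw [this]
    exact Subgroup.mem_top _
  have hle : Subgroup.closure
      (Set.range F.x ∪ Set.range F.p ∪ Set.range F.t ∪ Set.range F.l) ≤ (⊥ : Subgroup Q) := by
    rw [Subgroup.closure_le]
    rintro y (((⟨i, rfl⟩ | ⟨i, rfl⟩) | ⟨i, rfl⟩) | ⟨i, rfl⟩)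
    · simp [hx]
    · simp [hp]
    · simp [ht]
    · simp [hl]
  exact Subgroup.mem_bot.mp (hle hq)

end

end Pool.Agent.H665Simp
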