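import Mathlib
import Pool.Agent.H665Simp.DefsA
import Pool.Agent.H665Simp.DefsD
import Pool.Agent.H665Simp.DefsG
import Pool.Agent.H665Simp.P_sl_exists
import Pool.Agent.H665Simp.P_ss_of_sl
import Pool.Agent.H665Simp.P_homs
import Pool.Agent.H665Simp.P_conj_sim

set_option autoImplicit false

namespace Pool.Agent.H665Simp

section
variable {nJ nQ B : ℕ} [NeZero B]


theorem aux_ap_inv {A : Type} (σ : Equiv.Perm A) (c : A) : σ (σ⁻¹ c) = c :=
  σ.apply_symm_apply c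

/-- the blocks of letters -/
def blkD : Lt nJ nQ B → ℕ
  | (true, _) => 0
  | (false, .inl (.inl _)) => 1
  | (false, .inl (.inr (.inl _))) => 2
  | (false, .inl (.inr (.inr _))) => 3
  | (false, .inr _) => 4

/-- silent on a block -/
def SilW {A G : Type} [Group G] (blk : A → ℕ) (b : ℕ) (W : Wr A G) : Prop :=
  ∀ c, blk c = b → W.σ c = c ∧ W.f c = 1

theorem SilW.inv {A G : Type} [Group G] {blk : A → ℕ} {b : ℕ} {W : Wr A G} (h : SilW blk b W) :
    SilW blk b W⁻¹ := by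
  intro c hc
  have h1 : W.σ⁻¹ c = c := by
    rw [Equiv.Perm.inv_eq_iff_eq]
    exact (h c hc).1.symm
  refine ⟨by rw [Wr.inv_σ, h1], ?_⟩
  rw [Wr.inv_f, h1, (h c hc).2, inv_one]

theorem SilW.mul {A G : Type} [Group G] {blk : A → ℕ} {b : ℕ} {W V : Wr A G}
    (h : SilW blk b W) (h' : SilW blk b V) : SilW blk b (W * V) := by
  intro c hc
  refine ⟨?_, ?_⟩
  · rw [Wr.mul_σ, Equiv.Perm.mul_apply, (h' c hc).1, (h c hc).1]
  · rw [Wr.mul_f, (h' c hc).1, (h c hc).2, (h' c hc).2, one_mul]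

theorem SilW.conj {A G : Type} [Group G] {blk : A → ℕ} {b : ℕ} {W V : Wr A G}
    (h : SilW blk b W) (h' : ∀ c, blk (V.σ c) = blk c) : SilW blk b (V * W * V⁻¹) := by
  intro c hc
  have h1 : blk (V.σ⁻¹ c) = b := by
    rw [← h' (V.σ⁻¹ c), aux_ap_inv]
    exact hc
  refine ⟨?_, ?_⟩
  · rw [Wr.mul_σ, Wr.mul_σ, Wr.inv_σ, Equiv.Perm.mul_apply, Equiv.Perm.mul_apply, (h _ h1).1,
      aux_ap_inv]
  · rw [Wr.mul_f, Wr.mul_f, Wr.inv_f, Wr.inv_σ, (h _ h1).1, (h _ h1).2, mul_one, mul_inv_cancel]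

theorem blk_actL (g : Lg nJ nQ) (c : Lt nJ nQ B) : blkD (actL g c) = blkD c := by
  rcases c with ⟨_ | _, c⟩
  · rw [actL, Equiv.Perm.prodExtendRight_apply_eq]
    rcases c with (⟨i, ρ, c⟩ | (r | r)) | z
    · cases g <;> rfl
    · cases g <;> rfl
    · cases g <;> rfl
    · rfl
  · rw [actL, Equiv.Perm.prodExtendRight_apply_ne _ (by decide)]

theorem blk_SL (m : Mach nJ nQ B) (w : ℕ)
    (SL : GG nJ nQ →* Wr (Lt nJ nQ B) (GG nJ nQ)) (h : IsSL m w SL) (g : GG nJ nQ) :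
    ∀ c, blkD ((SL g).σ c) = blkD c := by
  have hg : g ∈ Subgroup.closure (Set.range (PresentedGroup.of : Lg nJ nQ → GG nJ nQ)) := by
    rw [PresentedGroup.closure_range_of]
    trivial
  induction hg using Subgroup.closure_induction with
  | mem x hx =>
    obtain ⟨l, rfl⟩ := hx
    intro c
    have := (h l).1
    rw [show SL (PresentedGroup.of l) = SL (gg l) from rfl, this]
    exact blk_actL l c
  | one =>
    intro c
    rw [map_one]
    rfl
  | mul x y _ _ ihx ihy =>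
    intro c
    rw [map_mul, Wr.mul_σ, Equiv.Perm.mul_apply, ihx, ihy]
  | inv x _ ih =>
    intro c
    rw [map_inv, Wr.inv_σ, ← ih ((SL x).σ⁻¹ c), aux_ap_inv]

theorem sil_true (m : Mach nJ nQ B) (w : ℕ)
    (SL : GG nJ nQ →* Wr (Lt nJ nQ B) (GG nJ nQ)) (h : IsSL m w SL) (g : Lg nJ nQ)
    (c : Lt nJ nQ B) (h1 : actL g c = c) (h2 : secL m g c = 1) :
    (SL (gg g)).σ c = c ∧ (SL (gg g)).f c = 1 := by
  refine ⟨by rw [(h g).1, h1], ?_⟩
  rw [(h g).2, h2, map_one]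

theorem sil_s (m : Mach nJ nQ B) (w : ℕ)
    (SL : GG nJ nQ →* Wr (Lt nJ nQ B) (GG nJ nQ)) (h : IsSL m w SL) (k : Bool) (b : ℕ)
    (hb : b ≠ 2) : SilW blkD b (SL (gg (Lg.s k))) := by
  intro c hc
  apply sil_true m w SL h
  · rcases c with ⟨_ | _, c⟩
    · rw [actL, Equiv.Perm.prodExtendRight_apply_eq]
      rcases c with (⟨i, ρ, c⟩ | (r | r)) | z
      · rfl
      · exact absurd hc.symm hb
      · rfl
      · rfl
    · rw [actL, Equiv.Perm.prodExtendRight_apply_ne _ (by decide)]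
  · rcases c with ⟨_ | _, c⟩
    · rcases c with (⟨i, ρ, c⟩ | (r | r)) | z
      · rfl
      · exact absurd hc.symm hb
      · rfl
      · rfl
    · rfl

theorem sil_t (m : Mach nJ nQ B) (w : ℕ)
    (SL : GG nJ nQ →* Wr (Lt nJ nQ B) (GG nJ nQ)) (h : IsSL m w SL) (k : Bool) (b : ℕ)
    (hb : b ≠ 3) : SilW blkD b (SL (gg (Lg.t k))) := by
  intro c hc
  apply sil_true m w SL h
  · rcases c with ⟨_ | _, c⟩
    · rw [actL, Equiv.Perm.prodExtendRight_apply_eq]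
      rcases c with (⟨i, ρ, c⟩ | (r | r)) | z
      · rfl
      · rfl
      · exact absurd hc.symm hb
      · rfl
    · rw [actL, Equiv.Perm.prodExtendRight_apply_ne _ (by decide)]
  · rcases c with ⟨_ | _, c⟩
    · rcases c with (⟨i, ρ, c⟩ | (r | r)) | z
      · rfl
      · rfl
      · exact absurd hc.symm hb
      · rfl
    · rfl

theorem sil_a (m : Mach nJ nQ B) (w : ℕ)
    (SL : GG nJ nQ →* Wr (Lt nJ nQ B) (GG nJ nQ)) (h : IsSL m w SL) :
    SilW blkD 3 (SL (gg Lg.a)) := by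
  intro c hc
  rcases c with ⟨_ | _, (⟨i, ρ, c⟩ | (r | r)) | z⟩ <;> simp only [blkD] at hc <;>
    first | omega | skip
  apply sil_true m w SL h
  · rw [actL, Equiv.Perm.prodExtendRight_apply_eq]
    rfl
  · rfl

theorem sil_u (m : Mach nJ nQ B) (w : ℕ)
    (SL : GG nJ nQ →* Wr (Lt nJ nQ B) (GG nJ nQ)) (h : IsSL m w SL) (i : Fin nQ) :
    SilW blkD 2 (SL (gg (Lg.u i))) := by
  intro c hc
  rcases c with ⟨_ | _, (⟨i, ρ, c⟩ | (r | r)) | z⟩ <;> simp only [blkD] at hc <;>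
    first | omega | skip
  apply sil_true m w SL h
  · rw [actL, Equiv.Perm.prodExtendRight_apply_eq]
    rfl
  · rfl

theorem dies_of_sil (m : Mach nJ nQ B) (w : ℕ) (e : ℕ) (q : Lt nJ nQ B ≃ Fin (e + 1))
    (S : SS (GG nJ nQ) (e + 1)) (hS : (DG m e q).IsSS w S)
    (SL : GG nJ nQ →* Wr (Lt nJ nQ B) (GG nJ nQ)) (h : IsSL m w SL) (x : GG nJ nQ)
    (h1 : (SL x).σ = 1) (h2 : ∀ c, S.Dies ((SL x).f c)) : S.Dies x := by
  refine SS.Dies.step x ?_ ?_
  · ext c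
    obtain ⟨c, rfl⟩ := q.surjective c
    rw [(sl_of_ss m w e q S hS SL h x c).1, h1]
    rfl
  · intro c
    obtain ⟨c, rfl⟩ := q.surjective c
    rw [(sl_of_ss m w e q S hS SL h x c).2]
    exact h2 c

theorem dies_of_blocks (m : Mach nJ nQ B) (w : ℕ) (e : ℕ) (q : Lt nJ nQ B ≃ Fin (e + 1))
    (S : SS (GG nJ nQ) (e + 1)) (hS : (DG m e q).IsSS w S)
    (SL : GG nJ nQ →* Wr (Lt nJ nQ B) (GG nJ nQ)) (h : IsSL m w SL) (g y z : GG nJ nQ)
    (hb : ∀ b, SilW blkD b (SL y) ∨ SilW blkD b (SL z)) :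
    S.Dies (cm y (g⁻¹ * z * g)) := by
  have key : ∀ b, SilW blkD b (SL (cm y (g⁻¹ * z * g))) := by
    intro b
    rcases hb b with hb | hb
    · have e1 : SL (cm y (g⁻¹ * z * g)) =
          SL y * (SL (g⁻¹ * z * g) * (SL y)⁻¹ * (SL (g⁻¹ * z * g))⁻¹) := by
        simp only [cm, map_mul, map_inv, mul_assoc]
      rw [e1]
      exact hb.mul (hb.inv.conj (blk_SL m w SL h _))
    · have hz : SilW blkD b (SL (g⁻¹ * z * g)) := by
        have e2 : SL (g⁻¹ * z * g) = SL g⁻¹ * SL z * (SL g⁻¹)⁻¹ := by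
          simp only [map_mul, map_inv, inv_inv]
        rw [e2]
        exact hb.conj (blk_SL m w SL h _)
      have e1 : SL (cm y (g⁻¹ * z * g)) =
          (SL y * SL (g⁻¹ * z * g) * (SL y)⁻¹) * (SL (g⁻¹ * z * g))⁻¹ := by
        simp only [cm, map_mul, map_inv]
      rw [e1]
      exact (hz.conj (blk_SL m w SL h _)).mul hz.inv
  refine dies_of_sil m w e q S hS SL h _ ?_ ?_
  · ext1 c
    exact (key _ c rfl).1
  · intro c
    rw [(key _ c rfl).2]
    exact SS.Dies.one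

theorem dies_au (m : Mach nJ nQ B) (w : ℕ) (e : ℕ) (q : Lt nJ nQ B ≃ Fin (e + 1))
    (S : SS (GG nJ nQ) (e + 1)) (hS : (DG m e q).IsSS w S)
    (SL : GG nJ nQ →* Wr (Lt nJ nQ B) (GG nJ nQ)) (h : IsSL m w SL)
    (ab : GG nJ nQ →* Multiplicative (Fin nJ → ℤ))
    (hx : ∀ j, ab (gg (Lg.x j)) = Multiplicative.ofAdd (Pi.single j 1)) (ha : ab (gg Lg.a) = 1)
    (hu : ∀ i, ab (gg (Lg.u i)) = 1) (hs : ∀ k, ab (gg (Lg.s k)) = 1)
    (ht : ∀ k, ab (gg (Lg.t k)) = 1) (c : Fin nQ × (Fin nJ → ℤ)) (hh : HaltsF (m.stp w) c) :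
    ∀ g : GG nJ nQ, (ab g).toAdd = c.2 → S.Dies (cm (gg Lg.a) (g⁻¹ * gg (Lg.u c.1) * g)) := by
  induction hh with
  | halt c hc =>
    intro g hg
    obtain ⟨h1, h2, h3, h4⟩ := conj_sim m w SL h ab hx ha hu hs ht g c.1
    rw [hg] at h3
    refine dies_of_sil m w e q S hS SL h _ h1 ?_
    intro d
    by_cases hd : d = (false, Sum.inl (Sum.inl (c.1, resd B (ab g).toAdd, 0)))
    · rw [hd, hg, h3 hc]
      exact SS.Dies.one
    · rw [h2 d hd]
      exact SS.Dies.one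
  | step c c' hc _ ih =>
    intro g hg
    obtain ⟨h1, h2, h3, h4⟩ := conj_sim m w SL h ab hx ha hu hs ht g c.1
    refine dies_of_sil m w e q S hS SL h _ h1 ?_
    intro d
    by_cases hd : d = (false, Sum.inl (Sum.inl (c.1, resd B (ab g).toAdd, 0)))
    · obtain ⟨g', hg', -, hf⟩ := h4 c'.1 c'.2 (by rw [hg]; exact hc)
      rw [hd, hf]
      exact ih g' hg'
    · rw [h2 d hd]
      exact SS.Dies.one

theorem comm_dies (m : Mach nJ nQ B) (w : ℕ) (e : ℕ) (q : Lt nJ nQ B ≃ Fin (e + 1))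
    (S : SS (GG nJ nQ) (e + 1)) (hS : (DG m e q).IsSS w S)
    (hh : ∀ c, HaltsF (m.stp w) c) (g : GG nJ nQ) (y z : Lg nJ nQ)
    (hy : y = Lg.a ∨ ∃ k, y = Lg.s k) (hz : (∃ i, z = Lg.u i) ∨ ∃ k, z = Lg.t k) :
    S.Dies (cm (gg y) (g⁻¹ * gg z * g)) := by
  obtain ⟨SL, h⟩ := sl_exists (B := B) m w
  obtain ⟨ab, hx, ha, hu, hs, ht⟩ := ab_exists nJ nQ
  rcases hy with rfl | ⟨k, rfl⟩
  · rcases hz with ⟨i, rfl⟩ | ⟨k, rfl⟩
    · exact dies_au m w e q S hS SL h ab hx ha hu hs ht (i, (ab g).toAdd) (hh _) g rfl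
    · apply dies_of_blocks m w e q S hS SL h
      intro b
      by_cases hb : b = 3
      · subst hb
        exact Or.inl (sil_a m w SL h)
      · exact Or.inr (sil_t m w SL h k b hb)
  · apply dies_of_blocks m w e q S hS SL h
    intro b
    by_cases hb : b = 2
    · subst hb
      right
      rcases hz with ⟨i, rfl⟩ | ⟨k', rfl⟩
      · exact sil_u m w SL h i
      · exact sil_t m w SL h k' 2 (by norm_num)
    · exact Or.inl (sil_s m w SL h k b hb)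

end

end Pool.Agent.H665Simp
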