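import Mathlib
import Pool.Agent.H665Simp.DefsA

set_option autoImplicit false

namespace Pool.Agent.H665Simp

section
variable {G : Type} [Group G] {e : ℕ} {S : SS G (e + 1)} {Q : Type} [Group Q] {W : Type}


theorem comm_trick {X : Type} (α : Q →* Equiv.Perm X) (hα : ∀ q, α q = 1 → q = 1)
    (N : Subgroup Q) [N.Normal] (g : Q) (hg : g ∈ N) (U : Set X)
    (hU : ∀ z ∈ U, α g z ∉ U) (a b : Q) (ha : ∀ z, z ∉ U → α a z = z)
    (hb : ∀ z, z ∉ U → α b z = z) : a⁻¹ * b * a * b⁻¹ ∈ N := by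
  have hgU : ∀ z ∈ U, (α g)⁻¹ z ∉ U := by
    intro z hz hcon
    apply hU _ hcon
    simpa using hz
  have hc : ∀ z ∈ U, α (g * a * g⁻¹) z = z := by
    intro z hz
    rw [map_mul, map_mul, map_inv, Equiv.Perm.mul_apply, Equiv.Perm.mul_apply,
      ha _ (hgU z hz)]
    simp
  have hcomm : (g * a * g⁻¹) * b = b * (g * a * g⁻¹) := by
    have h1 : α ((g * a * g⁻¹) * b * (b * (g * a * g⁻¹))⁻¹) = 1 := by
      rw [map_mul, map_inv, mul_inv_eq_one, map_mul, map_mul α b]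
      ext z
      rw [Equiv.Perm.mul_apply, Equiv.Perm.mul_apply]
      by_cases hz : z ∈ U
      · have h2 : α b z ∈ U := by
          by_contra hcon
          have h3 := hb _ hcon
          have h4 := (α b).injective h3
          rw [h4] at hcon
          exact hcon hz
        rw [hc _ h2, hc _ hz]
      · rw [hb z hz]
        have h2 : α (g * a * g⁻¹) z ∉ U := by
          intro hcon
          have h3 := hc _ hcon
          have h4 := (α (g * a * g⁻¹)).injective h3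
          rw [h4] at hcon
          exact hz hcon
        rw [hb _ h2]
    have h2 := hα _ h1
    rwa [mul_inv_eq_one] at h2
  have hn : (g * a * g⁻¹) * a⁻¹ ∈ N := by
    have h1 : a * g⁻¹ * a⁻¹ ∈ N := Subgroup.Normal.conj_mem inferInstance _ (N.inv_mem hg) a
    have h2 := N.mul_mem hg h1
    have e1 : (g * a * g⁻¹) * a⁻¹ = g * (a * g⁻¹ * a⁻¹) := by group
    rw [e1]
    exact h2
  have hm : ((g * a * g⁻¹) * a⁻¹) * (b * ((g * a * g⁻¹) * a⁻¹)⁻¹ * b⁻¹) ∈ N :=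
    N.mul_mem hn (Subgroup.Normal.conj_mem inferInstance _ (N.inv_mem hn) b)
  generalize g * a * g⁻¹ = c at hcomm hm
  have h3 := Subgroup.Normal.conj_mem (inferInstance : N.Normal) _ hm c⁻¹
  have h4 : c⁻¹ * (c * a⁻¹ * (b * (c * a⁻¹)⁻¹ * b⁻¹)) * c⁻¹⁻¹ = a⁻¹ * b * a * b⁻¹ := by
    have h5 : c⁻¹ * b⁻¹ = b⁻¹ * c⁻¹ := by
      rw [← mul_inv_rev, ← mul_inv_rev, hcomm]
    have h6 : c⁻¹ * (c * a⁻¹ * (b * (c * a⁻¹)⁻¹ * b⁻¹)) * c⁻¹⁻¹
        = a⁻¹ * b * a * (c⁻¹ * b⁻¹) * c := by group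
    rw [h6, h5]
    group
  rw [h4] at h3
  exact h3

end

end Pool.Agent.H665Simp
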