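import Mathlib
import Pool.Agent.H665Simp.DefsA
import Pool.Agent.H665Simp.DefsB
import Pool.Agent.H665Simp.DefsC
import Pool.Agent.H665Simp.P_leaf_basic
import Pool.Agent.H665Simp.P_tab_leaf

set_option autoImplicit false

namespace Pool.Agent.H665Simp

section
variable {G : Type} [Group G] {e : ℕ} {S : SS G (e + 1)} {Q : Type} [Group Q]
variable {G : Type} [Group G] {e : ℕ} {S : SS G (e + 1)} {Q : Type} [Group Q] {W : Type}
variable {G : Type} [Group G] {e : ℕ} {S : SS G (e + 1)} {W : Type}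


/-- prepending a letter is continuous -/
theorem ct_cons (Ws : SSet S (ℕ → Fin (e + 1))) (hs : IsSeq Ws) (c : Fin (e + 1)) :
    Continuous fun w => Ws.cons (c, w) := by
  have h1 : (fun w => Ws.cons (c, w)) =
      fun (w : ℕ → Fin (e + 1)) (n : ℕ) => (Nat.casesOn n c (fun m => w m) : Fin (e + 1)) := by
    funext w
    exact hs.1 c w
  rw [h1]
  refine continuous_pi fun n => ?_
  cases n with
  | zero => exact continuous_const
  | succ n => exact continuous_apply n

theorem ct_cn (Ws : SSet S (ℕ → Fin (e + 1))) (hs : IsSeq Ws) (k : ℕ) :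
    Continuous (Ws.cn k) := ct_cons Ws hs _

theorem ct_spine (Ws : SSet S (ℕ → Fin (e + 1))) (hs : IsSeq Ws) (N : ℕ) :
    Continuous (Ws.spine N) := (ct_cn Ws hs e).iterate N

theorem ct_lam (Ws : SSet S (ℕ → Fin (e + 1))) (hs : IsSeq Ws) (k : ℕ) :
    Continuous (Ws.lam k) := (ct_spine Ws hs _).comp (ct_cn Ws hs _)

theorem ct_leaf (Ws : SSet S (ℕ → Fin (e + 1))) (hs : IsSeq Ws) (M k : ℕ) :
    Continuous (Ws.leaf M k) := by
  by_cases hk : k < (M + 1) * e
  · have : Ws.leaf M k = Ws.lam k := by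
      funext w
      simp only [SSet.leaf, if_pos hk]
    rw [this]
    exact ct_lam Ws hs k
  · have : Ws.leaf M k = Ws.spine (M + 1) := by
      funext w
      simp only [SSet.leaf, if_neg hk]
    rw [this]
    exact ct_spine Ws hs _

theorem ct_seqAct (S : SS G (e + 1)) (n : ℕ) : ∀ g : G,
    Continuous fun w : ℕ → Fin (e + 1) => S.seqAct n g w := by
  induction n with
  | zero =>
    intro g
    exact (continuous_of_discreteTopology (f := fun c : Fin (e + 1) => S.act g c)).comp
      (continuous_apply 0)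
  | succ n ih =>
    intro g
    have h1 : Continuous fun cw : Fin (e + 1) × (ℕ → Fin (e + 1)) =>
        S.seqAct n (S.sec g cw.1) cw.2 := by
      rw [continuous_prod_of_discrete_left]
      intro c
      exact ih (S.sec g c)
    have h2 : Continuous fun w : ℕ → Fin (e + 1) => ((w 0, fun m => w (m + 1)) :
        Fin (e + 1) × (ℕ → Fin (e + 1))) :=
      (continuous_apply 0).prodMk (continuous_pi fun m => continuous_apply (m + 1))
    exact h1.comp h2

theorem ct_act (Ws : SSet S (ℕ → Fin (e + 1))) (hs : IsSeq Ws) (g : G) :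
    Continuous (Ws.act g) := by
  refine continuous_pi fun n => ?_
  have : (fun w => Ws.act g w n) = fun w => S.seqAct n g w := by
    funext w
    exact hs.2 g w n
  rw [this]
  exact ct_seqAct S n g

theorem ct_glue (Ws : SSet S (ℕ → Fin (e + 1))) (hs : IsSeq Ws) (he : 1 ≤ e) (M : ℕ)
    (f : (ℕ → Fin (e + 1)) → (ℕ → Fin (e + 1)))
    (h1 : ∀ k, k < (M + 1) * e → ∃ h : (ℕ → Fin (e + 1)) → (ℕ → Fin (e + 1)), Continuous h ∧
      ∀ w, f (Ws.lam k w) = h w)
    (h2 : ∃ h : (ℕ → Fin (e + 1)) → (ℕ → Fin (e + 1)), Continuous h ∧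
      ∀ w, f (Ws.spine (M + 1) w) = h w) : Continuous f := by
  let p : Fin ((M + 1) * e + 1) × (ℕ → Fin (e + 1)) → (ℕ → Fin (e + 1)) :=
    fun kw => Ws.leaf M kw.1 kw.2
  have hp : Continuous p := by
    rw [continuous_prod_of_discrete_left]
    intro k
    exact ct_leaf Ws hs M k
  have hsurj : Function.Surjective p := by
    intro z
    obtain ⟨k, w, hk, rfl⟩ := leaf_cover Ws he M z
    exact ⟨(⟨k, by omega⟩, w), rfl⟩
  have hq : Topology.IsQuotientMap p := hp.isClosedMap.isQuotientMap hp hsurj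
  rw [hq.continuous_iff, continuous_prod_of_discrete_left]
  intro k
  by_cases hk : (k : ℕ) < (M + 1) * e
  · obtain ⟨h, hc, hh⟩ := h1 k hk
    have : (fun w => (f ∘ p) (k, w)) = h := by
      funext w
      simp only [Function.comp_apply, p, SSet.leaf, if_pos hk]
      exact hh w
    rw [this]
    exact hc
  · obtain ⟨h, hc, hh⟩ := h2
    have : (fun w => (f ∘ p) (k, w)) = h := by
      funext w
      simp only [Function.comp_apply, p, SSet.leaf, if_neg hk]
      exact hh w
    rw [this]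
    exact hc

/-- all elements act continuously -/
theorem cont (Ws : SSet S (ℕ → Fin (e + 1))) (hs : IsSeq Ws) (he : 3 ≤ e) (F : Fam S Q)
    (hgen : F.Gen) (F0 : Fam S (Equiv.Perm (ℕ → Fin (e + 1)))) (T : Tab Ws F0)
    (α : Q →* Equiv.Perm (ℕ → Fin (e + 1))) (hα : F.Compat F0 α) (q : Q) :
    Continuous (α q) := by
  have he1 : 1 ≤ e := by omega
  have cx : ∀ i, Continuous (F0.x i) := by
    intro i
    refine ct_glue Ws hs he1 (i + 1) _ (fun k hk => ?_)
      ⟨Ws.spine (i + 1), ct_spine Ws hs _, fun w => T.x4 i i w (by nlinarith)⟩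
    rcases lt_or_ge k i with h1 | h1
    · exact ⟨Ws.lam k, ct_lam Ws hs _, fun w => T.x1 i k w h1⟩
    · rcases Nat.lt_or_ge (i + e) k with h2 | h2
      · refine ⟨Ws.lam (k - e), ct_lam Ws hs _, fun w => ?_⟩
        have h3 := T.x3 i (k - e) w (by omega)
        rwa [Nat.sub_add_cancel (by omega)] at h3
      · refine ⟨fun w => Ws.lam i (Ws.cn (k - i) w), (ct_lam Ws hs _).comp (ct_cn Ws hs _),
          fun w => ?_⟩
        have h3 := T.x2 i (k - i) w (by omega)
        rwa [Nat.add_sub_cancel' h1] at h3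
  have cp : ∀ i, Continuous (F0.p i) := by
    intro i
    refine ct_glue Ws hs he1 (i + 1) _ (fun k hk => ?_)
      ⟨Ws.spine (i + 1 + 1), ct_spine Ws hs _, fun w => T.p4 i (i + 1) w (by nlinarith)⟩
    by_cases h1 : k = i
    · subst h1
      exact ⟨Ws.lam (k + 1), ct_lam Ws hs _, fun w => T.p1 k w⟩
    · by_cases h2 : k = i + 1
      · subst h2
        exact ⟨Ws.lam i, ct_lam Ws hs _, fun w => T.p2 i w⟩
      · exact ⟨Ws.lam k, ct_lam Ws hs _, fun w => T.p3 i k w h1 h2⟩
  have ct : ∀ M, Continuous (F0.t M) := by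
    intro M
    refine ct_glue Ws hs he1 M _ (fun k hk => ?_)
      ⟨Ws.lam ((M + 1) * e - 1), ct_lam Ws hs _, fun w => T.t2 M w⟩
    by_cases h1 : k + 1 < (M + 1) * e
    · exact ⟨Ws.lam k, ct_lam Ws hs _, fun w => T.t3 M k w h1⟩
    · have h2 : k = (M + 1) * e - 1 := by omega
      subst h2
      exact ⟨Ws.spine (M + 1), ct_spine Ws hs _, fun w => T.t1 M w⟩
  have cl : ∀ g, Continuous (F0.l g) := by
    intro g
    refine ct_glue Ws hs he1 0 _ (fun k hk => ?_)
      ⟨Ws.spine (0 + 1), ct_spine Ws hs _, fun w => T.l3 g 0 w⟩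
    rcases Nat.eq_zero_or_pos k with h1 | h1
    · subst h1
      exact ⟨fun w => Ws.lam 0 (Ws.act g w), (ct_lam Ws hs _).comp (ct_act Ws hs g),
        fun w => T.l1 g w⟩
    · exact ⟨Ws.lam k, ct_lam Ws hs _, fun w => T.l2 g k w h1⟩
  have hq : q ∈ Subgroup.closure (Set.range F.x ∪ Set.range F.p ∪ Set.range F.t ∪
      Set.range F.l) := by
    rw [show Subgroup.closure (Set.range F.x ∪ Set.range F.p ∪ Set.range F.t ∪
      Set.range F.l) = ⊤ from hgen]
    trivial
  induction hq using Subgroup.closure_induction with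
  | mem z hz =>
    rcases hz with ((⟨i, rfl⟩ | ⟨i, rfl⟩) | ⟨i, rfl⟩) | ⟨g, rfl⟩
    · rw [hα.x]; exact cx i
    · rw [hα.p]; exact cp i
    · rw [hα.t]; exact ct i
    · rw [hα.l]; exact cl g
  | one => rw [map_one]; exact continuous_id
  | mul a b _ _ ha hb =>
    rw [map_mul]
    exact ha.comp hb
  | inv a _ ha =>
    rw [map_inv]
    exact Continuous.continuous_symm_of_equiv_compact_to_t2 ha

end

end Pool.Agent.H665Simp
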