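import Mathlib
import Pool.Agent.H665Simp.DefsA
import Pool.Agent.H665Simp.DefsD
import Pool.Agent.H665Simp.DefsG
import Pool.Agent.H665Simp.DefsM

set_option autoImplicit false

namespace Pool.Agent.H665Simp



theorem app1_succ (B : ℤ) (k : ℕ) (v : ℤ) : app1 B (k + 1) v = B * app1 B k v + 1 := by
  unfold app1
  rw [Function.iterate_succ_apply']

theorem app1_add (B : ℤ) (k k' : ℕ) (v : ℤ) : app1 B (k + k') v = app1 B k (app1 B k' v) := by
  unfold app1
  rw [Function.iterate_add_apply]

theorem natAbs_aux (B : ℤ) (hB : 4 ≤ B) (q v d : ℤ) (hd : d = 1 ∨ d = 2) (hv : v = B * q + d) :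
    q.natAbs < v.natAbs := by
  have h1 : 0 ≤ q → 4 * q ≤ B * q := fun h => mul_le_mul_of_nonneg_right hB h
  have h2 : q ≤ 0 → B * q ≤ 4 * q := fun h => by nlinarith
  set p := B * q with hp
  rcases le_or_gt 0 q with h | h
  · have := h1 h
    omega
  · have := h2 h.le
    omega

theorem app1_dec (B : ℤ) (hB : 4 ≤ B) (v : ℤ) : ∃ k v₀, v = app1 B k v₀ ∧ v₀ % B ≠ 1 := by
  induction' hn : v.natAbs using Nat.strong_induction_on with n ih generalizing v
  by_cases h : v % B = 1
  · have hv : v = B * (v / B) + 1 := by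
      have := Int.mul_ediv_add_emod v B
      rw [h] at this
      exact this.symm
    have hlt := natAbs_aux B hB (v / B) v 1 (Or.inl rfl) hv
    obtain ⟨k, v₀, h1, h2⟩ := ih _ (hn ▸ hlt) (v / B) rfl
    refine ⟨k + 1, v₀, ?_, h2⟩
    rw [app1_succ, ← h1]
    exact hv
  · exact ⟨0, v, rfl, h⟩

theorem appl_append (B : ℤ) (l l' : List Bool) (v : ℤ) :
    appl B (l ++ l') v = appl B l (appl B l' v) := by
  unfold appl
  rw [List.foldr_append]

theorem appl_dec (B : ℤ) (hB : 4 ≤ B) (v : ℤ) :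
    ∃ l v₀, v = appl B l v₀ ∧ v₀ % B ≠ 1 ∧ v₀ % B ≠ 2 := by
  induction' hn : v.natAbs using Nat.strong_induction_on with n ih generalizing v
  by_cases h : v % B = 1
  · have hv : v = B * (v / B) + 1 := by
      have := Int.mul_ediv_add_emod v B
      rw [h] at this
      exact this.symm
    have hlt := natAbs_aux B hB (v / B) v 1 (Or.inl rfl) hv
    obtain ⟨l, v₀, h1, h2⟩ := ih _ (hn ▸ hlt) (v / B) rfl
    refine ⟨false :: l, v₀, ?_, h2⟩
    have : appl B (false :: l) v₀ = B * appl B l v₀ + 1 := by simp [appl]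
    rw [this, ← h1]
    exact hv
  · by_cases h' : v % B = 2
    · have hv : v = B * (v / B) + 2 := by
        have := Int.mul_ediv_add_emod v B
        rw [h'] at this
        exact this.symm
      have hlt := natAbs_aux B hB (v / B) v 2 (Or.inr rfl) hv
      obtain ⟨l, v₀, h1, h2⟩ := ih _ (hn ▸ hlt) (v / B) rfl
      refine ⟨true :: l, v₀, ?_, h2⟩
      have : appl B (true :: l) v₀ = B * appl B l v₀ + 2 := by simp [appl]
      rw [this, ← h1]
      exact hv
    · exact ⟨[], v, rfl, h, h'⟩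

end Pool.Agent.H665Simp
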