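import Mathlib
import Pool.Agent.H665Simp.DefsA
import Pool.Agent.H665Simp.DefsD
import Pool.Agent.H665Simp.DefsG
import Pool.Agent.H665Simp.DefsM

set_option autoImplicit false

namespace Pool.Agent.H665Simp



theorem rn_trans {C : Type} (f : C → Option C) (m n : ℕ) (a b c : C) (h1 : Rn f m a b)
    (h2 : Rn f n b c) : Rn f (m + n) a c := by
  induction h1 with
  | zero c => simpa using h2
  | succ k c c' c'' h _ ih =>
    have := ih h2
    rw [show k + 1 + n = (k + n) + 1 by omega]
    exact Rn.succ _ _ _ _ h this

theorem halts_of_rn {C : Type} (f : C → Option C) (n : ℕ) (a b : C) (h1 : Rn f n a b)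
    (h2 : HaltsF f b) : HaltsF f a := by
  induction h1 with
  | zero c => exact h2
  | succ k c c' c'' h _ ih => exact HaltsF.step _ _ h (ih h2)

theorem halts_rn {C : Type} (f : C → Option C) (n : ℕ) (a b : C) (h1 : Rn f n a b)
    (h2 : HaltsF f a) : HaltsF f b := by
  induction h1 with
  | zero c => exact h2
  | succ k c c' c'' h _ ih =>
    apply ih
    cases h2 with
    | halt _ h' => rw [h] at h'; exact absurd h' (by simp)
    | step _ d h' h'' =>
      rw [h] at h'
      have : c' = d := by simpa using h'
      rw [this]; exact h''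

theorem not_halts {C : Type} (f : C → Option C) (P : C → Prop)
    (h : ∀ c, P c → ∃ n c', 1 ≤ n ∧ P c' ∧ Rn f n c c') (c : C) (hc : P c) : ¬ HaltsF f c := by
  have key : ∀ c, HaltsF f c → ∃ N, ∀ n c', Rn f n c c' → n ≤ N := by
    intro c hc
    induction hc with
    | halt c h' =>
      refine ⟨0, fun n c' hn => ?_⟩
      cases hn with
      | zero => exact le_refl _
      | succ k _ d _ e _ => rw [h'] at e; exact absurd e (by simp)
    | step c d h' _ ih =>
      obtain ⟨N, hN⟩ := ih
      refine ⟨N + 1, fun n c' hn => ?_⟩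
      cases hn with
      | zero => omega
      | succ k _ d' _ e hr =>
        rw [h'] at e
        have : d = d' := by simpa using e
        subst this
        have := hN _ _ hr
        omega
  have big : ∀ N, ∃ n c', N ≤ n ∧ P c' ∧ Rn f n c c' := by
    intro N
    induction N with
    | zero => exact ⟨0, c, le_refl _, hc, Rn.zero c⟩
    | succ N ih =>
      obtain ⟨n, c', h1, h2, h3⟩ := ih
      obtain ⟨m, c'', h4, h5, h6⟩ := h c' h2
      exact ⟨n + m, c'', by omega, h5, rn_trans f n m c c' c'' h3 h6⟩
  intro hh
  obtain ⟨N, hN⟩ := key c hh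
  obtain ⟨n, c', h1, _, h3⟩ := big (N + 1)
  have := hN n c' h3
  omega

end Pool.Agent.H665Simp
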