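import Mathlib
import Pool.Agent.H665Simp.DefsA
import Pool.Agent.H665Simp.DefsD
import Pool.Agent.H665Simp.DefsG
import Pool.Agent.H665Simp.DefsM
import Pool.Agent.H665Simp.P_rn_basic
import Pool.Agent.H665Simp.P_digits

set_option autoImplicit false

namespace Pool.Agent.H665Simp



theorem appl_cons' (B : ℤ) (b : Bool) (l : List Bool) (v : ℤ) :
    appl B (b :: l) v = B * appl B l v + (if b then 2 else 1) := rfl

theorem digit_mod {B : ℤ} (hB : 4 ≤ B) (v : ℤ) (b : Bool) :
    (B * v + (if b then 2 else 1)) % B = (if b then 2 else 1) := by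
  cases b
  · simp only [Bool.false_eq_true, if_false]
    rw [add_comm, Int.add_mul_emod_self_left]
    exact Int.emod_eq_of_lt (by norm_num) (by omega)
  · simp only [if_true]
    rw [add_comm, Int.add_mul_emod_self_left]
    exact Int.emod_eq_of_lt (by norm_num) (by omega)

theorem digit_div {B : ℤ} (hB : 4 ≤ B) (v : ℤ) (b : Bool) :
    (B * v + (if b then 2 else 1)) / B = v := by
  cases b
  · simp only [Bool.false_eq_true, if_false]
    rw [add_comm, Int.add_mul_ediv_left _ _ (by omega),
      Int.ediv_eq_zero_of_lt (by norm_num) (by omega), zero_add]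
  · simp only [if_true]
    rw [add_comm, Int.add_mul_ediv_left _ _ (by omega),
      Int.ediv_eq_zero_of_lt (by norm_num) (by omega), zero_add]

theorem foldl_cast (B k1 k0 : ℕ) (l : List Bool) : ∀ w : ℕ,
    ((l.foldl (fun v b => B * v + (if b then k1 else k0)) w : ℕ) : ℤ) =
      l.foldl (fun (v : ℤ) b => (B : ℤ) * v + (if b then (k1 : ℤ) else (k0 : ℤ))) (w : ℤ) := by
  induction l with
  | nil => intro w; rfl
  | cons b l ih =>
    intro w
    rw [List.foldl_cons, List.foldl_cons, ih]
    congr 1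
    cases b <;> simp

/-- copying the stored input -/
theorem cp1_phase {Q : Type} (M : Sys Q Bool) (hB : 4 ≤ M.B) (q0 : Q) (kc k1 k0 w : ℤ)
    (l : List Bool) (X₀ : ℤ) (h1 : X₀ % M.B ≠ 1) (h2 : X₀ % M.B ≠ 2) (c : C6)
    (hX : c.X = appl M.B l X₀) :
    Rn (wstp M q0 kc k1 k0 w) (l.length + 1) (.cp1, c)
      (.cp2, { c with
        b := l.foldl (fun v b => M.B * v + (if b then k1 else k0)) c.b
        X := X₀
        Y := appl M.B l.reverse c.Y }) := by
  induction l generalizing c with
  | nil =>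
    have hX' : c.X = X₀ := hX
    subst hX'
    refine Rn.succ 0 _ (.cp2, c) _ ?_ (Rn.zero _)
    simp only [wstp]
    rw [if_neg h1, if_neg h2]
  | cons b l ih =>
    have hB' : (4 : ℤ) ≤ M.B := by exact_mod_cast hB
    rw [appl_cons'] at hX
    have hmod := digit_mod hB' (appl M.B l X₀) b
    have hdiv := digit_div hB' (appl M.B l X₀) b
    rw [← hX] at hmod hdiv
    have hstep : wstp M q0 kc k1 k0 w (.cp1, c) = some (.cp1, { c with
        b := M.B * c.b + (if b then k1 else k0), X := appl M.B l X₀,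
        Y := M.B * c.Y + (if b then 2 else 1) }) := by
      simp only [wstp]
      rw [hdiv]
      cases b
      · simp only [Bool.false_eq_true, if_false] at hmod ⊢
        rw [if_pos hmod]
      · simp only [if_true] at hmod ⊢
        rw [if_neg (by rw [hmod]; norm_num), if_pos hmod]
    refine Rn.succ _ _ _ _ hstep ?_
    have h := ih { c with
        b := M.B * c.b + (if b then k1 else k0), X := appl M.B l X₀,
        Y := M.B * c.Y + (if b then 2 else 1) } rfl
    have hY : appl M.B (b :: l).reverse c.Y =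
        appl M.B l.reverse (M.B * c.Y + (if b then 2 else 1)) := by
      rw [List.reverse_cons, appl_append]
      rfl
    rw [hY]
    exact h

theorem cp2_phase {Q : Type} (M : Sys Q Bool) (hB : 4 ≤ M.B) (q0 : Q) (kc k1 k0 w : ℤ)
    (l : List Bool) (Y₀ : ℤ) (h1 : Y₀ % M.B ≠ 1) (h2 : Y₀ % M.B ≠ 2) (c : C6)
    (hY : c.Y = appl M.B l Y₀) :
    Rn (wstp M q0 kc k1 k0 w) (l.length + 1) (.cp2, c)
      (.sim q0, { c with
        b := M.B * (M.B * c.b + k1) + kc
        X := appl M.B l.reverse c.X
        Y := Y₀ }) := by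
  induction l generalizing c with
  | nil =>
    have hY' : c.Y = Y₀ := hY
    subst hY'
    refine Rn.succ 0 _ _ _ ?_ (Rn.zero _)
    simp only [wstp]
    rw [if_neg h1, if_neg h2]
    rfl
  | cons b l ih =>
    have hB' : (4 : ℤ) ≤ M.B := by exact_mod_cast hB
    rw [appl_cons'] at hY
    have hmod := digit_mod hB' (appl M.B l Y₀) b
    have hdiv := digit_div hB' (appl M.B l Y₀) b
    rw [← hY] at hmod hdiv
    have hstep : wstp M q0 kc k1 k0 w (.cp2, c) = some (.cp2, { c with
        X := M.B * c.X + (if b then 2 else 1), Y := appl M.B l Y₀ }) := by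
      simp only [wstp]
      rw [hdiv]
      cases b
      · simp only [Bool.false_eq_true, if_false] at hmod ⊢
        rw [if_pos hmod]
      · simp only [if_true] at hmod ⊢
        rw [if_neg (by rw [hmod]; norm_num), if_pos hmod]
    refine Rn.succ _ _ _ _ hstep ?_
    have h := ih { c with
        X := M.B * c.X + (if b then 2 else 1), Y := appl M.B l Y₀ } rfl
    have hX : appl M.B (b :: l).reverse c.X =
        appl M.B l.reverse (M.B * c.X + (if b then 2 else 1)) := by
      rw [List.reverse_cons, appl_append]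
      rfl
    rw [hX]
    exact h

/-- from the state `ini` the machine starts the simulation on the stored input -/
theorem ini_phase {Q : Type} (M : Sys Q Bool) (hB : 4 ≤ M.B) (q0 : Q) (kc k1 k0 w : ℕ)
    (l l' : List Bool) (X₀ Y₀ : ℤ) (h1 : X₀ % M.B ≠ 1) (h2 : X₀ % M.B ≠ 2)
    (h3 : Y₀ % M.B ≠ 1) (h4 : Y₀ % M.B ≠ 2) (c : C6)
    (hX : c.X = appl M.B l X₀) (hY : c.Y = appl M.B l' Y₀) :
    ∃ N, 1 ≤ N ∧ Rn (wstp M q0 kc k1 k0 w) N (.ini, c)
      (.sim q0, { c with
        a := 0
        b := (start M.B kc k1 k0 w l true : ℕ)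
        X := appl M.B (l'.reverse ++ l) X₀
        Y := Y₀ }) := by
  have s1 : Rn (wstp M q0 kc k1 k0 w) 1 (.ini, c) (.cp1, { c with a := 0, b := w }) :=
    Rn.succ 0 _ _ _ rfl (Rn.zero _)
  have s2 := cp1_phase M hB q0 kc k1 k0 w l X₀ h1 h2 { c with a := 0, b := w } hX
  have s3 := cp2_phase M hB q0 kc k1 k0 w (l.reverse ++ l') Y₀ h3 h4
    { c with
        a := 0
        b := l.foldl (fun (v : ℤ) b => (M.B : ℤ) * v + (if b then (k1 : ℤ) else (k0 : ℤ))) (w : ℤ)
        X := X₀
        Y := appl M.B l.reverse c.Y } (by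
      show appl M.B l.reverse c.Y = _
      rw [hY, appl_append])
  refine ⟨1 + ((l.length + 1) + ((l.reverse ++ l').length + 1)), by omega, ?_⟩
  refine rn_trans _ _ _ _ _ _ s1 (rn_trans _ _ _ _ _ _ s2 ?_)
  have hb : ((start M.B kc k1 k0 w l true : ℕ) : ℤ) = M.B * (M.B *
      (l.foldl (fun (v : ℤ) b => (M.B : ℤ) * v + (if b then (k1 : ℤ) else (k0 : ℤ))) (w : ℤ)) + k1)
        + kc := by
    rw [← foldl_cast]
    simp only [start, if_true]
    push_cast
    ring
  have hX2 : appl M.B (l'.reverse ++ l) X₀ = appl M.B (l.reverse ++ l').reverse X₀ := by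
    rw [List.reverse_append, List.reverse_reverse]
  rw [hb, hX2]
  exact s3

end Pool.Agent.H665Simp
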