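import Mathlib
import Pool.Agent.H665Simp.DefsU

set_option autoImplicit false

namespace Pool.Agent.H665Simp



/-- legal derivations -/
def Leg (L : List Wd) (d : Der) : Prop := ∀ t ∈ d, ∃ r ∈ L, t.2.1 = r

theorem inv_eq (w : Wd) : FreeGroup.mk (inv w) = (FreeGroup.mk w)⁻¹ := by
  rw [FreeGroup.inv_mk]
  rfl

theorem mk_app (u w : Wd) : FreeGroup.mk (u ++ w) = FreeGroup.mk u * FreeGroup.mk w := by
  rw [FreeGroup.mul_mk]

theorem mk_nil' : FreeGroup.mk ([] : Wd) = 1 := FreeGroup.one_eq_mk.symm

/-- the element of one step -/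
def stp (t : Wd × Wd × Bool) : FreeGroup ℕ :=
  FreeGroup.mk t.1 * (if t.2.2 = true then FreeGroup.mk t.2.1 else (FreeGroup.mk t.2.1)⁻¹)
    * (FreeGroup.mk t.1)⁻¹

theorem mk_flat_cons (t : Wd × Wd × Bool) (d : Der) :
    FreeGroup.mk (flat (t :: d)) = stp t * FreeGroup.mk (flat d) := by
  have h1 : flat (t :: d) = (t.1 ++ ((if t.2.2 = true then t.2.1 else inv t.2.1) ++ inv t.1))
      ++ flat d := by
    unfold flat
    rw [List.flatMap_cons]
  rw [h1, mk_app, mk_app, mk_app, inv_eq]
  unfold stp
  by_cases h : t.2.2 = true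
  · rw [if_pos h, if_pos h]
    simp only [mul_assoc]
  · rw [if_neg h, if_neg h, inv_eq]
    simp only [mul_assoc]

theorem mk_flat_app (d d' : Der) :
    FreeGroup.mk (flat (d ++ d')) = FreeGroup.mk (flat d) * FreeGroup.mk (flat d') := by
  have h1 : flat (d ++ d') = flat d ++ flat d' := by
    unfold flat
    rw [List.flatMap_append]
  rw [h1, mk_app]

/-- inverse derivation -/
def dinv (d : Der) : Der := (d.map (fun t => (t.1, t.2.1, !t.2.2))).reverse

theorem mk_flat_dinv (d : Der) : FreeGroup.mk (flat (dinv d)) = (FreeGroup.mk (flat d))⁻¹ := by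
  induction d with
  | nil =>
    have h1 : flat (dinv []) = [] := rfl
    have h2 : flat [] = [] := rfl
    rw [h1, h2, mk_nil', inv_one]
  | cons t d ih =>
    have h1 : dinv (t :: d) = dinv d ++ [(t.1, t.2.1, !t.2.2)] := by
      unfold dinv
      rw [List.map_cons, List.reverse_cons]
    have h2 : stp (t.1, t.2.1, !t.2.2) = (stp t)⁻¹ := by
      unfold stp
      cases hb : t.2.2
      · simp [mul_assoc]
      · simp [mul_assoc]
    have h3 : FreeGroup.mk (flat []) = 1 := mk_nil'
    rw [h1, mk_flat_app, mk_flat_cons, ih, mk_flat_cons, h2, h3, mul_one, mul_inv_rev]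

theorem mk_flat_conj (u : Wd) (d : Der) :
    FreeGroup.mk (flat (d.map (fun t => (u ++ t.1, t.2)))) =
      FreeGroup.mk u * FreeGroup.mk (flat d) * (FreeGroup.mk u)⁻¹ := by
  induction d with
  | nil =>
    have h2 : FreeGroup.mk (flat ([] : Der)) = 1 := mk_nil'
    rw [List.map_nil, h2]
    group
  | cons t d ih =>
    rw [List.map_cons, mk_flat_cons, ih, mk_flat_cons]
    have h2 : stp (u ++ t.1, t.2) = FreeGroup.mk u * stp t * (FreeGroup.mk u)⁻¹ := by
      unfold stp
      rw [mk_app]
      group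
    rw [h2]
    group

/-- the subgroup of the elements given by legal derivations -/
def DS (L : List Wd) : Subgroup (FreeGroup ℕ) where
  carrier := {g | ∃ d, Leg L d ∧ g = FreeGroup.mk (flat d)}
  one_mem' := ⟨[], fun t ht => absurd ht List.not_mem_nil, mk_nil'.symm⟩
  mul_mem' := by
    rintro a b ⟨d, hd, rfl⟩ ⟨d', hd', rfl⟩
    refine ⟨d ++ d', ?_, (mk_flat_app d d').symm⟩
    intro t ht
    rcases List.mem_append.1 ht with h | h
    · exact hd t h
    · exact hd' t h
  inv_mem' := by
    rintro a ⟨d, hd, rfl⟩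
    refine ⟨dinv d, ?_, (mk_flat_dinv d).symm⟩
    intro t ht
    unfold dinv at ht
    rw [List.mem_reverse, List.mem_map] at ht
    obtain ⟨t', ht', rfl⟩ := ht
    exact hd t' ht'

theorem DS_normal (L : List Wd) : (DS L).Normal := by
  constructor
  rintro a ⟨d, hd, rfl⟩ g
  obtain ⟨u, rfl⟩ : ∃ u, FreeGroup.mk u = g := ⟨g.toWord, FreeGroup.mk_toWord⟩
  refine ⟨d.map (fun t => (u ++ t.1, t.2)), ?_, (mk_flat_conj u d).symm⟩
  intro t ht
  rw [List.mem_map] at ht
  obtain ⟨t', ht', rfl⟩ := ht
  exact hd t' ht'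

/-- forget the generators of index `≥ K` -/
def ph (K : ℕ) : FreeGroup ℕ →* FreeGroup ℕ :=
  FreeGroup.lift (fun i => if i < K then FreeGroup.of i else 1)

theorem ph_mk (K : ℕ) (w : Wd) : ph K (FreeGroup.mk w) = FreeGroup.mk (filt K w) := by
  induction w with
  | nil => 
    have h1 : filt K [] = [] := rfl
    rw [h1, mk_nil', map_one]
  | cons l w ih =>
    have h1 : FreeGroup.mk (l :: w) = FreeGroup.mk [l] * FreeGroup.mk w := by
      rw [← mk_app]
      rfl
    rw [h1, map_mul, ih]
    obtain ⟨i, b⟩ := l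
    have h2 : FreeGroup.mk [(i, b)] = if b = true then FreeGroup.of i else (FreeGroup.of i)⁻¹ := by
      cases b
      · rw [if_neg (by simp)]
        rw [show (FreeGroup.of i : FreeGroup ℕ) = FreeGroup.mk [(i, true)] from rfl, FreeGroup.inv_mk]
        rfl
      · rw [if_pos rfl]
        rfl
    have h3 : ph K (FreeGroup.of i) = if i < K then FreeGroup.of i else 1 := by
      unfold ph
      rw [FreeGroup.lift_apply_of]
    by_cases hi : i < K
    · have h4 : filt K ((i, b) :: w) = (i, b) :: filt K w := by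
        unfold filt
        rw [List.filter_cons_of_pos (by simpa using hi)]
      rw [h4, show FreeGroup.mk ((i, b) :: filt K w) = FreeGroup.mk [(i, b)] *
        FreeGroup.mk (filt K w) by rw [← mk_app]; rfl]
      congr 1
      rw [h2]
      rw [if_pos hi] at h3
      cases b
      · rw [if_neg (by simp), map_inv, h3]
      · rw [if_pos rfl, h3]
    · have h4 : filt K ((i, b) :: w) = filt K w := by
        unfold filt
        rw [List.filter_cons_of_neg (by simpa using hi)]
      rw [h4, h2]
      rw [if_neg hi] at h3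
      cases b
      · rw [if_neg (by simp), map_inv, h3, inv_one, one_mul]
      · rw [if_pos rfl, h3, one_mul]

theorem isDer_iff (K : ℕ) (L : List Wd) (v : Wd) (d : Der) :
    IsDer K L v d ↔ Leg L d ∧ ph K (FreeGroup.mk v) = ph K (FreeGroup.mk (flat d)) := by
  unfold IsDer Leg
  rw [ph_mk, ph_mk]
  constructor
  · rintro ⟨h1, h2⟩
    exact ⟨h1, FreeGroup.reduce.exact h2⟩
  · rintro ⟨h1, h2⟩
    exact ⟨h1, FreeGroup.reduce.sound h2⟩

/-- derivations detect the normal closure of the relators -/
theorem der_iff (K : ℕ) (L : List Wd) (v : Wd) :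
    FreeGroup.mk v ∈ Subgroup.normalClosure (relsN K L) ↔ ∃ d, IsDer K L v d := by
  constructor
  · intro h
    have hn : (DS L).Normal := DS_normal L
    have hle : Subgroup.normalClosure (relsN K L) ≤ DS L ⊔ (ph K).ker := by
      apply Subgroup.normalClosure_le_normal
      rintro r (⟨i, hi, rfl⟩ | ⟨w, hw, rfl⟩)
      · apply (le_sup_right : (ph K).ker ≤ DS L ⊔ (ph K).ker)
        rw [MonoidHom.mem_ker]
        unfold ph
        rw [FreeGroup.lift_apply_of, if_neg (by omega)]
      · apply (le_sup_left : DS L ≤ DS L ⊔ (ph K).ker)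
        refine ⟨[([], w, true)], ?_, ?_⟩
        · intro t ht
          rw [List.mem_singleton] at ht
          rw [ht]
          exact ⟨w, hw, rfl⟩
        · rw [mk_flat_cons]
          have h2 : FreeGroup.mk (flat ([] : Der)) = 1 := mk_nil'
          rw [h2]
          unfold stp
          simp [mk_nil']
    have h2 := hle h
    have h3 : (FreeGroup.mk v) ∈ ((DS L ⊔ (ph K).ker : Subgroup (FreeGroup ℕ)) : Set (FreeGroup ℕ)) := h2
    rw [Subgroup.mul_normal] at h3
    obtain ⟨a, ⟨d, hd, rfl⟩, b, hb, hab⟩ := h3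
    refine ⟨d, (isDer_iff K L v d).2 ⟨hd, ?_⟩⟩
    have hab' : FreeGroup.mk (flat d) * b = FreeGroup.mk v := hab
    have hb' : ph K b = 1 := hb
    rw [← hab', map_mul, hb', mul_one]
  · rintro ⟨d, hd⟩
    obtain ⟨hd1, hd2⟩ := (isDer_iff K L v d).1 hd
    have hq : (QuotientGroup.mk' (Subgroup.normalClosure (relsN K L))).comp (ph K)
        = QuotientGroup.mk' (Subgroup.normalClosure (relsN K L)) := by
      apply FreeGroup.ext_hom
      intro i
      rw [MonoidHom.comp_apply]
      unfold ph
      rw [FreeGroup.lift_apply_of]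
      by_cases hi : i < K
      · rw [if_pos hi]
      · rw [if_neg hi, map_one]
        symm
        rw [QuotientGroup.mk'_apply, QuotientGroup.eq_one_iff]
        exact Subgroup.subset_normalClosure (Or.inl ⟨i, not_lt.1 hi, rfl⟩)
    have hflat : ∀ d : Der, Leg L d → FreeGroup.mk (flat d) ∈ Subgroup.normalClosure (relsN K L) := by
      intro d hd
      induction d with
      | nil =>
        have h2 : FreeGroup.mk (flat ([] : Der)) = 1 := mk_nil'
        rw [h2]
        exact Subgroup.one_mem _
      | cons t d ih =>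
        rw [mk_flat_cons]
        refine Subgroup.mul_mem _ ?_ (ih (fun t' ht' => hd t' (List.mem_cons_of_mem _ ht')))
        obtain ⟨r, hr, hrt⟩ := hd t List.mem_cons_self
        have h4 : FreeGroup.mk t.2.1 ∈ Subgroup.normalClosure (relsN K L) :=
          Subgroup.subset_normalClosure (Or.inr ⟨r, hr, by rw [hrt]⟩)
        unfold stp
        apply Subgroup.normalClosure_normal.conj_mem
        by_cases hb : t.2.2 = true
        · rw [if_pos hb]
          exact h4
        · rw [if_neg hb]
          exact Subgroup.inv_mem _ h4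
    rw [← QuotientGroup.eq_one_iff, ← QuotientGroup.mk'_apply, ← hq, MonoidHom.comp_apply, hd2,
      ← MonoidHom.comp_apply, hq, QuotientGroup.mk'_apply, QuotientGroup.eq_one_iff]
    exact hflat d hd1

end Pool.Agent.H665Simp
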