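import Mathlib
import Pool.Agent.H665Simp.DefsA
import Pool.Agent.H665Simp.DefsC

set_option autoImplicit false

namespace Pool.Agent.H665Simp

section
variable {G : Type} [Group G] {e : ℕ} {S : SS G (e + 1)} {Q : Type} [Group Q]


theorem diamond_step (F : Fam S Q) (M i j : ℕ) (hij : i < j) (hj : j ≤ (M + 1) * e) :
    F.X M i * F.X (M + 1) (j + e) = F.X M j * F.X (M + 1) i := by
  have h1 : (M + 1 + 1) * e = (M + 1) * e + e := by ring
  have hi : i < (M + 1) * e := lt_of_lt_of_le hij hj
  have hi2 : i < (M + 1 + 1) * e := by rw [h1]; omega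
  unfold Fam.X
  rw [if_pos hi, if_pos hi2]
  rcases Nat.lt_or_ge j ((M + 1) * e) with h | h
  · have h2 : j + e < (M + 1 + 1) * e := by rw [h1]; omega
    rw [if_pos h, if_pos h2]
    exact (F.A i j hij).symm
  · have h2 : ¬ (j + e < (M + 1 + 1) * e) := by rw [h1]; omega
    have h3 : ¬ (j < (M + 1) * e) := by omega
    rw [if_neg h2, if_neg h3, mul_one, one_mul]

theorem diamond_trans (F : Fam S Q) {M N K : ℕ} {r s : Q} (hr : F.Chain M N r)
    (hs : F.Chain N K s) : F.Chain M K (r * s) := by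
  induction hr with
  | nil M => rw [one_mul]; exact hs
  | cons M N i r hi _ ih =>
    rw [mul_assoc]
    exact Fam.Chain.cons M K i _ hi (ih hs)

theorem diamond_one (F : Fam S Q) {M N : ℕ} {r : Q} (hr : F.Chain M N r) :
    ∀ i, i ≤ (M + 1) * e →
    ∃ K s s', F.Chain N K s ∧ F.Chain (M + 1) K s' ∧ r * s = F.X M i * s' := by
  induction hr with
  | nil M =>
    intro i hi
    exact ⟨M + 1, F.X M i * 1, 1, Fam.Chain.cons M (M + 1) i 1 hi (Fam.Chain.nil _),
      Fam.Chain.nil _, by rw [one_mul]⟩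
  | cons M N j r hj hr ih =>
    intro i hi
    have h1 : (M + 1 + 1) * e = (M + 1) * e + e := by ring
    rcases lt_trichotomy i j with h | h | h
    · obtain ⟨K, s, s', hs, hs', he'⟩ := ih i (by rw [h1]; omega)
      refine ⟨K, s, F.X (M + 1) (j + e) * s', hs,
        Fam.Chain.cons (M + 1) K (j + e) s' (by rw [h1]; omega) hs', ?_⟩
      rw [mul_assoc, he', ← mul_assoc, ← diamond_step F M i j h hj, mul_assoc]
    · subst h
      exact ⟨N, 1, r, Fam.Chain.nil _, hr, by rw [mul_one]⟩
    · obtain ⟨K, s, s', hs, hs', he'⟩ := ih (i + e) (by rw [h1]; omega)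
      refine ⟨K, s, F.X (M + 1) j * s', hs,
        Fam.Chain.cons (M + 1) K j s' (by rw [h1]; omega) hs', ?_⟩
      rw [mul_assoc, he', ← mul_assoc, diamond_step F M j i h hi, mul_assoc]

/-- two chains of expansions starting at the same level have a common extension -/
theorem diamond (F : Fam S Q) (he : 3 ≤ e) (M N N' : ℕ) (r r' : Q) (hr : F.Chain M N r)
    (hr' : F.Chain M N' r') :
    ∃ K s s', F.Chain N K s ∧ F.Chain N' K s' ∧ r * s = r' * s' := by
  induction hr' generalizing N r with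
  | nil M => exact ⟨N, 1, r, Fam.Chain.nil _, hr, by rw [mul_one, one_mul]⟩
  | cons M N' i r' hi _ ih =>
    obtain ⟨K1, s1, s1', h1, h2, h3⟩ := diamond_one F hr i hi
    obtain ⟨K, s, s', h4, h5, h6⟩ := ih _ _ h2
    refine ⟨K, s1 * s, s', diamond_trans F h1 h4, h5, ?_⟩
    rw [← mul_assoc, h3, mul_assoc, h6, mul_assoc]

end

end Pool.Agent.H665Simp
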