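import Mathlib
import Pool.Agent.H665Simp.DefsA

set_option autoImplicit false

namespace Pool.Agent.H665Simp

section
variable {G : Type} [Group G] {e : ℕ} {S : SS G (e + 1)} {Q : Type} [Group Q]


theorem lcf_one_eq (F : Fam S Q) (c : ℕ) : lcf F.p 1 c = 1 := by
  induction c with
  | zero => rfl
  | succ c ih => rw [lcf, ih, mul_one, F.C1]

theorem l_dies (F : Fam S Q) (g : G) (hg : S.Dies g) : F.l g = 1 := by
  induction hg with
  | one => exact map_one _
  | step g h1 _ ih =>
    have h5 := F.L5 g
    have h2 : (List.ofFn (fun c : Fin (e + 1) => lcf F.p (F.l (S.sec g c)) c)).prod = 1 := by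
      have : (fun c : Fin (e + 1) => lcf F.p (F.l (S.sec g c)) c) = fun _ => 1 := by
        funext c
        rw [ih c, lcf_one_eq]
      rw [this]
      simp
    rw [h2, h1, map_one, mul_one, mul_one] at h5
    exact mul_eq_right.1 h5

end

end Pool.Agent.H665Simp
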