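import Mathlib
import Pool.Agent.H665Simp.DefsA
import Pool.Agent.H665Simp.DefsC
import Pool.Agent.H665Simp.P_SN_mem
import Pool.Agent.H665Simp.P_chain_push
import Pool.Agent.H665Simp.P_diamond
import Pool.Agent.H665Simp.P_chain_basic

set_option autoImplicit false

namespace Pool.Agent.H665Simp

section
variable {G : Type} [Group G] {e : ℕ} {S : SS G (e + 1)} {Q : Type} [Group Q]


/-- every element is of the form `p σ q⁻¹` -/
theorem normal_form (F : Fam S Q) (he : 3 ≤ e) (hgen : F.Gen) (q : Q) :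
    ∃ N r σ r', F.Chain 0 N r ∧ F.Chain 0 N r' ∧ σ ∈ F.SN N ∧ q = r * σ * r'⁻¹ := by
  have hq : q ∈ Subgroup.closure (Set.range F.x ∪ Set.range F.p ∪ Set.range F.t ∪
      Set.range F.l) := by
    have h := hgen
    unfold Fam.Gen at h
    rw [h]
    exact Subgroup.mem_top q
  induction hq using Subgroup.closure_induction with
  | mem y hy =>
    rcases hy with ((⟨i, rfl⟩ | ⟨k, rfl⟩) | ⟨M, rfl⟩) | ⟨g, rfl⟩
    · have hi : i < (i + 1) * e := by nlinarith
      have hX : F.X i i = F.x i := by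
        unfold Fam.X
        rw [if_pos hi]
      have hc1 : F.Chain i (i + 1) (F.x i) := by
        have := Fam.Chain.cons (F := F) i (i + 1) i 1 hi.le (Fam.Chain.nil (i + 1))
        rwa [hX, mul_one] at this
      refine ⟨i + 1, F.x i, 1, 1, ?_, chain_one F 0 (i + 1) (Nat.zero_le _), one_mem _, ?_⟩
      · have := chain_trans F 0 i (i + 1) 1 (F.x i) (chain_one F 0 i (Nat.zero_le _)) hc1
        rwa [one_mul] at this
      · simp
    · refine ⟨k, 1, F.p k, 1, chain_one F 0 k (Nat.zero_le _), chain_one F 0 k (Nat.zero_le _),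
        SN_p F k k (by nlinarith), by simp⟩
    · exact ⟨M, 1, F.t M, 1, chain_one F 0 M (Nat.zero_le _), chain_one F 0 M (Nat.zero_le _),
        SN_t F (by omega) M, by simp⟩
    · exact ⟨0, 1, F.l g, 1, Fam.Chain.nil 0, Fam.Chain.nil 0, SN_l F 0 g, by simp⟩
  | one => exact ⟨0, 1, 1, 1, Fam.Chain.nil 0, Fam.Chain.nil 0, one_mem _, by simp⟩
  | mul y z _ _ hy hz =>
    obtain ⟨N, r, s, r', hr, hr', hs, rfl⟩ := hy
    obtain ⟨K, a, s2, a', ha, ha', hs2, rfl⟩ := hz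
    obtain ⟨L, u, v, hu, hv, huv⟩ := diamond F he 0 N K r' a hr' ha
    obtain ⟨u1, s', hu1, hs', e1⟩ := chain_push F he N L s u hs hu
    obtain ⟨v1, s'', hv1, hs'', e2⟩ := chain_push F he K L s2⁻¹ v (inv_mem hs2) hv
    refine ⟨L, r * u1, s' * s''⁻¹, a' * v1, chain_trans F 0 N L r u1 hr hu1,
      chain_trans F 0 K L a' v1 ha' hv1, mul_mem hs' (inv_mem hs''), ?_⟩
    have h1 : r'⁻¹ * a = u * v⁻¹ := by
      rw [inv_mul_eq_iff_eq_mul, ← mul_assoc, huv, mul_inv_cancel_right]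
    have h2 : v⁻¹ * s2 = s''⁻¹ * v1⁻¹ := by
      rw [← mul_inv_rev, ← e2, mul_inv_rev, inv_inv]
    calc r * s * r'⁻¹ * (a * s2 * a'⁻¹) = r * s * (r'⁻¹ * a) * s2 * a'⁻¹ := by
          simp only [mul_assoc]
      _ = r * (s * u) * (v⁻¹ * s2) * a'⁻¹ := by rw [h1]; simp only [mul_assoc]
      _ = r * (u1 * s') * (s''⁻¹ * v1⁻¹) * a'⁻¹ := by rw [e1, h2]
      _ = r * u1 * (s' * s''⁻¹) * (a' * v1)⁻¹ := by rw [mul_inv_rev]; simp only [mul_assoc]
  | inv y _ hy =>
    obtain ⟨N, r, s, r', hr, hr', hs, rfl⟩ := hy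
    refine ⟨N, r', s⁻¹, r, hr', hr, inv_mem hs, ?_⟩
    simp only [mul_inv_rev, inv_inv, mul_assoc]

end

end Pool.Agent.H665Simp
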