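import Mathlib
import Pool.Agent.H665Simp.DefsA
import Pool.Agent.H665Simp.DefsB
import Pool.Agent.H665Simp.DefsC
import Pool.Agent.H665Simp.P_leaf_basic
import Pool.Agent.H665Simp.P_tab_leaf

set_option autoImplicit false

namespace Pool.Agent.H665Simp

section
variable {G : Type} [Group G] {e : ℕ} {S : SS G (e + 1)} {Q : Type} [Group Q]
variable {G : Type} [Group G] {e : ℕ} {S : SS G (e + 1)} {Q : Type} [Group Q] {W : Type}
variable {G : Type} [Group G] {e : ℕ} {S : SS G (e + 1)} {W : Type}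



theorem se_fix (Ws : SSet S W) (F0 : Fam S (Equiv.Perm W)) (T : Tab Ws F0) (i : ℕ) :
    ∀ l' : List ℕ, (∀ j ∈ l', i < j) → ∀ w, (l'.map F0.x).prod (Ws.lam i w) = Ws.lam i w := by
  intro l'
  induction l' with
  | nil => intro _ w; simp
  | cons j t ih =>
    intro h w
    rw [List.map_cons, List.prod_cons, Equiv.Perm.mul_apply,
      ih (fun k hk => h k (List.mem_cons_of_mem _ hk)) w]
    exact T.x1 j i w (h j List.mem_cons_self)

theorem se_pow (Ws : SSet S W) (F0 : Fam S (Equiv.Perm W)) (T : Tab Ws F0) (i : ℕ) :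
    ∀ t : List ℕ, (∀ j ∈ t, i ≤ j) →
      ∃ f : W → W, ∀ w, (t.map F0.x).prod (Ws.lam i w) = Ws.lam i (f w) := by
  intro t
  induction t with
  | nil => intro _; exact ⟨fun w => w, fun w => by simp⟩
  | cons j t ih =>
    intro h
    obtain ⟨f, hf⟩ := ih (fun k hk => h k (List.mem_cons_of_mem _ hk))
    rcases eq_or_lt_of_le (h j List.mem_cons_self) with e1 | e1
    · subst e1
      refine ⟨fun w => Ws.cn 0 (f w), fun w => ?_⟩
      rw [List.map_cons, List.prod_cons, Equiv.Perm.mul_apply, hf w]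
      have := T.x2 i 0 (f w) (Nat.zero_le _)
      rwa [Nat.add_zero] at this
    · refine ⟨f, fun w => ?_⟩
      rw [List.map_cons, List.prod_cons, Equiv.Perm.mul_apply, hf w]
      exact T.x1 j i (f w) e1

theorem se_contra [Nonempty W] (Ws : SSet S W) (he : 3 ≤ e) (F0 : Fam S (Equiv.Perm W))
    (T : Tab Ws F0) (M : ℕ) (i : ℕ) (t l' : List ℕ) (hl : ∀ j ∈ t, i ≤ j)
    (hb : i < (M + 1) * e) (hl' : ∀ j ∈ l', i < j)
    (ρ : Equiv.Perm (Fin ((M + 1) * e + 1))) (γ : Fin ((M + 1) * e + 1) → Equiv.Perm W)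
    (σ : Equiv.Perm W)
    (hσ : ∀ (k : Fin ((M + 1) * e + 1)) w,
      σ (Ws.leaf M k w) = Ws.leaf M (ρ k : Fin ((M + 1) * e + 1)) (γ k w))
    (h : ((i :: t).map F0.x).prod * σ = (l'.map F0.x).prod) : False := by
  obtain ⟨f, hf⟩ := se_pow Ws F0 T i t hl
  have hleaf : ∀ w, Ws.leaf M i w = Ws.lam i w := by
    intro w; unfold SSet.leaf; rw [if_pos hb]
  obtain ⟨P, hP⟩ : ∃ P, P = ((i :: t).map F0.x).prod := ⟨_, rfl⟩
  have hPl : ∀ w, P (Ws.lam i w) = Ws.lam i (Ws.cn 0 (f w)) := by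
    intro w
    rw [hP, List.map_cons, List.prod_cons, Equiv.Perm.mul_apply, hf w]
    have := T.x2 i 0 (f w) (Nat.zero_le _)
    rwa [Nat.add_zero] at this
  rw [← hP] at h
  have hk : i < (M + 1) * e + 1 := Nat.lt_succ_of_lt hb
  obtain ⟨k, hkdef⟩ : ∃ k : Fin ((M + 1) * e + 1), k = ⟨i, hk⟩ := ⟨_, rfl⟩
  have hki : (k : ℕ) = i := by rw [hkdef]
  have hmain : ∀ w, P (Ws.leaf M (ρ k : Fin ((M + 1) * e + 1)) (γ k w)) = Ws.lam i w := by
    intro w
    rw [← hσ k w, hki, hleaf w, ← Equiv.Perm.mul_apply, h]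
    exact se_fix Ws F0 T i l' hl' w
  obtain ⟨w0⟩ := ‹Nonempty W›
  obtain ⟨w', hw'⟩ : ∃ w', w' = γ k (Ws.cn 1 w0) := ⟨_, rfl⟩
  have h1 : P (Ws.lam i w') = P (Ws.leaf M (ρ k : Fin ((M + 1) * e + 1))
      (γ k (Ws.cn 0 (f w')))) := by
    rw [hPl, hmain]
  have h2 := P.injective h1
  rw [← hleaf w'] at h2
  have h3 := leaf_inj Ws (by omega) M i _ hb.le (Nat.lt_succ_iff.mp (ρ k).isLt) _ _ h2
  have h4 := h3.2
  nth_rewrite 1 [hw'] at h4
  have h5 := (γ k).injective h4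
  have h6 := cn_inj Ws 1 0 (by omega) (by omega) _ _ h5
  omega

/-- uniqueness of the sorted form, up to labelled permutations of the leaves -/
theorem sorted_eq [Nonempty W] (Ws : SSet S W) (he : 3 ≤ e) (F0 : Fam S (Equiv.Perm W))
    (T : Tab Ws F0) (M : ℕ) (l l' : List ℕ) (hl : l.Pairwise (· ≤ ·)) (hl' : l'.Pairwise (· ≤ ·))
    (hb : ∀ i ∈ l, i < (M + 1) * e) (hb' : ∀ i ∈ l', i < (M + 1) * e)
    (ρ : Equiv.Perm (Fin ((M + 1) * e + 1))) (γ : Fin ((M + 1) * e + 1) → Equiv.Perm W)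
    (σ : Equiv.Perm W)
    (hσ : ∀ (k : Fin ((M + 1) * e + 1)) w,
      σ (Ws.leaf M k w) = Ws.leaf M (ρ k : Fin ((M + 1) * e + 1)) (γ k w))
    (h : (l.map F0.x).prod * σ = (l'.map F0.x).prod) : l = l' := by
  -- the inverse is also a labelled permutation
  have hσi : ∀ (k : Fin ((M + 1) * e + 1)) w,
      σ⁻¹ (Ws.leaf M k w) = Ws.leaf M (ρ⁻¹ k : Fin ((M + 1) * e + 1)) ((γ (ρ⁻¹ k))⁻¹ w) := by
    intro k w
    rw [Equiv.Perm.inv_eq_iff_eq, hσ (ρ⁻¹ k)]
    have e1 : ρ (ρ⁻¹ k) = k := ρ.apply_symm_apply k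
    have e2 : (γ (ρ⁻¹ k)) ((γ (ρ⁻¹ k))⁻¹ w) = w := (γ (ρ⁻¹ k)).apply_symm_apply w
    rw [e1, e2]
  induction l generalizing l' with
  | nil =>
    cases l' with
    | nil => rfl
    | cons j t' =>
      exfalso
      rw [List.pairwise_cons] at hl'
      refine se_contra Ws he F0 T M j t' [] hl'.1 (hb' j List.mem_cons_self) (by simp)
        ρ⁻¹ (fun k => (γ (ρ⁻¹ k))⁻¹) σ⁻¹ hσi ?_
      rw [← h, mul_assoc, mul_inv_cancel, mul_one]
  | cons i t ih =>
    cases l' with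
    | nil =>
      exfalso
      rw [List.pairwise_cons] at hl
      exact se_contra Ws he F0 T M i t [] hl.1 (hb i List.mem_cons_self) (by simp) ρ γ σ hσ h
    | cons j t' =>
      rw [List.pairwise_cons] at hl hl'
      rcases lt_trichotomy i j with hij | hij | hij
      · exfalso
        refine se_contra Ws he F0 T M i t (j :: t') hl.1 (hb i List.mem_cons_self) ?_ ρ γ σ hσ h
        intro k hk
        rcases List.mem_cons.mp hk with hk | hk
        · rw [hk]; exact hij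
        · exact lt_of_lt_of_le hij (hl'.1 k hk)
      · subst hij
        rw [List.map_cons, List.prod_cons, List.map_cons, List.prod_cons, mul_assoc] at h
        have h' := mul_left_cancel h
        have := ih t' hl.2 hl'.2 (fun k hk => hb k (List.mem_cons_of_mem _ hk))
          (fun k hk => hb' k (List.mem_cons_of_mem _ hk)) h'
        rw [this]
      · exfalso
        refine se_contra Ws he F0 T M j t' (i :: t) hl'.1 (hb' j List.mem_cons_self) ?_
          ρ⁻¹ (fun k => (γ (ρ⁻¹ k))⁻¹) σ⁻¹ hσi ?_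
        · intro k hk
          rcases List.mem_cons.mp hk with hk | hk
          · rw [hk]; exact hij
          · exact lt_of_lt_of_le hij (hl.1 k hk)
        · rw [← h, mul_assoc, mul_inv_cancel, mul_one]

end

end Pool.Agent.H665Simp
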