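import Mathlib
import Pool.Agent.H665Simp.DefsA
import Pool.Agent.H665Simp.DefsB
import Pool.Agent.H665Simp.DefsC
import Pool.Agent.H665Simp.P_l_dies
import Pool.Agent.H665Simp.P_normal_form
import Pool.Agent.H665Simp.P_SN_struct
import Pool.Agent.H665Simp.P_chain_sorted
import Pool.Agent.H665Simp.P_leaf_basic
import Pool.Agent.H665Simp.P_SN_act
import Pool.Agent.H665Simp.P_sorted_eq

set_option autoImplicit false

namespace Pool.Agent.H665Simp

section
variable {G : Type} [Group G] {e : ℕ} {S : SS G (e + 1)} {Q : Type} [Group Q]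
variable {G : Type} [Group G] {e : ℕ} {S : SS G (e + 1)} {Q : Type} [Group Q] {W : Type}
variable {G : Type} [Group G] {e : ℕ} {S : SS G (e + 1)} {W : Type}


/-- in the good case the action is faithful -/
theorem faithful [Nonempty W] (Ws : SSet S W) (he : 3 ≤ e) (F : Fam S Q) (hgen : F.Gen)
    (F0 : Fam S (Equiv.Perm W)) (T : Tab Ws F0) (α : Q →* Equiv.Perm W) (hα : F.Compat F0 α)
    (hT : ∀ g, Ws.act g = 1 → S.Dies g) (q : Q) (hq : α q = 1) : q = 1 := by
  classical
  obtain ⟨N, r, σ, r', hr, hr', hσ, hqe⟩ := normal_form F he hgen q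
  obtain ⟨Θ, Λ, h1, h2, h3, h4⟩ := SN_struct F he N
  obtain ⟨ρ, f, rfl⟩ := h4 σ hσ
  obtain ⟨l, hl, hbl, hrl⟩ := chain_sorted F he 0 N r hr
  obtain ⟨l', hl', hbl', hrl'⟩ := chain_sorted F he 0 N r' hr'
  have hact := SN_act Ws he F F0 T α hα N Θ Λ h1 h2 h3 ρ f
  have hNe : N * e ≤ (N + 1) * e := Nat.mul_le_mul_right e (Nat.le_succ N)
  have hmap : ∀ m : List ℕ, α ((m.map F.x).prod) = (m.map F0.x).prod := by
    intro m
    rw [map_list_prod, List.map_map]
    congr 1
    refine List.map_congr_left fun i _ => ?_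
    exact hα.x i
  have heq : α r * α (Θ ρ * Λ f) = α r' := by
    rw [hqe, map_mul, map_mul, map_inv, mul_inv_eq_one] at hq
    exact hq
  have hll : l = l' := by
    refine sorted_eq Ws he F0 T N l l' hl hl' (fun i hi => (hbl i hi).trans_le hNe)
      (fun i hi => (hbl' i hi).trans_le hNe) ρ (fun k => Ws.act (f k)) (α (Θ ρ * Λ f))
      (fun k w => hact k w) ?_
    rw [← hmap, ← hmap, ← hrl, ← hrl', heq]
  have hrr : r = r' := by rw [hrl, hrl', hll]
  have hs1 : α (Θ ρ * Λ f) = 1 := by
    rw [hrr] at heq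
    exact mul_eq_left.1 heq
  have hleaf : ∀ (k : Fin ((N + 1) * e + 1)) (w : W),
      (k : ℕ) = (ρ k : Fin ((N + 1) * e + 1)) ∧ w = Ws.act (f k) w := by
    intro k w
    refine leaf_inj Ws (by omega) N _ _ (Nat.lt_succ_iff.1 k.2) (Nat.lt_succ_iff.1 (ρ k).2) _ _ ?_
    have := hact k w
    rw [hs1] at this
    exact this
  have hρ : ρ = 1 := by
    apply Equiv.ext
    intro k
    exact (Fin.ext (hleaf k (Classical.arbitrary W)).1).symm
  have hf : ∀ k, F.l (f k) = 1 := by
    intro k
    apply l_dies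
    apply hT
    apply Equiv.ext
    intro w
    exact ((hleaf k w).2).symm
  have hΛ : Λ f = 1 := by
    have : f ∈ Λ.ker := by
      refine Subgroup.pi_mem_of_mulSingle_mem f fun k => ?_
      rw [MonoidHom.mem_ker]
      have h5 := h3 (Equiv.swap 0 k) (Pi.mulSingle 0 (f k))
      rw [h2, hf, mul_one] at h5
      have h6 : (fun j => (Pi.mulSingle 0 (f k) : Fin ((N + 1) * e + 1) → G)
          ((Equiv.swap 0 k)⁻¹ j)) = Pi.mulSingle k (f k) := by
        funext j
        rw [Equiv.swap_inv]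
        by_cases hj : j = k
        · rw [hj, Equiv.swap_apply_right, Pi.mulSingle_eq_same, Pi.mulSingle_eq_same]
        · rw [Pi.mulSingle_eq_of_ne hj, Pi.mulSingle_eq_of_ne]
          intro h7
          apply hj
          have := congrArg (Equiv.swap 0 k) h7
          rw [Equiv.swap_apply_self, Equiv.swap_apply_left] at this
          exact this
      rw [h6] at h5
      exact (right_eq_mul.1 h5)
    exact MonoidHom.mem_ker.1 this
  rw [hqe, hρ, hΛ, map_one, hrr, mul_one, mul_one, mul_inv_cancel]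

end

end Pool.Agent.H665Simp
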