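import Mathlib
import Pool.Agent.H665Simp.DefsA
import Pool.Agent.H665Simp.DefsD
import Pool.Agent.H665Simp.P_cox_lift
import Pool.Agent.H665Simp.P_base_A
import Pool.Agent.H665Simp.P_base_B1
import Pool.Agent.H665Simp.P_base_B2
import Pool.Agent.H665Simp.P_base_BC
import Pool.Agent.H665Simp.P_base_C3
import Pool.Agent.H665Simp.P_base_T1
import Pool.Agent.H665Simp.P_base_T235
import Pool.Agent.H665Simp.P_base_T4
import Pool.Agent.H665Simp.P_base_L123
import Pool.Agent.H665Simp.P_L5_all
import Pool.Agent.H665Simp.P_shf_basic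

set_option autoImplicit false

namespace Pool.Agent.H665Simp

section
variable {Q : Type} [Group Q] {e : ℕ}
variable {G : Type} [Group G] {e : ℕ} {S : SS G (e + 1)} {Q : Type} [Group Q]


theorem comm_all_pg {Sg : Type} {rels : Set (FreeGroup Sg)} (l : PresentedGroup rels →* Q) (z : Q)
    (h : ∀ s, l (PresentedGroup.of s) * z = z * l (PresentedGroup.of s)) :
    ∀ g, l g * z = z * l g := by
  intro g
  have h1 : (⊤ : Subgroup (PresentedGroup rels)) ≤ (Subgroup.centralizer {z}).comap l := by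
    rw [← PresentedGroup.closure_range_of, Subgroup.closure_le]
    rintro _ ⟨s, rfl⟩
    rw [SetLike.mem_coe, Subgroup.mem_comap, Subgroup.mem_centralizer_singleton_iff]
    exact h s
  have h2 : g ∈ (Subgroup.centralizer {z}).comap l := h1 trivial
  rw [Subgroup.mem_comap, Subgroup.mem_centralizer_singleton_iff] at h2
  exact h2

theorem map_evO {Sg Q' Q'' : Type} [Group Q'] [Group Q''] (f : Q' →* Q'') (a : Q') (b : Sg → Q')
    (u : FreeGroup (Option Sg)) :
    f (evO a b u) = evO (f a) (fun r => f (b r)) u := by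
  have h : f.comp (evO a b) = evO (f a) (fun r => f (b r)) := by
    apply FreeGroup.ext_hom
    intro o
    cases o <;> simp [evO]
  exact DFunLike.congr_fun h u

/-- the relations for an assignment give the families -/
theorem fam_of_base {Sg : Type} (D : LD Sg e) (he : 3 ≤ e) (w : ℕ) (S : SS D.Gp (e + 1))
    (hS : D.IsSS w S) (φ : Gn Sg e → Q) (hφ : BaseAll D φ) (hy : φ Gn.y = φ (Gn.g D.pt) ^ w) :
    ∃ F : Fam S Q, F.x = fx φ ∧ F.p = fp φ ∧ F.t = ft φ ∧
      ∀ s, F.l (PresentedGroup.of s) = φ (Gn.g s) := by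
  obtain ⟨BV, BL⟩ := hφ
  let l : D.Gp →* Q := PresentedGroup.toGroup (f := fun s => φ (Gn.g s)) BL.R
  have hl : ∀ s, l (PresentedGroup.of s) = φ (Gn.g s) := fun s => PresentedGroup.toGroup.of BL.R
  have C1 := base_C1 he _ _ _ BV
  have C2 := base_C2 he _ _ _ BV
  have C3 := base_C3 he _ _ _ BV
  obtain ⟨th, hth⟩ := cox_lift e (fp φ) (fun i _ => C1 i) (fun i _ => C2 i)
    (fun i j hij _ => C3 i j hij)
  have L1 : ∀ i g, 1 ≤ i → l g * fx φ i = fx φ i * l g := by
    intro i g hi
    refine comm_all_pg l (fx φ i) (fun s => ?_) g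
    rw [hl]
    exact base_L1 he _ _ _ BV _ (fun i h1 h2 => BL.L1 i s h1 h2) i hi
  have L2 : ∀ k g, 1 ≤ k → l g * fp φ k = fp φ k * l g := by
    intro i g hi
    refine comm_all_pg l (fp φ i) (fun s => ?_) g
    rw [hl]
    exact base_L2 he _ _ _ BV _ (BL.L1 1 s le_rfl (by omega)) (fun i h1 h2 => BL.L2 i s h1 h2) i hi
  have L3 : ∀ M g, l g * ft φ M = ft φ M * l g := by
    intro M g
    refine comm_all_pg l (ft φ M) (fun s => ?_) g
    rw [hl]
    exact base_L3 he _ _ _ BV _ (BL.L1 1 s le_rfl (by omega)) (BL.L3 s) M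
  have L4 : ∀ g h, l g * (fp φ 0 * l h * fp φ 0) = (fp φ 0 * l h * fp φ 0) * l g := by
    intro g h
    have hinv : (fp φ 0)⁻¹ = fp φ 0 := inv_eq_of_mul_eq_one_left (C1 0)
    let l2 : D.Gp →* Q := (MulAut.conj (fp φ 0)).toMonoidHom.comp l
    have hl2 : ∀ h, l2 h = fp φ 0 * l h * fp φ 0 := by
      intro h
      have h0 : l2 h = fp φ 0 * l h * (fp φ 0)⁻¹ := rfl
      rw [h0, hinv]
    have hs : ∀ s', ∀ g, l g * (fp φ 0 * l (PresentedGroup.of s') * fp φ 0) =
        (fp φ 0 * l (PresentedGroup.of s') * fp φ 0) * l g := by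
      intro s'
      refine comm_all_pg l _ (fun s => ?_)
      rw [hl, hl]
      exact BL.L4 s s'
    have h3 := comm_all_pg l2 (l g) (fun s' => by
      rw [hl2]
      exact (hs s' g).symm) h
    rw [hl2] at h3
    exact h3.symm
  have hthl : ∀ s, th (D.act s) = ((permWord (D.act s)).map (fun c : Fin e => fp φ c)).prod := by
    intro s
    conv_lhs => rw [permWord_spec (D.act s)]
    rw [map_list_prod, List.map_map]
    congr 1
    apply List.map_congr_left
    intro c _
    exact hth c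
  have hsec : ∀ s c, l (S.sec (PresentedGroup.of s) c) =
      evO (φ Gn.y) (fun s => φ (Gn.g s)) (D.sec s c) := by
    intro s c
    rw [hS.2, map_evO, map_pow, hl, ← hy]
    congr 1
    congr 1
    funext r
    exact hl r
  have L5 := L5_all D w S hS (fx φ 0) (fp φ) l th hth C1 he (fun g k hk => L2 k g hk) L4 (by
    intro s
    rw [hl, hthl]
    simp only [hsec]
    exact BL.L5 s)
  exact ⟨{ x := fx φ, p := fp φ, t := ft φ, l := l, th := th, th_swap := hth,
           A := base_A he _ _ _ BV, B1 := base_B1 he _ _ _ BV, B2 := base_B2 he _ _ _ BV,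
           B3 := base_B3 he _ _ _ BV, C1 := C1, C2 := C2, C3 := C3,
           T1 := base_T1 he _ _ _ BV, T2 := base_T2 he _ _ _ BV, T3 := base_T3 he _ _ _ BV,
           T4 := base_T4 he _ _ _ BV, T5 := base_T5 he _ _ _ BV,
           L1 := L1, L2 := L2, L3 := L3, L4 := L4, L5 := L5 }, rfl, rfl, rfl, hl⟩

end

end Pool.Agent.H665Simp
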