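import Mathlib
import Pool.Agent.H665Simp.DefsA
import Pool.Agent.H665Simp.DefsB

set_option autoImplicit false

namespace Pool.Agent.H665Simp

section
variable {G : Type} [Group G] {e : ℕ} {S : SS G (e + 1)} {W : Type}


section GermAux

variable {H : Type} [Group H] {d : ℕ} (T : SS H d)

theorem germ_sec_one (c : Fin d) : T.sec 1 c = 1 := by
  have h := T.sec_mul 1 1 c
  rw [mul_one, map_one] at h
  exact (left_eq_mul.1 h)

def germImg : H → List (Fin d) → List (Fin d)
  | _, [] => []
  | h, c :: al => T.act h c :: germImg (T.sec h c) al

def germSec : H → List (Fin d) → H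
  | h, [] => h
  | h, c :: al => germSec (T.sec h c) al

theorem germImg_append (h : H) (al : List (Fin d)) (c : Fin d) :
    germImg T h (al ++ [c]) = germImg T h al ++ [T.act (germSec T h al) c] := by
  induction al generalizing h with
  | nil => rfl
  | cons a al ih => simp only [List.cons_append, germImg, germSec, ih]

theorem germSec_append (h : H) (al : List (Fin d)) (c : Fin d) :
    germSec T h (al ++ [c]) = T.sec (germSec T h al) c := by
  induction al generalizing h with
  | nil => rfl
  | cons a al ih => simp only [List.cons_append, germSec, ih]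

theorem germImg_mul (g h : H) (al : List (Fin d)) :
    germImg T (g * h) al = germImg T g (germImg T h al) := by
  induction al generalizing g h with
  | nil => rfl
  | cons a al ih => simp only [germImg, T.sec_mul, ih, map_mul, Equiv.Perm.mul_apply]

theorem germSec_mul (g h : H) (al : List (Fin d)) :
    germSec T (g * h) al = germSec T g (germImg T h al) * germSec T h al := by
  induction al generalizing g h with
  | nil => rfl
  | cons a al ih => simp only [germSec, germImg, T.sec_mul, ih]

theorem germImg_one (al : List (Fin d)) : germImg T 1 al = al := by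
  induction al with
  | nil => rfl
  | cons a al ih => simp [germImg, germ_sec_one, ih]

theorem germSec_one (al : List (Fin d)) : germSec T 1 al = 1 := by
  induction al with
  | nil => rfl
  | cons a al ih => simp [germSec, germ_sec_one, ih]

abbrev GX (H : Type) (d : ℕ) : Type := List (Fin d) × ℕ × H

def germExp (z : ℕ → Fin d) (r : GX H d) : GX H d :=
  (r.1 ++ [T.act r.2.2 (z r.2.1)], r.2.1 + 1, T.sec r.2.2 (z r.2.1))

def germAct (h : H) (r : GX H d) : GX H d :=
  (germImg T h r.1, r.2.1, germSec T h r.1 * r.2.2)

def germCons (c : Fin d) (r : GX H d) : GX H d := (c :: r.1, r.2.1, r.2.2)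

theorem germExp_act (z : ℕ → Fin d) (h : H) (r : GX H d) :
    germExp T z (germAct T h r) = germAct T h (germExp T z r) := by
  simp only [germExp, germAct, germImg_append, germSec_append, T.sec_mul, map_mul,
    Equiv.Perm.mul_apply]

theorem germExp_cons (z : ℕ → Fin d) (c : Fin d) (r : GX H d) :
    germExp T z (germCons c r) = germCons c (germExp T z r) := rfl

theorem germExp_act_it (z : ℕ → Fin d) (h : H) (m : ℕ) (r : GX H d) :
    (germExp T z)^[m] (germAct T h r) = germAct T h ((germExp T z)^[m] r) :=
  (Function.Commute.iterate_left (f := germExp T z) (g := germAct T h)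
    (fun r => germExp_act T z h r) m) r

theorem germExp_cons_it (z : ℕ → Fin d) (c : Fin d) (m : ℕ) (r : GX H d) :
    (germExp T z)^[m] (germCons c r) = germCons c ((germExp T z)^[m] r) :=
  (Function.Commute.iterate_left (f := germExp T z) (g := germCons c)
    (fun r => germExp_cons T z c r) m) r

def germSetoid (z : ℕ → Fin d) : Setoid (GX H d) where
  r r s := ∃ m m', (germExp T z)^[m] r = (germExp T z)^[m'] s
  iseqv :=
    { refl := fun r => ⟨0, 0, rfl⟩
      symm := fun ⟨m, m', h⟩ => ⟨m', m, h.symm⟩
      trans := by
        rintro r s q ⟨m, m', h⟩ ⟨n, n', h'⟩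
        refine ⟨n + m, m' + n', ?_⟩
        rw [Function.iterate_add_apply, h, ← Function.iterate_add_apply, add_comm n m',
          Function.iterate_add_apply, h', ← Function.iterate_add_apply] }

def GW (z : ℕ → Fin d) : Type := Quotient (germSetoid T z)

def germActW (z : ℕ → Fin d) (h : H) : GW T z → GW T z :=
  Quotient.map (germAct T h) (by
    rintro r s ⟨m, m', hm⟩
    exact ⟨m, m', by rw [germExp_act_it, germExp_act_it, hm]⟩)

def germConsW (z : ℕ → Fin d) (c : Fin d) : GW T z → GW T z :=
  Quotient.map (germCons c) (by
    rintro r s ⟨m, m', hm⟩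
    exact ⟨m, m', by rw [germExp_cons_it, germExp_cons_it, hm]⟩)

theorem germConsW_bij (z : ℕ → Fin d) :
    Function.Bijective (fun p : Fin d × GW T z => germConsW T z p.1 p.2) := by
  constructor
  · rintro ⟨c, w⟩ ⟨c', w'⟩ h
    induction w using Quotient.inductionOn with | _ r =>
    induction w' using Quotient.inductionOn with | _ r' =>
    obtain ⟨m, m', hm⟩ := Quotient.exact (s := germSetoid T z) h
    rw [germExp_cons_it, germExp_cons_it] at hm
    have h1 : c = c' := by
      have := congrArg Prod.fst hm
      simp only [germCons, List.cons.injEq] at this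
      exact this.1
    have h2 : (germExp T z)^[m] r = (germExp T z)^[m'] r' := by
      have h3 := congrArg Prod.fst hm
      have h4 := congrArg Prod.snd hm
      simp only [germCons, List.cons.injEq] at h3 h4
      exact Prod.ext h3.2 h4
    subst h1
    have h3 : (Quotient.mk (germSetoid T z) r) = Quotient.mk (germSetoid T z) r' :=
      Quotient.sound ⟨m, m', h2⟩
    exact congrArg (Prod.mk c) h3
  · intro w
    induction w using Quotient.inductionOn with | _ r =>
    have h1 : Quotient.mk (germSetoid T z) r = Quotient.mk (germSetoid T z) (germExp T z r) :=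
      Quotient.sound ⟨1, 0, rfl⟩
    obtain ⟨c, be, hc⟩ : ∃ c be, (germExp T z r).1 = c :: be := by
      cases h : (germExp T z r).1 with
      | nil =>
        exfalso
        simp only [germExp] at h
        simp at h
      | cons c be => exact ⟨c, be, rfl⟩
    refine ⟨(c, Quotient.mk (germSetoid T z) (be, (germExp T z r).2)), ?_⟩
    rw [h1]
    have h2 : germExp T z r = germCons c (be, (germExp T z r).2) := Prod.ext hc rfl
    exact (congrArg (Quotient.mk (germSetoid T z)) h2).symm

noncomputable def germMA (z : ℕ → Fin d) : MulAction H (GW T z) where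
  smul h w := germActW T z h w
  one_smul w := by
    induction w using Quotient.inductionOn with | _ r =>
    show Quotient.mk (germSetoid T z) (germAct T 1 r) = Quotient.mk (germSetoid T z) r
    congr 1
    simp only [germAct, germImg_one, germSec_one, one_mul]
  mul_smul g h w := by
    induction w using Quotient.inductionOn with | _ r =>
    show Quotient.mk (germSetoid T z) (germAct T (g * h) r) =
      Quotient.mk (germSetoid T z) (germAct T g (germAct T h r))
    congr 1
    simp only [germAct, germImg_mul, germSec_mul, mul_assoc]

noncomputable def germSS (z : ℕ → Fin d) : SSet T (GW T z) where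
  cons := Equiv.ofBijective _ (germConsW_bij T z)
  act := @MulAction.toPermHom H (GW T z) _ (germMA T z)
  act_cons g c w := by
    induction w using Quotient.inductionOn with | _ r =>
    rfl

theorem germ_it (z : ℕ → Fin d) (g : ℕ → H) (h2 : ∀ n, T.sec (g n) (z n) = g (n + 1)) (m : ℕ) :
    ((germExp T z)^[m] ([], 0, g 0)).2 = (m, g m) := by
  induction m with
  | zero => rfl
  | succ m ih =>
    rw [Function.iterate_succ_apply']
    simp only [germExp, ih, h2]

end GermAux

/-- a self-similar set on which a persistent element acts nontrivially -/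
theorem germ_exists {d : ℕ} (T : SS G d) (z : ℕ → Fin d) (g : ℕ → G)
    (h1 : ∀ n, T.act (g n) = 1) (h2 : ∀ n, T.sec (g n) (z n) = g (n + 1)) (h3 : ∀ n, g n ≠ 1) :
    ∃ (W : Type) (Ws : SSet T W), Ws.act (g 0) ≠ 1 := by
  refine ⟨GW T z, germSS T z, ?_⟩
  intro hcon
  have h4 : (germSS T z).act (g 0) (Quotient.mk (germSetoid T z) ([], 0, 1)) =
      Quotient.mk (germSetoid T z) ([], 0, 1) := by
    rw [hcon]; rfl
  have h5 : (germSS T z).act (g 0) (Quotient.mk (germSetoid T z) ([], 0, 1)) =
      Quotient.mk (germSetoid T z) ([], 0, g 0) := by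
    show Quotient.mk (germSetoid T z) (germAct T (g 0) ([], 0, 1)) =
      Quotient.mk (germSetoid T z) ([], 0, g 0)
    congr 1
    simp only [germAct, germImg, germSec, mul_one]
  rw [h5] at h4
  obtain ⟨m, m', hm⟩ := Quotient.exact (s := germSetoid T z) h4
  have h6 := congrArg Prod.snd hm
  rw [germ_it T z g h2 m, germ_it T z (fun _ => 1) (fun n => germ_sec_one T (z n)) m'] at h6
  exact h3 m (congrArg Prod.snd h6)

end

end Pool.Agent.H665Simp
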