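import Mathlib
import Pool.Agent.H665Simp.DefsA
import Pool.Agent.H665Simp.DefsD
import Pool.Agent.H665Simp.DefsG
import Pool.Agent.H665Simp.P_svec_basic

set_option autoImplicit false

namespace Pool.Agent.H665Simp

section
variable {nJ nQ B : ℕ} [NeZero B]


namespace PP16914

/-- automorphisms of the lattice -/
abbrev GL2 : Type := (ℤ × ℤ) ≃ₗ[ℤ] (ℤ × ℤ)

/-- The hyperbolic automorphisms of the lattice. -/
def Au (c : ℤ) : GL2 where
  toFun p := (c * p.1 + (c ^ 2 - 1) * p.2, p.1 + c * p.2)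
  invFun p := (c * p.1 - (c ^ 2 - 1) * p.2, -p.1 + c * p.2)
  left_inv p := by
    ext
    · simp only; ring
    · simp only; ring
  right_inv p := by
    ext
    · simp only; ring
    · simp only; ring
  map_add' p q := by
    ext
    · simp only [Prod.fst_add, Prod.snd_add]; ring
    · simp only [Prod.fst_add, Prod.snd_add]; ring
  map_smul' m p := by
    ext
    · simp only [Prod.smul_fst, Prod.smul_snd, smul_eq_mul, RingHom.id_apply]; ring
    · simp only [Prod.smul_fst, Prod.smul_snd, smul_eq_mul, RingHom.id_apply]; ring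

theorem Au_apply (c : ℤ) (p : ℤ × ℤ) :
    Au c p = (c * p.1 + (c ^ 2 - 1) * p.2, p.1 + c * p.2) := rfl

theorem Au_inv_apply (c : ℤ) (p : ℤ × ℤ) :
    (Au c)⁻¹ p = (c * p.1 - (c ^ 2 - 1) * p.2, -p.1 + c * p.2) := rfl

/-- nonzero vectors -/
abbrev Nz : Type := {p : ℤ × ℤ // p ≠ 0}

instance : MulAction GL2 Nz where
  smul g p := ⟨g p.1, by
    intro h
    apply p.2
    exact g.injective (by rw [h, map_zero])⟩
  one_smul p := rfl
  mul_smul g h p := rfl

theorem smul_val (g : GL2) (p : Nz) : (g • p).1 = g p.1 := rfl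

open scoped Function Pointwise in
/-- Different constants generate a free group. -/
theorem injective {ι : Type} [Nontrivial ι] (e : ι → ℕ) (he : Function.Injective e) :
    Function.Injective (FreeGroup.lift (fun i => Au (cst (e i)))) := by
  have hc : ∀ i, (3 : ℤ) ≤ cst (e i) := by
    intro i; unfold cst; push_cast; omega
  have hd : ∀ i j, i ≠ j → (cst (e i) : ℤ) + 3 ≤ cst (e j) ∨ (cst (e j) : ℤ) + 3 ≤ cst (e i) := by
    intro i j h
    have : e i ≠ e j := fun h' => h (he h')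
    unfold cst; push_cast; omega
  have hq : ∀ (c d p q : ℤ), c + 3 ≤ d → |p - c * q| ≤ |q| → |p - d * q| ≤ |q| →
      p = 0 ∧ q = 0 := by
    intro c d p q hcd h1 h2
    have h3 : |(d - c) * q| ≤ |q| + |q| := by
      have : (d - c) * q = (p - c * q) - (p - d * q) := by ring
      rw [this]
      exact (abs_sub _ _).trans (add_le_add h1 h2)
    rw [abs_mul, abs_of_nonneg (by omega : 0 ≤ d - c)] at h3
    have h4 : 0 ≤ |q| := abs_nonneg q
    have h5 : |q| = 0 := by nlinarith
    have h6 : q = 0 := abs_eq_zero.1 h5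
    subst h6
    simp at h1
    exact ⟨h1, rfl⟩
  refine FreeGroup.injective_lift_of_ping_pong (fun i => Au (cst (e i)))
    (α := Nz)
    (fun i => {p : Nz | |p.1.1 - cst (e i) * p.1.2| ≤ |p.1.2|})
    (fun i => {p : Nz | |p.1.1 + cst (e i) * p.1.2| < |p.1.2|}) ?_ ?_ ?_ ?_ ?_ ?_
  · intro i
    refine ⟨⟨(cst (e i), 1), by simp⟩, ?_⟩
    simp
  · intro i j hij
    rw [Function.onFun, Set.disjoint_left]
    rintro ⟨⟨p, q⟩, hp⟩ h1 h2
    simp only [Set.mem_ofPred_eq] at h1 h2
    apply hp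
    rcases hd i j hij with h | h
    · obtain ⟨h3, h4⟩ := hq _ _ p q h h1 h2
      rw [h3, h4]; rfl
    · obtain ⟨h3, h4⟩ := hq _ _ p q h h2 h1
      rw [h3, h4]; rfl
  · intro i j hij
    rw [Function.onFun, Set.disjoint_left]
    rintro ⟨⟨p, q⟩, hp⟩ h1 h2
    simp only [Set.mem_ofPred_eq] at h1 h2
    apply hp
    have e1 : ∀ c : ℤ, |p + c * q| = |-p - c * q| := by
      intro c
      rw [← abs_neg]
      congr 1
      ring
    rw [e1] at h1 h2
    rcases hd i j hij with h | h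
    · obtain ⟨h3, h4⟩ := hq _ _ (-p) q h h1.le h2.le
      rw [neg_eq_zero] at h3
      rw [h3, h4]; rfl
    · obtain ⟨h3, h4⟩ := hq _ _ (-p) q h h2.le h1.le
      rw [neg_eq_zero] at h3
      rw [h3, h4]; rfl
  · intro i j
    rw [Set.disjoint_left]
    rintro ⟨⟨p, q⟩, hp⟩ h1 h2
    simp only [Set.mem_ofPred_eq] at h1 h2
    apply hp
    have h3 : |((cst (e i) : ℤ) + cst (e j)) * q| ≤ |q| + |q| := by
      have : ((cst (e i) : ℤ) + cst (e j)) * q = (p + cst (e j) * q) - (p - cst (e i) * q) := by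
        ring
      rw [this]
      exact (abs_sub _ _).trans (add_le_add h2.le h1)
    have hi := hc i
    have hj := hc j
    rw [abs_mul, abs_of_nonneg (by omega : (0 : ℤ) ≤ (cst (e i) : ℤ) + cst (e j))] at h3
    have h4 : 0 ≤ |q| := abs_nonneg q
    have h5 : |q| = 0 := by nlinarith
    have h6 : q = 0 := abs_eq_zero.1 h5
    subst h6
    simp at h1
    rw [h1]; rfl
  · intro i
    rintro _ ⟨⟨⟨p, q⟩, hp⟩, h1, rfl⟩
    simp only [Set.mem_compl_iff, Set.mem_ofPred_eq, not_lt] at h1 ⊢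
    rw [smul_val, Au_apply]
    simp only
    have : (cst (e i) : ℤ) * p + ((cst (e i) : ℤ) ^ 2 - 1) * q - cst (e i) * (p + cst (e i) * q) =
      -q := by ring
    rw [this, abs_neg]
    exact h1
  · intro i
    rintro _ ⟨⟨⟨p, q⟩, hp⟩, h1, rfl⟩
    simp only [Set.mem_compl_iff, Set.mem_ofPred_eq, not_le, Pi.inv_apply] at h1 ⊢
    rw [smul_val, Au_inv_apply]
    simp only
    have e2 : (cst (e i) : ℤ) * p - ((cst (e i) : ℤ) ^ 2 - 1) * q + cst (e i) * (-p + cst (e i) * q) =
      q := by ring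
    have e3 : |-p + cst (e i) * q| = |p - cst (e i) * q| := by
      rw [← abs_neg]
      congr 1
      ring
    rw [e2, e3]
    exact h1


end PP16914

/-- the index type of the matrix letters -/
abbrev IA_16914 (nJ nQ : ℕ) : Type := {h : Lg nJ nQ // h.isA = true}

theorem idx_inj_16914 (nJ nQ : ℕ) :
    Function.Injective (fun i : IA_16914 nJ nQ => i.1.idx) := by
  rintro ⟨g, hg⟩ ⟨h, hh⟩ he
  apply Subtype.ext
  show g = h
  have he' : g.idx = h.idx := he
  cases g with
  | x j =>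
    cases h with
    | x j' =>
      have : (j : ℕ) = j' := he'
      rw [Fin.ext this]
    | a =>
      have : (j : ℕ) = nJ := he'
      exact absurd this j.2.ne
    | u _ => exact absurd hh (by simp [Lg.isA])
    | s _ => exact absurd hh (by simp [Lg.isA])
    | t _ => exact absurd hh (by simp [Lg.isA])
  | a =>
    cases h with
    | x j' =>
      have : nJ = (j' : ℕ) := he'
      exact absurd this.symm j'.2.ne
    | a => rfl
    | u _ => exact absurd hh (by simp [Lg.isA])
    | s _ => exact absurd hh (by simp [Lg.isA])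
    | t _ => exact absurd hh (by simp [Lg.isA])
  | u _ => exact absurd hg (by simp [Lg.isA])
  | s _ => exact absurd hg (by simp [Lg.isA])
  | t _ => exact absurd hg (by simp [Lg.isA])

/-- the matrix of a free word -/
noncomputable def M_16914 (nJ nQ : ℕ) : FreeGroup (IA_16914 nJ nQ) →* PP16914.GL2 :=
  FreeGroup.lift (fun i => PP16914.Au (cst i.1.idx))

/-- the element of the label group of a free word -/
noncomputable def W_16914 (nJ nQ : ℕ) : FreeGroup (IA_16914 nJ nQ) →* GG nJ nQ :=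
  FreeGroup.lift (fun i => gg i.1)

theorem rel_s_16914 (nJ nQ : ℕ) :
    (gg (Lg.s false) : GG nJ nQ) * gg (Lg.s true) = gg (Lg.s true) * gg (Lg.s false) := by
  have h : PresentedGroup.mk (relG nJ nQ) (FreeGroup.of (Lg.s false) * FreeGroup.of (Lg.s true) *
        (FreeGroup.of (Lg.s true) * FreeGroup.of (Lg.s false))⁻¹) = 1 :=
    PresentedGroup.one_of_mem (Or.inl rfl)
  rw [map_mul, map_inv, mul_inv_eq_one, map_mul, map_mul] at h
  exact h

theorem rel_a_16914 (nJ nQ : ℕ) (g : Lg nJ nQ) (hg : g.isA = true) (k : Bool) :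
    (gg g : GG nJ nQ) * gg (Lg.s k) =
      svec (fun k => (gg (Lg.s k) : GG nJ nQ)) (mA g.idx (b2i (!k), b2i k)) * gg g := by
  have h : PresentedGroup.mk (relG nJ nQ) (FreeGroup.of g * FreeGroup.of (Lg.s k) *
          (svec (fun k => FreeGroup.of (Lg.s k)) (mA g.idx (b2i (!k), b2i k)) *
            FreeGroup.of g)⁻¹) = 1 :=
    PresentedGroup.one_of_mem (Or.inr (Or.inr (Or.inl ⟨g, k, hg, rfl⟩)))
  rw [map_mul, map_inv, mul_inv_eq_one, map_mul, map_mul, svec_map] at h
  exact h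

theorem conj_16914 (nJ nQ : ℕ) (w : FreeGroup (IA_16914 nJ nQ)) : ∀ v : ℤ × ℤ,
    W_16914 nJ nQ w * svec (fun k => (gg (Lg.s k) : GG nJ nQ)) v =
      svec (fun k => (gg (Lg.s k) : GG nJ nQ)) (M_16914 nJ nQ w v) * W_16914 nJ nQ w := by
  have hof : ∀ (i : IA_16914 nJ nQ) (v : ℤ × ℤ),
      W_16914 nJ nQ (FreeGroup.of i) * svec (fun k => (gg (Lg.s k) : GG nJ nQ)) v =
      svec (fun k => (gg (Lg.s k) : GG nJ nQ)) (M_16914 nJ nQ (FreeGroup.of i) v) *
        W_16914 nJ nQ (FreeGroup.of i) := by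
    intro i v
    unfold W_16914 M_16914
    rw [FreeGroup.lift_apply_of, FreeGroup.lift_apply_of]
    exact svec_conj _ (rel_s_16914 nJ nQ) (gg i.1) i.1.idx (fun b => rel_a_16914 nJ nQ i.1 i.2 b) v
  induction w using FreeGroup.induction_on with
  | C1 =>
    intro v
    rw [map_one, map_one, one_mul, mul_one]
    rfl
  | of i =>
    exact hof i
  | inv_of i _ =>
    intro v
    have h3 := hof i (M_16914 nJ nQ (FreeGroup.of i)⁻¹ v)
    have h4 : M_16914 nJ nQ (FreeGroup.of i) (M_16914 nJ nQ (FreeGroup.of i)⁻¹ v) = v := by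
      have : (M_16914 nJ nQ (FreeGroup.of i) * M_16914 nJ nQ (FreeGroup.of i)⁻¹) v = v := by
        rw [← map_mul, mul_inv_cancel, map_one]
        rfl
      exact this
    rw [h4] at h3
    rw [map_inv (W_16914 nJ nQ), inv_mul_eq_iff_eq_mul, ← mul_assoc, h3, mul_assoc, mul_inv_cancel,
      mul_one]
  | mul a b ha hb =>
    intro v
    rw [map_mul, map_mul, mul_assoc, hb, ← mul_assoc, ha, mul_assoc]
    rfl

theorem svec_zero_16914 {Q : Type} [Group Q] (s : Bool → Q) : svec s 0 = 1 := by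
  unfold svec
  simp

theorem form_16914 (nJ nQ : ℕ) (g : GG nJ nQ)
    (hg : g ∈ Subgroup.closure {r : GG nJ nQ | ∃ h : Lg nJ nQ,
      (h.isA = true ∨ ∃ k, h = Lg.s k) ∧ r = gg h}) :
    ∃ (v : ℤ × ℤ) (w : FreeGroup (IA_16914 nJ nQ)),
      g = svec (fun k => (gg (Lg.s k) : GG nJ nQ)) v * W_16914 nJ nQ w := by
  induction hg using Subgroup.closure_induction with
  | mem x hx =>
    obtain ⟨h, hh, rfl⟩ := hx
    rcases hh with hh | ⟨k, rfl⟩
    · refine ⟨0, FreeGroup.of ⟨h, hh⟩, ?_⟩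
      rw [svec_zero_16914, one_mul]
      unfold W_16914
      rw [FreeGroup.lift_apply_of]
    · refine ⟨(b2i (!k), b2i k), 1, ?_⟩
      rw [map_one, mul_one]
      unfold svec
      cases k <;> simp [b2i]
  | one =>
    refine ⟨0, 1, ?_⟩
    rw [svec_zero_16914, map_one, one_mul]
  | mul x y _ _ hx hy =>
    obtain ⟨v, w, rfl⟩ := hx
    obtain ⟨v', w', rfl⟩ := hy
    refine ⟨v + M_16914 nJ nQ w v', w * w', ?_⟩
    rw [svec_add _ (rel_s_16914 nJ nQ), map_mul (W_16914 nJ nQ)]
    have := conj_16914 nJ nQ w v'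
    calc _ = svec (fun k => (gg (Lg.s k) : GG nJ nQ)) v *
          (W_16914 nJ nQ w * svec (fun k => (gg (Lg.s k) : GG nJ nQ)) v') * W_16914 nJ nQ w' := by group
      _ = _ := by rw [this]; group
  | inv x _ hx =>
    obtain ⟨v, w, rfl⟩ := hx
    refine ⟨M_16914 nJ nQ w⁻¹ (-v), w⁻¹, ?_⟩
    rw [← conj_16914 nJ nQ w⁻¹ (-v), mul_inv_rev, map_inv]
    congr 1
    rw [inv_eq_iff_mul_eq_one, ← svec_add _ (rel_s_16914 nJ nQ), add_neg_cancel, svec_zero_16914]

/-- permutations from automorphisms -/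
def P_16914 : PP16914.GL2 →* Equiv.Perm (ℤ × ℤ) where
  toFun g := g.toEquiv
  map_one' := rfl
  map_mul' _ _ := rfl

/-- translations as a homomorphism -/
def T_16914 : Multiplicative (ℤ × ℤ) →* Equiv.Perm (ℤ × ℤ) where
  toFun m := Equiv.addRight m.toAdd
  map_one' := by
    apply Equiv.ext
    intro z
    show z + 0 = z
    exact add_zero z
  map_mul' a b := by
    apply Equiv.ext
    intro z
    show z + (a.toAdd + b.toAdd) = z + b.toAdd + a.toAdd
    abel

theorem zp_16914 (c : ℤ × ℤ) (n : ℤ) :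
    (Equiv.addRight c : Equiv.Perm (ℤ × ℤ)) ^ n = Equiv.addRight (n • c) := by
  have h : (T_16914 (Multiplicative.ofAdd c)) ^ n = T_16914 (Multiplicative.ofAdd (n • c)) := by
    rw [← map_zpow, ofAdd_zsmul]
  exact h

theorem inj_A (nJ nQ : ℕ) (hJ : 1 ≤ nJ) (dA : GG nJ nQ →* Equiv.Perm (ℤ × ℤ))
    (h1 : ∀ g : Lg nJ nQ, g.isA = true → ∀ z, dA (gg g) z = mA g.idx z)
    (h2 : ∀ k z, dA (gg (Lg.s k)) z = z + (b2i (!k), b2i k)) (g : GG nJ nQ)
    (hg : g ∈ Subgroup.closure {r : GG nJ nQ | ∃ h : Lg nJ nQ,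
      (h.isA = true ∨ ∃ k, h = Lg.s k) ∧ r = gg h})
    (hd : dA g = 1) : g = 1 := by
  obtain ⟨v, w, rfl⟩ := form_16914 nJ nQ g hg
  have hW : ∀ w, dA (W_16914 nJ nQ w) = P_16914 (M_16914 nJ nQ w) := by
    have : dA.comp (W_16914 nJ nQ) = P_16914.comp (M_16914 nJ nQ) := by
      apply FreeGroup.ext_hom
      intro i
      show dA (W_16914 nJ nQ (FreeGroup.of i)) = P_16914 (M_16914 nJ nQ (FreeGroup.of i))
      unfold W_16914 M_16914
      rw [FreeGroup.lift_apply_of, FreeGroup.lift_apply_of]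
      apply Equiv.ext
      intro z
      rw [h1 i.1 i.2 z]
      rfl
    intro w
    exact DFunLike.congr_fun this w
  have hS : ∀ (v z : ℤ × ℤ), dA (svec (fun k => (gg (Lg.s k) : GG nJ nQ)) v) z = z + v := by
    intro v z
    rw [svec_map]
    have e : ∀ k, dA (gg (Lg.s k)) = Equiv.addRight (b2i (!k), b2i k) := by
      intro k
      apply Equiv.ext
      intro z
      rw [h2]
      rfl
    unfold svec
    show (dA (gg (Lg.s false)) ^ v.1 * dA (gg (Lg.s true)) ^ v.2) z = z + v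
    rw [e, e, zp_16914, zp_16914]
    show z + v.2 • (b2i (!true), b2i true) + v.1 • (b2i (!false), b2i false) = z + v
    apply Prod.ext
    · simp [b2i]
    · simp [b2i]
  have hv : v = 0 := by
    have h3 : dA (svec (fun k => (gg (Lg.s k) : GG nJ nQ)) v * W_16914 nJ nQ w) 0 = 0 := by
      rw [hd]; rfl
    rw [map_mul, Equiv.Perm.mul_apply, hS, hW] at h3
    have h4 : P_16914 (M_16914 nJ nQ w) 0 = 0 := by
      show (M_16914 nJ nQ w) 0 = 0
      exact map_zero _
    rw [h4, zero_add] at h3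
    exact h3
  subst hv
  rw [svec_zero_16914, one_mul] at hd ⊢
  rw [hW] at hd
  have h5 : M_16914 nJ nQ w = 1 := by
    apply LinearEquiv.toEquiv_injective
    exact hd
  haveI : Nontrivial (IA_16914 nJ nQ) := by
    refine ⟨⟨⟨Lg.x ⟨0, by omega⟩, rfl⟩, ⟨Lg.a, rfl⟩, ?_⟩⟩
    intro hc
    have := congrArg Subtype.val hc
    simp at this
  have h6 : w = 1 := by
    have hinj := PP16914.injective (ι := IA_16914 nJ nQ) (fun i => i.1.idx) (idx_inj_16914 nJ nQ)
    apply hinj
    rw [map_one]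
    exact h5
  rw [h6, map_one]

end

end Pool.Agent.H665Simp
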