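import Mathlib
import Pool.Agent.H665Simp.DefsA
import Pool.Agent.H665Simp.DefsD
import Pool.Agent.H665Simp.DefsG
import Pool.Agent.H665Simp.P_svec_basic

set_option autoImplicit false

namespace Pool.Agent.H665Simp

section
variable {nJ nQ B : ℕ} [NeZero B]


namespace PPX

/-- automorphisms of the lattice -/
abbrev GL2 : Type := (ℤ × ℤ) ≃ₗ[ℤ] (ℤ × ℤ)

/-- The hyperbolic automorphisms of the lattice. -/
def Au (c : ℤ) : GL2 where
  toFun p := (c * p.1 + (c ^ 2 - 1) * p.2, p.1 + c * p.2)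
  invFun p := (c * p.1 - (c ^ 2 - 1) * p.2, -p.1 + c * p.2)
  left_inv p := by
    ext
    · simp only; ring
    · simp only; ring
  right_inv p := by
    ext
    · simp only; ring
    · simp only; ring
  map_add' p q := by
    ext
    · simp only [Prod.fst_add, Prod.snd_add]; ring
    · simp only [Prod.fst_add, Prod.snd_add]; ring
  map_smul' m p := by
    ext
    · simp only [Prod.smul_fst, Prod.smul_snd, smul_eq_mul, RingHom.id_apply]; ring
    · simp only [Prod.smul_fst, Prod.smul_snd, smul_eq_mul, RingHom.id_apply]; ring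

theorem Au_apply (c : ℤ) (p : ℤ × ℤ) :
    Au c p = (c * p.1 + (c ^ 2 - 1) * p.2, p.1 + c * p.2) := rfl

theorem Au_inv_apply (c : ℤ) (p : ℤ × ℤ) :
    (Au c)⁻¹ p = (c * p.1 - (c ^ 2 - 1) * p.2, -p.1 + c * p.2) := rfl

/-- nonzero vectors -/
abbrev Nz : Type := {p : ℤ × ℤ // p ≠ 0}

instance : MulAction GL2 Nz where
  smul g p := ⟨g p.1, by
    intro h
    apply p.2
    exact g.injective (by rw [h, map_zero])⟩
  one_smul p := rfl
  mul_smul g h p := rfl

theorem smul_val (g : GL2) (p : Nz) : (g • p).1 = g p.1 := rfl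

/-- The base constants. -/
def cst (k : ℕ) : ℕ := 3 * (k + 1)

open scoped Function Pointwise in
/-- Different constants generate a free group. -/
theorem injective {ι : Type} [Nontrivial ι] (e : ι → ℕ) (he : Function.Injective e) :
    Function.Injective (FreeGroup.lift (fun i => Au (cst (e i)))) := by
  have hc : ∀ i, (3 : ℤ) ≤ cst (e i) := by
    intro i; unfold cst; push_cast; omega
  have hd : ∀ i j, i ≠ j → (cst (e i) : ℤ) + 3 ≤ cst (e j) ∨ (cst (e j) : ℤ) + 3 ≤ cst (e i) := by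
    intro i j h
    have : e i ≠ e j := fun h' => h (he h')
    unfold cst; push_cast; omega
  have hq : ∀ (c d p q : ℤ), c + 3 ≤ d → |p - c * q| ≤ |q| → |p - d * q| ≤ |q| →
      p = 0 ∧ q = 0 := by
    intro c d p q hcd h1 h2
    have h3 : |(d - c) * q| ≤ |q| + |q| := by
      have : (d - c) * q = (p - c * q) - (p - d * q) := by ring
      rw [this]
      exact (abs_sub _ _).trans (add_le_add h1 h2)
    rw [abs_mul, abs_of_nonneg (by omega : 0 ≤ d - c)] at h3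
    have h4 : 0 ≤ |q| := abs_nonneg q
    have h5 : |q| = 0 := by nlinarith
    have h6 : q = 0 := abs_eq_zero.1 h5
    subst h6
    simp at h1
    exact ⟨h1, rfl⟩
  refine FreeGroup.injective_lift_of_ping_pong (fun i => Au (cst (e i)))
    (α := Nz)
    (fun i => {p : Nz | |p.1.1 - cst (e i) * p.1.2| ≤ |p.1.2|})
    (fun i => {p : Nz | |p.1.1 + cst (e i) * p.1.2| < |p.1.2|}) ?_ ?_ ?_ ?_ ?_ ?_
  · intro i
    refine ⟨⟨(cst (e i), 1), by simp⟩, ?_⟩
    simp
  · intro i j hij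
    rw [Function.onFun, Set.disjoint_left]
    rintro ⟨⟨p, q⟩, hp⟩ h1 h2
    simp only [Set.mem_ofPred_eq] at h1 h2
    apply hp
    rcases hd i j hij with h | h
    · obtain ⟨h3, h4⟩ := hq _ _ p q h h1 h2
      rw [h3, h4]; rfl
    · obtain ⟨h3, h4⟩ := hq _ _ p q h h2 h1
      rw [h3, h4]; rfl
  · intro i j hij
    rw [Function.onFun, Set.disjoint_left]
    rintro ⟨⟨p, q⟩, hp⟩ h1 h2
    simp only [Set.mem_ofPred_eq] at h1 h2
    apply hp
    have e1 : ∀ c : ℤ, |p + c * q| = |-p - c * q| := by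
      intro c
      rw [← abs_neg]
      congr 1
      ring
    rw [e1] at h1 h2
    rcases hd i j hij with h | h
    · obtain ⟨h3, h4⟩ := hq _ _ (-p) q h h1.le h2.le
      rw [neg_eq_zero] at h3
      rw [h3, h4]; rfl
    · obtain ⟨h3, h4⟩ := hq _ _ (-p) q h h2.le h1.le
      rw [neg_eq_zero] at h3
      rw [h3, h4]; rfl
  · intro i j
    rw [Set.disjoint_left]
    rintro ⟨⟨p, q⟩, hp⟩ h1 h2
    simp only [Set.mem_ofPred_eq] at h1 h2
    apply hp
    have h3 : |((cst (e i) : ℤ) + cst (e j)) * q| ≤ |q| + |q| := by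
      have : ((cst (e i) : ℤ) + cst (e j)) * q = (p + cst (e j) * q) - (p - cst (e i) * q) := by
        ring
      rw [this]
      exact (abs_sub _ _).trans (add_le_add h2.le h1)
    have hi := hc i
    have hj := hc j
    rw [abs_mul, abs_of_nonneg (by omega : (0 : ℤ) ≤ (cst (e i) : ℤ) + cst (e j))] at h3
    have h4 : 0 ≤ |q| := abs_nonneg q
    have h5 : |q| = 0 := by nlinarith
    have h6 : q = 0 := abs_eq_zero.1 h5
    subst h6
    simp at h1
    rw [h1]; rfl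
  · intro i
    rintro _ ⟨⟨⟨p, q⟩, hp⟩, h1, rfl⟩
    simp only [Set.mem_compl_iff, Set.mem_ofPred_eq, not_lt] at h1 ⊢
    rw [smul_val, Au_apply]
    simp only
    have : (cst (e i) : ℤ) * p + ((cst (e i) : ℤ) ^ 2 - 1) * q - cst (e i) * (p + cst (e i) * q) =
      -q := by ring
    rw [this, abs_neg]
    exact h1
  · intro i
    rintro _ ⟨⟨⟨p, q⟩, hp⟩, h1, rfl⟩
    simp only [Set.mem_compl_iff, Set.mem_ofPred_eq, not_le, Pi.inv_apply] at h1 ⊢
    rw [smul_val, Au_inv_apply]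
    simp only
    have e2 : (cst (e i) : ℤ) * p - ((cst (e i) : ℤ) ^ 2 - 1) * q + cst (e i) * (-p + cst (e i) * q) =
      q := by ring
    have e3 : |-p + cst (e i) * q| = |p - cst (e i) * q| := by
      rw [← abs_neg]
      congr 1
      ring
    rw [e2, e3]
    exact h1

end PPX

/-- index of the free letters -/
def iuE (nJ nQ : ℕ) : Fin nJ ⊕ Fin nQ → ℕ
  | Sum.inl j => (j : ℕ)
  | Sum.inr i => nJ + (i : ℕ)

def iuL (nJ nQ : ℕ) : Fin nJ ⊕ Fin nQ → Lg nJ nQ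
  | Sum.inl j => Lg.x j
  | Sum.inr i => Lg.u i

theorem iuE_inj (nJ nQ : ℕ) : Function.Injective (iuE nJ nQ) := by
  intro a b h
  rcases a with a | a <;> rcases b with b | b <;> simp only [iuE] at h
  · rw [Fin.ext h]
  · have := a.2; omega
  · have := b.2; omega
  · have : (a : ℕ) = b := by omega
    rw [Fin.ext this]

theorem iuL_isU (nJ nQ : ℕ) (i : Fin nJ ⊕ Fin nQ) : (iuL nJ nQ i).isU = true := by
  rcases i with i | i <;> rfl

theorem iuL_idx (nJ nQ : ℕ) (i : Fin nJ ⊕ Fin nQ) : (iuL nJ nQ i).idx = iuE nJ nQ i := by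
  rcases i with i | i <;> rfl

theorem iuL_surj (nJ nQ : ℕ) (h : Lg nJ nQ) (hh : h.isU = true) : ∃ i, h = iuL nJ nQ i := by
  cases h with
  | x j => exact ⟨Sum.inl j, rfl⟩
  | u i => exact ⟨Sum.inr i, rfl⟩
  | a => simp [Lg.isU] at hh
  | s k => simp [Lg.isU] at hh
  | t k => simp [Lg.isU] at hh

/-- the translation generators -/
def iuT (nJ nQ : ℕ) (k : Bool) : GG nJ nQ := gg (Lg.t k)

theorem iuT_comm (nJ nQ : ℕ) : iuT nJ nQ false * iuT nJ nQ true = iuT nJ nQ true * iuT nJ nQ false := by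
  have h : (PresentedGroup.mk (relG nJ nQ)) (FreeGroup.of (Lg.t false) * FreeGroup.of (Lg.t true) *
        (FreeGroup.of (Lg.t true) * FreeGroup.of (Lg.t false))⁻¹) = 1 :=
    PresentedGroup.one_of_mem (Or.inr (Or.inl rfl))
  rw [map_mul, map_inv, mul_inv_eq_one, map_mul, map_mul] at h
  exact h

theorem iu_rel (nJ nQ : ℕ) (g : Lg nJ nQ) (hg : g.isU = true) (k : Bool) :
    gg g * iuT nJ nQ k = svec (iuT nJ nQ) (mA g.idx (b2i (!k), b2i k)) * gg g := by
  have h : (PresentedGroup.mk (relG nJ nQ)) (FreeGroup.of g * FreeGroup.of (Lg.t k) *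
          (svec (fun k => FreeGroup.of (Lg.t k)) (mA g.idx (b2i (!k), b2i k)) *
            FreeGroup.of g)⁻¹) = 1 :=
    PresentedGroup.one_of_mem (Or.inr (Or.inr (Or.inr ⟨g, k, hg, rfl⟩)))
  rw [map_mul, map_inv, mul_inv_eq_one, map_mul, map_mul, svec_map] at h
  exact h

/-- the free part -/
def iuW (nJ nQ : ℕ) : FreeGroup (Fin nJ ⊕ Fin nQ) →* GG nJ nQ :=
  FreeGroup.lift (fun i => gg (iuL nJ nQ i))

theorem iuW_of (nJ nQ : ℕ) (i : Fin nJ ⊕ Fin nQ) : iuW nJ nQ (FreeGroup.of i) = gg (iuL nJ nQ i) := by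
  unfold iuW
  rw [FreeGroup.lift_apply_of]

theorem iu_svec_zero {Q : Type} [Group Q] (s : Bool → Q) : svec s 0 = 1 := by
  unfold svec
  simp

theorem iu_mA_surj (k : ℕ) (v : ℤ × ℤ) : ∃ v', mA k v' = v := by
  refine ⟨((cst k : ℤ) * v.1 - ((cst k : ℤ) ^ 2 - 1) * v.2, -v.1 + (cst k : ℤ) * v.2), ?_⟩
  unfold mA
  ext
  · simp only; ring
  · simp only; ring

theorem iu_conj (nJ nQ : ℕ) (f : FreeGroup (Fin nJ ⊕ Fin nQ)) : ∀ v : ℤ × ℤ, ∃ v',
    iuW nJ nQ f * svec (iuT nJ nQ) v = svec (iuT nJ nQ) v' * iuW nJ nQ f := by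
  have hgen : ∀ i, ∀ v : ℤ × ℤ, iuW nJ nQ (FreeGroup.of i) * svec (iuT nJ nQ) v =
      svec (iuT nJ nQ) (mA (iuE nJ nQ i) v) * iuW nJ nQ (FreeGroup.of i) := by
    intro i v
    rw [iuW_of]
    apply svec_conj (iuT nJ nQ) (iuT_comm nJ nQ)
    intro b
    rw [← iuL_idx]
    exact iu_rel nJ nQ _ (iuL_isU nJ nQ i) b
  induction f using FreeGroup.induction_on with
  | C1 => intro v; exact ⟨v, by simp⟩
  | of i => intro v; exact ⟨_, hgen i v⟩
  | inv_of i _ =>
    intro v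
    obtain ⟨v', hv'⟩ := iu_mA_surj (iuE nJ nQ i) v
    refine ⟨v', ?_⟩
    have h := hgen i v'
    rw [hv'] at h
    rw [map_inv, inv_mul_eq_iff_eq_mul, ← mul_assoc, h, mul_inv_cancel_right]
  | mul f f' ih ih' =>
    intro v
    obtain ⟨v1, h1⟩ := ih' v
    obtain ⟨v2, h2⟩ := ih v1
    refine ⟨v2, ?_⟩
    rw [map_mul, mul_assoc, h1, ← mul_assoc, h2, mul_assoc]

theorem iu_form (nJ nQ : ℕ) (g : GG nJ nQ)
    (hg : g ∈ Subgroup.closure {r : GG nJ nQ | ∃ h : Lg nJ nQ,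
      (h.isU = true ∨ ∃ k, h = Lg.t k) ∧ r = gg h}) :
    ∃ (v : ℤ × ℤ) (f : FreeGroup (Fin nJ ⊕ Fin nQ)), g = svec (iuT nJ nQ) v * iuW nJ nQ f := by
  induction hg using Subgroup.closure_induction with
  | mem r hr =>
    obtain ⟨h, hh | ⟨k, hk⟩, rfl⟩ := hr
    · obtain ⟨i, rfl⟩ := iuL_surj nJ nQ h hh
      exact ⟨0, FreeGroup.of i, by rw [iu_svec_zero, one_mul, iuW_of]⟩
    · refine ⟨(b2i (!k), b2i k), 1, ?_⟩
      rw [map_one, mul_one, hk]
      cases k
      · simp [svec, b2i, iuT]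
      · simp [svec, b2i, iuT]
  | one => exact ⟨0, 1, by rw [iu_svec_zero, one_mul, map_one]⟩
  | mul a b _ _ iha ihb =>
    obtain ⟨v, f, rfl⟩ := iha
    obtain ⟨v', f', rfl⟩ := ihb
    obtain ⟨v'', h⟩ := iu_conj nJ nQ f v'
    refine ⟨v + v'', f * f', ?_⟩
    rw [svec_add _ (iuT_comm nJ nQ), map_mul]
    calc svec (iuT nJ nQ) v * iuW nJ nQ f * (svec (iuT nJ nQ) v' * iuW nJ nQ f') =
        svec (iuT nJ nQ) v * (iuW nJ nQ f * svec (iuT nJ nQ) v') * iuW nJ nQ f' := by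
          simp only [mul_assoc]
      _ = _ := by rw [h]; simp only [mul_assoc]
  | inv a _ iha =>
    obtain ⟨v, f, rfl⟩ := iha
    obtain ⟨v'', h⟩ := iu_conj nJ nQ f⁻¹ (-v)
    refine ⟨v'', f⁻¹, ?_⟩
    have hneg : (svec (iuT nJ nQ) v)⁻¹ = svec (iuT nJ nQ) (-v) := by
      rw [inv_eq_iff_mul_eq_one, ← svec_add _ (iuT_comm nJ nQ), add_neg_cancel, iu_svec_zero]
    rw [mul_inv_rev, hneg, ← map_inv, h]

theorem iu_zpow (w : ℤ × ℤ) (n : ℤ) :
    ∀ z, ((Equiv.addRight w : Equiv.Perm (ℤ × ℤ)) ^ n) z = z + n • w := by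
  induction n using Int.induction_on with
  | zero => intro z; simp
  | succ n ih =>
    intro z
    rw [zpow_add_one, Equiv.Perm.mul_apply, ih, add_smul, one_smul]
    show z + w + (n : ℤ) • w = _
    abel
  | pred n ih =>
    intro z
    rw [zpow_sub_one, Equiv.Perm.mul_apply, ih, sub_smul, one_smul]
    have h : (Equiv.addRight w : Equiv.Perm (ℤ × ℤ))⁻¹ z = z - w := by
      rw [Equiv.Perm.inv_eq_iff_eq]
      show z = z - w + w
      abel
    rw [h]
    abel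

/-- forgetting linearity -/
def iuP : PPX.GL2 →* Equiv.Perm (ℤ × ℤ) where
  toFun f := f.toEquiv
  map_one' := rfl
  map_mul' _ _ := rfl

theorem iuP_inj : Function.Injective iuP := by
  intro f g h
  apply LinearEquiv.ext
  intro z
  exact congrArg (fun p : Equiv.Perm (ℤ × ℤ) => p z) h

theorem inj_U (nJ nQ : ℕ) (hJ : 1 ≤ nJ) (hQ : 1 ≤ nQ) (dU : GG nJ nQ →* Equiv.Perm (ℤ × ℤ))
    (h1 : ∀ g : Lg nJ nQ, g.isU = true → ∀ z, dU (gg g) z = mA g.idx z)
    (h2 : ∀ k z, dU (gg (Lg.t k)) z = z + (b2i (!k), b2i k)) (g : GG nJ nQ)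
    (hg : g ∈ Subgroup.closure {r : GG nJ nQ | ∃ h : Lg nJ nQ,
      (h.isU = true ∨ ∃ k, h = Lg.t k) ∧ r = gg h})
    (hd : dU g = 1) : g = 1 := by
  have : Nonempty (Fin nJ) := ⟨⟨0, hJ⟩⟩
  have : Nonempty (Fin nQ) := ⟨⟨0, hQ⟩⟩
  have hnt : Nontrivial (Fin nJ ⊕ Fin nQ) :=
    ⟨⟨Sum.inl ⟨0, hJ⟩, Sum.inr ⟨0, hQ⟩, by simp⟩⟩
  obtain ⟨v, f, rfl⟩ := iu_form nJ nQ g hg
  have hhom : dU.comp (iuW nJ nQ) =
      iuP.comp (FreeGroup.lift (fun i => PPX.Au (PPX.cst (iuE nJ nQ i)))) := by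
    apply FreeGroup.ext_hom
    intro i
    rw [MonoidHom.comp_apply, MonoidHom.comp_apply, iuW_of, FreeGroup.lift_apply_of]
    apply Equiv.ext
    intro z
    rw [h1 _ (iuL_isU nJ nQ i), iuL_idx]
    rfl
  have hW : ∀ z, dU (iuW nJ nQ f) z =
      (FreeGroup.lift (fun i => PPX.Au (PPX.cst (iuE nJ nQ i))) f) z := by
    intro z
    have h := congrArg (fun q : FreeGroup (Fin nJ ⊕ Fin nQ) →* Equiv.Perm (ℤ × ℤ) => q f z) hhom
    exact h
  have hT : ∀ z, dU (svec (iuT nJ nQ) v) z = z + v := by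
    intro z
    have e : ∀ k, dU (iuT nJ nQ k) = Equiv.addRight (b2i (!k), b2i k) := by
      intro k
      apply Equiv.ext
      intro z
      exact h2 k z
    rw [svec_map]
    unfold svec
    simp only [e]
    rw [Equiv.Perm.mul_apply, iu_zpow, iu_zpow]
    ext
    · simp [b2i]
    · simp [b2i]
  have h0 : dU (svec (iuT nJ nQ) v * iuW nJ nQ f) 0 = 0 := by
    rw [hd]
    rfl
  rw [map_mul, Equiv.Perm.mul_apply, hT, hW, map_zero, zero_add] at h0
  have hv := h0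
  rw [hv, iu_svec_zero, one_mul] at hd ⊢
  have hf : FreeGroup.lift (fun i => PPX.Au (PPX.cst (iuE nJ nQ i))) f = 1 := by
    apply iuP_inj
    have h := congrArg (fun q : FreeGroup (Fin nJ ⊕ Fin nQ) →* Equiv.Perm (ℤ × ℤ) => q f) hhom
    simp only [MonoidHom.comp_apply] at h
    rw [← h, hd, map_one]
  have hf1 : f = 1 := by
    apply PPX.injective (iuE nJ nQ) (iuE_inj nJ nQ)
    rw [hf, map_one]
  rw [hf1, map_one]

end

end Pool.Agent.H665Simp
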