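import Mathlib
import Pool.Agent.H665Simp.DefsA
import Pool.Agent.H665Simp.DefsD
import Pool.Agent.H665Simp.DefsG
import Pool.Agent.H665Simp.P_svec_basic

set_option autoImplicit false

namespace Pool.Agent.H665Simp

section
variable {nJ nQ B : ℕ} [NeZero B]


theorem compat_gen (SL : GG nJ nQ →* Wr (Lt nJ nQ B) (GG nJ nQ))
    (d : GG nJ nQ →* Equiv.Perm (ℤ × ℤ)) (emb : Bool × Bool → Lt nJ nQ B)
    (hemb : Function.Injective emb)
    (hgen : ∀ (g : Lg nJ nQ) (r : Bool × Bool), ∃ r' : Bool × Bool,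
      (SL (gg g)).σ (emb r) = emb r' ∧
      ∀ z : ℤ × ℤ, d (gg g) (b2i r.1 + 2 * z.1, b2i r.2 + 2 * z.2) =
        (b2i r'.1 + 2 * (d ((SL (gg g)).f (emb r)) z).1,
         b2i r'.2 + 2 * (d ((SL (gg g)).f (emb r)) z).2))
    (g : GG nJ nQ) : ∀ r : Bool × Bool, ∃ r' : Bool × Bool,
      (SL g).σ (emb r) = emb r' ∧
      ∀ z : ℤ × ℤ, d g (b2i r.1 + 2 * z.1, b2i r.2 + 2 * z.2) =
        (b2i r'.1 + 2 * (d ((SL g).f (emb r)) z).1,
         b2i r'.2 + 2 * (d ((SL g).f (emb r)) z).2) := by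
  have hg : g ∈ Subgroup.closure (Set.range (PresentedGroup.of : Lg nJ nQ → GG nJ nQ)) := by
    rw [PresentedGroup.closure_range_of]; trivial
  induction hg using Subgroup.closure_induction with
  | mem x hx =>
    obtain ⟨c, rfl⟩ := hx
    exact hgen c
  | one =>
    intro r
    refine ⟨r, ?_, fun z => ?_⟩
    · rw [map_one]; rfl
    · rw [map_one, map_one, Wr.one_f, map_one]; rfl
  | mul a b _ _ ha hb =>
    intro r
    obtain ⟨r1, h1, h2⟩ := hb r
    obtain ⟨r2, h3, h4⟩ := ha r1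
    refine ⟨r2, ?_, fun z => ?_⟩
    · rw [map_mul, Wr.mul_σ, Equiv.Perm.mul_apply, h1, h3]
    · rw [map_mul, Equiv.Perm.mul_apply, h2 z, map_mul, Wr.mul_f, h1, map_mul,
        Equiv.Perm.mul_apply]
      exact h4 _
  | inv a _ ha =>
    intro r
    choose φ hφ1 hφ2 using ha
    have hinj : Function.Injective φ := by
      intro u v huv
      apply hemb
      apply (SL a).σ.injective
      rw [hφ1, hφ1, huv]
    have hsurj : Function.Surjective φ := Finite.surjective_of_injective hinj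
    obtain ⟨r', hr'⟩ := hsurj r
    have hσ : (SL a).σ⁻¹ (emb r) = emb r' := by
      rw [Equiv.Perm.inv_eq_iff_eq, hφ1, hr']
    refine ⟨r', ?_, fun z => ?_⟩
    · rw [map_inv, Wr.inv_σ, hσ]
    · rw [map_inv, map_inv, Wr.inv_f, hσ, map_inv, Equiv.Perm.inv_eq_iff_eq, hφ2 r']
      rw [hr']
      simp

theorem trans_zpow (e : Equiv.Perm (ℤ × ℤ)) (a : ℤ × ℤ) (h : ∀ z, e z = z + a) (n : ℤ) :
    ∀ z, (e ^ n) z = z + n • a := by
  induction n using Int.induction_on with
  | zero => intro z; simp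
  | succ n ih =>
    intro z
    rw [zpow_add_one, Equiv.Perm.mul_apply, ih, h, add_smul, one_smul]
    abel
  | pred n ih =>
    intro z
    have hi : e⁻¹ z = z - a := by
      rw [Equiv.Perm.inv_eq_iff_eq, h]; simp
    rw [zpow_sub_one, Equiv.Perm.mul_apply, ih, hi, sub_smul, one_smul]
    abel

theorem d_svec (d : GG nJ nQ →* Equiv.Perm (ℤ × ℤ)) (s : Bool → GG nJ nQ)
    (h2 : ∀ k z, d (s k) z = z + (b2i (!k), b2i k)) (v z : ℤ × ℤ) :
    d (svec s v) z = z + v := by
  rw [svec_map]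
  simp only [svec, Equiv.Perm.mul_apply]
  rw [trans_zpow _ _ (h2 true), trans_zpow _ _ (h2 false)]
  ext <;> simp [b2i]

theorem mA_red (k : ℕ) (r : Bool × Bool) :
    (mA k (b2i r.1, b2i r.2)).1 = b2i (mperm k r).1 + 2 * (quotM k r).1 ∧
    (mA k (b2i r.1, b2i r.2)).2 = b2i (mperm k r).2 + 2 * (quotM k r).2 := by
  have key : (mA k (b2i r.1, b2i r.2)).1 % 2 = b2i (mperm k r).1 ∧
      (mA k (b2i r.1, b2i r.2)).2 % 2 = b2i (mperm k r).2 := by
    unfold mperm mA
    generalize hc : cst k = c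
    split_ifs with h
    · obtain ⟨t, rfl⟩ : ∃ t, c = 2 * t := ⟨c / 2, by omega⟩
      have e : (((2 * t : ℕ) : ℤ)) ^ 2 - 1 = 2 * (2 * (t : ℤ) ^ 2 - 1) + 1 := by push_cast; ring
      rw [e]
      generalize (2 * (t : ℤ) ^ 2 - 1) = q
      rcases r with ⟨_ | _, _ | _⟩ <;> simp [b2i] <;> omega
    · obtain ⟨t, rfl⟩ : ∃ t, c = 2 * t + 1 := ⟨c / 2, by omega⟩
      have e : (((2 * t + 1 : ℕ) : ℤ)) ^ 2 - 1 = 2 * (2 * (t : ℤ) ^ 2 + 2 * t) := by push_cast; ring
      rw [e]
      generalize (2 * (t : ℤ) ^ 2 + 2 * t) = q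
      rcases r with ⟨_ | _, _ | _⟩ <;> simp [b2i] <;> omega
  obtain ⟨k1, k2⟩ := key
  unfold quotM
  constructor
  · simp only
    omega
  · simp only
    omega

theorem mA_split (k : ℕ) (r : Bool × Bool) (z : ℤ × ℤ) :
    mA k (b2i r.1 + 2 * z.1, b2i r.2 + 2 * z.2) =
      (b2i (mperm k r).1 + 2 * (mA k z + quotM k r).1,
       b2i (mperm k r).2 + 2 * (mA k z + quotM k r).2) := by
  obtain ⟨h1, h2⟩ := mA_red k r
  have e : mA k (b2i r.1 + 2 * z.1, b2i r.2 + 2 * z.2) =
    ((mA k (b2i r.1, b2i r.2)).1 + 2 * (mA k z).1, (mA k (b2i r.1, b2i r.2)).2 + 2 * (mA k z).2) := by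
    unfold mA
    ext <;> simp <;> ring
  rw [e, h1, h2]
  ext <;> simp <;> ring

theorem evG_svec (m : Mach nJ nQ B) (w : ℕ) (s : Bool → Lg nJ nQ) (v : ℤ × ℤ) (g : Lg nJ nQ) :
    evG m w (svec (fun k => wd (s k)) v * wd g) = svec (fun k => gg (s k)) v * gg g := by
  have hw : ∀ g : Lg nJ nQ, evG m w (wd g) = gg g := by
    intro g
    simp [evG, evO, wd]
  rw [map_mul, svec_map, hw]
  simp only [hw]

/-- the affine action is compatible with the first reader -/
theorem reader_compat_A (m : Mach nJ nQ B) (w : ℕ)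
    (SL : GG nJ nQ →* Wr (Lt nJ nQ B) (GG nJ nQ)) (h : IsSL m w SL)
    (dA : GG nJ nQ →* Equiv.Perm (ℤ × ℤ))
    (h1 : ∀ g : Lg nJ nQ, g.isA = true → ∀ z, dA (gg g) z = mA g.idx z)
    (h2 : ∀ k z, dA (gg (Lg.s k)) z = z + (b2i (!k), b2i k))
    (h3 : ∀ i, dA (gg (Lg.u i)) = 1) (h4 : ∀ k, dA (gg (Lg.t k)) = 1)
    (g : GG nJ nQ) (r : Bool × Bool) :
    ∃ r' : Bool × Bool, (SL g).σ (false, Sum.inl (Sum.inr (Sum.inl r)))
        = (false, Sum.inl (Sum.inr (Sum.inl r'))) ∧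
      ∀ z : ℤ × ℤ, dA g (b2i r.1 + 2 * z.1, b2i r.2 + 2 * z.2) =
        (b2i r'.1 + 2 * (dA ((SL g).f (false, Sum.inl (Sum.inr (Sum.inl r)))) z).1,
         b2i r'.2 + 2 * (dA ((SL g).f (false, Sum.inl (Sum.inr (Sum.inl r)))) z).2) := by
  refine compat_gen SL dA (fun r => (false, Sum.inl (Sum.inr (Sum.inl r)))) ?_ ?_ g r
  · intro a b hab
    simpa using hab
  · intro g r
    obtain ⟨hσ, hf⟩ := h g
    have hf' := hf (false, Sum.inl (Sum.inr (Sum.inl r)))
    rw [hσ, hf']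
    cases g with
    | x j =>
      refine ⟨mperm j r, ?_, fun z => ?_⟩
      · simp [actL, actB]
      · have e : secL m (Lg.x j) (false, Sum.inl (Sum.inr (Sum.inl r))) =
          svec (fun k => wd (.s k)) (quotM j r) * wd (.x j) := rfl
        rw [e, evG_svec m w Lg.s, map_mul, Equiv.Perm.mul_apply, h1 _ rfl, h1 _ rfl,
          d_svec dA (fun k => gg (Lg.s k)) h2]
        exact mA_split j r z
    | a =>
      refine ⟨mperm nJ r, ?_, fun z => ?_⟩
      · simp [actL, actB]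
      · have e : secL m (Lg.a : Lg nJ nQ) (false, Sum.inl (Sum.inr (Sum.inl r))) =
          svec (fun k => wd (.s k)) (quotM nJ r) * wd .a := rfl
        rw [e, evG_svec m w Lg.s, map_mul, Equiv.Perm.mul_apply, h1 _ rfl, h1 _ rfl,
          d_svec dA (fun k => gg (Lg.s k)) h2]
        exact mA_split nJ r z
    | u i =>
      refine ⟨r, ?_, fun z => ?_⟩
      · simp [actL, actB]
      · have e : secL m (Lg.u i : Lg nJ nQ) (false, Sum.inl (Sum.inr (Sum.inl r))) = 1 := rfl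
        rw [e, map_one, map_one, h3]
        rfl
    | s k =>
      refine ⟨tperm k r, ?_, fun z => ?_⟩
      · simp [actL, actB]
      · have e : secL m (Lg.s k : Lg nJ nQ) (false, Sum.inl (Sum.inr (Sum.inl r))) =
          if crd k r = true then wd (.s k) else 1 := rfl
        rw [e, h2]
        by_cases hc : crd k r = true
        · rw [if_pos hc]
          have hw : evG m w (wd (Lg.s k)) = gg (Lg.s k) := by simp [evG, evO, wd]
          rw [hw, h2]
          rcases r with ⟨_ | _, _ | _⟩ <;> cases k <;> simp [crd, tperm, b2i] at hc ⊢ <;> ring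
        · rw [if_neg hc, map_one, map_one]
          rcases r with ⟨_ | _, _ | _⟩ <;> cases k <;> simp [crd, tperm, b2i] at hc ⊢ <;> ring
    | t k =>
      refine ⟨r, ?_, fun z => ?_⟩
      · simp [actL, actB]
      · have e : secL m (Lg.t k : Lg nJ nQ) (false, Sum.inl (Sum.inr (Sum.inl r))) = 1 := rfl
        rw [e, map_one, map_one, h4]
        rfl

/-- the affine action is compatible with the second reader -/
theorem reader_compat_U (m : Mach nJ nQ B) (w : ℕ)
    (SL : GG nJ nQ →* Wr (Lt nJ nQ B) (GG nJ nQ)) (h : IsSL m w SL)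
    (dU : GG nJ nQ →* Equiv.Perm (ℤ × ℤ))
    (h1 : ∀ g : Lg nJ nQ, g.isU = true → ∀ z, dU (gg g) z = mA g.idx z)
    (h2 : ∀ k z, dU (gg (Lg.t k)) z = z + (b2i (!k), b2i k))
    (h3 : dU (gg Lg.a) = 1) (h4 : ∀ k, dU (gg (Lg.s k)) = 1)
    (g : GG nJ nQ) (r : Bool × Bool) :
    ∃ r' : Bool × Bool, (SL g).σ (false, Sum.inl (Sum.inr (Sum.inr r)))
        = (false, Sum.inl (Sum.inr (Sum.inr r'))) ∧
      ∀ z : ℤ × ℤ, dU g (b2i r.1 + 2 * z.1, b2i r.2 + 2 * z.2) =
        (b2i r'.1 + 2 * (dU ((SL g).f (false, Sum.inl (Sum.inr (Sum.inr r)))) z).1,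
         b2i r'.2 + 2 * (dU ((SL g).f (false, Sum.inl (Sum.inr (Sum.inr r)))) z).2) := by
  refine compat_gen SL dU (fun r => (false, Sum.inl (Sum.inr (Sum.inr r)))) ?_ ?_ g r
  · intro a b hab
    simpa using hab
  · intro g r
    obtain ⟨hσ, hf⟩ := h g
    have hf' := hf (false, Sum.inl (Sum.inr (Sum.inr r)))
    rw [hσ, hf']
    cases g with
    | x j =>
      refine ⟨mperm j r, ?_, fun z => ?_⟩
      · simp [actL, actB]
      · have e : secL m (Lg.x j) (false, Sum.inl (Sum.inr (Sum.inr r))) =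
          svec (fun k => wd (.t k)) (quotM j r) * wd (.x j) := rfl
        rw [e, evG_svec m w Lg.t, map_mul, Equiv.Perm.mul_apply, h1 _ rfl, h1 _ rfl,
          d_svec dU (fun k => gg (Lg.t k)) h2]
        exact mA_split j r z
    | a =>
      refine ⟨r, ?_, fun z => ?_⟩
      · simp [actL, actB]
      · have e : secL m (Lg.a : Lg nJ nQ) (false, Sum.inl (Sum.inr (Sum.inr r))) = 1 := rfl
        rw [e, map_one, map_one, h3]
        rfl
    | u i =>
      refine ⟨mperm (nJ + i) r, ?_, fun z => ?_⟩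
      · simp [actL, actB]
      · have e : secL m (Lg.u i : Lg nJ nQ) (false, Sum.inl (Sum.inr (Sum.inr r))) =
          svec (fun k => wd (.t k)) (quotM (nJ + i) r) * wd (.u i) := rfl
        rw [e, evG_svec m w Lg.t, map_mul, Equiv.Perm.mul_apply, h1 _ rfl, h1 _ rfl,
          d_svec dU (fun k => gg (Lg.t k)) h2]
        exact mA_split (nJ + i) r z
    | s k =>
      refine ⟨r, ?_, fun z => ?_⟩
      · simp [actL, actB]
      · have e : secL m (Lg.s k : Lg nJ nQ) (false, Sum.inl (Sum.inr (Sum.inr r))) = 1 := rfl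
        rw [e, map_one, map_one, h4]
        rfl
    | t k =>
      refine ⟨tperm k r, ?_, fun z => ?_⟩
      · simp [actL, actB]
      · have e : secL m (Lg.t k : Lg nJ nQ) (false, Sum.inl (Sum.inr (Sum.inr r))) =
          if crd k r = true then wd (.t k) else 1 := rfl
        rw [e, h2]
        by_cases hc : crd k r = true
        · rw [if_pos hc]
          have hw : evG m w (wd (Lg.t k)) = gg (Lg.t k) := by simp [evG, evO, wd]
          rw [hw, h2]
          rcases r with ⟨_ | _, _ | _⟩ <;> cases k <;> simp [crd, tperm, b2i] at hc ⊢ <;> ring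
        · rw [if_neg hc, map_one, map_one]
          rcases r with ⟨_ | _, _ | _⟩ <;> cases k <;> simp [crd, tperm, b2i] at hc ⊢ <;> ring

end

end Pool.Agent.H665Simp
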