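import Mathlib
import Pool.Agent.H665Simp.DefsA
import Pool.Agent.H665Simp.DefsB
import Pool.Agent.H665Simp.DefsD
import Pool.Agent.H665Simp.DefsG
import Pool.Agent.H665Simp.P_sl_exists
import Pool.Agent.H665Simp.P_ss_of_sl
import Pool.Agent.H665Simp.P_reader_compat

set_option autoImplicit false

namespace Pool.Agent.H665Simp

section
variable {nJ nQ B : ℕ} [NeZero B]


theorem dyadic_core {G : Type} (T : G → Prop) (d : G → ℤ × ℤ → ℤ × ℤ)
    (h : ∀ g, T g → ∀ r : Bool × Bool, ∃ g', T g' ∧ ∀ z : ℤ × ℤ,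
      d g (b2i r.1 + 2 * z.1, b2i r.2 + 2 * z.2) =
        (b2i r.1 + 2 * (d g' z).1, b2i r.2 + 2 * (d g' z).2))
    (g : G) (hg : T g) (z : ℤ × ℤ) : d g z = z := by
  have key : ∀ n : ℕ, ∀ g, T g → ∀ z : ℤ × ℤ,
      (2:ℤ) ^ n ∣ (d g z).1 - z.1 ∧ (2:ℤ) ^ n ∣ (d g z).2 - z.2 := by
    intro n
    induction n with
    | zero =>
      intro g _ z
      simp
    | succ n ih =>
      intro g hg z
      obtain ⟨g', hg', hz⟩ := h g hg (decide (z.1 % 2 = 1), decide (z.2 % 2 = 1))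
      have h1 := hz (z.1 / 2, z.2 / 2)
      have hb : ∀ a : ℤ, b2i (decide (a % 2 = 1)) + 2 * (a / 2) = a := by
        intro a
        unfold b2i
        rcases Int.emod_two_eq_zero_or_one a with h0 | h0
        · simp [h0]; omega
        · simp [h0]; omega
      simp only [hb] at h1
      have h2 := ih g' hg' (z.1 / 2, z.2 / 2)
      rw [show ((z.1, z.2) : ℤ × ℤ) = z from rfl] at h1
      rw [h1]
      have e1 : b2i (decide (z.1 % 2 = 1)) + 2 * (d g' (z.1 / 2, z.2 / 2)).1 - z.1 =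
          ((d g' (z.1 / 2, z.2 / 2)).1 - z.1 / 2) * 2 := by
        have := hb z.1
        linarith
      have e2 : b2i (decide (z.2 % 2 = 1)) + 2 * (d g' (z.1 / 2, z.2 / 2)).2 - z.2 =
          ((d g' (z.1 / 2, z.2 / 2)).2 - z.2 / 2) * 2 := by
        have := hb z.2
        linarith
      refine ⟨?_, ?_⟩
      · show (2:ℤ) ^ (n + 1) ∣ b2i (decide (z.1 % 2 = 1)) + 2 * (d g' (z.1 / 2, z.2 / 2)).1 - z.1
        rw [e1, pow_succ]
        exact mul_dvd_mul_right h2.1 2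
      · show (2:ℤ) ^ (n + 1) ∣ b2i (decide (z.2 % 2 = 1)) + 2 * (d g' (z.1 / 2, z.2 / 2)).2 - z.2
        rw [e2, pow_succ]
        exact mul_dvd_mul_right h2.2 2
  have hzero : ∀ a : ℤ, (∀ n : ℕ, (2:ℤ) ^ n ∣ a) → a = 0 := by
    intro a ha
    by_contra hne
    have h1 := ha a.natAbs
    have h2 := Int.le_of_dvd (abs_pos.2 hne) ((dvd_abs _ _).2 h1)
    have h3 : a.natAbs < 2 ^ a.natAbs := Nat.lt_two_pow_self
    have h4 : ((a.natAbs : ℕ) : ℤ) = |a| := Int.natCast_natAbs a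
    have h5 : ((a.natAbs : ℕ) : ℤ) < 2 ^ a.natAbs := by exact_mod_cast h3
    rw [h4] at h5
    linarith
  have h1 := hzero _ fun n => (key n g hg z).1
  have h2 := hzero _ fun n => (key n g hg z).2
  refine Prod.ext ?_ ?_
  · linarith
  · linarith

theorem triv_sec {G : Type} [Group G] {d : ℕ} {S : SS G d} {W : Type} (Ws : SSet S W) [Nonempty W]
    (g : G) (hg : Ws.act g = 1) (c : Fin d) : S.act g c = c ∧ Ws.act (S.sec g c) = 1 := by
  have h1 : ∀ w, (S.act g c, Ws.act (S.sec g c) w) = (c, w) := by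
    intro w
    have h2 := Ws.act_cons g c w
    rw [hg] at h2
    exact (Ws.cons.injective h2).symm
  refine ⟨congrArg Prod.fst (h1 (Classical.arbitrary W)), ?_⟩
  ext w
  exact congrArg Prod.snd (h1 w)

/-- elements acting trivially on infinite words have trivial affine actions -/
theorem triv_dA (m : Mach nJ nQ B) (w : ℕ) (e : ℕ) (q : Lt nJ nQ B ≃ Fin (e + 1))
    (S : SS (GG nJ nQ) (e + 1)) (hS : (DG m e q).IsSS w S)
    (Ws : SSet S (ℕ → Fin (e + 1))) (hs : IsSeq Ws) (dA : GG nJ nQ →* Equiv.Perm (ℤ × ℤ))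
    (h1 : ∀ g : Lg nJ nQ, g.isA = true → ∀ z, dA (gg g) z = mA g.idx z)
    (h2 : ∀ k z, dA (gg (Lg.s k)) z = z + (b2i (!k), b2i k))
    (h3 : ∀ i, dA (gg (Lg.u i)) = 1) (h4 : ∀ k, dA (gg (Lg.t k)) = 1)
    (g : GG nJ nQ) (hg : Ws.act g = 1) : dA g = 1 := by
  obtain ⟨SL, hSL⟩ := sl_exists m w
  ext z : 1
  refine dyadic_core (fun g => Ws.act g = 1) (fun g z => dA g z) ?_ g hg z
  intro g hg r
  obtain ⟨r', hr', hz⟩ := reader_compat_A m w SL hSL dA h1 h2 h3 h4 g r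
  obtain ⟨ha, hb⟩ := sl_of_ss m w e q S hS SL hSL g (false, Sum.inl (Sum.inr (Sum.inl r)))
  obtain ⟨hc, hd⟩ := triv_sec Ws g hg (q (false, Sum.inl (Sum.inr (Sum.inl r))))
  have hrr : r' = r := by
    have h5 := q.injective (hc.symm.trans ha)
    rw [hr'] at h5
    simp only [Prod.mk.injEq, Sum.inl.injEq, Sum.inr.injEq, true_and] at h5
    exact h5.symm
  subst hrr
  rw [hb] at hd
  exact ⟨_, hd, hz⟩

theorem triv_dU (m : Mach nJ nQ B) (w : ℕ) (e : ℕ) (q : Lt nJ nQ B ≃ Fin (e + 1))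
    (S : SS (GG nJ nQ) (e + 1)) (hS : (DG m e q).IsSS w S)
    (Ws : SSet S (ℕ → Fin (e + 1))) (hs : IsSeq Ws) (dU : GG nJ nQ →* Equiv.Perm (ℤ × ℤ))
    (h1 : ∀ g : Lg nJ nQ, g.isU = true → ∀ z, dU (gg g) z = mA g.idx z)
    (h2 : ∀ k z, dU (gg (Lg.t k)) z = z + (b2i (!k), b2i k))
    (h3 : dU (gg Lg.a) = 1) (h4 : ∀ k, dU (gg (Lg.s k)) = 1)
    (g : GG nJ nQ) (hg : Ws.act g = 1) : dU g = 1 := by
  obtain ⟨SL, hSL⟩ := sl_exists m w
  ext z : 1
  refine dyadic_core (fun g => Ws.act g = 1) (fun g z => dU g z) ?_ g hg z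
  intro g hg r
  obtain ⟨r', hr', hz⟩ := reader_compat_U m w SL hSL dU h1 h2 h3 h4 g r
  obtain ⟨ha, hb⟩ := sl_of_ss m w e q S hS SL hSL g (false, Sum.inl (Sum.inr (Sum.inr r)))
  obtain ⟨hc, hd⟩ := triv_sec Ws g hg (q (false, Sum.inl (Sum.inr (Sum.inr r))))
  have hrr : r' = r := by
    have h5 := q.injective (hc.symm.trans ha)
    rw [hr'] at h5
    simp only [Prod.mk.injEq, Sum.inl.injEq, Sum.inr.injEq, true_and] at h5
    exact h5.symm
  subst hrr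
  rw [hb] at hd
  exact ⟨_, hd, hz⟩

end

end Pool.Agent.H665Simp
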