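import Mathlib
import Pool.Agent.H665Simp.DefsA
import Pool.Agent.H665Simp.DefsB
import Pool.Agent.H665Simp.DefsD
import Pool.Agent.H665Simp.DefsG
import Pool.Agent.H665Simp.P_homs
import Pool.Agent.H665Simp.P_inj_A
import Pool.Agent.H665Simp.P_inj_U
import Pool.Agent.H665Simp.P_comm_dies
import Pool.Agent.H665Simp.P_triv_d
import Pool.Agent.H665Simp.P_ss_basic

set_option autoImplicit false

namespace Pool.Agent.H665Simp


theorem h208_cm_iff {H : Type} [Group H] (K : Subgroup H) [K.Normal] (a b : H) :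
    cm a b ∈ K ↔ QuotientGroup.mk' K a ∈ Subgroup.centralizer {QuotientGroup.mk' K b} := by
  rw [Subgroup.mem_centralizer_singleton_iff, ← map_mul, ← map_mul]
  show cm a b ∈ K ↔ ((a * b : H) : H ⧸ K) = ((b * a : H) : H ⧸ K)
  rw [eq_comm, QuotientGroup.eq]
  constructor
  · intro h
    have h2 := (inferInstance : K.Normal).conj_mem _ h (b * a)⁻¹
    have : (b * a)⁻¹ * cm a b * ((b * a)⁻¹)⁻¹ = (b * a)⁻¹ * (a * b) := by
      unfold cm; group
    rwa [this] at h2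
  · intro h
    have h2 := (inferInstance : K.Normal).conj_mem _ h (b * a)
    have : (b * a) * ((b * a)⁻¹ * (a * b)) * (b * a)⁻¹ = cm a b := by
      unfold cm; group
    rwa [this] at h2

theorem h208_cm_symm {H : Type} [Group H] (K : Subgroup H) (a b : H) (h : cm a b ∈ K) :
    cm b a ∈ K := by
  have := K.inv_mem h
  have h2 : (cm a b)⁻¹ = cm b a := by unfold cm; group
  rwa [h2] at this

theorem h208_comm_normal {H : Type} [Group H] (K : Subgroup H) [hK : K.Normal] (Y Z : Set H)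
    (h : ∀ g, ∀ y ∈ Y, ∀ z ∈ Z, cm y (g⁻¹ * z * g) ∈ K) :
    ∀ a ∈ Subgroup.normalClosure Y, ∀ b ∈ Subgroup.normalClosure Z, cm a b ∈ K := by
  have step1 : ∀ y ∈ Y, ∀ b ∈ Subgroup.normalClosure Z, cm y b ∈ K := by
    intro y hy b hb
    apply h208_cm_symm
    rw [h208_cm_iff, ← Subgroup.mem_comap]
    revert b
    change Subgroup.normalClosure Z ≤ _
    rw [Subgroup.normalClosure, Subgroup.closure_le]
    intro z hz
    rw [Group.mem_conjugatesOfSet_iff] at hz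
    obtain ⟨z0, hz0, hc⟩ := hz
    rw [isConj_iff] at hc
    obtain ⟨c, rfl⟩ := hc
    have h1 := h c⁻¹ y hy z0 hz0
    rw [inv_inv] at h1
    have h2 := h208_cm_symm K _ _ h1
    rw [h208_cm_iff] at h2
    exact h2
  intro a ha b hb
  rw [h208_cm_iff, ← Subgroup.mem_comap]
  revert a
  change Subgroup.normalClosure Y ≤ _
  rw [Subgroup.normalClosure, Subgroup.closure_le]
  intro y hy
  rw [Group.mem_conjugatesOfSet_iff] at hy
  obtain ⟨y0, hy0, hc⟩ := hy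
  rw [isConj_iff] at hc
  obtain ⟨c, rfl⟩ := hc
  have hb' : c⁻¹ * b * c ∈ Subgroup.normalClosure Z := by
    have := Subgroup.normalClosure_normal.conj_mem b hb c⁻¹
    rwa [inv_inv] at this
  have h1 := step1 y0 hy0 _ hb'
  have h2 := hK.conj_mem _ h1 c
  have h3 : c * cm y0 (c⁻¹ * b * c) * c⁻¹ = cm (c * y0 * c⁻¹) b := by
    unfold cm; group
  rw [h3] at h2
  rw [h208_cm_iff] at h2
  exact h2

/-- main group theory argument -/
theorem h208_main {H : Type} [Group H] (K : Subgroup H) [hK : K.Normal]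
    (NA NU A0 U0 : Subgroup H) [hNA : NA.Normal] [hNU : NU.Normal]
    (hcm : ∀ a ∈ NA, ∀ b ∈ NU, cm a b ∈ K)
    (hA : A0 ⊔ NU = ⊤) (hU : U0 ⊔ NA = ⊤)
    (Z : Set H) (hZ : NU = Subgroup.normalClosure Z) (hZU : Z ⊆ U0)
    (P : H → Prop)
    (kA : ∀ g, P g → ∀ α ∈ A0, ∀ υ ∈ NU, g = α * υ → α = 1)
    (kU : ∀ δ ∈ U0, ∀ κ ∈ K, P (δ * κ) → δ = 1)
    (g : H) (hg : P g) : g ∈ K := by
  have hgN : g ∈ NU := by
    have h1 : g ∈ A0 ⊔ NU := by rw [hA]; trivial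
    obtain ⟨α, hα, υ, hυ, rfl⟩ := Subgroup.mem_sup_of_normal_right.1 h1
    have := kA _ hg α hα υ hυ rfl
    rw [this, one_mul]
    exact hυ
  -- D is normal
  have hD : ((U0 ⊓ NU) ⊔ K).Normal := by
    constructor
    intro d hd n
    obtain ⟨δ, hδ, κ, hκ, rfl⟩ := Subgroup.mem_sup_of_normal_right.1 hd
    have h1 : n ∈ U0 ⊔ NA := by rw [hU]; trivial
    obtain ⟨υ, hυ, ν, hν, rfl⟩ := Subgroup.mem_sup_of_normal_right.1 h1
    have e1 : υ * ν * (δ * κ) * (υ * ν)⁻¹ =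
        (υ * ν * δ * (υ * ν)⁻¹) * ((υ * ν) * κ * (υ * ν)⁻¹) := by group
    rw [e1]
    apply Subgroup.mul_mem
    · have e2 : υ * ν * δ * (υ * ν)⁻¹ = (υ * cm ν δ * υ⁻¹) * (υ * δ * υ⁻¹) := by
        unfold cm; group
      rw [e2]
      apply Subgroup.mul_mem
      · apply Subgroup.mem_sup_right
        exact hK.conj_mem _ (hcm ν hν δ hδ.2) υ
      · apply Subgroup.mem_sup_left
        refine ⟨?_, hNU.conj_mem _ hδ.2 υ⟩
        exact U0.mul_mem (U0.mul_mem hυ hδ.1) (U0.inv_mem hυ)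
    · apply Subgroup.mem_sup_right
      exact hK.conj_mem _ hκ _
  have hNUD : NU ≤ (U0 ⊓ NU) ⊔ K := by
    conv_lhs => rw [hZ]
    apply Subgroup.normalClosure_le_normal
    intro z hz
    apply Subgroup.mem_sup_left
    refine ⟨hZU hz, ?_⟩
    rw [hZ]
    exact Subgroup.subset_normalClosure hz
  have hgD := hNUD hgN
  obtain ⟨δ, hδ, κ, hκ, rfl⟩ := Subgroup.mem_sup_of_normal_right.1 hgD
  have := kU δ hδ.1 κ hκ hg
  rw [this, one_mul]
  exact hκ

theorem h208_dies_act {G : Type} [Group G] {d : ℕ} {S : SS G d} {W : Type} (Ws : SSet S W)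
    (g : G) (h : S.Dies g) : Ws.act g = 1 := by
  induction h with
  | one => exact map_one _
  | step g h1 h2 ih =>
    ext w
    obtain ⟨⟨c, w'⟩, rfl⟩ := Ws.cons.surjective w
    rw [Ws.act_cons, h1, ih c]
    rfl


section
variable {nJ nQ B : ℕ} [NeZero B]
variable {G : Type} [Group G] {e : ℕ} {S : SS G (e + 1)} {Q : Type} [Group Q]


/-- if the machine halts from all configurations then elements acting trivially die -/
theorem good (m : Mach nJ nQ B) (w : ℕ) (hQ : 1 ≤ nQ) (e : ℕ) (q : Lt nJ nQ B ≃ Fin (e + 1))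
    (S : SS (GG nJ nQ) (e + 1)) (hS : (DG m e q).IsSS w S)
    (hh : ∀ c, HaltsF (m.stp w) c)
    (Ws : SSet S (ℕ → Fin (e + 1))) (hs : IsSeq Ws)
    (g : GG nJ nQ) (hg : Ws.act g = 1) : S.Dies g := by
  let K : Subgroup (GG nJ nQ) :=
    { carrier := {g | S.Dies g}
      mul_mem' := fun {a b} ha hb => dies_mul S a b ha hb
      one_mem' := SS.Dies.one
      inv_mem' := fun {a} ha => dies_inv S a ha }
  have hKmem : ∀ x, x ∈ K ↔ S.Dies x := fun x => Iff.rfl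
  have hK : K.Normal := ⟨fun n hn g => dies_conj S n g hn⟩
  let YA : Set (GG nJ nQ) := {r | ∃ y : Lg nJ nQ, (y = Lg.a ∨ ∃ k, y = Lg.s k) ∧ r = gg y}
  let ZU : Set (GG nJ nQ) :=
    {r | ∃ z : Lg nJ nQ, ((∃ i, z = Lg.u i) ∨ ∃ k, z = Lg.t k) ∧ r = gg z}
  let A0 : Subgroup (GG nJ nQ) := Subgroup.closure {r : GG nJ nQ | ∃ h : Lg nJ nQ,
      (h.isA = true ∨ ∃ k, h = Lg.s k) ∧ r = gg h}
  let U0 : Subgroup (GG nJ nQ) := Subgroup.closure {r : GG nJ nQ | ∃ h : Lg nJ nQ,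
      (h.isU = true ∨ ∃ k, h = Lg.t k) ∧ r = gg h}
  have hJ : 1 ≤ nJ := by
    have := m.pt.isLt
    omega
  obtain ⟨dA, dA1, dA2, dA3, dA4⟩ := dA_exists nJ nQ
  obtain ⟨dU, dU1, dU2, dU3, dU4⟩ := dU_exists nJ nQ
  have hcm : ∀ a ∈ Subgroup.normalClosure YA, ∀ b ∈ Subgroup.normalClosure ZU, cm a b ∈ K := by
    apply h208_comm_normal
    rintro g _ ⟨y, hy, rfl⟩ _ ⟨z, hz, rfl⟩
    exact comm_dies m w e q S hS hh g y z hy hz
  have hA : A0 ⊔ Subgroup.normalClosure ZU = ⊤ := by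
    rw [eq_top_iff, ← PresentedGroup.closure_range_of, Subgroup.closure_le]
    rintro _ ⟨y, rfl⟩
    cases y with
    | x j =>
      exact Subgroup.mem_sup_left (Subgroup.subset_closure ⟨_, Or.inl rfl, rfl⟩)
    | a => exact Subgroup.mem_sup_left (Subgroup.subset_closure ⟨_, Or.inl rfl, rfl⟩)
    | u i =>
      exact Subgroup.mem_sup_right (Subgroup.subset_normalClosure ⟨_, Or.inl ⟨i, rfl⟩, rfl⟩)
    | s k => exact Subgroup.mem_sup_left (Subgroup.subset_closure ⟨_, Or.inr ⟨k, rfl⟩, rfl⟩)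
    | t k =>
      exact Subgroup.mem_sup_right (Subgroup.subset_normalClosure ⟨_, Or.inr ⟨k, rfl⟩, rfl⟩)
  have hU : U0 ⊔ Subgroup.normalClosure YA = ⊤ := by
    rw [eq_top_iff, ← PresentedGroup.closure_range_of, Subgroup.closure_le]
    rintro _ ⟨y, rfl⟩
    cases y with
    | x j =>
      exact Subgroup.mem_sup_left (Subgroup.subset_closure ⟨_, Or.inl rfl, rfl⟩)
    | u i => exact Subgroup.mem_sup_left (Subgroup.subset_closure ⟨_, Or.inl rfl, rfl⟩)
    | a =>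
      exact Subgroup.mem_sup_right (Subgroup.subset_normalClosure ⟨_, Or.inl rfl, rfl⟩)
    | t k => exact Subgroup.mem_sup_left (Subgroup.subset_closure ⟨_, Or.inr ⟨k, rfl⟩, rfl⟩)
    | s k =>
      exact Subgroup.mem_sup_right (Subgroup.subset_normalClosure ⟨_, Or.inr ⟨k, rfl⟩, rfl⟩)
  have hZU : ZU ⊆ U0 := by
    rintro _ ⟨z, hz, rfl⟩
    rcases hz with ⟨i, rfl⟩ | ⟨k, rfl⟩
    · exact Subgroup.subset_closure ⟨_, Or.inl rfl, rfl⟩
    · exact Subgroup.subset_closure ⟨_, Or.inr ⟨k, rfl⟩, rfl⟩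
  have hker : Subgroup.normalClosure ZU ≤ dA.ker := by
    apply Subgroup.normalClosure_le_normal
    rintro _ ⟨z, hz, rfl⟩
    rcases hz with ⟨i, rfl⟩ | ⟨k, rfl⟩
    · exact dA3 i
    · exact dA4 k
  rw [← hKmem]
  refine h208_main K (Subgroup.normalClosure YA) (Subgroup.normalClosure ZU) A0 U0 hcm hA hU
    ZU rfl hZU (fun g => Ws.act g = 1) ?_ ?_ g hg
  · intro g hg α hα υ hυ hgeq
    have h1 : dA g = 1 := triv_dA m w e q S hS Ws hs dA dA1 dA2 dA3 dA4 g hg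
    have h2 : dA υ = 1 := hker hυ
    rw [hgeq, map_mul, h2, mul_one] at h1
    exact inj_A nJ nQ hJ dA dA1 dA2 α hα h1
  · intro δ hδ κ hκ hg
    have h1 : dU (δ * κ) = 1 := triv_dU m w e q S hS Ws hs dU dU1 dU2 dU3 dU4 _ hg
    have h2 : dU κ = 1 :=
      triv_dU m w e q S hS Ws hs dU dU1 dU2 dU3 dU4 _ (h208_dies_act Ws κ hκ)
    rw [map_mul, h2, mul_one] at h1
    exact inj_U nJ nQ hJ hQ dU dU1 dU2 δ hδ h1

end

end Pool.Agent.H665Simp
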