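import Mathlib
import Pool.Agent.H665Simp.DefsA
import Pool.Agent.H665Simp.DefsB
import Pool.Agent.H665Simp.P_leaf_basic

set_option autoImplicit false

namespace Pool.Agent.H665Simp

section
variable {G : Type} [Group G] {e : ℕ} {S : SS G (e + 1)} {W : Type}


theorem rel_A (Ws : SSet S W) (he : 3 ≤ e) (x p t : ℕ → Equiv.Perm W) (l : G → Equiv.Perm W)
    (T : TabR Ws x p t l) : ∀ i j, i < j → x j * x i = x i * x (j + e) := by
  intro i j hij
  have hje : j < (j + 1) * e := by nlinarith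
  refine perm_ext_leaf Ws (by omega) (j + 2) _ _ ?_ ?_
  · intro k w _
    rw [Equiv.Perm.mul_apply, Equiv.Perm.mul_apply]
    rcases lt_or_ge k i with hk | hk
    · rw [T.x1 i k w hk, T.x1 j k w (by omega), T.x1 (j + e) k w (by omega), T.x1 i k w hk]
    rcases Nat.lt_or_ge (i + e) k with hk2 | hk2
    · obtain ⟨k2, rfl⟩ : ∃ k2, k = k2 + e := ⟨k - e, by omega⟩
      rw [T.x3 i k2 w (by omega)]
      rcases lt_or_ge k2 j with hk3 | hk3
      · rw [T.x1 j k2 w hk3, T.x1 (j + e) (k2 + e) w (by omega), T.x3 i k2 w (by omega)]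
      rcases Nat.lt_or_ge (j + e) k2 with hk4 | hk4
      · obtain ⟨k3, rfl⟩ : ∃ k3, k2 = k3 + e := ⟨k2 - e, by omega⟩
        rw [T.x3 j k3 w (by omega), T.x3 (j + e) (k3 + e) w (by omega), T.x3 i k3 w (by omega)]
      · obtain ⟨c, rfl⟩ : ∃ c, k2 = j + c := ⟨k2 - j, by omega⟩
        have h1 : j + c + e = (j + e) + c := by omega
        rw [T.x2 j c w (by omega), h1, T.x2 (j + e) c w (by omega), T.x3 i j _ hij]
    · obtain ⟨c, rfl⟩ : ∃ c, k = i + c := ⟨k - i, by omega⟩
      rw [T.x2 i c w (by omega), T.x1 j i _ hij, T.x1 (j + e) (i + c) w (by omega),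
        T.x2 i c w (by omega)]
  · intro w
    rw [Equiv.Perm.mul_apply, Equiv.Perm.mul_apply]
    have h2 : (j + 1 + 1) * e = (j + 1) * e + e := by ring
    rw [T.x4 i (j + 1) w (by omega), T.x4 j j w hje, T.x4 (j + e) (j + 1) w (by omega),
      T.x4 i j w (by omega)]

end

end Pool.Agent.H665Simp
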