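import Mathlib
import Pool.Agent.H665Simp.DefsA
import Pool.Agent.H665Simp.DefsB
import Pool.Agent.H665Simp.P_leaf_basic

set_option autoImplicit false

namespace Pool.Agent.H665Simp

section
variable {G : Type} [Group G] {e : ℕ} {S : SS G (e + 1)} {W : Type}


theorem rel_B1 (Ws : SSet S W) (he : 3 ≤ e) (x p t : ℕ → Equiv.Perm W) (l : G → Equiv.Perm W)
    (T : TabR Ws x p t l) : ∀ i k, i < k → p k * x i = x i * p (k + e) := by
  intro i k hik
  have hM : k + 1 < (k + 1 + 1) * e := by nlinarith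
  have hM2 : i < (k + 1 + 1) * e := by omega
  apply perm_ext_leaf Ws (by omega) (k + 1 + 1)
  · intro j w _
    rw [Equiv.Perm.mul_apply, Equiv.Perm.mul_apply]
    rcases Nat.lt_or_ge j i with hj | hj
    · rw [T.x1 i j w hj, T.p3 k j w (by omega) (by omega), T.p3 (k + e) j w (by omega) (by omega),
        T.x1 i j w hj]
    · rcases Nat.lt_or_ge (i + e) j with hj2 | hj2
      · obtain ⟨m, rfl⟩ : ∃ m, j = m + e := ⟨j - e, by omega⟩
        have him : i < m := by omega
        rw [T.x3 i m w him]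
        by_cases h1 : m = k
        · subst h1
          rw [T.p1, T.p1]
          have h2 : m + e + 1 = (m + 1) + e := by omega
          rw [h2, T.x3 i (m + 1) w (by omega)]
        · by_cases h3 : m = k + 1
          · subst h3
            have h2 : k + 1 + e = k + e + 1 := by omega
            rw [T.p2, h2, T.p2, T.x3 i k w hik]
          · rw [T.p3 k m w h1 h3, T.p3 (k + e) (m + e) w (by omega) (by omega), T.x3 i m w him]
      · obtain ⟨c, rfl⟩ : ∃ c, j = i + c := ⟨j - i, by omega⟩
        rw [T.x2 i c w (by omega), T.p3 k i _ (by omega) (by omega),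
          T.p3 (k + e) (i + c) w (by omega) (by omega), T.x2 i c w (by omega)]
  · intro w
    have a1 : x i (Ws.spine (k + 1 + 1 + 1) w) = Ws.spine (k + 1 + 1) w := T.x4 i (k + 1) w hM2
    have a2 : p k (Ws.spine (k + 1 + 1) w) = Ws.spine (k + 1 + 1) w := T.p4 k (k + 1) w hM
    have a3 : p (k + e) (Ws.spine (k + 1 + 1 + 1) w) = Ws.spine (k + 1 + 1 + 1) w :=
      T.p4 (k + e) (k + 1 + 1) w (by nlinarith)
    rw [Equiv.Perm.mul_apply, Equiv.Perm.mul_apply, a1, a2, a3, a1]

theorem rel_B2 (Ws : SSet S W) (he : 3 ≤ e) (x p t : ℕ → Equiv.Perm W) (l : G → Equiv.Perm W)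
    (T : TabR Ws x p t l) : ∀ i k, k + 1 < i → p k * x i = x i * p k := by
  intro i k hik
  have hM : k + 1 < (i + 1 + 1) * e := by nlinarith
  have hM2 : i < (i + 1 + 1) * e := by nlinarith
  apply perm_ext_leaf Ws (by omega) (i + 1 + 1)
  · intro j w _
    rw [Equiv.Perm.mul_apply, Equiv.Perm.mul_apply]
    rcases Nat.lt_or_ge j i with hj | hj
    · rw [T.x1 i j w hj]
      by_cases h1 : j = k
      · subst h1
        rw [T.p1, T.x1 i (j + 1) w hik]
      · by_cases h3 : j = k + 1
        · subst h3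
          rw [T.p2, T.x1 i k w (by omega)]
        · rw [T.p3 k j w h1 h3, T.x1 i j w hj]
    · rw [T.p3 k j w (by omega) (by omega)]
      rcases Nat.lt_or_ge (i + e) j with hj2 | hj2
      · obtain ⟨m, rfl⟩ : ∃ m, j = m + e := ⟨j - e, by omega⟩
        have him : i < m := by omega
        rw [T.x3 i m w him, T.p3 k m w (by omega) (by omega)]
      · obtain ⟨c, rfl⟩ : ∃ c, j = i + c := ⟨j - i, by omega⟩
        rw [T.x2 i c w (by omega), T.p3 k i _ (by omega) (by omega)]
  · intro w
    have a1 : x i (Ws.spine (i + 1 + 1 + 1) w) = Ws.spine (i + 1 + 1) w := T.x4 i (i + 1) w hM2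
    have a2 : p k (Ws.spine (i + 1 + 1) w) = Ws.spine (i + 1 + 1) w := T.p4 k (i + 1) w hM
    have a3 : p k (Ws.spine (i + 1 + 1 + 1) w) = Ws.spine (i + 1 + 1 + 1) w :=
      T.p4 k (i + 1 + 1) w (by nlinarith)
    rw [Equiv.Perm.mul_apply, Equiv.Perm.mul_apply, a1, a2, a3, a1]

end

end Pool.Agent.H665Simp
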