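import Mathlib
import Pool.Agent.H665Simp.DefsA
import Pool.Agent.H665Simp.DefsB
import Pool.Agent.H665Simp.P_leaf_basic

set_option autoImplicit false

namespace Pool.Agent.H665Simp

section
variable {G : Type} [Group G] {e : ℕ} {S : SS G (e + 1)} {W : Type}


theorem rel_pr (Ws : SSet S W) (he : 3 ≤ e) (x p t : ℕ → Equiv.Perm W) (l : G → Equiv.Perm W)
    (T : TabR Ws x p t l) (i n : ℕ) :
    (∀ c w, c < n → pr p i n (Ws.lam (i + c) w) = Ws.lam (i + c + 1) w) ∧
    (∀ w, pr p i n (Ws.lam (i + n) w) = Ws.lam i w) ∧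
    (∀ k w, k < i → pr p i n (Ws.lam k w) = Ws.lam k w) ∧
    (∀ k w, i + n < k → pr p i n (Ws.lam k w) = Ws.lam k w) ∧
    (∀ M w, i + n < (M + 1) * e → pr p i n (Ws.spine (M + 1) w) = Ws.spine (M + 1) w) := by
  induction n with
  | zero =>
    have h0 : pr p i 0 = 1 := by simp [pr]
    rw [h0]
    refine ⟨fun c w hc => absurd hc (by omega), fun w => rfl, fun k w _ => rfl, fun k w _ => rfl,
      fun M w _ => rfl⟩
  | succ n ih =>
    obtain ⟨ih1, ih2, ih3, ih4, ih5⟩ := ih
    have hs : pr p i (n + 1) = pr p i n * p (i + n) := by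
      unfold pr
      rw [List.range_succ, List.map_append, List.prod_append]
      simp
    rw [hs]
    refine ⟨?_, ?_, ?_, ?_, ?_⟩
    · intro c w hc
      rw [Equiv.Perm.mul_apply]
      by_cases hcn : c = n
      · subst hcn
        rw [T.p1, ih4 _ _ (by omega)]
      · rw [T.p3 _ _ _ (by omega) (by omega), ih1 _ _ (by omega)]
    · intro w
      rw [Equiv.Perm.mul_apply, ← Nat.add_assoc, T.p2, ih2]
    · intro k w hk
      rw [Equiv.Perm.mul_apply, T.p3 _ _ _ (by omega) (by omega), ih3 _ _ hk]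
    · intro k w hk
      rw [Equiv.Perm.mul_apply, T.p3 _ _ _ (by omega) (by omega), ih4 _ _ (by omega)]
    · intro M w hM
      rw [Equiv.Perm.mul_apply, T.p4 _ _ _ (by omega), ih5 _ _ (by omega)]

theorem rel_B3 (Ws : SSet S W) (he : 3 ≤ e) (x p t : ℕ → Equiv.Perm W) (l : G → Equiv.Perm W)
    (T : TabR Ws x p t l) : ∀ i, p i * x i = x (i + 1) * pr p i (e + 1) := by
  intro i
  obtain ⟨h1, h2, h3, h4, h5⟩ := rel_pr Ws he x p t l T i (e + 1)
  have hb1 : i + 1 < (i + 5 + 1) * e := by nlinarith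
  have hb2 : i + (e + 1) < (i + 5 + 1 + 1) * e := by nlinarith
  apply perm_ext_leaf Ws (by omega) (i + 5 + 1)
  · intro k w hk
    rw [Equiv.Perm.mul_apply, Equiv.Perm.mul_apply]
    rcases lt_or_ge k i with hki | hki
    · rw [T.x1 _ _ _ hki, T.p3 _ _ _ (by omega) (by omega), h3 _ _ hki, T.x1 _ _ _ (by omega)]
    · obtain ⟨c, rfl⟩ := Nat.exists_eq_add_of_le hki
      rcases Nat.lt_or_ge c (e + 1) with hc | hc
      · rw [T.x2 _ _ _ (by omega), T.p1, h1 _ _ hc]
        have : i + c + 1 = (i + 1) + c := by omega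
        rw [this, T.x2 _ _ _ (by omega)]
      · rcases Nat.eq_or_lt_of_le hc with hc' | hc'
        · rw [← hc', h2, T.x1 (i + 1) i w (by omega)]
          have : i + (e + 1) = (i + 1) + e := by omega
          rw [this, T.x3 i (i + 1) w (by omega), T.p2]
        · rw [h4 _ _ (by omega)]
          obtain ⟨k2, hk2⟩ := Nat.exists_eq_add_of_le (show e ≤ i + c by omega)
          have : i + c = k2 + e := by omega
          rw [this, T.x3 _ _ _ (by omega), T.x3 _ _ _ (by omega), T.p3 _ _ _ (by omega) (by omega)]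
  · intro w
    rw [Equiv.Perm.mul_apply, Equiv.Perm.mul_apply, h5 _ _ hb2]
    rw [T.x4 _ _ _ (by omega), T.x4 _ _ _ (by omega), T.p4 _ _ _ (by omega)]

end

end Pool.Agent.H665Simp
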