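import Mathlib
import Pool.Agent.H665Simp.DefsA
import Pool.Agent.H665Simp.DefsB
import Pool.Agent.H665Simp.P_leaf_basic

set_option autoImplicit false

namespace Pool.Agent.H665Simp

section
variable {G : Type} [Group G] {e : ℕ} {S : SS G (e + 1)} {W : Type}


theorem rel_C1 (Ws : SSet S W) (he : 3 ≤ e) (x p t : ℕ → Equiv.Perm W) (l : G → Equiv.Perm W)
    (T : TabR Ws x p t l) : ∀ i, p i * p i = 1 := by
  intro i
  have hM : (i + 1) * 3 ≤ (i + 1) * e := Nat.mul_le_mul_left _ he
  apply perm_ext_leaf Ws (by omega) i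
  · intro k w _
    rw [Equiv.Perm.mul_apply, Equiv.Perm.one_apply]
    by_cases h1 : k = i
    · subst h1
      rw [T.p1, T.p2]
    · by_cases h2 : k = i + 1
      · subst h2
        rw [T.p2, T.p1]
      · rw [T.p3 i k w h1 h2, T.p3 i k w h1 h2]
  · intro w
    rw [Equiv.Perm.mul_apply, Equiv.Perm.one_apply, T.p4 i i w (by omega), T.p4 i i w (by omega)]

theorem rel_C2 (Ws : SSet S W) (he : 3 ≤ e) (x p t : ℕ → Equiv.Perm W) (l : G → Equiv.Perm W)
    (T : TabR Ws x p t l) : ∀ i, p i * p (i + 1) * p i = p (i + 1) * p i * p (i + 1) := by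
  intro i
  have hM : (i + 1) * 3 ≤ (i + 1) * e := Nat.mul_le_mul_left _ he
  apply perm_ext_leaf Ws (by omega) i
  · intro k w _
    simp only [Equiv.Perm.mul_apply]
    by_cases h1 : k = i
    · subst h1
      rw [T.p1, T.p1 (k + 1), T.p3 k (k + 1 + 1) w (by omega) (by omega),
        T.p3 (k + 1) k w (by omega) (by omega), T.p1, T.p1 (k + 1)]
    · by_cases h2 : k = i + 1
      · subst h2
        rw [T.p2 i, T.p3 (i + 1) i w (by omega) (by omega), T.p1 i, T.p1 (i + 1),
          T.p3 i (i + 1 + 1) w (by omega) (by omega), T.p2 (i + 1)]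
      · by_cases h3 : k = i + 1 + 1
        · subst h3
          rw [T.p3 i (i + 1 + 1) w (by omega) (by omega), T.p2 (i + 1), T.p2 i,
            T.p3 (i + 1) i w (by omega) (by omega)]
        · rw [T.p3 i k w h1 h2, T.p3 (i + 1) k w h2 h3, T.p3 i k w h1 h2, T.p3 (i + 1) k w h2 h3]
  · intro w
    simp only [Equiv.Perm.mul_apply]
    rw [T.p4 i i w (by omega), T.p4 (i + 1) i w (by omega), T.p4 i i w (by omega),
      T.p4 (i + 1) i w (by omega)]

theorem rel_C3 (Ws : SSet S W) (he : 3 ≤ e) (x p t : ℕ → Equiv.Perm W) (l : G → Equiv.Perm W)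
    (T : TabR Ws x p t l) : ∀ i j, i + 1 < j → p i * p j = p j * p i := by
  intro i j hij
  have hM : (j + 1) * 3 ≤ (j + 1) * e := Nat.mul_le_mul_left _ he
  apply perm_ext_leaf Ws (by omega) j
  · intro k w _
    simp only [Equiv.Perm.mul_apply]
    by_cases h1 : k = i
    · subst h1
      rw [T.p3 j k w (by omega) (by omega), T.p1 k, T.p3 j (k + 1) w (by omega) (by omega)]
    · by_cases h2 : k = i + 1
      · subst h2
        rw [T.p3 j (i + 1) w (by omega) (by omega), T.p2 i, T.p3 j i w (by omega) (by omega)]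
      · by_cases h3 : k = j
        · subst h3
          rw [T.p3 i k w h1 h2, T.p1 k, T.p3 i (k + 1) w (by omega) (by omega)]
        · by_cases h4 : k = j + 1
          · subst h4
            rw [T.p3 i (j + 1) w h1 h2, T.p2 j, T.p3 i j w (by omega) (by omega)]
          · rw [T.p3 i k w h1 h2, T.p3 j k w h3 h4, T.p3 i k w h1 h2]
  · intro w
    simp only [Equiv.Perm.mul_apply]
    rw [T.p4 i j w (by omega), T.p4 j j w (by omega), T.p4 i j w (by omega)]

end

end Pool.Agent.H665Simp
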