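import Mathlib
import Pool.Agent.H665Simp.DefsA
import Pool.Agent.H665Simp.DefsB
import Pool.Agent.H665Simp.P_leaf_basic

set_option autoImplicit false

namespace Pool.Agent.H665Simp

section
variable {G : Type} [Group G] {e : ℕ} {S : SS G (e + 1)} {W : Type}


theorem rel_L1 (Ws : SSet S W) (he : 3 ≤ e) (x p t : ℕ → Equiv.Perm W) (l : G → Equiv.Perm W)
    (T : TabR Ws x p t l) : ∀ i g, 1 ≤ i → l g * x i = x i * l g := by
  intro i g hi
  have hM : i < (i + 1) * e := by nlinarith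
  refine perm_ext_leaf Ws (by omega) (i + 1) _ _ ?_ ?_
  · intro k w _
    simp only [Equiv.Perm.mul_apply]
    rcases Nat.lt_or_ge k i with hk | hk
    · rw [T.x1 i k w hk]
      rcases Nat.eq_zero_or_pos k with rfl | hk0
      · rw [T.l1, T.x1 i 0 _ hk]
      · rw [T.l2 g k w hk0, T.x1 i k w hk]
    · rw [T.l2 g k w (by omega)]
      rcases Nat.lt_or_ge (i + e) k with hk2 | hk2
      · obtain ⟨k2, rfl⟩ : ∃ k2, k = k2 + e := ⟨k - e, by omega⟩
        rw [T.x3 i k2 w (by omega), T.l2 g k2 w (by omega)]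
      · obtain ⟨c, rfl⟩ : ∃ c, k = i + c := ⟨k - i, by omega⟩
        rw [T.x2 i c w (by omega), T.l2 g i _ hi]
  · intro w
    simp only [Equiv.Perm.mul_apply]
    rw [T.x4 i i w hM, T.l3 g (i + 1) w, T.x4 i i w hM, T.l3]

theorem rel_L2 (Ws : SSet S W) (he : 3 ≤ e) (x p t : ℕ → Equiv.Perm W) (l : G → Equiv.Perm W)
    (T : TabR Ws x p t l) : ∀ k g, 1 ≤ k → l g * p k = p k * l g := by
  intro k g hk
  have hM : k + 1 < (k + 1) * e := by nlinarith
  refine perm_ext_leaf Ws (by omega) k _ _ ?_ ?_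
  · intro j w _
    simp only [Equiv.Perm.mul_apply]
    by_cases h1 : j = k
    · subst h1
      rw [T.p1, T.l2 g j w hk, T.l2 g (j + 1) w (by omega), T.p1]
    · by_cases h2 : j = k + 1
      · subst h2
        rw [T.p2, T.l2 g k w hk, T.l2 g (k + 1) w (by omega), T.p2]
      · rw [T.p3 k j w h1 h2]
        rcases Nat.eq_zero_or_pos j with rfl | hj
        · rw [T.l1, T.p3 k 0 _ h1 h2]
        · rw [T.l2 g j w hj, T.p3 k j w h1 h2]
  · intro w
    simp only [Equiv.Perm.mul_apply]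
    rw [T.p4 k k w hM, T.l3, T.p4 k k w hM]

theorem rel_L3 (Ws : SSet S W) (he : 3 ≤ e) (x p t : ℕ → Equiv.Perm W) (l : G → Equiv.Perm W)
    (T : TabR Ws x p t l) : ∀ M g, l g * t M = t M * l g := by
  intro M g
  have hM : 3 ≤ (M + 1) * e := by nlinarith
  refine perm_ext_leaf Ws (by omega) M _ _ ?_ ?_
  · intro k w hk
    simp only [Equiv.Perm.mul_apply]
    rcases Nat.lt_or_ge (k + 1) ((M + 1) * e) with h1 | h1
    · rw [T.t3 M k w h1]
      rcases Nat.eq_zero_or_pos k with rfl | hk0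
      · rw [T.l1, T.t3 M 0 _ h1]
      · rw [T.l2 g k w hk0, T.t3 M k w h1]
    · have h2 : k = (M + 1) * e - 1 := by omega
      subst h2
      rw [T.t1, T.l3, T.l2 g _ w (by omega), T.t1]
  · intro w
    simp only [Equiv.Perm.mul_apply]
    rw [T.t2, T.l3, T.l2 g _ w (by omega), T.t2]

theorem rel_L4 (Ws : SSet S W) (he : 3 ≤ e) (x p t : ℕ → Equiv.Perm W) (l : G → Equiv.Perm W)
    (T : TabR Ws x p t l) :
    ∀ g h, l g * (p 0 * l h * p 0) = (p 0 * l h * p 0) * l g := by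
  intro g h
  have h0 : ∀ w, p 0 (Ws.lam 0 w) = Ws.lam 1 w := fun w => T.p1 0 w
  have h1 : ∀ w, p 0 (Ws.lam 1 w) = Ws.lam 0 w := fun w => T.p2 0 w
  have hs : ∀ w, p 0 (Ws.spine (0 + 1) w) = Ws.spine (0 + 1) w := fun w => T.p4 0 0 w (by omega)
  refine perm_ext_leaf Ws (by omega) 0 _ _ ?_ ?_
  · intro k w _
    simp only [Equiv.Perm.mul_apply]
    by_cases hk0 : k = 0
    · subst hk0
      rw [h0, T.l2 h 1 w le_rfl, h1, T.l1, h0, T.l2 h 1 _ le_rfl, h1]
    · by_cases hk1 : k = 1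
      · subst hk1
        rw [h1, T.l1, h0, T.l2 g 1 _ le_rfl, T.l2 g 1 _ le_rfl, h1, T.l1, h0]
      · rw [T.p3 0 k w hk0 (by omega), T.l2 h k w (by omega), T.p3 0 k w hk0 (by omega),
          T.l2 g k w (by omega), T.p3 0 k w hk0 (by omega), T.l2 h k w (by omega),
          T.p3 0 k w hk0 (by omega)]
  · intro w
    simp only [Equiv.Perm.mul_apply]
    rw [hs, T.l3, hs, T.l3, hs, T.l3, hs]

end

end Pool.Agent.H665Simp
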