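import Mathlib
import Pool.Agent.H665Simp.DefsA
import Pool.Agent.H665Simp.DefsB
import Pool.Agent.H665Simp.P_leaf_basic

set_option autoImplicit false

namespace Pool.Agent.H665Simp

section
variable {G : Type} [Group G] {e : ℕ} {S : SS G (e + 1)} {W : Type}


theorem L5_prod_fix {α : Type} (L : List (Equiv.Perm α)) (z : α) (h : ∀ f ∈ L, f z = z) :
    L.prod z = z := by
  induction L with
  | nil => rfl
  | cons f L ih =>
    rw [List.prod_cons, Equiv.Perm.mul_apply, ih (fun f' hf' => h f' (List.mem_cons_of_mem _ hf')),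
      h f List.mem_cons_self]

theorem L5_ofFn {α : Type} : ∀ (n : ℕ) (f : Fin n → Equiv.Perm α) (c : Fin n) (z z' : α),
    f c z = z' → (∀ c', c' ≠ c → f c' z = z) → (∀ c', c' ≠ c → f c' z' = z') →
    (List.ofFn f).prod z = z' := by
  intro n
  induction n with
  | zero => intro f c; exact c.elim0
  | succ n ih =>
    intro f c z z' h1 h2 h3
    rw [List.ofFn_succ, List.prod_cons, Equiv.Perm.mul_apply]
    induction c using Fin.cases with
    | zero =>
      rw [L5_prod_fix, h1]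
      intro f' hf'
      obtain ⟨i, rfl⟩ := (List.mem_ofFn' _ _).1 hf'
      exact h2 _ (Fin.succ_ne_zero i)
    | succ i =>
      rw [ih (fun i => f i.succ) i z z' h1
        (fun c' hc' => h2 _ (fun h => hc' (Fin.succ_injective _ h)))
        (fun c' hc' => h3 _ (fun h => hc' (Fin.succ_injective _ h)))]
      exact h3 _ (Fin.succ_ne_zero i).symm

theorem L5_lcf (Ws : SSet S W) (x p t : ℕ → Equiv.Perm W) (l : G → Equiv.Perm W)
    (T : TabR Ws x p t l) (h : G) (c : ℕ) :
    (∀ w, lcf p (l h) c (Ws.lam c w) = Ws.lam c (Ws.act h w)) ∧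
    (∀ k w, k ≠ c → lcf p (l h) c (Ws.lam k w) = Ws.lam k w) ∧
    (∀ M w, c < (M + 1) * e → lcf p (l h) c (Ws.spine (M + 1) w) = Ws.spine (M + 1) w) := by
  induction c with
  | zero =>
    refine ⟨fun w => T.l1 h w, fun k w hk => T.l2 h k w (by omega), fun M w _ => T.l3 h M w⟩
  | succ c ih =>
    obtain ⟨i1, i2, i3⟩ := ih
    refine ⟨fun w => ?_, fun k w hk => ?_, fun M w hM => ?_⟩
    · rw [lcf, Equiv.Perm.mul_apply, Equiv.Perm.mul_apply, T.p2, i1, T.p1]
    · rw [lcf, Equiv.Perm.mul_apply, Equiv.Perm.mul_apply]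
      by_cases hkc : k = c
      · subst hkc
        rw [T.p1, i2 _ _ (by omega), T.p2]
      · rw [T.p3 c k w hkc hk, i2 k w hkc, T.p3 c k w hkc hk]
    · rw [lcf, Equiv.Perm.mul_apply, Equiv.Perm.mul_apply, T.p4 c M w hM, i3 M w (by omega),
        T.p4 c M w hM]

theorem L5_ofNat (c : Fin (e + 1)) : Fin.ofNat (e + 1) (c : ℕ) = c := by
  apply Fin.ext
  rw [Fin.val_ofNat]
  exact Nat.mod_eq_of_lt c.2

theorem rel_L5 (Ws : SSet S W) (he : 3 ≤ e) (x p t : ℕ → Equiv.Perm W) (l : G → Equiv.Perm W)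
    (T : TabR Ws x p t l) (th : Equiv.Perm (Fin (e + 1)) →* Equiv.Perm W)
    (h1 : ∀ ρ (c : Fin (e + 1)) w, th ρ (Ws.lam c w) = Ws.lam (ρ c : Fin (e + 1)) w)
    (h2 : ∀ ρ k w, e < k → th ρ (Ws.lam k w) = Ws.lam k w)
    (h3 : ∀ ρ M w, th ρ (Ws.spine (M + 2) w) = Ws.spine (M + 2) w) (g : G) :
    l g * x 0 = x 0 * th (S.act g) *
      (List.ofFn (fun c : Fin (e + 1) => lcf p (l (S.sec g c)) c)).prod := by
  refine perm_ext_leaf Ws (by omega) 1 _ _ ?_ ?_
  · intro k w hk
    rw [Equiv.Perm.mul_apply, Equiv.Perm.mul_apply, Equiv.Perm.mul_apply]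
    rcases Nat.lt_or_ge e k with hek | hek
    · -- `e < k`
      have e1 : x 0 (Ws.lam k w) = Ws.lam (k - e) w := by
        have := T.x3 0 (k - e) w (by omega)
        rwa [Nat.sub_add_cancel hek.le] at this
      have e2 : (List.ofFn (fun c : Fin (e + 1) => lcf p (l (S.sec g c)) c)).prod (Ws.lam k w) =
          Ws.lam k w := by
        refine L5_prod_fix _ _ fun f hf => ?_
        obtain ⟨i, rfl⟩ := (List.mem_ofFn' _ _).1 hf
        have hi := i.2
        exact (L5_lcf Ws x p t l T _ _).2.1 k w (by omega)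
      rw [e1, T.l2 g _ w (by omega), e2, h2 _ k w hek, e1]
    · -- `k ≤ e`
      obtain ⟨c, rfl⟩ : ∃ c : Fin (e + 1), (c : ℕ) = k := ⟨⟨k, by omega⟩, rfl⟩
      have e1 : ∀ (c : Fin (e + 1)) w, x 0 (Ws.lam c w) = Ws.lam 0 (Ws.cn c w) := by
        intro c w
        have := T.x2 0 c w (by omega)
        rwa [Nat.zero_add] at this
      have e2 : (List.ofFn (fun c : Fin (e + 1) => lcf p (l (S.sec g c)) c)).prod (Ws.lam c w) =
          Ws.lam c (Ws.act (S.sec g c) w) := by
        refine L5_ofFn _ _ c _ _ ((L5_lcf Ws x p t l T _ _).1 w) ?_ ?_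
        · intro c' hc'
          exact (L5_lcf Ws x p t l T _ _).2.1 c w (fun h => hc' (Fin.ext h.symm))
        · intro c' hc'
          exact (L5_lcf Ws x p t l T _ _).2.1 c _ (fun h => hc' (Fin.ext h.symm))
      rw [e1, T.l1, e2, h1, e1]
      unfold SSet.cn
      rw [L5_ofNat, L5_ofNat, Ws.act_cons]
  · intro w
    rw [Equiv.Perm.mul_apply, Equiv.Perm.mul_apply, Equiv.Perm.mul_apply]
    have e1 : x 0 (Ws.spine (1 + 1) w) = Ws.spine (0 + 1) w := T.x4 0 0 w (by omega)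
    have e2 : (List.ofFn (fun c : Fin (e + 1) => lcf p (l (S.sec g c)) c)).prod
        (Ws.spine (1 + 1) w) = Ws.spine (1 + 1) w := by
      refine L5_prod_fix _ _ fun f hf => ?_
      obtain ⟨i, rfl⟩ := (List.mem_ofFn' _ _).1 hf
      have hi := i.2
      exact (L5_lcf Ws x p t l T _ _).2.2 1 w (by omega)
    have e3 : th (S.act g) (Ws.spine (1 + 1) w) = Ws.spine (1 + 1) w := h3 _ 0 w
    rw [e1, T.l3, e2, e3, e1]

end

end Pool.Agent.H665Simp
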