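import Mathlib
import Pool.Agent.H665Simp.DefsA
import Pool.Agent.H665Simp.DefsB
import Pool.Agent.H665Simp.P_leaf_basic
import Pool.Agent.H665Simp.P_rel_B3

set_option autoImplicit false

namespace Pool.Agent.H665Simp

section
variable {G : Type} [Group G] {e : ℕ} {S : SS G (e + 1)} {W : Type}


theorem rel_T1 (Ws : SSet S W) (he : 3 ≤ e) (x p t : ℕ → Equiv.Perm W) (l : G → Equiv.Perm W)
    (T : TabR Ws x p t l) :
    ∀ M i, i + 1 < (M + 1) * e → t M * x i = x i * t (M + 1) := by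
  intro M i hi
  have hM : (M + 1 + 1) * e = (M + 1) * e + e := by ring
  apply perm_ext_leaf Ws (by omega) (M + 1)
  · intro k w hk
    rw [Equiv.Perm.mul_apply, Equiv.Perm.mul_apply]
    rcases lt_or_ge k i with h1 | h1
    · rw [T.x1 i k w h1, T.t3 M k w (by omega), T.t3 (M + 1) k w (by omega), T.x1 i k w h1]
    · rcases le_or_gt k (i + e) with h2 | h2
      · obtain ⟨c, rfl⟩ := Nat.exists_eq_add_of_le h1
        have hc : c ≤ e := by omega
        rw [T.x2 i c w hc, T.t3 M i _ hi, T.t3 (M + 1) (i + c) w (by omega), T.x2 i c w hc]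
      · obtain ⟨k2, rfl⟩ : ∃ k2, k = k2 + e := ⟨k - e, by omega⟩
        have hk2 : i < k2 := by omega
        rw [T.x3 i k2 w hk2]
        rcases lt_or_ge (k2 + 1) ((M + 1) * e) with h3 | h3
        · rw [T.t3 M k2 w h3, T.t3 (M + 1) (k2 + e) w (by omega), T.x3 i k2 w hk2]
        · have h4 : k2 = (M + 1) * e - 1 := by omega
          have h5 : k2 + e = (M + 1 + 1) * e - 1 := by omega
          rw [h5, T.t1 (M + 1) w, h4, T.t1 M w, T.x4 i M w (by omega)]
  · intro w
    rw [Equiv.Perm.mul_apply, Equiv.Perm.mul_apply]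
    have h5 : (M + 1 + 1) * e - 1 = ((M + 1) * e - 1) + e := by omega
    rw [T.t2 (M + 1) w, h5, T.x3 i _ w (by omega)]
    have h6 : x i (Ws.spine (M + 1 + 1) w) = Ws.spine (M + 1) w := T.x4 i M w (by omega)
    rw [h6, T.t2 M w]

theorem rel_T2 (Ws : SSet S W) (he : 3 ≤ e) (x p t : ℕ → Equiv.Perm W) (l : G → Equiv.Perm W)
    (T : TabR Ws x p t l) :
    ∀ M, t M * x ((M + 1) * e - 1) = pr p ((M + 1) * e - 1) e * t (M + 1) := by
  intro M
  have hM : (M + 1 + 1) * e = (M + 1) * e + e := by ring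
  have hpos : e ≤ (M + 1) * e := Nat.le_mul_of_pos_left e (by omega)
  obtain ⟨i, hi⟩ : ∃ i, i = (M + 1) * e - 1 := ⟨_, rfl⟩
  obtain ⟨q1, q2, q3, q4, q5⟩ := rel_pr Ws he x p t l T i e
  rw [← hi]
  apply perm_ext_leaf Ws (by omega) (M + 1)
  · intro k w hk
    rw [Equiv.Perm.mul_apply, Equiv.Perm.mul_apply]
    rcases lt_or_ge k i with h1 | h1
    · rw [T.x1 i k w h1, T.t3 M k w (by omega), T.t3 (M + 1) k w (by omega), q3 k w h1]
    · obtain ⟨c, rfl⟩ := Nat.exists_eq_add_of_le h1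
      have hc : c ≤ e := by omega
      rw [T.x2 i c w hc]
      have h3 : t M (Ws.lam i (Ws.cn c w)) = Ws.spine (M + 1) (Ws.cn c w) := by
        rw [hi]; exact T.t1 M _
      rw [h3]
      rcases lt_or_eq_of_le hc with h4 | h4
      · rw [spine_cn Ws (by omega) M c h4 w, T.t3 (M + 1) (i + c) w (by omega), q1 c w h4]
        have h5 : (M + 1) * e + c = i + c + 1 := by omega
        rw [h5]
      · have h5 : i + c = (M + 1 + 1) * e - 1 := by omega
        rw [h5, T.t1 (M + 1) w, h4, ← spine_succ' Ws (M + 1) w]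
        exact (q5 (M + 1) w (by omega)).symm
  · intro w
    rw [Equiv.Perm.mul_apply, Equiv.Perm.mul_apply]
    have h6 : x i (Ws.spine (M + 1 + 1) w) = Ws.spine (M + 1) w := T.x4 i M w (by omega)
    have h7 : (M + 1 + 1) * e - 1 = i + e := by omega
    rw [h6, T.t2 M w, T.t2 (M + 1) w, h7, q2 w, hi]

end

end Pool.Agent.H665Simp
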