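import Mathlib
import Pool.Agent.H665Simp.DefsA
import Pool.Agent.H665Simp.DefsB
import Pool.Agent.H665Simp.P_leaf_basic

set_option autoImplicit false

namespace Pool.Agent.H665Simp

section
variable {G : Type} [Group G] {e : ℕ} {S : SS G (e + 1)} {W : Type}


theorem rel_T3 (Ws : SSet S W) (he : 3 ≤ e) (x p t : ℕ → Equiv.Perm W) (l : G → Equiv.Perm W)
    (T : TabR Ws x p t l) : ∀ M, t M * t M = 1 := by
  intro M
  have t1 := T.t1 M
  have t2 := T.t2 M
  have t3 := T.t3 M
  refine perm_ext_leaf Ws (by omega) M _ _ (fun k w hk => ?_) (fun w => ?_)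
  · rw [Equiv.Perm.mul_apply, Equiv.Perm.one_apply]
    by_cases h : k + 1 < (M + 1) * e
    · rw [t3 k w h, t3 k w h]
    · have hk2 : k = (M + 1) * e - 1 := by omega
      rw [hk2, t1, t2]
  · rw [Equiv.Perm.mul_apply, Equiv.Perm.one_apply, t2, t1]

theorem rel_T4 (Ws : SSet S W) (he : 3 ≤ e) (x p t : ℕ → Equiv.Perm W) (l : G → Equiv.Perm W)
    (T : TabR Ws x p t l) : ∀ M k, k + 2 < (M + 1) * e → p k * t M = t M * p k := by
  intro M k hk
  have t1 := T.t1 M
  have t2 := T.t2 M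
  have t3 := T.t3 M
  have p1 := T.p1
  have p2 := T.p2
  have p3 := T.p3
  have p4 := T.p4 k M
  refine perm_ext_leaf Ws (by omega) M _ _ (fun j w hj => ?_) (fun w => ?_)
  · rw [Equiv.Perm.mul_apply, Equiv.Perm.mul_apply]
    by_cases h1 : j = k
    · subst h1
      rw [t3 j w (by omega), p1, t3 _ w (by omega)]
    · by_cases h2 : j = k + 1
      · subst h2
        rw [t3 _ w (by omega), p2, t3 _ w (by omega)]
      · rw [p3 k j w h1 h2]
        by_cases h : j + 1 < (M + 1) * e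
        · rw [t3 j w h, p3 k j w h1 h2]
        · have hj2 : j = (M + 1) * e - 1 := by omega
          rw [hj2, t1, p4 w (by omega)]
  · rw [Equiv.Perm.mul_apply, Equiv.Perm.mul_apply, t2, p4 w (by omega), t2,
      p3 k _ w (by omega) (by omega)]

theorem rel_T5 (Ws : SSet S W) (he : 3 ≤ e) (x p t : ℕ → Equiv.Perm W) (l : G → Equiv.Perm W)
    (T : TabR Ws x p t l) :
    ∀ M, t M * p ((M + 1) * e - 2) * t M
      = p ((M + 1) * e - 2) * t M * p ((M + 1) * e - 2) := by
  intro M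
  have t1 := T.t1 M
  have t2 := T.t2 M
  have t3 := T.t3 M
  have p1 := T.p1
  have p2 := T.p2
  have p3 := T.p3
  have p4 := T.p4 ((M + 1) * e - 2) M
  have hN : 3 ≤ (M + 1) * e := by nlinarith
  obtain ⟨m, hm⟩ : ∃ m, (M + 1) * e = m + 2 := ⟨(M + 1) * e - 2, by omega⟩
  rw [hm] at t1 t2 t3 p4 ⊢
  have e1 : m + 2 - 2 = m := by omega
  have e2 : m + 2 - 1 = m + 1 := by omega
  rw [e1] at p4 ⊢
  rw [e2] at t1 t2
  refine perm_ext_leaf Ws (by omega) M _ _ (fun j w hj => ?_) (fun w => ?_)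
  · rw [hm] at hj
    simp only [Equiv.Perm.mul_apply]
    by_cases h1 : j = m
    · subst h1
      rw [t3 j w (by omega), p1, t1, p4 w (by omega)]
    · by_cases h2 : j = m + 1
      · subst h2
        rw [t1, p4 w (by omega), t2, p2, t3 _ w (by omega), p1]
      · rw [p3 m j w h1 h2, t3 j w (by omega), p3 m j w h1 h2, t3 j w (by omega)]
  · simp only [Equiv.Perm.mul_apply]
    rw [t2, p2, t3 _ w (by omega), p4 w (by omega), t2, p2]

end

end Pool.Agent.H665Simp
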