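import Mathlib
import Pool.Agent.H665Simp.DefsA
import Pool.Agent.H665Simp.DefsB
import Pool.Agent.H665Simp.P_cox_lift
import Pool.Agent.H665Simp.P_leaf_basic
import Pool.Agent.H665Simp.P_rel_C

set_option autoImplicit false

namespace Pool.Agent.H665Simp

section
variable {G : Type} [Group G] {e : ℕ} {S : SS G (e + 1)} {Q : Type} [Group Q]
variable {G : Type} [Group G] {e : ℕ} {S : SS G (e + 1)} {W : Type}


/-- the permutations of the `e+1` letters act on the first `e+1` leaves -/
theorem rel_th (Ws : SSet S W) (he : 3 ≤ e) (x p t : ℕ → Equiv.Perm W) (l : G → Equiv.Perm W)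
    (T : TabR Ws x p t l) : ∃ th : Equiv.Perm (Fin (e + 1)) →* Equiv.Perm W,
      (∀ c : Fin e, th (Equiv.swap c.castSucc c.succ) = p c) ∧
      (∀ ρ (c : Fin (e + 1)) w, th ρ (Ws.lam c w) = Ws.lam (ρ c : Fin (e + 1)) w) ∧
      (∀ ρ k w, e < k → th ρ (Ws.lam k w) = Ws.lam k w) ∧
      (∀ ρ M w, th ρ (Ws.spine (M + 2) w) = Ws.spine (M + 2) w) := by
  obtain ⟨th, hth⟩ := cox_lift e p (fun i _ => rel_C1 Ws he x p t l T i)
    (fun i _ => rel_C2 Ws he x p t l T i) (fun i j hij _ => rel_C3 Ws he x p t l T i j hij)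
  have key : ∀ ρ : Equiv.Perm (Fin (e + 1)),
      (∀ (c : Fin (e + 1)) w, th ρ (Ws.lam c w) = Ws.lam (ρ c : Fin (e + 1)) w) ∧
      (∀ k w, e < k → th ρ (Ws.lam k w) = Ws.lam k w) ∧
      (∀ M w, th ρ (Ws.spine (M + 2) w) = Ws.spine (M + 2) w) := by
    intro ρ
    have hρ : ρ ∈ Submonoid.closure (Set.range fun i : Fin e ↦ Equiv.swap i.castSucc i.succ) := by
      rw [Equiv.Perm.mclosure_swap_castSucc_succ]
      trivial
    induction hρ using Submonoid.closure_induction with
    | mem ρ h =>
      obtain ⟨c, rfl⟩ := h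
      dsimp only
      rw [hth]
      have hc := c.2
      refine ⟨fun d w => ?_, fun k w hk => ?_, fun M w => ?_⟩
      · by_cases h1 : d = c.castSucc
        · subst h1
          rw [Equiv.swap_apply_left]
          exact T.p1 c w
        · by_cases h2 : d = c.succ
          · subst h2
            rw [Equiv.swap_apply_right]
            exact T.p2 c w
          · rw [Equiv.swap_apply_of_ne_of_ne h1 h2]
            apply T.p3
            · intro h3
              exact h1 (Fin.ext h3)
            · intro h3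
              exact h2 (Fin.ext h3)
      · exact T.p3 c k w (by omega) (by omega)
      · refine T.p4 c (M + 1) w ?_
        have : 2 * e ≤ (M + 1 + 1) * e := Nat.mul_le_mul_right e (by omega)
        omega
    | one =>
      refine ⟨fun d w => ?_, fun k w hk => ?_, fun M w => ?_⟩ <;> rw [map_one] <;> rfl
    | mul a b _ _ ha hb =>
      refine ⟨fun d w => ?_, fun k w hk => ?_, fun M w => ?_⟩
      · rw [map_mul, Equiv.Perm.mul_apply, hb.1, ha.1, Equiv.Perm.mul_apply]
      · rw [map_mul, Equiv.Perm.mul_apply, hb.2.1 k w hk, ha.2.1 k w hk]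
      · rw [map_mul, Equiv.Perm.mul_apply, hb.2.2, ha.2.2]
  exact ⟨th, fun c => hth c, fun ρ => (key ρ).1, fun ρ => (key ρ).2.1, fun ρ => (key ρ).2.2⟩

end

end Pool.Agent.H665Simp
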