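import Mathlib
import Pool.Agent.H665Simp.DefsA
import Pool.Agent.H665Simp.DefsB

set_option autoImplicit false

namespace Pool.Agent.H665Simp

section
variable {G : Type} [Group G] {e : ℕ} {S : SS G (e + 1)} {W : Type}


/-- first letter -/
def tab_raw_hd (Ws : SSet S W) (z : W) : ℕ := ((Ws.cons.symm z).1 : ℕ)

/-- the rest -/
def tab_raw_tl (Ws : SSet S W) (z : W) : W := (Ws.cons.symm z).2

theorem tab_raw_hd_le (Ws : SSet S W) (z : W) : tab_raw_hd Ws z ≤ e :=
  Nat.lt_succ_iff.1 (Ws.cons.symm z).1.2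

theorem tab_raw_hd_cn (Ws : SSet S W) {k : ℕ} (hk : k ≤ e) (w : W) : tab_raw_hd Ws (Ws.cn k w) = k := by
  unfold tab_raw_hd SSet.cn
  rw [Equiv.symm_apply_apply]
  show k % (e + 1) = k
  exact Nat.mod_eq_of_lt (Nat.lt_succ_of_le hk)

theorem tab_raw_tl_cn (Ws : SSet S W) (k : ℕ) (w : W) : tab_raw_tl Ws (Ws.cn k w) = w := by
  unfold tab_raw_tl SSet.cn
  rw [Equiv.symm_apply_apply]

theorem tab_raw_eta (Ws : SSet S W) (z : W) : Ws.cn (tab_raw_hd Ws z) (tab_raw_tl Ws z) = z := by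
  unfold tab_raw_hd tab_raw_tl SSet.cn
  have h : Fin.ofNat (e + 1) ((Ws.cons.symm z).1 : ℕ) = (Ws.cons.symm z).1 := by
    apply Fin.ext
    show ((Ws.cons.symm z).1 : ℕ) % (e + 1) = _
    exact Nat.mod_eq_of_lt (Ws.cons.symm z).1.2
  rw [h]
  exact Ws.cons.apply_symm_apply z

theorem tab_raw_cases (Ws : SSet S W) (z : W) : ∃ c w, c ≤ e ∧ z = Ws.cn c w :=
  ⟨_, _, tab_raw_hd_le Ws z, (tab_raw_eta Ws z).symm⟩

/-- `f` under the letter `a` -/
def tab_raw_U (Ws : SSet S W) (a : ℕ) (f : Equiv.Perm W) : Equiv.Perm W where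
  toFun z := if tab_raw_hd Ws z = a then Ws.cn a (f (tab_raw_tl Ws z)) else z
  invFun z := if tab_raw_hd Ws z = a then Ws.cn a (f.symm (tab_raw_tl Ws z)) else z
  left_inv z := by
    beta_reduce
    by_cases h : tab_raw_hd Ws z = a
    · have ha : a ≤ e := h ▸ tab_raw_hd_le Ws z
      rw [if_pos h, if_pos (tab_raw_hd_cn Ws ha _), tab_raw_tl_cn, Equiv.symm_apply_apply]
      conv_lhs => rw [← h]
      exact tab_raw_eta Ws z
    · rw [if_neg h, if_neg h]
  right_inv z := by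
    beta_reduce
    by_cases h : tab_raw_hd Ws z = a
    · have ha : a ≤ e := h ▸ tab_raw_hd_le Ws z
      rw [if_pos h, if_pos (tab_raw_hd_cn Ws ha _), tab_raw_tl_cn, Equiv.apply_symm_apply]
      conv_lhs => rw [← h]
      exact tab_raw_eta Ws z
    · rw [if_neg h, if_neg h]

theorem tab_raw_U_same (Ws : SSet S W) {a : ℕ} (ha : a ≤ e) (f : Equiv.Perm W) (w : W) :
    tab_raw_U Ws a f (Ws.cn a w) = Ws.cn a (f w) := by
  show (if tab_raw_hd Ws (Ws.cn a w) = a then Ws.cn a (f (tab_raw_tl Ws (Ws.cn a w))) else Ws.cn a w) = _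
  rw [if_pos (tab_raw_hd_cn Ws ha _), tab_raw_tl_cn]

theorem tab_raw_U_other (Ws : SSet S W) {a k : ℕ} (hk : k ≤ e) (hka : k ≠ a) (f : Equiv.Perm W) (w : W) :
    tab_raw_U Ws a f (Ws.cn k w) = Ws.cn k w := by
  show (if tab_raw_hd Ws (Ws.cn k w) = a then Ws.cn a (f (tab_raw_tl Ws (Ws.cn k w))) else Ws.cn k w) = _
  rw [if_neg]
  rwa [tab_raw_hd_cn Ws hk]

/-- the homomorphism `f ↦ f under the letter a` -/
def tab_raw_Uhom (Ws : SSet S W) (a : ℕ) (ha : a ≤ e) : Equiv.Perm W →* Equiv.Perm W where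
  toFun := tab_raw_U Ws a
  map_one' := by
    apply Equiv.ext
    intro z
    obtain ⟨c, w, hc, rfl⟩ := tab_raw_cases Ws z
    by_cases h : c = a
    · subst h; rw [tab_raw_U_same Ws hc]; rfl
    · rw [tab_raw_U_other Ws hc h]; rfl
  map_mul' f g := by
    apply Equiv.ext
    intro z
    obtain ⟨c, w, hc, rfl⟩ := tab_raw_cases Ws z
    rw [Equiv.Perm.mul_apply]
    by_cases h : c = a
    · subst h; rw [tab_raw_U_same Ws hc, tab_raw_U_same Ws hc, tab_raw_U_same Ws hc]; rfl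
    · rw [tab_raw_U_other Ws hc h, tab_raw_U_other Ws hc h, tab_raw_U_other Ws hc h]

theorem tab_raw_spine_succ (Ws : SSet S W) (N : ℕ) (w : W) :
    Ws.spine (N + 1) w = Ws.cn e (Ws.spine N w) := by
  unfold SSet.spine
  rw [Function.iterate_succ_apply']

theorem tab_raw_spine_zero (Ws : SSet S W) (w : W) : Ws.spine 0 w = w := rfl

theorem tab_raw_lam_lt (Ws : SSet S W) {k : ℕ} (hk : k < e) (w : W) : Ws.lam k w = Ws.cn k w := by
  unfold SSet.lam
  rw [Nat.div_eq_of_lt hk, Nat.mod_eq_of_lt hk]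
  rfl

theorem tab_raw_lam_add (Ws : SSet S W) (he : 0 < e) (k : ℕ) (w : W) :
    Ws.lam (k + e) w = Ws.cn e (Ws.lam k w) := by
  unfold SSet.lam
  rw [Nat.add_div_right _ he, Nat.add_mod_right]
  exact tab_raw_spine_succ Ws _ _

theorem tab_raw_hd_lam (Ws : SSet S W) (he : 0 < e) (k : ℕ) (w : W) :
    tab_raw_hd Ws (Ws.lam k w) = min k e := by
  rcases lt_or_ge k e with h | h
  · rw [tab_raw_lam_lt Ws h, tab_raw_hd_cn Ws h.le, min_eq_left h.le]
  · obtain ⟨j, rfl⟩ := Nat.exists_eq_add_of_le' h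
    rw [tab_raw_lam_add Ws he, tab_raw_hd_cn Ws le_rfl, min_eq_right h]

/-- the generator `x_i` for `i < e`, as a function -/
def tab_raw_X (Ws : SSet S W) (i : ℕ) (z : W) : W :=
  if tab_raw_hd Ws z < i then z
  else if tab_raw_hd Ws z < e then Ws.cn i (Ws.cn (tab_raw_hd Ws z - i) (tab_raw_tl Ws z))
  else if tab_raw_hd Ws (tab_raw_tl Ws z) ≤ i then
    Ws.cn i (Ws.cn (tab_raw_hd Ws (tab_raw_tl Ws z) + e - i) (tab_raw_tl Ws (tab_raw_tl Ws z)))
  else tab_raw_tl Ws z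

/-- its inverse -/
def tab_raw_Y (Ws : SSet S W) (i : ℕ) (z : W) : W :=
  if tab_raw_hd Ws z < i then z
  else if tab_raw_hd Ws z = i then
    (if tab_raw_hd Ws (tab_raw_tl Ws z) + i < e then
      Ws.cn (tab_raw_hd Ws (tab_raw_tl Ws z) + i) (tab_raw_tl Ws (tab_raw_tl Ws z))
    else Ws.cn e (Ws.cn (tab_raw_hd Ws (tab_raw_tl Ws z) + i - e) (tab_raw_tl Ws (tab_raw_tl Ws z))))
  else Ws.cn e z

theorem tab_raw_X1 (Ws : SSet S W) {i c : ℕ} (hi : i < e) (hc : c < i) (w : W) :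
    tab_raw_X Ws i (Ws.cn c w) = Ws.cn c w := by
  unfold tab_raw_X
  rw [tab_raw_hd_cn Ws (by omega), if_pos hc]

theorem tab_raw_X2 (Ws : SSet S W) {i c : ℕ} (hc : i ≤ c) (hc' : c < e) (w : W) :
    tab_raw_X Ws i (Ws.cn c w) = Ws.cn i (Ws.cn (c - i) w) := by
  unfold tab_raw_X
  rw [tab_raw_hd_cn Ws (by omega), tab_raw_tl_cn, if_neg (by omega), if_pos hc']

theorem tab_raw_X3 (Ws : SSet S W) {i c : ℕ} (hi : i < e) (hc : c ≤ i) (w : W) :
    tab_raw_X Ws i (Ws.cn e (Ws.cn c w)) = Ws.cn i (Ws.cn (c + e - i) w) := by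
  unfold tab_raw_X
  rw [tab_raw_hd_cn Ws le_rfl, tab_raw_tl_cn, tab_raw_hd_cn Ws (by omega), tab_raw_tl_cn, if_neg (by omega),
    if_neg (by omega), if_pos hc]

theorem tab_raw_X4 (Ws : SSet S W) {i : ℕ} (hi : i < e) (z : W) (hz : i < tab_raw_hd Ws z) :
    tab_raw_X Ws i (Ws.cn e z) = z := by
  unfold tab_raw_X
  rw [tab_raw_hd_cn Ws le_rfl, tab_raw_tl_cn, if_neg (by omega), if_neg (by omega), if_neg (by omega)]

theorem tab_raw_Y1 (Ws : SSet S W) {i c : ℕ} (hi : i < e) (hc : c < i) (w : W) :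
    tab_raw_Y Ws i (Ws.cn c w) = Ws.cn c w := by
  unfold tab_raw_Y
  rw [tab_raw_hd_cn Ws (by omega), if_pos hc]

theorem tab_raw_Y2 (Ws : SSet S W) {i c : ℕ} (hi : i < e) (hc : c + i < e) (w : W) :
    tab_raw_Y Ws i (Ws.cn i (Ws.cn c w)) = Ws.cn (c + i) w := by
  unfold tab_raw_Y
  rw [tab_raw_hd_cn Ws (by omega), tab_raw_tl_cn, tab_raw_hd_cn Ws (by omega), tab_raw_tl_cn,
    if_neg (by omega), if_pos rfl, if_pos hc]

theorem tab_raw_Y3 (Ws : SSet S W) {i c : ℕ} (hi : i < e) (hc0 : c ≤ e) (hc : e ≤ c + i) (w : W) :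
    tab_raw_Y Ws i (Ws.cn i (Ws.cn c w)) = Ws.cn e (Ws.cn (c + i - e) w) := by
  unfold tab_raw_Y
  rw [tab_raw_hd_cn Ws (by omega), tab_raw_tl_cn, tab_raw_hd_cn Ws (by omega), tab_raw_tl_cn,
    if_neg (by omega), if_pos rfl, if_neg (by omega)]

theorem tab_raw_Y4 (Ws : SSet S W) {i : ℕ} (z : W) (hz : i < tab_raw_hd Ws z) :
    tab_raw_Y Ws i z = Ws.cn e z := by
  unfold tab_raw_Y
  rw [if_neg (by omega), if_neg (by omega)]

/-- the permutation `x_i` for `i < e` -/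
def tab_raw_x0 (Ws : SSet S W) (i : ℕ) (hi : i < e) : Equiv.Perm W where
  toFun := tab_raw_X Ws i
  invFun := tab_raw_Y Ws i
  left_inv z := by
    obtain ⟨c, w, hc, rfl⟩ := tab_raw_cases Ws z
    rcases lt_or_ge c i with h1 | h1
    · rw [tab_raw_X1 Ws hi h1, tab_raw_Y1 Ws hi h1]
    · rcases hc.lt_or_eq with h2 | h2
      · rw [tab_raw_X2 Ws h1 h2, tab_raw_Y2 Ws hi (by omega), Nat.sub_add_cancel h1]
      · subst h2
        obtain ⟨c', v, hc', rfl⟩ := tab_raw_cases Ws w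
        rcases le_or_gt c' i with h3 | h3
        · rw [tab_raw_X3 Ws hi h3, tab_raw_Y3 Ws hi (by omega) (by omega)]
          congr 2
          omega
        · rw [tab_raw_X4 Ws hi _ (by rw [tab_raw_hd_cn Ws hc']; exact h3),
            tab_raw_Y4 Ws _ (by rw [tab_raw_hd_cn Ws hc']; exact h3)]
  right_inv z := by
    obtain ⟨c, w, hc, rfl⟩ := tab_raw_cases Ws z
    rcases lt_trichotomy c i with h1 | h1 | h1
    · rw [tab_raw_Y1 Ws hi h1, tab_raw_X1 Ws hi h1]
    · subst h1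
      obtain ⟨c', v, hc', rfl⟩ := tab_raw_cases Ws w
      rcases lt_or_ge (c' + c) e with h2 | h2
      · rw [tab_raw_Y2 Ws hi h2, tab_raw_X2 Ws (by omega) h2, Nat.add_sub_cancel]
      · rw [tab_raw_Y3 Ws hi hc' h2, tab_raw_X3 Ws hi (by omega)]
        congr 2
        omega
    · rw [tab_raw_Y4 Ws _ (by rw [tab_raw_hd_cn Ws hc]; exact h1),
        tab_raw_X4 Ws hi _ (by rw [tab_raw_hd_cn Ws hc]; exact h1)]

theorem tab_raw_x0_apply (Ws : SSet S W) (i : ℕ) (hi : i < e) (z : W) :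
    tab_raw_x0 Ws i hi z = tab_raw_X Ws i z := rfl

/-- swap of the letters `a` and `b` -/
def tab_raw_swf (Ws : SSet S W) (a b : ℕ) (z : W) : W :=
  if tab_raw_hd Ws z = a then Ws.cn b (tab_raw_tl Ws z)
  else if tab_raw_hd Ws z = b then Ws.cn a (tab_raw_tl Ws z) else z

theorem tab_raw_swf1 (Ws : SSet S W) {a b : ℕ} (ha : a ≤ e) (w : W) :
    tab_raw_swf Ws a b (Ws.cn a w) = Ws.cn b w := by
  unfold tab_raw_swf
  rw [tab_raw_hd_cn Ws ha, if_pos rfl, tab_raw_tl_cn]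

theorem tab_raw_swf2 (Ws : SSet S W) {a b : ℕ} (hb : b ≤ e) (hab : b ≠ a) (w : W) :
    tab_raw_swf Ws a b (Ws.cn b w) = Ws.cn a w := by
  unfold tab_raw_swf
  rw [tab_raw_hd_cn Ws hb, if_neg hab, if_pos rfl, tab_raw_tl_cn]

theorem tab_raw_swf3 (Ws : SSet S W) {a b c : ℕ} (hc : c ≤ e) (ha : c ≠ a) (hb : c ≠ b) (w : W) :
    tab_raw_swf Ws a b (Ws.cn c w) = Ws.cn c w := by
  unfold tab_raw_swf
  rw [tab_raw_hd_cn Ws hc, if_neg ha, if_neg hb]

/-- swap of the letters `a` and `b` -/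
def tab_raw_sw (Ws : SSet S W) (a b : ℕ) (ha : a ≤ e) (hb : b ≤ e) (hab : b ≠ a) : Equiv.Perm W :=
  Function.Involutive.toPerm (tab_raw_swf Ws a b) (by
    intro z
    obtain ⟨c, w, hc, rfl⟩ := tab_raw_cases Ws z
    by_cases h1 : c = a
    · subst h1
      rw [tab_raw_swf1 Ws ha, tab_raw_swf2 Ws hb hab]
    · by_cases h2 : c = b
      · subst h2
        rw [tab_raw_swf2 Ws hb hab, tab_raw_swf1 Ws ha]
      · rw [tab_raw_swf3 Ws hc h1 h2, tab_raw_swf3 Ws hc h1 h2])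

/-- swap of the cones `a` and `e 0` -/
def tab_raw_qf (Ws : SSet S W) (a : ℕ) (z : W) : W :=
  if tab_raw_hd Ws z = a then Ws.cn e (Ws.cn 0 (tab_raw_tl Ws z))
  else if tab_raw_hd Ws z = e ∧ tab_raw_hd Ws (tab_raw_tl Ws z) = 0 then
    Ws.cn a (tab_raw_tl Ws (tab_raw_tl Ws z)) else z

theorem tab_raw_qf1 (Ws : SSet S W) {a : ℕ} (ha : a ≤ e) (w : W) :
    tab_raw_qf Ws a (Ws.cn a w) = Ws.cn e (Ws.cn 0 w) := by
  unfold tab_raw_qf
  rw [tab_raw_hd_cn Ws ha, if_pos rfl, tab_raw_tl_cn]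

theorem tab_raw_qf2 (Ws : SSet S W) {a : ℕ} (ha : a < e) (w : W) :
    tab_raw_qf Ws a (Ws.cn e (Ws.cn 0 w)) = Ws.cn a w := by
  unfold tab_raw_qf
  rw [tab_raw_hd_cn Ws le_rfl, tab_raw_tl_cn, tab_raw_hd_cn Ws (Nat.zero_le _), tab_raw_tl_cn,
    if_neg (by omega), if_pos ⟨rfl, rfl⟩]

theorem tab_raw_qf3 (Ws : SSet S W) {a c : ℕ} (hc : c < e) (hca : c ≠ a) (w : W) :
    tab_raw_qf Ws a (Ws.cn c w) = Ws.cn c w := by
  unfold tab_raw_qf
  rw [tab_raw_hd_cn Ws hc.le, if_neg hca, if_neg (by omega)]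

theorem tab_raw_qf4 (Ws : SSet S W) {a : ℕ} (ha : a < e) (z : W) (hz : tab_raw_hd Ws z ≠ 0) :
    tab_raw_qf Ws a (Ws.cn e z) = Ws.cn e z := by
  unfold tab_raw_qf
  rw [tab_raw_hd_cn Ws le_rfl, if_neg (by omega), tab_raw_tl_cn, if_neg (fun h => hz h.2)]

/-- swap of the cones `a` and `e 0` -/
def tab_raw_q (Ws : SSet S W) (a : ℕ) (ha : a < e) : Equiv.Perm W :=
  Function.Involutive.toPerm (tab_raw_qf Ws a) (by
    intro z
    obtain ⟨c, w, hc, rfl⟩ := tab_raw_cases Ws z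
    by_cases h1 : c = a
    · subst h1
      rw [tab_raw_qf1 Ws hc, tab_raw_qf2 Ws ha]
    · rcases hc.lt_or_eq with h2 | h2
      · rw [tab_raw_qf3 Ws h2 h1, tab_raw_qf3 Ws h2 h1]
      · subst h2
        obtain ⟨c', v, hc', rfl⟩ := tab_raw_cases Ws w
        by_cases h3 : c' = 0
        · subst h3
          rw [tab_raw_qf2 Ws ha, tab_raw_qf1 Ws ha.le]
        · have h4 : tab_raw_hd Ws (Ws.cn c' v) ≠ 0 := by rwa [tab_raw_hd_cn Ws hc']
          rw [tab_raw_qf4 Ws ha _ h4, tab_raw_qf4 Ws ha _ h4])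

/-- the generator `p_k` for `k < e` -/
def tab_raw_p0 (Ws : SSet S W) (k : ℕ) (hk : k < e) : Equiv.Perm W :=
  if h : k + 1 < e then tab_raw_sw Ws k (k + 1) (by omega) (by omega) (by omega)
  else tab_raw_q Ws k hk

theorem tab_raw_p01 (Ws : SSet S W) {k : ℕ} (hk : k < e) (w : W) :
    tab_raw_p0 Ws k hk (Ws.lam k w) = Ws.lam (k + 1) w := by
  unfold tab_raw_p0
  rw [tab_raw_lam_lt Ws hk]
  split_ifs with h
  · rw [tab_raw_lam_lt Ws h]
    exact tab_raw_swf1 Ws hk.le w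
  · have h1 : k + 1 = 0 + e := by omega
    rw [h1, tab_raw_lam_add Ws (by omega), tab_raw_lam_lt Ws (by omega)]
    exact tab_raw_qf1 Ws hk.le w

theorem tab_raw_p02 (Ws : SSet S W) {k : ℕ} (hk : k < e) (w : W) :
    tab_raw_p0 Ws k hk (Ws.lam (k + 1) w) = Ws.lam k w := by
  unfold tab_raw_p0
  rw [tab_raw_lam_lt Ws hk]
  split_ifs with h
  · rw [tab_raw_lam_lt Ws h]
    exact tab_raw_swf2 Ws h.le (by omega) w
  · have h1 : k + 1 = 0 + e := by omega
    rw [h1, tab_raw_lam_add Ws (by omega), tab_raw_lam_lt Ws (by omega)]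
    exact tab_raw_qf2 Ws hk w

theorem tab_raw_p0e (Ws : SSet S W) {k : ℕ} (hk : k < e) (z : W) (hz : k + 1 = e → tab_raw_hd Ws z ≠ 0) :
    tab_raw_p0 Ws k hk (Ws.cn e z) = Ws.cn e z := by
  unfold tab_raw_p0
  split_ifs with h
  · exact tab_raw_swf3 Ws le_rfl (by omega) (by omega) z
  · exact tab_raw_qf4 Ws hk z (hz (by omega))

theorem tab_raw_p03 (Ws : SSet S W) {k : ℕ} (hk : k < e) (j : ℕ) (h1 : j ≠ k) (h2 : j ≠ k + 1) (w : W) :
    tab_raw_p0 Ws k hk (Ws.lam j w) = Ws.lam j w := by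
  rcases lt_or_ge j e with h | h
  · rw [tab_raw_lam_lt Ws h]
    unfold tab_raw_p0
    split_ifs with h'
    · exact tab_raw_swf3 Ws h.le h1 h2 w
    · exact tab_raw_qf3 Ws h h1 w
  · obtain ⟨i, rfl⟩ := Nat.exists_eq_add_of_le' h
    rw [tab_raw_lam_add Ws (by omega)]
    apply tab_raw_p0e Ws hk
    intro h3
    rw [tab_raw_hd_lam Ws (by omega)]
    have : i ≠ 0 := by omega
    have : e ≠ 0 := by omega
    omega

/-- shift along the spine -/
def tab_raw_fam (Ws : SSet S W) (f0 : ℕ → Equiv.Perm W) (i : ℕ) : Equiv.Perm W :=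
  (tab_raw_U Ws e)^[i / e] (f0 (i % e))

theorem tab_raw_fam_lt (Ws : SSet S W) (f0 : ℕ → Equiv.Perm W) {i : ℕ} (hi : i < e) :
    tab_raw_fam Ws f0 i = f0 i := by
  unfold tab_raw_fam
  rw [Nat.div_eq_of_lt hi, Nat.mod_eq_of_lt hi]
  rfl

theorem tab_raw_fam_add (Ws : SSet S W) (f0 : ℕ → Equiv.Perm W) (he : 0 < e) (i : ℕ) :
    tab_raw_fam Ws f0 (i + e) = tab_raw_U Ws e (tab_raw_fam Ws f0 i) := by
  unfold tab_raw_fam
  rw [Nat.add_div_right _ he, Nat.add_mod_right, Function.iterate_succ_apply']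

theorem tab_raw_ind (he : 0 < e) {P : ℕ → Prop} (h0 : ∀ i, i < e → P i) (h1 : ∀ i, P i → P (i + e)) (i : ℕ) :
    P i := by
  induction i using Nat.strong_induction_on with
  | _ i ih =>
    rcases lt_or_ge i e with h | h
    · exact h0 i h
    · obtain ⟨j, rfl⟩ := Nat.exists_eq_add_of_le' h
      exact h1 j (ih j (by omega))

/-- the concrete families exist -/
theorem tab_raw (Ws : SSet S W) (he : 3 ≤ e) :
    ∃ (x p t : ℕ → Equiv.Perm W) (l : G →* Equiv.Perm W), TabR Ws x p t (fun g => l g) := by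
  have he0 : 0 < e := by omega
  refine ⟨tab_raw_fam Ws (fun i => if h : i < e then tab_raw_x0 Ws i h else 1),
    tab_raw_fam Ws (fun i => if h : i < e then tab_raw_p0 Ws i h else 1),
    fun M => (tab_raw_U Ws e)^[M] (tab_raw_sw Ws (e - 1) e (by omega) le_rfl (by omega)),
    (tab_raw_Uhom Ws 0 (Nat.zero_le _)).comp Ws.act, ?_⟩
  set x := tab_raw_fam Ws (fun i => if h : i < e then tab_raw_x0 Ws i h else 1) with hx
  set p := tab_raw_fam Ws (fun i => if h : i < e then tab_raw_p0 Ws i h else 1) with hp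
  set t : ℕ → Equiv.Perm W := fun M => (tab_raw_U Ws e)^[M] (tab_raw_sw Ws (e - 1) e (by omega) le_rfl (by omega))
    with ht
  have hx0 : ∀ i (hi : i < e) z, x i z = tab_raw_X Ws i z := by
    intro i hi z
    rw [hx, tab_raw_fam_lt Ws _ hi, dif_pos hi]
    rfl
  have hxe : ∀ i z, x (i + e) (Ws.cn e z) = Ws.cn e (x i z) := by
    intro i z
    rw [hx, tab_raw_fam_add Ws _ he0, tab_raw_U_same Ws le_rfl]
  have hxk : ∀ i k z, k < e → x (i + e) (Ws.cn k z) = Ws.cn k z := by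
    intro i k z hk
    rw [hx, tab_raw_fam_add Ws _ he0, tab_raw_U_other Ws hk.le (by omega)]
  have hp0 : ∀ i (hi : i < e), p i = tab_raw_p0 Ws i hi := by
    intro i hi
    rw [hp, tab_raw_fam_lt Ws _ hi, dif_pos hi]
  have hpe : ∀ i z, p (i + e) (Ws.cn e z) = Ws.cn e (p i z) := by
    intro i z
    rw [hp, tab_raw_fam_add Ws _ he0, tab_raw_U_same Ws le_rfl]
  have hpk : ∀ i k z, k < e → p (i + e) (Ws.cn k z) = Ws.cn k z := by
    intro i k z hk
    rw [hp, tab_raw_fam_add Ws _ he0, tab_raw_U_other Ws hk.le (by omega)]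
  have ht0 : ∀ z, t 0 z = tab_raw_swf Ws (e - 1) e z := fun z => rfl
  have hte : ∀ M z, t (M + 1) (Ws.cn e z) = Ws.cn e (t M z) := by
    intro M z
    simp only [ht]
    rw [Function.iterate_succ_apply', tab_raw_U_same Ws le_rfl]
  have htk : ∀ M k z, k < e → t (M + 1) (Ws.cn k z) = Ws.cn k z := by
    intro M k z hk
    simp only [ht]
    rw [Function.iterate_succ_apply', tab_raw_U_other Ws hk.le (by omega)]
  have la := tab_raw_lam_add Ws he0
  have ll := @tab_raw_lam_lt G _ e S W Ws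
  have sp := tab_raw_spine_succ Ws
  refine ⟨?_, ?_, ?_, ?_, ?_, ?_, ?_, ?_, ?_, ?_, ?_, ?_, ?_, ?_⟩
  · -- x1
    intro i
    refine tab_raw_ind he0 (P := fun i => ∀ k w, k < i → x i (Ws.lam k w) = Ws.lam k w) ?_ ?_ i
    · intro i hi k w hk
      rw [hx0 i hi, ll (hk.trans hi), tab_raw_X1 Ws hi hk]
    · intro i ih k w hk
      rcases lt_or_ge k e with h | h
      · rw [ll h, hxk i k w h]
      · obtain ⟨k', rfl⟩ := Nat.exists_eq_add_of_le' h
        rw [la, hxe, ih k' w (by omega)]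
  · -- x2
    intro i
    refine tab_raw_ind he0 (P := fun i => ∀ c w, c ≤ e → x i (Ws.lam (i + c) w) = Ws.lam i (Ws.cn c w)) ?_ ?_ i
    · intro i hi c w hc
      rw [hx0 i hi, ll hi]
      rcases lt_or_ge (i + c) e with h | h
      · rw [ll h, tab_raw_X2 Ws (Nat.le_add_right _ _) h, Nat.add_sub_cancel_left]
      · obtain ⟨c', hc'⟩ := Nat.exists_eq_add_of_le' h
        rw [hc', la, ll (by omega), tab_raw_X3 Ws hi (by omega)]
        congr 2
        omega
    · intro i ih c w hc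
      rw [show i + e + c = (i + c) + e by ring, la, hxe, ih c w hc, la]
  · -- x3
    intro i
    refine tab_raw_ind he0 (P := fun i => ∀ k w, i < k → x i (Ws.lam (k + e) w) = Ws.lam k w) ?_ ?_ i
    · intro i hi k w hk
      rw [hx0 i hi, la, tab_raw_X4 Ws hi]
      rw [tab_raw_hd_lam Ws he0]
      exact lt_min hk hi
    · intro i ih k w hk
      obtain ⟨k', rfl⟩ := Nat.exists_eq_add_of_le' (show e ≤ k by omega)
      rw [la, hxe, ih k' w (by omega), la]
  · -- x4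
    intro i
    refine tab_raw_ind he0 (P := fun i => ∀ M w, i < (M + 1) * e →
      x i (Ws.spine (M + 2) w) = Ws.spine (M + 1) w) ?_ ?_ i
    · intro i hi M w _
      rw [hx0 i hi, sp, tab_raw_X4 Ws hi]
      rw [sp, tab_raw_hd_cn Ws le_rfl]
      exact hi
    · intro i ih M w hM
      cases M with
      | zero => exfalso; rw [zero_add, one_mul] at hM; omega
      | succ M =>
        have h1 : i < (M + 1) * e := by
          have : (M + 1 + 1) * e = (M + 1) * e + e := by ring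
          omega
        rw [show M + 1 + 2 = (M + 2) + 1 by ring, sp, hxe, ih M w h1, ← sp]
  · -- p1
    intro i
    refine tab_raw_ind he0 (P := fun i => ∀ w, p i (Ws.lam i w) = Ws.lam (i + 1) w) ?_ ?_ i
    · intro i hi w
      rw [hp0 i hi, tab_raw_p01 Ws hi]
    · intro i ih w
      rw [la, hpe, ih, show i + e + 1 = (i + 1) + e by ring, la]
  · -- p2
    intro i
    refine tab_raw_ind he0 (P := fun i => ∀ w, p i (Ws.lam (i + 1) w) = Ws.lam i w) ?_ ?_ i
    · intro i hi w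
      rw [hp0 i hi, tab_raw_p02 Ws hi]
    · intro i ih w
      rw [show i + e + 1 = (i + 1) + e by ring, la, hpe, ih, la]
  · -- p3
    intro i
    refine tab_raw_ind he0 (P := fun i => ∀ k w, k ≠ i → k ≠ i + 1 → p i (Ws.lam k w) = Ws.lam k w) ?_ ?_ i
    · intro i hi k w h1 h2
      rw [hp0 i hi, tab_raw_p03 Ws hi k h1 h2]
    · intro i ih k w h1 h2
      rcases lt_or_ge k e with h | h
      · rw [ll h, hpk i k w h]
      · obtain ⟨k', rfl⟩ := Nat.exists_eq_add_of_le' h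
        rw [la, hpe, ih k' w (by omega) (by omega)]
  · -- p4
    intro i
    refine tab_raw_ind he0 (P := fun i => ∀ M w, i + 1 < (M + 1) * e →
      p i (Ws.spine (M + 1) w) = Ws.spine (M + 1) w) ?_ ?_ i
    · intro i hi M w hM
      rw [hp0 i hi, sp]
      apply tab_raw_p0e Ws hi
      intro h3
      cases M with
      | zero => exfalso; rw [zero_add, one_mul] at hM; omega
      | succ M =>
        rw [sp, tab_raw_hd_cn Ws le_rfl]
        omega
    · intro i ih M w hM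
      cases M with
      | zero => exfalso; rw [zero_add, one_mul] at hM; omega
      | succ M =>
        have h1 : i + 1 < (M + 1) * e := by
          have : (M + 1 + 1) * e = (M + 1) * e + e := by ring
          omega
        rw [sp, hpe, ih M w h1]
  · -- t1
    intro M
    induction M with
    | zero =>
      intro w
      rw [zero_add, one_mul, ht0, ll (by omega), tab_raw_swf1 Ws (by omega), ← zero_add 1, sp]
      rfl
    | succ M ih =>
      intro w
      have h1 : (M + 1 + 1) * e - 1 = ((M + 1) * e - 1) + e := by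
        have : (M + 1 + 1) * e = (M + 1) * e + e := by ring
        have : e ≤ (M + 1) * e := Nat.le_mul_of_pos_left e (Nat.succ_pos M)
        omega
      rw [h1, la, hte, ih, sp (M + 1)]
  · -- t2
    intro M
    induction M with
    | zero =>
      intro w
      rw [zero_add, one_mul, ht0, ll (by omega), ← zero_add 1, sp, tab_raw_spine_zero]
      exact tab_raw_swf2 Ws le_rfl (by omega) w
    | succ M ih =>
      intro w
      have h1 : (M + 1 + 1) * e - 1 = ((M + 1) * e - 1) + e := by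
        have : (M + 1 + 1) * e = (M + 1) * e + e := by ring
        have : e ≤ (M + 1) * e := Nat.le_mul_of_pos_left e (Nat.succ_pos M)
        omega
      rw [h1, la, sp (M + 1), hte, ih]
  · -- t3
    intro M
    induction M with
    | zero =>
      intro k w hk
      rw [zero_add, one_mul] at hk
      rw [ht0, ll (by omega), tab_raw_swf3 Ws (by omega) (by omega) (by omega)]
    | succ M ih =>
      intro k w hk
      rcases lt_or_ge k e with h | h
      · rw [ll h, htk M k w h]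
      · obtain ⟨k', rfl⟩ := Nat.exists_eq_add_of_le' h
        have h1 : k' + 1 < (M + 1) * e := by
          have : (M + 1 + 1) * e = (M + 1) * e + e := by ring
          omega
        rw [la, hte, ih k' w h1]
  · -- l1
    intro g w
    rw [ll he0, ll he0]
    exact tab_raw_U_same Ws (Nat.zero_le _) _ w
  · -- l2
    intro g k w hk
    rcases lt_or_ge k e with h | h
    · rw [ll h]
      exact tab_raw_U_other Ws h.le (by omega) _ w
    · obtain ⟨k', rfl⟩ := Nat.exists_eq_add_of_le' h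
      rw [la]
      exact tab_raw_U_other Ws le_rfl (by omega) _ _
  · -- l3
    intro g M w
    rw [sp]
    exact tab_raw_U_other Ws le_rfl (by omega) _ _

end

end Pool.Agent.H665Simp
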