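import Mathlib
import Pool.Agent.H665Simp.DefsA
import Pool.Agent.H665Simp.DefsB
import Pool.Agent.H665Simp.P_tab_raw
import Pool.Agent.H665Simp.P_leaf_basic
import Pool.Agent.H665Simp.P_rel_A
import Pool.Agent.H665Simp.P_rel_B12
import Pool.Agent.H665Simp.P_rel_B3
import Pool.Agent.H665Simp.P_rel_C
import Pool.Agent.H665Simp.P_rel_T12
import Pool.Agent.H665Simp.P_rel_T345
import Pool.Agent.H665Simp.P_rel_L
import Pool.Agent.H665Simp.P_rel_th
import Pool.Agent.H665Simp.P_rel_L5

set_option autoImplicit false

namespace Pool.Agent.H665Simp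



section


/-- the concrete families on a self-similar set -/
theorem model_fam {G : Type} [Group G] {e : ℕ} {S : SS G (e + 1)} {W : Type} (Ws : SSet S W)
    (he : 3 ≤ e) : ∃ F : Fam S (Equiv.Perm W), Tab Ws F := by
  obtain ⟨x, p, t, l, T⟩ := tab_raw Ws he
  obtain ⟨th, h0, h1, h2, h3⟩ := rel_th Ws he x p t _ T
  exact ⟨{ x := x, p := p, t := t, l := l, th := th
           th_swap := h0
           A := rel_A Ws he x p t _ T
           B1 := rel_B1 Ws he x p t _ T
           B2 := rel_B2 Ws he x p t _ T
           B3 := rel_B3 Ws he x p t _ T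
           C1 := rel_C1 Ws he x p t _ T
           C2 := rel_C2 Ws he x p t _ T
           C3 := rel_C3 Ws he x p t _ T
           T1 := rel_T1 Ws he x p t _ T
           T2 := rel_T2 Ws he x p t _ T
           T3 := rel_T3 Ws he x p t _ T
           T4 := rel_T4 Ws he x p t _ T
           T5 := rel_T5 Ws he x p t _ T
           L1 := rel_L1 Ws he x p t _ T
           L2 := rel_L2 Ws he x p t _ T
           L3 := rel_L3 Ws he x p t _ T
           L4 := rel_L4 Ws he x p t _ T
           L5 := rel_L5 Ws he x p t _ T th h1 h2 h3 }, T⟩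

end

end Pool.Agent.H665Simp
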