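import Mathlib
import Pool.Agent.H665Simp.DefsA
import Pool.Agent.H665Simp.DefsB

set_option autoImplicit false

namespace Pool.Agent.H665Simp

section
variable {G : Type} [Group G] {e : ℕ} {S : SS G (e + 1)} {W : Type}


theorem seq_aux_mul {d : ℕ} (T : SS G d) (n : ℕ) : ∀ (g h : G) (w : ℕ → Fin d),
    T.seqAct n (g * h) w = T.seqAct n g (fun m => T.seqAct m h w) := by
  induction n with
  | zero =>
    intro g h w
    change T.act (g * h) (w 0) = T.act g (T.act h (w 0))
    rw [map_mul]
    rfl
  | succ n ih =>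
    intro g h w
    change T.seqAct n (T.sec (g * h) (w 0)) (fun m => w (m + 1)) =
      T.seqAct n (T.sec g (T.act h (w 0)))
        (fun m => T.seqAct m (T.sec h (w 0)) (fun m => w (m + 1)))
    rw [T.sec_mul, ih]

theorem seq_aux_sec {d : ℕ} (T : SS G d) (c : Fin d) : T.sec 1 c = 1 := by
  have h := T.sec_mul 1 1 c
  rw [map_one, mul_one] at h
  exact mul_eq_left.1 h.symm

theorem seq_aux_one {d : ℕ} (T : SS G d) (n : ℕ) : ∀ (w : ℕ → Fin d), T.seqAct n 1 w = w n := by
  induction n with
  | zero =>
    intro w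
    change T.act 1 (w 0) = w 0
    rw [map_one]
    rfl
  | succ n ih =>
    intro w
    change T.seqAct n (T.sec 1 (w 0)) (fun m => w (m + 1)) = w (n + 1)
    rw [seq_aux_sec, ih]

/-- the action as permutations -/
def seqPerm {d : ℕ} (T : SS G d) (g : G) : Equiv.Perm (ℕ → Fin d) where
  toFun w := fun n => T.seqAct n g w
  invFun w := fun n => T.seqAct n g⁻¹ w
  left_inv w := by
    funext n
    change T.seqAct n g⁻¹ (fun m => T.seqAct m g w) = w n
    rw [← seq_aux_mul, inv_mul_cancel, seq_aux_one]
  right_inv w := by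
    funext n
    change T.seqAct n g (fun m => T.seqAct m g⁻¹ w) = w n
    rw [← seq_aux_mul, mul_inv_cancel, seq_aux_one]

/-- the action as a homomorphism -/
def seqHom {d : ℕ} (T : SS G d) : G →* Equiv.Perm (ℕ → Fin d) where
  toFun := seqPerm T
  map_one' := by
    ext1 w
    funext n
    exact seq_aux_one T n w
  map_mul' g h := by
    ext1 w
    funext n
    exact seq_aux_mul T n g h w

/-- adding a first letter -/
def seqCons (d : ℕ) : Fin d × (ℕ → Fin d) ≃ (ℕ → Fin d) where
  toFun q := fun n => Nat.casesOn n q.1 (fun m => q.2 m)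
  invFun w := (w 0, fun n => w (n + 1))
  left_inv q := rfl
  right_inv w := by
    funext n
    cases n <;> rfl

/-- the self-similar set of infinite words -/
theorem seq_exists {d : ℕ} (T : SS G d) : ∃ Ws : SSet T (ℕ → Fin d), IsSeq Ws := by
  refine ⟨⟨seqCons d, seqHom T, fun g c w => ?_⟩, fun c w => rfl, fun g w n => rfl⟩
  funext n
  cases n <;> rfl

end

end Pool.Agent.H665Simp
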