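import Mathlib
import Pool.Agent.H665Simp.DefsA
import Pool.Agent.H665Simp.DefsB
import Pool.Agent.H665Simp.DefsC
import Pool.Agent.H665Simp.P_leaf_basic
import Pool.Agent.H665Simp.P_seq_exists
import Pool.Agent.H665Simp.P_germ_exists
import Pool.Agent.H665Simp.P_model_fam

set_option autoImplicit false

namespace Pool.Agent.H665Simp



section


/-- the group is not simple in the bad case -/
theorem not_simple {G : Type} [Group G] {e : ℕ} {S : SS G (e + 1)} {Q : Type} [Group Q]
    (he : 3 ≤ e) (F : Fam S Q)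
    (huniv : ∀ (Q' : Type) [Group Q'] (F' : Fam S Q'), ∃ α : Q →* Q', F.Compat F' α)
    (z : ℕ → Fin (e + 1)) (g : ℕ → G)
    (h1 : ∀ n, S.act (g n) = 1) (h2 : ∀ n, S.sec (g n) (z n) = g (n + 1))
    (h3 : ∀ n c, c ≠ z n → S.sec (g n) c = 1) (h4 : ∀ n, g n ≠ 1) : ¬ IsSimpleGroup Q := by
  intro hs
  obtain ⟨Ws0, hseq⟩ := seq_exists S
  obtain ⟨W, Ws, hne⟩ := germ_exists S z g h1 h2 h4
  obtain ⟨F0, T0⟩ := model_fam Ws0 he
  obtain ⟨F1, T1⟩ := model_fam Ws he
  obtain ⟨α, hα⟩ := huniv _ F0
  obtain ⟨β, hβ⟩ := huniv _ F1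
  have hs1 : ∀ c, S.sec 1 c = 1 := by
    intro c
    have h := S.sec_mul 1 1 c
    simpa using h
  have one : ∀ n w, S.seqAct n 1 w = w n := by
    intro n
    induction n with
    | zero => intro w; simp [SS.seqAct]
    | succ n ih =>
      intro w
      show S.seqAct n (S.sec 1 (w 0)) (fun m => w (m + 1)) = w (n + 1)
      rw [hs1, ih]
  have key : ∀ n k w, S.seqAct n (g k) w = w n := by
    intro n
    induction n with
    | zero => intro k w; simp [SS.seqAct, h1]
    | succ n ih =>
      intro k w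
      show S.seqAct n (S.sec (g k) (w 0)) (fun m => w (m + 1)) = w (n + 1)
      by_cases hw : w 0 = z k
      · rw [hw, h2, ih]
      · rw [h3 k _ hw, one]
  have hact : ∀ w, Ws0.act (g 0) w = w := by
    intro w
    funext n
    rw [hseq.2, key]
  have hl : F0.l (g 0) = 1 := by
    apply perm_ext_leaf Ws0 (by omega) 0
    · intro k w _
      rcases Nat.eq_zero_or_pos k with hk | hk
      · subst hk
        have h := T0.l1 (g 0) w
        rw [hact] at h
        exact h
      · exact T0.l2 (g 0) k w hk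
    · intro w
      exact T0.l3 (g 0) 0 w
  have hmem : F.l (g 0) ∈ α.ker := by
    rw [MonoidHom.mem_ker, hα.l, hl]
  have hne1 : F.l (g 0) ≠ 1 := by
    intro h
    apply hne
    have h5 : F1.l (g 0) = 1 := by rw [← hβ.l, h, map_one]
    ext w
    have h6 := T1.l1 (g 0) w
    simp only [h5] at h6
    have h7 := (lam_inj Ws (by omega) 0 0 _ _ h6).2
    exact h7.symm
  rcases hs.eq_bot_or_eq_top_of_normal α.ker inferInstance with hb | ht
  · rw [hb, Subgroup.mem_bot] at hmem
    exact hne1 hmem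
  · have h8 : F.p 0 ∈ α.ker := by rw [ht]; trivial
    rw [MonoidHom.mem_ker, hα.p] at h8
    have h9 := T0.p1 0 (fun _ => 0)
    rw [h8] at h9
    have h10 := (lam_inj Ws0 (by omega) _ _ _ _ h9).1
    omega

end

end Pool.Agent.H665Simp
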