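import Mathlib
import Pool.Agent.H665Simp.DefsA
import Pool.Agent.H665Simp.DefsC
import Pool.Agent.H665Simp.DefsD
import Pool.Agent.H665Simp.P_shf_basic
import Pool.Agent.H665Simp.P_fam_of_base
import Pool.Agent.H665Simp.P_base_of_fam
import Pool.Agent.H665Simp.P_base_finite

set_option autoImplicit false

namespace Pool.Agent.H665Simp

section
variable {Q : Type} [Group Q] {e : ℕ}



theorem map_shf {Q Q' : Type} [Group Q] [Group Q'] {e : ℕ} (f : Q →* Q') (a : Q) (b : ℕ → Q)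
    (i : ℕ) : f (shf e a b i) = shf e (f a) (fun c => f (b c)) i := by
  unfold shf
  split_ifs with h
  · rfl
  · simp

theorem map_fx' {Sg : Type} {e : ℕ} {Q Q' : Type} [Group Q] [Group Q'] (f : Q →* Q')
    (φ : Gn Sg e → Q) (φ' : Gn Sg e → Q') (h : ∀ g, f (φ g) = φ' g) (i : ℕ) :
    f (fx φ i) = fx φ' i := by
  unfold fx
  rw [map_shf]
  simp only [h]

theorem map_fp' {Sg : Type} {e : ℕ} {Q Q' : Type} [Group Q] [Group Q'] (f : Q →* Q')
    (φ : Gn Sg e → Q) (φ' : Gn Sg e → Q') (h : ∀ g, f (φ g) = φ' g) (i : ℕ) :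
    f (fp φ i) = fp φ' i := by
  unfold fp
  rw [map_shf]
  simp only [h]

theorem map_ft' {Sg : Type} {e : ℕ} {Q Q' : Type} [Group Q] [Group Q'] (f : Q →* Q')
    (φ : Gn Sg e → Q) (φ' : Gn Sg e → Q') (h : ∀ g, f (φ g) = φ' g) (i : ℕ) :
    f (ft φ i) = ft φ' i := by
  unfold ft
  simp only [map_mul, map_pow, map_inv, h]

theorem lift_of_eq_one {α : Type} (rels : Set (FreeGroup α)) (r : FreeGroup α) (hr : r ∈ rels) :
    FreeGroup.lift (PresentedGroup.of : α → PresentedGroup rels) r = 1 := by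
  have h : (FreeGroup.lift (PresentedGroup.of : α → PresentedGroup rels))
      = PresentedGroup.mk rels := by
    ext a
    simp [PresentedGroup.of]
  rw [h]
  exact PresentedGroup.one_of_mem hr

theorem gen_aux {Sg : Type} {e : ℕ} {rels : Set (FreeGroup (Gn Sg e))}
    {D : LD Sg e} (w : ℕ) (S : SS D.Gp (e + 1)) (F : Fam S (PresentedGroup rels))
    (hy : (PresentedGroup.of Gn.y : PresentedGroup rels) = PresentedGroup.of (Gn.g D.pt) ^ w)
    (hx : F.x = fx PresentedGroup.of) (hp : F.p = fp PresentedGroup.of)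
    (ht : F.t = ft PresentedGroup.of)
    (hl : ∀ s, F.l (PresentedGroup.of s) = PresentedGroup.of (Gn.g s)) : F.Gen := by
  unfold Fam.Gen
  rw [eq_top_iff, ← PresentedGroup.closure_range_of rels, Subgroup.closure_le]
  rintro _ ⟨g, rfl⟩
  have hg : ∀ s, (PresentedGroup.of (Gn.g s) : PresentedGroup rels) ∈
      Subgroup.closure (Set.range F.x ∪ Set.range F.p ∪ Set.range F.t ∪ Set.range F.l) := by
    intro s
    rw [← hl]
    exact Subgroup.subset_closure (Or.inr ⟨_, rfl⟩)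
  have hof : ∀ c : Fin (e + 1), Fin.ofNat (e + 1) (c : ℕ) = c := by
    intro c
    ext
    simp [Fin.ofNat, Nat.mod_eq_of_lt c.isLt]
  cases g with
  | x c =>
    refine Subgroup.subset_closure (Or.inl (Or.inl (Or.inl ⟨(c : ℕ), ?_⟩)))
    rw [hx, fx, shf_small _ _ _ (Nat.lt_succ_iff.1 c.isLt)]
    simp only [hof]
  | p c =>
    refine Subgroup.subset_closure (Or.inl (Or.inl (Or.inr ⟨(c : ℕ), ?_⟩)))
    rw [hp, fp, shf_small _ _ _ (Nat.lt_succ_iff.1 c.isLt)]
    simp only [hof]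
  | t =>
    refine Subgroup.subset_closure (Or.inl (Or.inr ⟨0, ?_⟩))
    rw [ht, ft]
    simp
  | g s => exact hg s
  | y =>
    show (PresentedGroup.of Gn.y : PresentedGroup rels) ∈ _
    rw [hy]
    exact Subgroup.pow_mem _ (hg _) _

/-- the finitely presented group carries the families, generates, and is universal -/
theorem pres_fam {Sg : Type} [Finite Sg] (D : LD Sg e) (he : 3 ≤ e) :
    ∃ R : Set (FreeGroup (Gn Sg e)), R.Finite ∧
      ∀ (w : ℕ) (S : SS D.Gp (e + 1)), D.IsSS w S →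
        ∃ F : Fam S (PresentedGroup (R ∪ {(FreeGroup.of Gn.y)⁻¹ * (FreeGroup.of (Gn.g D.pt)) ^ w})),
          F.Gen ∧ ∀ (Q : Type) [Group Q] (F' : Fam S Q),
            ∃ α : PresentedGroup (R ∪ {(FreeGroup.of Gn.y)⁻¹ *
              (FreeGroup.of (Gn.g D.pt)) ^ w}) →* Q, F.Compat F' α := by
  obtain ⟨R, hRf, hR⟩ := base_finite D he
  refine ⟨R, hRf, ?_⟩
  intro w S hS
  have h1 : BaseAll D (PresentedGroup.of : Gn Sg e →
      PresentedGroup (R ∪ {(FreeGroup.of Gn.y)⁻¹ * (FreeGroup.of (Gn.g D.pt)) ^ w})) :=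
    (hR _ _).1 (fun r hr => lift_of_eq_one _ r (Or.inl hr))
  have h2 : (PresentedGroup.of Gn.y :
      PresentedGroup (R ∪ {(FreeGroup.of Gn.y)⁻¹ * (FreeGroup.of (Gn.g D.pt)) ^ w}))
      = PresentedGroup.of (Gn.g D.pt) ^ w := by
    have h3 := lift_of_eq_one (R ∪ {(FreeGroup.of Gn.y)⁻¹ * (FreeGroup.of (Gn.g D.pt)) ^ w})
      _ (Or.inr rfl)
    rw [map_mul, map_inv, map_pow, FreeGroup.lift_apply_of, FreeGroup.lift_apply_of] at h3
    exact (inv_mul_eq_one.1 h3)
  obtain ⟨F, hx, hp, ht, hl⟩ := fam_of_base D he w S hS _ h1 h2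
  refine ⟨F, gen_aux w S F h2 hx hp ht hl, ?_⟩
  intro Q _ F'
  obtain ⟨φ', hb, hy', hx', hp', ht', hl'⟩ := base_of_fam D he w S hS F'
  have hk : ∀ r ∈ R ∪ {(FreeGroup.of Gn.y)⁻¹ * (FreeGroup.of (Gn.g D.pt)) ^ w},
      FreeGroup.lift φ' r = 1 := by
    rintro r (hr | hr)
    · exact (hR _ _).2 hb r hr
    · rw [Set.mem_singleton_iff] at hr
      subst hr
      rw [map_mul, map_inv, map_pow, FreeGroup.lift_apply_of, FreeGroup.lift_apply_of]
      exact inv_mul_eq_one.2 hy'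
  have hα : ∀ g, PresentedGroup.toGroup hk (PresentedGroup.of g) = φ' g := by
    intro g
    exact PresentedGroup.toGroup.of hk
  refine ⟨PresentedGroup.toGroup hk, ?_, ?_, ?_, ?_⟩
  · intro i
    rw [hx, ← hx']
    exact map_fx' _ _ _ hα i
  · intro i
    rw [hp, ← hp']
    exact map_fp' _ _ _ hα i
  · intro i
    rw [ht, ← ht']
    exact map_ft' _ _ _ hα i
  · have : (PresentedGroup.toGroup hk).comp F.l = F'.l := by
      apply PresentedGroup.ext
      intro s
      rw [MonoidHom.comp_apply, hl, hl', hα]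
    intro g
    exact DFunLike.congr_fun this g

end

end Pool.Agent.H665Simp
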