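import Mathlib
import Pool.Agent.H665Simp.DefsA
import Pool.Agent.H665Simp.DefsB
import Pool.Agent.H665Simp.DefsC
import Pool.Agent.H665Simp.P_chain_basic
import Pool.Agent.H665Simp.P_SN_struct
import Pool.Agent.H665Simp.P_leaf_basic
import Pool.Agent.H665Simp.P_tab_leaf
import Pool.Agent.H665Simp.P_SN_act
import Pool.Agent.H665Simp.P_cont
import Pool.Agent.H665Simp.P_chain_leaf
import Pool.Agent.H665Simp.P_comm_trick
import Pool.Agent.H665Simp.P_alt_mod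

set_option autoImplicit false

namespace Pool.Agent.H665Simp

section
variable {G : Type} [Group G] {e : ℕ} {S : SS G (e + 1)} {Q : Type} [Group Q]
variable {G : Type} [Group G] {e : ℕ} {S : SS G (e + 1)} {Q : Type} [Group Q] {W : Type}
variable {G : Type} [Group G] {e : ℕ} {S : SS G (e + 1)} {W : Type}


theorem three_cycle_swap {n : ℕ} (A B C : Fin n) (hAB : A ≠ B) (hBC : B ≠ C) (hAC : A ≠ C) :
    (Equiv.swap A B)⁻¹ * Equiv.swap B C * Equiv.swap A B * (Equiv.swap B C)⁻¹ =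
      Equiv.swap A C * Equiv.swap C B := by
  have h := Equiv.swap_apply_apply (Equiv.swap A B) B C
  rw [Equiv.swap_apply_right, Equiv.swap_apply_of_ne_of_ne hAC.symm hBC.symm,
    Equiv.swap_inv] at h
  rw [Equiv.swap_inv, Equiv.swap_inv, ← h, Equiv.swap_comm B C]

theorem three_cycle_cyl (e : ℕ) (f : (ℕ → Fin (e + 1)) → (ℕ → Fin (e + 1))) (hf : Continuous f)
    (z : ℕ → Fin (e + 1)) (hz : f z ≠ z) :
    ∃ m, ∀ z', (∀ i, i ≤ m → z' i = z i) → ¬ (∀ i, i ≤ m → f z' i = z i) := by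
  obtain ⟨j, hj⟩ := Function.ne_iff.1 hz
  have hc : Continuous fun z' => f z' j := (continuous_apply j).comp hf
  have ho : IsOpen ((fun z' => f z' j) ⁻¹' {f z j}) := (isOpen_discrete _).preimage hc
  rw [isOpen_pi_iff] at ho
  obtain ⟨I, u, hu, hsub⟩ := ho z rfl
  refine ⟨max (I.sup id) j, fun z' hz' hcon => ?_⟩
  have h1 : z' ∈ (I : Set ℕ).pi u := by
    intro i hi
    rw [hz' i (le_max_of_le_left (Finset.le_sup (f := id) hi))]
    exact (hu i hi).2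
  have h2 : f z' j = f z j := hsub h1
  apply hj
  rw [← h2]
  exact hcon j (le_max_right _ _)

theorem three_cycle_fix (Ws : SSet S (ℕ → Fin (e + 1))) (he : 3 ≤ e) (F : Fam S Q)
    (F0 : Fam S (Equiv.Perm (ℕ → Fin (e + 1)))) (T : Tab Ws F0)
    (α : Q →* Equiv.Perm (ℕ → Fin (e + 1))) (hα : F.Compat F0 α) (M : ℕ)
    (Θ : Equiv.Perm (Fin ((M + 1) * e + 1)) →* Q) (Λ : (Fin ((M + 1) * e + 1) → G) →* Q)
    (h1 : ∀ k : Fin ((M + 1) * e), Θ (Equiv.swap k.castSucc k.succ) = F.sg M k)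
    (h2 : ∀ g, Λ (Pi.mulSingle 0 g) = F.l g)
    (h3 : ∀ ρ f, Θ ρ * Λ f = Λ (fun k => f (ρ⁻¹ k)) * Θ ρ)
    (r : Q) (U : Set (ℕ → Fin (e + 1))) (A B : Fin ((M + 1) * e + 1))
    (hA : ∀ w, α r (Ws.leaf M A w) ∈ U) (hB : ∀ w, α r (Ws.leaf M B w) ∈ U)
    (z : ℕ → Fin (e + 1)) (hz : z ∉ U) : α (r * Θ (Equiv.swap A B) * r⁻¹) z = z := by
  obtain ⟨j, w, hj, hw⟩ := leaf_cover Ws (by omega) M ((α r)⁻¹ z)
  have hz2 : z = α r (Ws.leaf M j w) := by
    rw [← hw]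
    exact ((α r).apply_symm_apply z).symm
  obtain ⟨j', hj'⟩ : ∃ j' : Fin ((M + 1) * e + 1), (j' : ℕ) = j :=
    ⟨⟨j, Nat.lt_succ_of_le hj⟩, rfl⟩
  rw [← hj'] at hw hz2
  have hjA : j' ≠ A := by
    rintro rfl
    exact hz (hz2 ▸ hA w)
  have hjB : j' ≠ B := by
    rintro rfl
    exact hz (hz2 ▸ hB w)
  have h4 := SN_act Ws he F F0 T α hα M Θ Λ h1 h2 h3 (Equiv.swap A B) 1 j' w
  rw [map_one, mul_one, Equiv.swap_apply_of_ne_of_ne hjA hjB, Pi.one_apply, map_one,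
    Equiv.Perm.one_apply] at h4
  rw [map_mul, map_mul, map_inv, Equiv.Perm.mul_apply, Equiv.Perm.mul_apply, hw, h4]
  exact hz2.symm

/-- a nontrivial normal subgroup identifies all the transpositions of some level -/
theorem three_cycle (Ws : SSet S (ℕ → Fin (e + 1))) (hs : IsSeq Ws) (he : 3 ≤ e) (F : Fam S Q)
    (hgen : F.Gen) (F0 : Fam S (Equiv.Perm (ℕ → Fin (e + 1)))) (T : Tab Ws F0)
    (α : Q →* Equiv.Perm (ℕ → Fin (e + 1))) (hα : F.Compat F0 α)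
    (hf : ∀ q, α q = 1 → q = 1) (N : Subgroup Q) [N.Normal] (hN : N ≠ ⊥) :
    ∃ M, 1 ≤ M ∧ ∀ k k', k < (M + 1) * e → k' < (M + 1) * e → F.sg M k * (F.sg M k')⁻¹ ∈ N := by
  classical
  obtain ⟨⟨g, hgN⟩, hg1⟩ := (Subgroup.ne_bot_iff_exists_ne_one).1 hN
  have hg : g ≠ 1 := fun h => hg1 (Subtype.ext h)
  have hαg : α g ≠ 1 := fun h => hg (hf g h)
  obtain ⟨z, hz⟩ : ∃ z, α g z ≠ z := by
    by_contra hcon
    push Not at hcon
    exact hαg (Equiv.ext hcon)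
  obtain ⟨m, hm⟩ := three_cycle_cyl e (α g) (cont Ws hs he F hgen F0 T α hα g) z hz
  obtain ⟨M, r, k, -, hk, hrk⟩ := chain_leaf Ws hs he F F0 T α hα z m
  set U : Set (ℕ → Fin (e + 1)) := {z' | ∀ i, i ≤ m → z' i = z i} with hU
  have hX : ∀ w, α (F.X M k) w = F0.X M k w := by
    intro w
    unfold Fam.X
    split_ifs
    · rw [hα.x]
    · rw [map_one]
  have hleaf : ∀ c, c ≤ e → ∀ w, α (r * F.X M k) (Ws.leaf (M + 1) (k + c) w) ∈ U := by
    intro c hc w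
    rw [map_mul, Equiv.Perm.mul_apply, hX, tab_X_leaf Ws he F0 T M k c hk hc]
    intro i hi
    exact hrk _ i hi
  obtain ⟨Θ, Λ, h1, h2, h3, -⟩ := SN_struct F he (M + 1)
  have hn : (M + 1 + 1) * e = (M + 1) * e + e := by ring
  have hkn : k + 2 < (M + 1 + 1) * e + 1 := by rw [hn]; omega
  obtain ⟨A, hA⟩ : ∃ A : Fin ((M + 1 + 1) * e + 1), (A : ℕ) = k := ⟨⟨k, by omega⟩, rfl⟩
  obtain ⟨B, hB⟩ : ∃ B : Fin ((M + 1 + 1) * e + 1), (B : ℕ) = k + 1 := ⟨⟨k + 1, by omega⟩, rfl⟩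
  obtain ⟨C, hC⟩ : ∃ C : Fin ((M + 1 + 1) * e + 1), (C : ℕ) = k + 2 := ⟨⟨k + 2, by omega⟩, rfl⟩
  have hAU : ∀ w, α (r * F.X M k) (Ws.leaf (M + 1) A w) ∈ U := by
    intro w
    rw [hA]
    exact hleaf 0 (by omega) w
  have hBU : ∀ w, α (r * F.X M k) (Ws.leaf (M + 1) B w) ∈ U := by
    intro w
    rw [hB]
    exact hleaf 1 (by omega) w
  have hCU : ∀ w, α (r * F.X M k) (Ws.leaf (M + 1) C w) ∈ U := by
    intro w
    rw [hC]
    exact hleaf 2 (by omega) w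
  have hAB : A ≠ B := fun h => by
    have := congrArg Fin.val h
    omega
  have hBC : B ≠ C := fun h => by
    have := congrArg Fin.val h
    omega
  have hAC : A ≠ C := fun h => by
    have := congrArg Fin.val h
    omega
  have hcomm := comm_trick α hf N g hgN U (fun z' hz' => hm z' hz')
    (r * F.X M k * Θ (Equiv.swap A B) * (r * F.X M k)⁻¹)
    (r * F.X M k * Θ (Equiv.swap B C) * (r * F.X M k)⁻¹)
    (three_cycle_fix Ws he F F0 T α hα (M + 1) Θ Λ h1 h2 h3 (r * F.X M k) U A B hAU hBU)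
    (three_cycle_fix Ws he F F0 T α hα (M + 1) Θ Λ h1 h2 h3 (r * F.X M k) U B C hBU hCU)
  have hconj := (inferInstance : N.Normal).conj_mem _ hcomm (r * F.X M k)⁻¹
  have h4 : Θ (Equiv.swap A C * Equiv.swap C B) ∈ N := by
    rw [← three_cycle_swap A B C hAB hBC hAC, map_mul, map_mul, map_mul, map_inv, map_inv]
    convert hconj using 1
    group
  have h5 := alt_mod ((M + 1 + 1) * e) Θ N A C B hAC hBC.symm hAB h4
  refine ⟨M + 1, by omega, fun a b ha hb => ?_⟩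
  have h6 := h5 ⟨a, ha⟩ ⟨b, hb⟩
  rw [h1, h1] at h6
  exact h6

end

end Pool.Agent.H665Simp
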