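import Mathlib
import Pool.Agent.H665Simp.DefsA
import Pool.Agent.H665Simp.DefsB
import Pool.Agent.H665Simp.DefsC
import Pool.Agent.H665Simp.P_faithful
import Pool.Agent.H665Simp.P_three_cycle
import Pool.Agent.H665Simp.P_collapse
import Pool.Agent.H665Simp.P_collapse_labels

set_option autoImplicit false

namespace Pool.Agent.H665Simp

section
variable {G : Type} [Group G] {e : ℕ} {S : SS G (e + 1)} {Q : Type} [Group Q]
variable {G : Type} [Group G] {e : ℕ} {S : SS G (e + 1)} {Q : Type} [Group Q] {W : Type}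
variable {G : Type} [Group G] {e : ℕ} {S : SS G (e + 1)} {W : Type}


theorem sm_gen {Q' : Type} [Group Q'] (F : Fam S Q) (hgen : F.Gen) (f : Q →* Q')
    (hf : Function.Surjective f) : (F.map f).Gen := by
  unfold Fam.Gen at hgen ⊢
  have h1 : Set.range (F.map f).x ∪ Set.range (F.map f).p ∪ Set.range (F.map f).t ∪
      Set.range (F.map f).l = f '' (Set.range F.x ∪ Set.range F.p ∪ Set.range F.t ∪
        Set.range F.l) := by
    rw [Set.image_union, Set.image_union, Set.image_union, ← Set.range_comp, ← Set.range_comp,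
      ← Set.range_comp, ← Set.range_comp]
    rfl
  rw [h1, ← MonoidHom.map_closure, hgen]
  exact Subgroup.map_top_of_surjective f hf

theorem sm_sg {Q' : Type} [Group Q'] (F : Fam S Q) (f : Q →* Q') (M k : ℕ) :
    (F.map f).sg M k = f (F.sg M k) := by
  unfold Fam.sg
  split_ifs
  · rfl
  · rfl

/-- the group is simple in the good case -/
theorem simple_main (Ws : SSet S (ℕ → Fin (e + 1))) (hs : IsSeq Ws) (he : 3 ≤ e) (hodd : Odd e)
    (F : Fam S Q) (hgen : F.Gen) (F0 : Fam S (Equiv.Perm (ℕ → Fin (e + 1)))) (T : Tab Ws F0)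
    (α : Q →* Equiv.Perm (ℕ → Fin (e + 1))) (hα : F.Compat F0 α)
    (hT : ∀ g, Ws.act g = 1 → S.Dies g)
    (hco : ∀ (C : Type) [CommGroup C] (φ : G →* C), (∀ g, φ g = ∏ c, φ (S.sec g c)) → φ = 1) :
    IsSimpleGroup Q := by
  have hf : ∀ q, α q = 1 → q = 1 := faithful Ws he F hgen F0 T α hα hT
  have hnt : Nontrivial Q := by
    refine ⟨⟨F.p 0, 1, fun h => ?_⟩⟩
    have h1 : F0.p 0 = 1 := by
      rw [← hα.p 0, h, map_one]
    have h2 := T.p1 0 (fun _ => 0)
    rw [h1] at h2
    have h3 : Ws.lam 0 (fun _ => 0) = Ws.lam 1 (fun _ => 0) := h2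
    unfold SSet.lam SSet.spine SSet.cn at h3
    rw [Nat.zero_div, Nat.zero_mod, Nat.div_eq_of_lt (by omega : 1 < e),
      Nat.mod_eq_of_lt (by omega : 1 < e)] at h3
    have h4 := Ws.cons.injective h3
    have h5 := congrArg (fun q => (q.1 : Fin (e + 1)).val) h4
    simp only [Fin.val_ofNat] at h5
    rw [Nat.zero_mod, Nat.mod_eq_of_lt (by omega : 1 < e + 1)] at h5
    omega
  refine { toNontrivial := hnt, eq_bot_or_eq_top_of_normal := fun N hN => ?_ }
  by_cases hbot : N = ⊥
  · exact Or.inl hbot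
  right
  obtain ⟨M, hM, hsg⟩ := three_cycle Ws hs he F hgen F0 T α hα hf N hbot
  have hgen' := sm_gen F hgen (QuotientGroup.mk' N) (QuotientGroup.mk'_surjective N)
  have h' : ∀ k k', k < (M + 1) * e → k' < (M + 1) * e →
      (F.map (QuotientGroup.mk' N)).sg M k = (F.map (QuotientGroup.mk' N)).sg M k' := by
    intro k k' hk hk'
    rw [sm_sg, sm_sg]
    have h1 := hsg k k' hk hk'
    have h2 : QuotientGroup.mk' N (F.sg M k * (F.sg M k')⁻¹) = 1 :=
      (QuotientGroup.eq_one_iff _).2 h1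
    rw [map_mul, map_inv] at h2
    exact mul_inv_eq_one.1 h2
  obtain ⟨hp, hx, ht⟩ := collapse (F.map (QuotientGroup.mk' N)) he hodd M hM h'
  have hall := collapse_labels (F.map (QuotientGroup.mk' N)) he hgen' hp hx ht hco
  rw [eq_top_iff]
  intro q _
  exact (QuotientGroup.eq_one_iff q).1 (hall (QuotientGroup.mk q))

end

end Pool.Agent.H665Simp
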