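import Mathlib
import Pool.Agent.H665Simp.DefsA
import Pool.Agent.H665Simp.DefsB
import Pool.Agent.H665Simp.DefsC
import Pool.Agent.H665Simp.DefsD
import Pool.Agent.H665Simp.DefsG
import Pool.Agent.H665Simp.P_sl_exists
import Pool.Agent.H665Simp.P_ss_of_sl
import Pool.Agent.H665Simp.P_good
import Pool.Agent.H665Simp.P_bad
import Pool.Agent.H665Simp.P_coinv
import Pool.Agent.H665Simp.P_pres_fam
import Pool.Agent.H665Simp.P_seq_exists
import Pool.Agent.H665Simp.P_simple_main
import Pool.Agent.H665Simp.P_model_fam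
import Pool.Agent.H665Simp.P_not_simple

set_option autoImplicit false

namespace Pool.Agent.H665Simp



section



theorem key_finite (Sg : Type) [Finite Sg] (e : ℕ) : Finite (Gn Sg e) := by
  have : Function.Injective (fun g : Gn Sg e => (match g with
      | Gn.x c => Sum.inl (Sum.inl c)
      | Gn.p c => Sum.inl (Sum.inr c)
      | Gn.t => Sum.inr (Sum.inl true)
      | Gn.g s => Sum.inr (Sum.inr s)
      | Gn.y => Sum.inr (Sum.inl false) : (Fin (e + 1) ⊕ Fin (e + 1)) ⊕ (Bool ⊕ Sg))) := by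
    intro g h hgh
    cases g <;> cases h <;> simp_all
  exact Finite.of_injective _ this

/-- the finitely presented group is simple iff the machine halts from all configurations -/
theorem key {nJ nQ B : ℕ} [NeZero B] (m : Mach nJ nQ B) (hQ : 1 ≤ nQ) :
    ∃ (X : Type) (_ : Finite X) (R : Set (FreeGroup X)) (_ : R.Finite) (y p : X), ∀ w : ℕ,
      (IsSimpleGroup (PresentedGroup (R ∪ {(FreeGroup.of y)⁻¹ * (FreeGroup.of p) ^ w})) ↔
        ∀ c, HaltsF (m.stp (w : ℤ)) c) := by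
  classical
  obtain ⟨b, hb⟩ : ∃ b, b = Fintype.card (Bs nJ nQ B) := ⟨_, rfl⟩
  obtain ⟨e, he⟩ : ∃ e, e = 2 * (b + 2) + 1 := ⟨_, rfl⟩
  have he3 : 3 ≤ e := by omega
  have hodd : Odd e := ⟨b + 2, he⟩
  have hcard : Fintype.card (Lt nJ nQ B) = e + 1 := by
    show Fintype.card (Bool × (Bs nJ nQ B ⊕ Fin 3)) = e + 1
    rw [Fintype.card_prod, Fintype.card_sum, Fintype.card_bool, Fintype.card_fin, ← hb]
    omega
  let q : Lt nJ nQ B ≃ Fin (e + 1) := Fintype.equivFinOfCardEq hcard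
  obtain ⟨R, hRf, hR⟩ := pres_fam (DG m e q) he3
  refine ⟨Gn (Lg nJ nQ) e, key_finite _ _, R, hRf, Gn.y, Gn.g (DG m e q).pt, ?_⟩
  intro w
  obtain ⟨SL, hSL⟩ := sl_exists m w
  obtain ⟨S, hS⟩ := ss_of_sl m w e q SL hSL
  obtain ⟨F, hgen, huniv⟩ := hR w S hS
  constructor
  · intro hsimple
    by_contra hh
    obtain ⟨z, g, h1, h2, h3, h4⟩ := bad m w e q S hS hh
    exact not_simple he3 F huniv z g h1 h2 h3 h4 hsimple
  · intro hh
    obtain ⟨Ws, hs⟩ := seq_exists S
    obtain ⟨F0, T⟩ := model_fam Ws he3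
    obtain ⟨α, hα⟩ := huniv _ F0
    exact simple_main Ws hs he3 hodd F hgen F0 T α hα
      (fun g hg => good m w hQ e q S hS hh Ws hs g hg)
      (fun C _ φ hφ => coinv m w e q S hS C φ hφ)


end

end Pool.Agent.H665Simp
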