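import Mathlib
import Pool.Agent.H665Simp.DefsA
import Pool.Agent.H665Simp.DefsD
import Pool.Agent.H665Simp.DefsG
import Pool.Agent.H665Simp.DefsM

set_option autoImplicit false

namespace Pool.Agent.H665Simp



/-- the possible updates of a counter -/
inductive mw_Up : Type
  | keep | pop | push (d : ℤ) | zero | raw (a b : ℤ) | last (k1 kc : ℤ)

/-- the factor of the update -/
def mw_Up.al (B : ℤ) : mw_Up → ℤ
  | .keep => B
  | .pop => 1
  | .push _ => B ^ 2
  | .zero => 0
  | .raw a _ => a
  | .last _ _ => B ^ 3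

/-- the summand of the update -/
def mw_Up.be (B r : ℤ) : mw_Up → ℤ
  | .keep => r
  | .pop => 0
  | .push d => B * r + d
  | .zero => 0
  | .raw _ b => b
  | .last k1 kc => B ^ 2 * r + B * k1 + kc

/-- the value of the update -/
def mw_Up.ev (B v : ℤ) : mw_Up → ℤ
  | .keep => v
  | .pop => v / B
  | .push d => B * v + d
  | .zero => 0
  | .raw a b => a * (v / B) + b
  | .last k1 kc => B * (B * v + k1) + kc

theorem mw_up_eq (B v : ℤ) (u : mw_Up) : u.al B * (v / B) + u.be B (v % B) = u.ev B v := by
  have h : B * (v / B) + v % B = v := Int.mul_ediv_add_emod v B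
  cases u with
  | keep =>
    show B * (v / B) + v % B = v
    exact h
  | pop =>
    show 1 * (v / B) + 0 = v / B
    ring
  | push d =>
    show B ^ 2 * (v / B) + (B * (v % B) + d) = B * v + d
    linear_combination B * h
  | zero =>
    show 0 * (v / B) + 0 = 0
    ring
  | raw a b => rfl
  | last k1 kc =>
    show B ^ 3 * (v / B) + (B ^ 2 * (v % B) + B * k1 + kc) = B * (B * v + k1) + kc
    linear_combination B ^ 2 * h

/-- the data of the wrapped machine -/
def mw_dat {Q : Type} (M : Sys Q Bool) (q0 : Q) (kc k1 k0 : ℤ) :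
    WS Q → (Fin 6 → Fin M.B) → Option (WS Q) × (Fin 6 → mw_Up) × ℤ
  | .sim q, ρ =>
    if (ρ 4 : ℕ) = 1 then
      ((M.nxt q (fun j => if j then ρ 1 else ρ 0)).map .sim,
        ![.raw (M.a q (fun j => if j then ρ 1 else ρ 0) false)
            (M.b q (fun j => if j then ρ 1 else ρ 0) false),
          .raw (M.a q (fun j => if j then ρ 1 else ρ 0) true)
            (M.b q (fun j => if j then ρ 1 else ρ 0) true), .keep, .keep, .pop, .push 1], 0)
    else (some .rew, ![.keep, .keep, .keep, .keep, .keep, .keep], 0)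
  | .rew, ρ =>
    if (ρ 5 : ℕ) = 1 then (some .rew, ![.keep, .keep, .keep, .keep, .push 1, .pop], 0)
    else (some .ini, ![.keep, .keep, .keep, .keep, .push 1, .keep], 0)
  | .ini, _ => (some .cp1, ![.zero, .zero, .keep, .keep, .keep, .keep], 1)
  | .cp1, ρ =>
    if (ρ 2 : ℕ) = 1 then (some .cp1, ![.keep, .push k0, .pop, .push 1, .keep, .keep], 0)
    else if (ρ 2 : ℕ) = 2 then (some .cp1, ![.keep, .push k1, .pop, .push 2, .keep, .keep], 0)
    else (some .cp2, ![.keep, .keep, .keep, .keep, .keep, .keep], 0)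
  | .cp2, ρ =>
    if (ρ 3 : ℕ) = 1 then (some .cp2, ![.keep, .keep, .push 1, .pop, .keep, .keep], 0)
    else if (ρ 3 : ℕ) = 2 then (some .cp2, ![.keep, .keep, .push 2, .pop, .keep, .keep], 0)
    else (some (.sim q0), ![.keep, .last k1 kc, .keep, .keep, .keep, .keep], 0)

/-- counters as a vector -/
def mw_vec (c : C6) : Fin 6 → ℤ := ![c.a, c.b, c.X, c.Y, c.f, c.g]

theorem mw_red_iff {Q : Type} (M : Sys Q Bool) (z : ℤ) (n : ℕ) :
    ((M.red z : ℕ) = n) ↔ z % M.B = n := by
  have h := M.red_val z
  constructor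
  · intro h1
    rw [← h, h1]
  · intro h1
    rw [h1] at h
    exact_mod_cast h

theorem mw_ext {u v : Fin 6 → ℤ} (h0 : u 0 = v 0) (h1 : u 1 = v 1) (h2 : u 2 = v 2)
    (h3 : u 3 = v 3) (h4 : u 4 = v 4) (h5 : u 5 = v 5) : u = v := by
  funext j
  fin_cases j
  · exact h0
  · exact h1
  · exact h2
  · exact h3
  · exact h4
  · exact h5

/-- new counters -/
def mw_new (B w : ℤ) (ups : Fin 6 → mw_Up) (ga : ℤ) (v : Fin 6 → ℤ) : Fin 6 → ℤ :=
  fun j => (ups j).ev B (v j) + if j = 1 then ga * w else 0

theorem mw_new_eq (B w : ℤ) (u0 u1 u2 u3 u4 u5 : mw_Up) (ga : ℤ) (c c' : C6)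
    (h0 : u0.ev B c.a = c'.a) (h1 : u1.ev B c.b + ga * w = c'.b) (h2 : u2.ev B c.X = c'.X)
    (h3 : u3.ev B c.Y = c'.Y) (h4 : u4.ev B c.f = c'.f) (h5 : u5.ev B c.g = c'.g) :
    mw_new B w ![u0, u1, u2, u3, u4, u5] ga (mw_vec c) = mw_vec c' := by
  apply mw_ext
  · show u0.ev B c.a + 0 = c'.a
    rw [add_zero, h0]
  · exact h1
  · show u2.ev B c.X + 0 = c'.X
    rw [add_zero, h2]
  · show u3.ev B c.Y + 0 = c'.Y
    rw [add_zero, h3]
  · show u4.ev B c.f + 0 = c'.f
    rw [add_zero, h4]
  · show u5.ev B c.g + 0 = c'.g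
    rw [add_zero, h5]

theorem mw_step {Q : Type} (M : Sys Q Bool) (q0 : Q) (kc k1 k0 w : ℤ) (st : WS Q) (c : C6) :
    (mw_dat M q0 kc k1 k0 st (fun j => M.red (mw_vec c j))).1.map (fun st' => (st',
      mw_new M.B w (mw_dat M q0 kc k1 k0 st (fun j => M.red (mw_vec c j))).2.1
        (mw_dat M q0 kc k1 k0 st (fun j => M.red (mw_vec c j))).2.2 (mw_vec c))) =
      (wstp M q0 kc k1 k0 w (st, c)).map (fun x => (x.1, mw_vec x.2)) := by
  have e0 : M.red (mw_vec c 0) = M.red c.a := rfl
  have e1 : M.red (mw_vec c 1) = M.red c.b := rfl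
  have e2 : M.red (mw_vec c 2) = M.red c.X := rfl
  have e3 : M.red (mw_vec c 3) = M.red c.Y := rfl
  have e4 : M.red (mw_vec c 4) = M.red c.f := rfl
  have e5 : M.red (mw_vec c 5) = M.red c.g := rfl
  cases st with
  | sim q =>
    have hrr : (fun j : Bool => if j = true then M.red c.b else M.red c.a) =
        (fun j : Bool => M.red (if j = true then c.b else c.a)) := by
      funext j
      cases j <;> rfl
    unfold mw_dat wstp
    simp only [e0, e1, e4, mw_red_iff, hrr, Nat.cast_one]
    by_cases h : c.f % (M.B : ℤ) = 1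
    · simp only [if_pos h]
      cases M.nxt q (fun j : Bool => M.red (if j = true then c.b else c.a)) with
      | none => rfl
      | some q' =>
        simp only [Option.map_some]
        congr 2
        apply mw_new_eq
        · rfl
        · show _ + 0 * w = _
          rw [zero_mul, add_zero]
          rfl
        · rfl
        · rfl
        · rfl
        · rfl
    · simp only [if_neg h, Option.map_some]
      congr 2
      apply mw_new_eq
      · rfl
      · show _ + 0 * w = _
        rw [zero_mul, add_zero]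
        rfl
      · rfl
      · rfl
      · rfl
      · rfl
  | rew =>
    unfold mw_dat wstp
    simp only [e5, mw_red_iff, Nat.cast_one]
    by_cases h : c.g % (M.B : ℤ) = 1
    · simp only [if_pos h, Option.map_some]
      congr 2
      apply mw_new_eq
      · rfl
      · show _ + 0 * w = _
        rw [zero_mul, add_zero]
        rfl
      · rfl
      · rfl
      · rfl
      · rfl
    · simp only [if_neg h, Option.map_some]
      congr 2
      apply mw_new_eq
      · rfl
      · show _ + 0 * w = _
        rw [zero_mul, add_zero]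
        rfl
      · rfl
      · rfl
      · rfl
      · rfl
  | ini =>
    unfold mw_dat wstp
    simp only [Option.map_some]
    congr 2
    apply mw_new_eq
    · rfl
    · show (0 : ℤ) + 1 * w = _
      rw [one_mul, zero_add]
    · rfl
    · rfl
    · rfl
    · rfl
  | cp1 =>
    unfold mw_dat wstp
    simp only [e2, mw_red_iff, Nat.cast_one, Nat.cast_ofNat]
    by_cases h : c.X % (M.B : ℤ) = 1
    · simp only [if_pos h, Option.map_some]
      congr 2
      apply mw_new_eq
      · rfl
      · show _ + 0 * w = _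
        rw [zero_mul, add_zero]
        rfl
      · rfl
      · rfl
      · rfl
      · rfl
    · simp only [if_neg h]
      by_cases h' : c.X % (M.B : ℤ) = 2
      · simp only [if_pos h', Option.map_some]
        congr 2
        apply mw_new_eq
        · rfl
        · show _ + 0 * w = _
          rw [zero_mul, add_zero]
          rfl
        · rfl
        · rfl
        · rfl
        · rfl
      · simp only [if_neg h', Option.map_some]
        congr 2
        apply mw_new_eq
        · rfl
        · show _ + 0 * w = _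
          rw [zero_mul, add_zero]
          rfl
        · rfl
        · rfl
        · rfl
        · rfl
  | cp2 =>
    unfold mw_dat wstp
    simp only [e3, mw_red_iff, Nat.cast_one, Nat.cast_ofNat]
    by_cases h : c.Y % (M.B : ℤ) = 1
    · simp only [if_pos h, Option.map_some]
      congr 2
      apply mw_new_eq
      · rfl
      · show _ + 0 * w = _
        rw [zero_mul, add_zero]
        rfl
      · rfl
      · rfl
      · rfl
      · rfl
    · simp only [if_neg h]
      by_cases h' : c.Y % (M.B : ℤ) = 2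
      · simp only [if_pos h', Option.map_some]
        congr 2
        apply mw_new_eq
        · rfl
        · show _ + 0 * w = _
          rw [zero_mul, add_zero]
          rfl
        · rfl
        · rfl
        · rfl
        · rfl
      · simp only [if_neg h', Option.map_some]
        congr 2
        apply mw_new_eq
        · rfl
        · show _ + 0 * w = _
          rw [zero_mul, add_zero]
          rfl
        · rfl
        · rfl
        · rfl
        · rfl

theorem mw_halts {C C' : Type} (f : C → Option C) (f' : C' → Option C') (F : C → C')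
    (hF : Function.Surjective F) (hconj : ∀ c, f' (F c) = (f c).map F) :
    (∀ c', HaltsF f' c') ↔ ∀ c, HaltsF f c := by
  have h1 : ∀ c, HaltsF f c → HaltsF f' (F c) := by
    intro c h
    induction h with
    | halt c hc =>
      apply HaltsF.halt
      rw [hconj, hc]
      rfl
    | step c c' hc _ ih =>
      apply HaltsF.step _ (F c') _ ih
      rw [hconj, hc]
      rfl
  have h2 : ∀ c', HaltsF f' c' → ∀ c, F c = c' → HaltsF f c := by
    intro c' h
    induction h with
    | halt c' hc' =>
      intro c hc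
      apply HaltsF.halt
      rw [← hc, hconj] at hc'
      exact Option.map_eq_none_iff.1 hc'
    | step c' c'' hc' _ ih =>
      intro c hc
      rw [← hc, hconj] at hc'
      obtain ⟨d, hd, hd2⟩ := Option.map_eq_some_iff.1 hc'
      exact HaltsF.step c d hd (ih d hd2)
  constructor
  · intro h c
    exact h2 (F c) (h (F c)) c rfl
  · intro h c'
    obtain ⟨c, rfl⟩ := hF c'
    exact h1 c (h c)

theorem mw_finite {Q : Type} [Finite Q] : Finite (WS Q) := by
  apply Finite.of_surjective (fun x : Q ⊕ Fin 4 => match x with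
    | .inl q => WS.sim q
    | .inr 0 => WS.rew
    | .inr 1 => WS.ini
    | .inr 2 => WS.cp1
    | .inr 3 => WS.cp2)
  intro st
  cases st with
  | sim q => exact ⟨.inl q, rfl⟩
  | rew => exact ⟨.inr 0, rfl⟩
  | ini => exact ⟨.inr 1, rfl⟩
  | cp1 => exact ⟨.inr 2, rfl⟩
  | cp2 => exact ⟨.inr 3, rfl⟩

theorem mw_resd {Q : Type} (M : Sys Q Bool) (h : NeZero M.B) (v : Fin 6 → ℤ) :
    resd M.B v = fun j => M.red (v j) := by
  funext j
  apply Fin.ext
  have h1 := M.hB
  have h2 := Int.emod_nonneg (v j) (b := (M.B : ℤ)) (by omega)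
  have h3 := Int.emod_lt_of_pos (v j) (b := (M.B : ℤ)) (by omega)
  show (v j % M.B).toNat % M.B = (v j % M.B).toNat
  exact Nat.mod_eq_of_lt (by omega)

/-- the wrapped machine is a machine with steps affine on residue classes -/
theorem mach_of_w {Q : Type} [Finite Q] (M : Sys Q Bool) (hB : 4 ≤ M.B) (q0 : Q)
    (kc k1 k0 : ℕ) :
    ∃ (nQ : ℕ) (m : Mach 6 nQ M.B), 1 ≤ nQ ∧ ∀ w : ℕ,
      ((∀ c, HaltsF (@Mach.stp 6 nQ M.B ⟨M.hB.ne'⟩ m (w : ℤ)) c) ↔
        ∀ c, HaltsF (wstp M q0 kc k1 k0 w) c) := by
  have hfin : Finite (WS Q) := mw_finite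
  let e : WS Q ≃ Fin (Nat.card (WS Q)) := Finite.equivFin (WS Q)
  refine ⟨Nat.card (WS Q), ⟨fun i ρ => (mw_dat M q0 kc k1 k0 (e.symm i) ρ).1.map e,
    fun i ρ j => ((mw_dat M q0 kc k1 k0 (e.symm i) ρ).2.1 j).al M.B,
    fun i ρ j => ((mw_dat M q0 kc k1 k0 (e.symm i) ρ).2.1 j).be M.B (ρ j : ℕ),
    fun i ρ => (mw_dat M q0 kc k1 k0 (e.symm i) ρ).2.2, 1⟩, ?_, fun w => ?_⟩
  · have := (e WS.rew).pos
    omega
  · apply mw_halts (F := fun x : WS Q × C6 => (e x.1, mw_vec x.2))
    · rintro ⟨i, v⟩
      refine ⟨(e.symm i, ⟨v 0, v 1, v 2, v 3, v 4, v 5⟩), ?_⟩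
      apply Prod.ext
      · exact e.apply_symm_apply i
      · exact mw_ext rfl rfl rfl rfl rfl rfl
    · rintro ⟨st, c⟩
      have h1 := mw_step M q0 kc k1 k0 w st c
      unfold Mach.stp
      simp only [mw_resd M ⟨M.hB.ne'⟩, Equiv.symm_apply_apply, Sys.red_val, mw_up_eq]
      have h2 := congrArg (Option.map (fun x : WS Q × (Fin 6 → ℤ) => (e x.1, x.2))) h1
      rw [Option.map_map, Option.map_map] at h2
      rw [Option.map_map]
      exact h2

end Pool.Agent.H665Simp
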