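import Mathlib
import Pool.Agent.H665Simp.DefsA
import Pool.Agent.H665Simp.DefsD
import Pool.Agent.H665Simp.DefsG
import Pool.Agent.H665Simp.DefsM

set_option autoImplicit false

namespace Pool.Agent.H665Simp



/-- a code whose domain is given by the existential quantifier -/
theorem src_code (R : ℕ × ℕ × ℕ → Prop) (hR : ComputablePred R) :
    ∃ c : Turing.ToPartrec.Code, ∀ n x : ℕ, (c.eval [n, x]).Dom ↔ ∃ y, R (n, x - 1, y) := by
  obtain ⟨hdec, hcomp⟩ := hR
  let g : ℕ × ℕ → ℕ → Bool := fun p y => decide (R (p.1, p.2 - 1, y))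
  have hg : Computable₂ g := by
    have h1 : Computable (fun q : (ℕ × ℕ) × ℕ => ((q.1.1, q.1.2 - 1, q.2) : ℕ × ℕ × ℕ)) := by
      have h2 : Computable (fun q : (ℕ × ℕ) × ℕ => q.1.2 - 1) :=
        (Primrec.pred.to_comp).comp (Computable.snd.comp Computable.fst)
      exact (Computable.fst.comp Computable.fst).pair (h2.pair Computable.snd)
    exact hcomp.comp h1
  have hf : Partrec₂ (fun n x : ℕ => Nat.rfind (fun y => (Part.some (g (n, x) y) : Part Bool))) := by
    have h1 : Partrec₂ (fun (p : ℕ × ℕ) (y : ℕ) => (Part.some (g p y) : Part Bool)) := hg.partrec₂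
    exact Partrec.rfind h1
  have hf' := Nat.Partrec'.part_iff₂.2 hf
  obtain ⟨c, hc⟩ := Turing.ToPartrec.Code.exists_code hf'
  refine ⟨c, fun n x => ?_⟩
  have h1 := hc ⟨[n, x], rfl⟩
  have h2 : c.eval [n, x] = pure <$> Nat.rfind (fun y => (Part.some (g (n, x) y) : Part Bool)) := h1
  rw [h2]
  have h3 : ((pure <$> Nat.rfind (fun y => (Part.some (g (n, x) y) : Part Bool)) :
      Part (List ℕ))).Dom ↔ (Nat.rfind (fun y => (Part.some (g (n, x) y) : Part Bool))).Dom :=
    Iff.rfl
  rw [h3, Nat.rfind_dom]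
  constructor
  · rintro ⟨y, hy, _⟩
    refine ⟨y, ?_⟩
    have h4 : true = g (n, x) y := Part.mem_some_iff.1 hy
    exact of_decide_eq_true h4.symm
  · rintro ⟨y, hy⟩
    refine ⟨y, ?_, fun _ => trivial⟩
    exact Part.mem_some_iff.2 (decide_eq_true hy).symm

end Pool.Agent.H665Simp
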