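import Mathlib
import Pool.Agent.H665Simp.DefsA
import Pool.Agent.H665Simp.DefsD
import Pool.Agent.H665Simp.DefsG
import Pool.Agent.H665Simp.DefsM
import Pool.Agent.H665Simp.SrcLib
import Pool.Agent.H665Simp.P_src_code

set_option autoImplicit false

namespace Pool.Agent.H665Simp



/-- a Turing machine whose halting is given by the existential quantifier -/
theorem src_machine (R : ℕ × ℕ × ℕ → Prop) (hR : ComputablePred R) :
    ∃ (Λ : Type) (_ : Inhabited Λ) (_ : Finite Λ)
      (M : Turing.TM0.Machine (Turing.TM2to1.Γ' Turing.PartrecToTM2.K'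
        (fun _ => Turing.PartrecToTM2.Γ')) Λ),
      ∀ n x, (StateTransition.eval (Turing.TM0.step M)
        (Turing.TM0.init (sym true .cons :: ((Turing.PartrecToTM2.trNat x).reverse.map (sym false) ++
          sym false .cons :: (Turing.PartrecToTM2.trNat n).reverse.map (sym false))))).Dom ↔
        ∃ y, R (n, x - 1, y) := by
  classical
  obtain ⟨c, hc⟩ := src_code R hR
  let inst : Inhabited Turing.PartrecToTM2.Λ' :=
    ⟨Turing.PartrecToTM2.trNormal c Turing.PartrecToTM2.Cont'.halt⟩
  let M2 := Turing.PartrecToTM2.tr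
  let M1 := Turing.TM2to1.tr M2
  let M0 := Turing.TM1to0.tr M1
  have s2 : @Turing.TM2.Supports _ _ _ _ inst M2 (Turing.PartrecToTM2.codeSupp c Turing.PartrecToTM2.Cont'.halt) :=
    Turing.PartrecToTM2.tr_supports c Turing.PartrecToTM2.Cont'.halt
  have s1 := Turing.TM2to1.tr_supports M2 s2
  have s0 := Turing.TM1to0.tr_supports M1 s1
  obtain ⟨Λ, i1, i2, M, hM⟩ := finite_states M0 _ (Finset.finite_toSet _) s0
  refine ⟨Λ, i1, i2, M, fun n x => ?_⟩
  rw [hM, ← hc]
  have h2 := Turing.PartrecToTM2.tr_eval c [n, x]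
  have h2' : (StateTransition.eval (Turing.TM2.step Turing.PartrecToTM2.tr)
      (Turing.PartrecToTM2.init c [n, x])).Dom ↔ (c.eval [n, x]).Dom := by
    rw [h2]; rfl
  rw [← h2']
  have h1 := StateTransition.tr_eval_dom (Turing.TM2to1.tr_respects M2)
    (Turing.TM2to1.trCfg_init (K := Turing.PartrecToTM2.K') (Γ := fun _ => Turing.PartrecToTM2.Γ')
      (Λ := Turing.PartrecToTM2.Λ') (σ := Option Turing.PartrecToTM2.Γ') Turing.PartrecToTM2.K'.main (Turing.PartrecToTM2.trList [n, x]))
  have e1 : (Turing.TM2.init Turing.PartrecToTM2.K'.main (Turing.PartrecToTM2.trList [n, x]) :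
      Turing.TM2.Cfg (fun _ : Turing.PartrecToTM2.K' => Turing.PartrecToTM2.Γ') Turing.PartrecToTM2.Λ'
        (Option Turing.PartrecToTM2.Γ')) = Turing.PartrecToTM2.init c [n, x] := by
    unfold Turing.TM2.init Turing.PartrecToTM2.init
    congr 1
    funext k
    cases k <;> rfl
  rw [e1] at h1
  rw [← h1]
  have h0 := StateTransition.tr_eval_dom (Turing.TM1to0.tr_respects M1)
    (a₁ := Turing.TM1.init (Turing.TM2to1.trInit Turing.PartrecToTM2.K'.main (Turing.PartrecToTM2.trList [n, x]))) rfl
  rw [← h0]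
  have e2 : Turing.TM2to1.trInit (Γ := fun _ => Turing.PartrecToTM2.Γ') Turing.PartrecToTM2.K'.main (Turing.PartrecToTM2.trList [n, x]) =
      sym true .cons :: ((Turing.PartrecToTM2.trNat x).reverse.map (sym false) ++
          sym false .cons :: (Turing.PartrecToTM2.trNat n).reverse.map (sym false)) := by
    have : (Turing.PartrecToTM2.trList [n, x]).reverse = Turing.PartrecToTM2.Γ'.cons :: ((Turing.PartrecToTM2.trNat x).reverse ++
        Turing.PartrecToTM2.Γ'.cons :: (Turing.PartrecToTM2.trNat n).reverse) := by simp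
    unfold Turing.TM2to1.trInit
    rw [this]
    have e3 : ∀ l : List Turing.PartrecToTM2.Γ', (l.map fun a =>
        ((false, Function.update (fun _ => none) Turing.PartrecToTM2.K'.main (some a)) :
          Turing.TM2to1.Γ' Turing.PartrecToTM2.K' (fun _ => Turing.PartrecToTM2.Γ'))) = l.map (sym false) := fun l => rfl
    have e4 : (Turing.PartrecToTM2.trNat x).reverse.map (sym false) ++
          sym false .cons :: (Turing.PartrecToTM2.trNat n).reverse.map (sym false) =
        ((Turing.PartrecToTM2.trNat x).reverse ++ Turing.PartrecToTM2.Γ'.cons :: (Turing.PartrecToTM2.trNat n).reverse).map (sym false) := by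
      simp
    rw [e4, ← e3]
    rfl
  rw [← e2]
  rfl

end Pool.Agent.H665Simp
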