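import Mathlib
import Pool.Agent.H665Simp.DefsA
import Pool.Agent.H665Simp.DefsD
import Pool.Agent.H665Simp.DefsG
import Pool.Agent.H665Simp.DefsM

set_option autoImplicit false

namespace Pool.Agent.H665Simp



/-- The recursion computing the binary digits of a number. -/
theorem trNat_bval_rec (n : ℕ) (hn : n ≠ 0) : Turing.PartrecToTM2.trNat n =
    (if n % 2 = 1 then Turing.PartrecToTM2.Γ'.bit1 else Turing.PartrecToTM2.Γ'.bit0) ::
      Turing.PartrecToTM2.trNat (n / 2) := by
  have key : ∀ (b : Bool) (m : ℕ), (b = false → m ≠ 0) →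
      Turing.PartrecToTM2.trNat (Nat.bit b m) =
      (if b then Turing.PartrecToTM2.Γ'.bit1 else Turing.PartrecToTM2.Γ'.bit0) ::
        Turing.PartrecToTM2.trNat m := by
    intro b m hbm
    have h1 : ((Nat.bit b m : ℕ) : Num) = cond b Num.bit1 Num.bit0 (m : Num) :=
      Num.ofNat'_bit b m
    unfold Turing.PartrecToTM2.trNat
    rw [h1]
    rcases hm : (m : Num) with _ | p
    · cases b
      · exfalso
        apply hbm rfl
        have : ((m : Num) : ℕ) = 0 := by rw [hm]; rfl
        rwa [Num.to_of_nat] at this
      · rfl
    · cases b <;> rfl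
  have h := key (n % 2 = 1) (n / 2) (by
    intro h
    simp only [decide_eq_false_iff_not] at h
    omega)
  have hb : Nat.bit (decide (n % 2 = 1)) (n / 2) = n := by
    by_cases h : n % 2 = 1
    · simp [Nat.bit, h]; omega
    · simp [Nat.bit, h]; omega
  rw [hb] at h
  rw [h]
  simp

theorem trNat_bval_pos (l : List Bool) : 1 ≤ bval l := by
  induction l with
  | nil => exact le_rfl
  | cons b l ih =>
    have : bval (b :: l) = (if b then 1 else 0) + 2 * bval l := rfl
    omega

theorem trNat_bval (l : List Bool) : Turing.PartrecToTM2.trNat (bval l) =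
    l.map (fun b => if b then Turing.PartrecToTM2.Γ'.bit1 else Turing.PartrecToTM2.Γ'.bit0) ++
      [Turing.PartrecToTM2.Γ'.bit1] := by
  induction l with
  | nil =>
    have : bval [] = 1 := rfl
    rw [this, trNat_bval_rec 1 one_ne_zero]
    simp
  | cons b l ih =>
    have h1 : bval (b :: l) = (if b then 1 else 0) + 2 * bval l := rfl
    have h2 := trNat_bval_pos l
    rw [trNat_bval_rec _ (by omega), h1]
    cases b
    · have h3 : ((if false = true then 1 else 0) + 2 * bval l) % 2 = 0 := by simp
      have h4 : ((if false = true then 1 else 0) + 2 * bval l) / 2 = bval l := by simp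
      rw [h3, h4, ih]
      simp
    · have h3 : ((if true = true then 1 else 0) + 2 * bval l) % 2 = 1 := by simp
      have h4 : ((if true = true then 1 else 0) + 2 * bval l) / 2 = bval l := by simp; omega
      rw [h3, h4, ih]
      simp

theorem bval_surj (x : ℕ) : ∃ l, bval l = x + 1 := by
  induction x using Nat.strong_induction_on with
  | _ x ih =>
    by_cases hx : x = 0
    · subst hx
      exact ⟨[], rfl⟩
    · obtain ⟨l, hl⟩ := ih ((x + 1) / 2 - 1) (by omega)
      refine ⟨decide ((x + 1) % 2 = 1) :: l, ?_⟩
      have h1 : bval (decide ((x + 1) % 2 = 1) :: l) =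
        (if decide ((x + 1) % 2 = 1) then 1 else 0) + 2 * bval l := rfl
      rw [h1, hl]
      by_cases h : (x + 1) % 2 = 1
      · simp only [h, decide_true, if_true]
        omega
      · simp only [h, decide_false]
        simp
        omega

end Pool.Agent.H665Simp
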