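import Mathlib
import Pool.Agent.H665Simp.DefsA
import Pool.Agent.H665Simp.DefsD
import Pool.Agent.H665Simp.DefsG
import Pool.Agent.H665Simp.DefsM
import Pool.Agent.H665Simp.SrcLib
import Pool.Agent.H665Simp.P_src_machine
import Pool.Agent.H665Simp.P_trNat_bval

set_option autoImplicit false

namespace Pool.Agent.H665Simp



open Turing Relation in
open Turing.PartrecToTM2 (trNat trList trNum trPosNum) in
/-- the coded bits in front of a word -/
theorem enc_push [Fintype (TM2to1.Γ' PartrecToTM2.K' (fun _ => PartrecToTM2.Γ'))]
    [DecidableEq (TM2to1.Γ' PartrecToTM2.K' (fun _ => PartrecToTM2.Γ'))]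
    (l : List Bool) (rest : List (TM2to1.Γ' PartrecToTM2.K' (fun _ => PartrecToTM2.Γ'))) :
    enc ((l.map (fun b => if b then PartrecToTM2.Γ'.bit1 else PartrecToTM2.Γ'.bit0)).reverse.map
      (sym false) ++ rest) =
    l.foldl (fun v b => bas (TM2to1.Γ' PartrecToTM2.K' (fun _ => PartrecToTM2.Γ')) * v +
      (if b then kap (sym false .bit1) else kap (sym false .bit0))) (enc rest) := by
  induction l generalizing rest with
  | nil => rfl
  | cons b l ih =>
    simp only [List.map_cons, List.reverse_cons, List.map_append, List.append_assoc,
      List.foldl_cons, List.map_nil, List.cons_append, List.nil_append]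
    rw [ih]
    congr 1
    simp only [enc]
    cases b <;> simp [add_comm]

open Turing Relation in
open Turing.PartrecToTM2 (trNat trList trNum trPosNum) in
/-- a counter machine for a computable relation -/
theorem src (R : ℕ × ℕ × ℕ → Prop) (hR : ComputablePred R) :
    ∃ (Q : Type) (_ : Finite Q) (M : Sys Q Bool) (q0 : Q) (w0 : ℕ → ℕ) (kc k1 k0 : ℕ),
      4 ≤ M.B ∧ Computable w0 ∧ ∀ n (l : List Bool),
        M.Halts (some q0) (start M.B kc k1 k0 (w0 n) l) ↔ ∃ y, R (n, bval l - 1, y) := by
  classical
  obtain ⟨Λ, i1, i2, M, hM⟩ := src_machine R hR
  have fK : Finite PartrecToTM2.K' := by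
    refine Finite.of_injective (fun k : PartrecToTM2.K' => match k with
      | .main => (0 : Fin 4) | .rev => 1 | .aux => 2 | .stack => 3) ?_
    intro a b h
    cases a <;> cases b <;> simp_all
  have fG : Finite (TM2to1.Γ' PartrecToTM2.K' (fun _ => PartrecToTM2.Γ')) :=
    inferInstanceAs (Finite (Bool × (PartrecToTM2.K' → Option PartrecToTM2.Γ')))
  let _ : Fintype (TM2to1.Γ' PartrecToTM2.K' (fun _ => PartrecToTM2.Γ')) := Fintype.ofFinite _
  let N : ℕ → ℕ := fun n => enc (sym false .cons :: (trNat n).reverse.map (sym false))
  refine ⟨Λ, i2, sys M, default, N, kap (sym true .cons), kap (sym false .bit1),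
    kap (sym false .bit0), ?_, ?_, ?_⟩
  · change 4 ≤ bas _
    unfold bas
    have h3 : 2 < Fintype.card (TM2to1.Γ' PartrecToTM2.K' (fun _ => PartrecToTM2.Γ')) := by
      rw [Fintype.two_lt_card_iff]
      refine ⟨sym true .cons, sym false .cons, sym false .bit1, ?_, ?_, ?_⟩
      · intro h
        have := congrArg Prod.fst h
        simp [sym] at this
      · intro h
        have := congrArg Prod.fst h
        simp [sym] at this
      · intro h
        have := congrFun (congrArg Prod.snd h) PartrecToTM2.K'.main
        simp [sym] at this
    omega
  · have h1 := digits_computable (fun a => kap (sym false a))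
    have h2 : Computable (fun n : ℕ => ((trNat n).map (fun a => kap (sym false a))).reverse) :=
      Primrec.list_reverse.to_comp.comp h1
    have h3 := (foldr_computable
      (bas (TM2to1.Γ' PartrecToTM2.K' (fun _ => PartrecToTM2.Γ')))).comp h2
    have h4 : Computable (fun x : ℕ => kap (sym false .cons) +
        (bas (TM2to1.Γ' PartrecToTM2.K' (fun _ => PartrecToTM2.Γ'))) * x) :=
      (Primrec.nat_add.comp (Primrec.const _)
        (Primrec.nat_mul.comp (Primrec.const _) Primrec.id)).to_comp
    refine (h4.comp h3).of_eq ?_
    intro n
    have e : ∀ l : List PartrecToTM2.Γ', enc (l.map (sym false)) =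
        (l.map (fun a => kap (sym false a))).foldr (fun d acc => d +
          (bas (TM2to1.Γ' PartrecToTM2.K' (fun _ => PartrecToTM2.Γ'))) * acc) 0 := by
      intro l
      induction l with
      | nil => rfl
      | cons a l ih =>
        simp only [List.map_cons, enc, List.foldr_cons, ih]
    simp only [N, enc]
    rw [e, List.map_reverse]
  · intro n l
    rw [← hM n (bval l)]
    apply halts_iff
    have hW : (sym true .cons :: ((trNat (bval l)).reverse.map (sym false) ++
          sym false .cons :: (trNat n).reverse.map (sym false))) =
        sym true .cons :: sym false .bit1 ::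
          ((l.map (fun b => if b then PartrecToTM2.Γ'.bit1 else
            PartrecToTM2.Γ'.bit0)).reverse.map (sym false) ++
          sym false .cons :: (trNat n).reverse.map (sym false)) := by
      rw [trNat_bval]
      simp only [List.reverse_append, List.reverse_cons, List.reverse_nil, List.nil_append,
        List.cons_append, List.map_cons]
    constructor
    · have := rep_enc (sym true .cons :: ((trNat (bval l)).reverse.map (sym false) ++
          sym false .cons :: (trNat n).reverse.map (sym false)))
      have e : (Tape.mk₁ (sym true PartrecToTM2.Γ'.cons :: ((trNat (bval l)).reverse.map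
          (sym false) ++ sym false .cons :: (trNat n).reverse.map (sym false)))).right₀ =
          ListBlank.mk (sym true .cons :: ((trNat (bval l)).reverse.map (sym false) ++
          sym false .cons :: (trNat n).reverse.map (sym false))) := by
        unfold Tape.mk₁ Tape.mk₂
        rw [Tape.mk'_right₀]
      simp only [TM0.init, e]
      have e2 : start (sys M).B (kap (sym true .cons)) (kap (sym false .bit1))
          (kap (sym false .bit0)) (N n) l true =
          enc (sym true .cons :: ((trNat (bval l)).reverse.map (sym false) ++
          sym false .cons :: (trNat n).reverse.map (sym false))) := by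
        rw [hW]
        simp only [enc]
        rw [enc_push]
        rfl
      rw [e2]
      exact this
    · exact rep_zero

end Pool.Agent.H665Simp
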