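import Mathlib
import Pool.Agent.H665Simp.DefsA
import Pool.Agent.H665Simp.DefsD
import Pool.Agent.H665Simp.DefsG
import Pool.Agent.H665Simp.DefsM
import Pool.Agent.H665Simp.P_digits

set_option autoImplicit false

namespace Pool.Agent.H665Simp



theorem rew_phase {Q : Type} (M : Sys Q Bool) (hB : 4 ≤ M.B) (q0 : Q) (kc k1 k0 w : ℤ) (k : ℕ)
    (g₀ : ℤ) (hg : g₀ % M.B ≠ 1) (c : C6) (hc : c.g = app1 M.B k g₀) :
    Rn (wstp M q0 kc k1 k0 w) (k + 1) (.rew, c)
      (.ini, { c with f := app1 M.B (k + 1) c.f, g := g₀ }) := by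
  have h1 : ∀ v : ℤ, app1 M.B 1 v = M.B * v + 1 := fun v => rfl
  induction k generalizing c with
  | zero =>
    obtain ⟨a, b, X, Y, f, g⟩ := c
    have hg0 : g = g₀ := hc
    subst hg0
    refine Rn.succ 0 _ (.ini, ⟨a, b, X, Y, M.B * f + 1, g⟩) _ ?_ ?_
    · unfold wstp
      simp only
      rw [if_neg hg]
    · exact Rn.zero _
  | succ k ih =>
    obtain ⟨a, b, X, Y, f, g⟩ := c
    have hgk : g = M.B * app1 M.B k g₀ + 1 := by
      rw [← app1_succ]
      exact hc
    have hB0 : (4 : ℤ) ≤ M.B := by exact_mod_cast hB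
    have hmod : g % M.B = 1 := by
      rw [hgk, Int.mul_add_emod_self_left]
      exact Int.emod_eq_of_lt (by norm_num) (by linarith)
    have hdiv : g / M.B = app1 M.B k g₀ := by
      rw [hgk, Int.add_comm, Int.add_mul_ediv_left _ _ (by linarith),
        Int.ediv_eq_zero_of_lt (by norm_num) (by linarith), zero_add]
    have h2 := ih ⟨a, b, X, Y, M.B * f + 1, g / M.B⟩ hdiv
    refine Rn.succ (k + 1) _ (.rew, ⟨a, b, X, Y, M.B * f + 1, g / M.B⟩) _ ?_ ?_
    · unfold wstp
      simp only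
      rw [if_pos hmod]
    · have h3 : app1 M.B (k + 1 + 1) f = app1 M.B (k + 1) (M.B * f + 1) := by
        rw [app1_add, h1]
      simp only at h2 ⊢
      rw [h3]
      exact h2

end Pool.Agent.H665Simp
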