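import Mathlib
import Pool.Agent.H665Simp.DefsA
import Pool.Agent.H665Simp.DefsD
import Pool.Agent.H665Simp.DefsG
import Pool.Agent.H665Simp.DefsM
import Pool.Agent.H665Simp.P_rn_basic
import Pool.Agent.H665Simp.P_digits

set_option autoImplicit false

namespace Pool.Agent.H665Simp



theorem sp_one_mod {B : ℤ} (hB : 4 ≤ B) (v : ℤ) : (B * v + 1) % B = 1 := by
  rw [Int.add_comm, Int.add_mul_emod_self_left]
  exact Int.emod_eq_of_lt (by norm_num) (by omega)

theorem sp_one_div {B : ℤ} (hB : 4 ≤ B) (v : ℤ) : (B * v + 1) / B = v := by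
  rw [Int.add_comm, Int.add_mul_ediv_left _ _ (by omega)]
  rw [Int.ediv_eq_zero_of_lt (by norm_num) (by omega)]
  simp

theorem sp_red {Q : Type} (M : Sys Q Bool) (n : Bool → ℕ) (c : C6) (ha : c.a = n false)
    (hb : c.b = n true) : (fun j => M.red (if j then c.b else c.a)) = M.res n := by
  funext j
  apply M.red_eq
  cases j
  · simp [Sys.res, ha]
  · simp [Sys.res, hb]

/-- from any configuration the simulation phase stops or runs out of fuel -/
theorem sim_any {Q : Type} (M : Sys Q Bool) (hB : 4 ≤ M.B) (q0 : Q) (kc k1 k0 w : ℤ) (k : ℕ)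
    (f₀ : ℤ) (hf : f₀ % M.B ≠ 1) (q : Q) (c : C6) (hc : c.f = app1 M.B k f₀) :
    HaltsF (wstp M q0 kc k1 k0 w) (.sim q, c) ∨
    ∃ c' : C6, c'.X = c.X ∧ c'.Y = c.Y ∧ c'.f = f₀ ∧ c'.g = app1 M.B k c.g ∧
      Rn (wstp M q0 kc k1 k0 w) (k + 1) (.sim q, c) (.rew, c') := by
  have hB' : (4 : ℤ) ≤ (M.B : ℤ) := by exact_mod_cast hB
  induction k generalizing q c with
  | zero =>
    right
    have hc0 : c.f = f₀ := hc
    refine ⟨c, rfl, rfl, hc0, rfl, ?_⟩
    refine Rn.succ 0 _ (.rew, c) _ ?_ (Rn.zero _)
    simp only [wstp, hc0]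
    rw [if_neg hf]
  | succ k ih =>
    have hc1 : c.f = M.B * app1 M.B k f₀ + 1 := by rw [hc, app1_succ]
    have hm : c.f % M.B = 1 := by rw [hc1]; exact sp_one_mod hB' _
    have hd : c.f / M.B = app1 M.B k f₀ := by rw [hc1]; exact sp_one_div hB' _
    rcases hn : M.nxt q (fun j => M.red (if j then c.b else c.a)) with _ | q'
    · left
      apply HaltsF.halt
      simp only [wstp]
      rw [if_pos hm, hn]
      rfl
    · have hst : wstp M q0 kc k1 k0 w (.sim q, c) = some (.sim q',
        { c with
          a := M.a q (fun j => M.red (if j then c.b else c.a)) false * (c.a / M.B) +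
            M.b q (fun j => M.red (if j then c.b else c.a)) false
          b := M.a q (fun j => M.red (if j then c.b else c.a)) true * (c.b / M.B) +
            M.b q (fun j => M.red (if j then c.b else c.a)) true
          f := c.f / M.B
          g := M.B * c.g + 1 }) := by
        simp only [wstp]
        rw [if_pos hm, hn]
        rfl
      rcases ih q' ({ c with
          a := M.a q (fun j => M.red (if j then c.b else c.a)) false * (c.a / M.B) +
            M.b q (fun j => M.red (if j then c.b else c.a)) false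
          b := M.a q (fun j => M.red (if j then c.b else c.a)) true * (c.b / M.B) +
            M.b q (fun j => M.red (if j then c.b else c.a)) true
          f := c.f / M.B
          g := M.B * c.g + 1 } : C6) hd with h | ⟨c', h1, h2, h3, h4, h5⟩
      · left
        exact HaltsF.step _ _ hst h
      · right
        refine ⟨c', h1, h2, h3, ?_, Rn.succ _ _ _ _ hst h5⟩
        rw [h4, app1_add]
        rfl

/-- if the simulated machine halts then the simulation halts when it has enough fuel -/
theorem sim_halts {Q : Type} (M : Sys Q Bool) (hB : 4 ≤ M.B) (q0 : Q) (kc k1 k0 w : ℤ) (q : Q)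
    (n : Bool → ℕ) (h : M.Halts (some q) n) :
    ∃ K : ℕ, ∀ k, K ≤ k → ∀ (f₀ : ℤ) (c : C6), c.a = n false → c.b = n true →
      c.f = app1 M.B k f₀ → HaltsF (wstp M q0 kc k1 k0 w) (.sim q, c) := by
  have hB' : (4 : ℤ) ≤ (M.B : ℤ) := by exact_mod_cast hB
  generalize ho : some q = o at h
  induction h generalizing q with
  | stop n => cases ho
  | step q1 n h1 ih =>
    obtain rfl : q = q1 := by simpa using ho
    rcases hn : M.nxt q (M.res n) with _ | q'
    · refine ⟨1, fun k hk f₀ c ha hb hc => ?_⟩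
      obtain ⟨k, rfl⟩ : ∃ k', k = k' + 1 := ⟨k - 1, by omega⟩
      have hm : c.f % M.B = 1 := by rw [hc, app1_succ]; exact sp_one_mod hB' _
      apply HaltsF.halt
      simp only [wstp]
      rw [if_pos hm, sp_red M n c ha hb, hn]
      rfl
    · obtain ⟨K, hK⟩ := ih q' hn.symm
      refine ⟨K + 1, fun k hk f₀ c ha hb hc => ?_⟩
      obtain ⟨k, rfl⟩ : ∃ k', k = k' + 1 := ⟨k - 1, by omega⟩
      have hc1 : c.f = M.B * app1 M.B k f₀ + 1 := by rw [hc, app1_succ]
      have hm : c.f % M.B = 1 := by rw [hc1]; exact sp_one_mod hB' _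
      have hd : c.f / M.B = app1 M.B k f₀ := by rw [hc1]; exact sp_one_div hB' _
      have hst : wstp M q0 kc k1 k0 w (.sim q, c) = some (.sim q',
        { c with
          a := M.a q (M.res n) false * (c.a / M.B) + M.b q (M.res n) false
          b := M.a q (M.res n) true * (c.b / M.B) + M.b q (M.res n) true
          f := c.f / M.B
          g := M.B * c.g + 1 }) := by
        simp only [wstp]
        rw [if_pos hm, sp_red M n c ha hb, hn]
        rfl
      refine HaltsF.step _ _ hst (hK k (by omega) f₀ _ ?_ ?_ hd)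
      · simp [Sys.nn, ha]
      · simp [Sys.nn, hb]

/-- if the simulated machine does not halt then the simulation runs out of fuel -/
theorem sim_runs {Q : Type} (M : Sys Q Bool) (hB : 4 ≤ M.B) (q0 : Q) (kc k1 k0 w : ℤ) (k : ℕ)
    (q : Q) (n : Bool → ℕ) (h : ¬ M.Halts (some q) n) (f₀ : ℤ) (hf : f₀ % M.B ≠ 1) (c : C6)
    (ha : c.a = n false) (hb : c.b = n true) (hc : c.f = app1 M.B k f₀) :
    ∃ c' : C6, c'.X = c.X ∧ c'.Y = c.Y ∧ c'.f = f₀ ∧ c'.g = app1 M.B k c.g ∧
      Rn (wstp M q0 kc k1 k0 w) (k + 1) (.sim q, c) (.rew, c') := by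
  have hB' : (4 : ℤ) ≤ (M.B : ℤ) := by exact_mod_cast hB
  induction k generalizing q n c with
  | zero =>
    have hc0 : c.f = f₀ := hc
    refine ⟨c, rfl, rfl, hc0, rfl, ?_⟩
    refine Rn.succ 0 _ (.rew, c) _ ?_ (Rn.zero _)
    simp only [wstp, hc0]
    rw [if_neg hf]
  | succ k ih =>
    have hc1 : c.f = M.B * app1 M.B k f₀ + 1 := by rw [hc, app1_succ]
    have hm : c.f % M.B = 1 := by rw [hc1]; exact sp_one_mod hB' _
    have hd : c.f / M.B = app1 M.B k f₀ := by rw [hc1]; exact sp_one_div hB' _
    have h' : ¬ M.Halts (M.nxt q (M.res n)) (M.nn q n) := fun hh => h (Sys.Halts.step q n hh)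
    rcases hn : M.nxt q (M.res n) with _ | q'
    · rw [hn] at h'
      exact absurd (Sys.Halts.stop _) h'
    · rw [hn] at h'
      have hst : wstp M q0 kc k1 k0 w (.sim q, c) = some (.sim q',
        { c with
          a := M.a q (M.res n) false * (c.a / M.B) + M.b q (M.res n) false
          b := M.a q (M.res n) true * (c.b / M.B) + M.b q (M.res n) true
          f := c.f / M.B
          g := M.B * c.g + 1 }) := by
        simp only [wstp]
        rw [if_pos hm, sp_red M n c ha hb, hn]
        rfl
      obtain ⟨c', h1, h2, h3, h4, h5⟩ := ih q' (M.nn q n) h'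
        ({ c with
          a := M.a q (M.res n) false * (c.a / M.B) + M.b q (M.res n) false
          b := M.a q (M.res n) true * (c.b / M.B) + M.b q (M.res n) true
          f := c.f / M.B
          g := M.B * c.g + 1 } : C6)
        (by simp [Sys.nn, ha]) (by simp [Sys.nn, hb]) hd
      refine ⟨c', h1, h2, h3, ?_, Rn.succ _ _ _ _ hst h5⟩
      rw [h4, app1_add]
      rfl

end Pool.Agent.H665Simp
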