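import Mathlib
import Pool.Agent.H665Simp.DefsA
import Pool.Agent.H665Simp.DefsD
import Pool.Agent.H665Simp.DefsG
import Pool.Agent.H665Simp.DefsM
import Pool.Agent.H665Simp.P_rn_basic
import Pool.Agent.H665Simp.P_digits
import Pool.Agent.H665Simp.P_sim_phase
import Pool.Agent.H665Simp.P_rew_phase
import Pool.Agent.H665Simp.P_cp_phase

set_option autoImplicit false

namespace Pool.Agent.H665Simp



theorem claimA_aux {Q : Type} (M : Sys Q Bool) (hB : 4 ≤ M.B) (q0 : Q) (kc k1 k0 w : ℕ)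
    (l : List Bool) (K : ℕ)
    (hK : ∀ k, K ≤ k → ∀ (f₀ : ℤ) (c : C6), c.a = start M.B kc k1 k0 w l false →
      c.b = start M.B kc k1 k0 w l true →
      c.f = app1 M.B k f₀ → HaltsF (wstp M q0 kc k1 k0 w) (.sim q0, c))
    (X₀ Y₀ f₀ g₀ : ℤ) (hX1 : X₀ % M.B ≠ 1) (hX2 : X₀ % M.B ≠ 2) (hY1 : Y₀ % M.B ≠ 1)
    (hY2 : Y₀ % M.B ≠ 2) (hf : f₀ % M.B ≠ 1) (hg : g₀ % M.B ≠ 1) (m : ℕ) :
    ∀ (k : ℕ) (c : C6), K ≤ k + m → c.X = appl M.B l X₀ → c.Y = Y₀ → c.f = app1 M.B k f₀ →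
      c.g = g₀ → HaltsF (wstp M q0 kc k1 k0 w) (.ini, c) := by
  induction m with
  | zero =>
    intro k c hk hX hY hcf hcg
    obtain ⟨N, _, hN⟩ := ini_phase M hB q0 kc k1 k0 w l [] X₀ Y₀ hX1 hX2 hY1 hY2 c hX hY
    refine halts_of_rn _ _ _ _ hN ?_
    exact hK k (by omega) f₀ _ rfl rfl hcf
  | succ m ih =>
    intro k c hk hX hY hcf hcg
    obtain ⟨N, _, hN⟩ := ini_phase M hB q0 kc k1 k0 w l [] X₀ Y₀ hX1 hX2 hY1 hY2 c hX hY
    refine halts_of_rn _ _ _ _ hN ?_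
    rcases sim_any M hB q0 kc k1 k0 w k f₀ hf q0
      { c with
        a := 0
        b := (start M.B kc k1 k0 w l true : ℕ)
        X := appl M.B (([] : List Bool).reverse ++ l) X₀
        Y := Y₀ } hcf with h | ⟨c', e1, e2, e3, e4, h⟩
    · exact h
    · refine halts_of_rn _ _ _ _ h ?_
      have e4' : c'.g = app1 M.B k g₀ := by rw [e4]; exact congrArg _ hcg
      refine halts_of_rn _ _ _ _ (rew_phase M hB q0 kc k1 k0 w k g₀ hg c' e4') ?_
      refine ih (k + 1) _ (by omega) ?_ ?_ ?_ rfl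
      · show c'.X = _
        rw [e1]
        rfl
      · show c'.Y = _
        rw [e2]
      · show app1 M.B (k + 1) c'.f = _
        rw [e3]

theorem claimB_aux {Q : Type} (M : Sys Q Bool) (hB : 4 ≤ M.B) (q0 : Q) (kc k1 k0 w : ℕ)
    (hM : ∀ l, M.Halts (some q0) (start M.B kc k1 k0 w l)) (c : C6) :
    HaltsF (wstp M q0 kc k1 k0 w) (.ini, c) := by
  have hB' : (4 : ℤ) ≤ (M.B : ℤ) := by exact_mod_cast hB
  obtain ⟨l, X₀, hX, hX1, hX2⟩ := appl_dec M.B hB' c.X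
  obtain ⟨l', Y₀, hY, hY1, hY2⟩ := appl_dec M.B hB' c.Y
  obtain ⟨k, f₀, hcf, hf⟩ := app1_dec M.B hB' c.f
  obtain ⟨j, g₀, hcg, hg⟩ := app1_dec M.B hB' c.g
  obtain ⟨N, _, hN⟩ := ini_phase M hB q0 kc k1 k0 w l l' X₀ Y₀ hX1 hX2 hY1 hY2 c hX hY
  refine halts_of_rn _ _ _ _ hN ?_
  rcases sim_any M hB q0 kc k1 k0 w k f₀ hf q0
      { c with
        a := 0
        b := (start M.B kc k1 k0 w l true : ℕ)
        X := appl M.B (l'.reverse ++ l) X₀
        Y := Y₀ } hcf with h | ⟨c', e1, e2, e3, e4, h⟩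
  · exact h
  · refine halts_of_rn _ _ _ _ h ?_
    have e4' : c'.g = app1 M.B (k + j) g₀ := by
      rw [e4, app1_add]
      exact congrArg _ hcg
    refine halts_of_rn _ _ _ _ (rew_phase M hB q0 kc k1 k0 w (k + j) g₀ hg c' e4') ?_
    obtain ⟨K, hK⟩ := sim_halts M hB q0 kc k1 k0 w q0 _ (hM (l'.reverse ++ l))
    refine claimA_aux M hB q0 kc k1 k0 w (l'.reverse ++ l) K hK X₀ Y₀ f₀ g₀ hX1 hX2 hY1 hY2 hf hg
      K (k + j + 1) _ (by omega) ?_ ?_ ?_ rfl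
    · show c'.X = _
      rw [e1]
    · show c'.Y = _
      rw [e2]
    · show app1 M.B (k + j + 1) c'.f = _
      rw [e3]

/-- the wrapped machine halts from all configurations iff the simulated machine halts on all inputs -/
theorem wstp_iff {Q : Type} (M : Sys Q Bool) (hB : 4 ≤ M.B) (q0 : Q) (kc k1 k0 w : ℕ) :
    (∀ c, HaltsF (wstp M q0 kc k1 k0 w) c) ↔
      ∀ l, M.Halts (some q0) (start M.B kc k1 k0 w l) := by
  have hB' : (4 : ℤ) ≤ (M.B : ℤ) := by exact_mod_cast hB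
  constructor
  · intro hall l
    by_contra hnot
    have h0 : (0 : ℤ) % (M.B : ℤ) ≠ 1 := by rw [Int.zero_emod]; norm_num
    have h0' : (0 : ℤ) % (M.B : ℤ) ≠ 2 := by rw [Int.zero_emod]; norm_num
    refine not_halts (wstp M q0 kc k1 k0 w) (fun p : WS Q × C6 => p.1 = .ini ∧
      p.2.X = appl M.B l 0 ∧ p.2.Y = 0 ∧ p.2.g = 0 ∧ ∃ k, p.2.f = app1 M.B k 0) ?_
      ((.ini : WS Q), (⟨0, 0, appl M.B l 0, 0, 0, 0⟩ : C6)) ⟨rfl, rfl, rfl, rfl, 0, rfl⟩ (hall _)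
    rintro ⟨st, c⟩ ⟨hst, hX, hY, hcg, k, hcf⟩
    dsimp only at hst hX hY hcg hcf
    subst hst
    obtain ⟨N, hN1, hN⟩ := ini_phase M hB q0 kc k1 k0 w l [] 0 0 h0 h0' h0 h0' c hX hY
    obtain ⟨c', e1, e2, e3, e4, h⟩ := sim_runs M hB q0 kc k1 k0 w k q0 _ hnot 0 h0
      { c with
        a := 0
        b := (start M.B kc k1 k0 w l true : ℕ)
        X := appl M.B (([] : List Bool).reverse ++ l) 0
        Y := 0 } rfl rfl hcf
    have e4' : c'.g = app1 M.B k 0 := by rw [e4]; exact congrArg _ hcg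
    have hr := rew_phase M hB q0 kc k1 k0 w k 0 h0 c' e4'
    refine ⟨N + ((k + 1) + (k + 1)), (.ini, { c' with f := app1 M.B (k + 1) c'.f, g := 0 }),
      by omega, ⟨rfl, ?_, ?_, rfl, k + 1, ?_⟩,
      rn_trans _ _ _ _ _ _ hN (rn_trans _ _ _ _ _ _ h hr)⟩
    · show c'.X = _
      rw [e1]
      rfl
    · show c'.Y = _
      rw [e2]
    · show app1 M.B (k + 1) c'.f = _
      rw [e3]
  · intro hM
    have hini := claimB_aux M hB q0 kc k1 k0 w hM
    have hrew : ∀ c : C6, HaltsF (wstp M q0 kc k1 k0 w) (.rew, c) := by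
      intro c
      obtain ⟨j, g₀, hcg, hg⟩ := app1_dec M.B hB' c.g
      exact halts_of_rn _ _ _ _ (rew_phase M hB q0 kc k1 k0 w j g₀ hg c hcg) (hini _)
    have hsim : ∀ (q : Q) (c : C6), HaltsF (wstp M q0 kc k1 k0 w) (.sim q, c) := by
      intro q c
      obtain ⟨k, f₀, hcf, hf⟩ := app1_dec M.B hB' c.f
      rcases sim_any M hB q0 kc k1 k0 w k f₀ hf q c hcf with h | ⟨c', _, _, _, _, h⟩
      · exact h
      · exact halts_of_rn _ _ _ _ h (hrew _)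
    have hcp2 : ∀ c : C6, HaltsF (wstp M q0 kc k1 k0 w) (.cp2, c) := by
      intro c
      obtain ⟨l', Y₀, hY, hY1, hY2⟩ := appl_dec M.B hB' c.Y
      exact halts_of_rn _ _ _ _ (cp2_phase M hB q0 kc k1 k0 w l' Y₀ hY1 hY2 c hY) (hsim _ _)
    have hcp1 : ∀ c : C6, HaltsF (wstp M q0 kc k1 k0 w) (.cp1, c) := by
      intro c
      obtain ⟨l, X₀, hX, hX1, hX2⟩ := appl_dec M.B hB' c.X
      exact halts_of_rn _ _ _ _ (cp1_phase M hB q0 kc k1 k0 w l X₀ hX1 hX2 c hX) (hcp2 _)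
    rintro ⟨st, c⟩
    cases st with
    | sim q => exact hsim q c
    | rew => exact hrew c
    | ini => exact hini c
    | cp1 => exact hcp1 c
    | cp2 => exact hcp2 c

end Pool.Agent.H665Simp
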