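import Mathlib
import Pool.Agent.H665Simp.DefsA
import Pool.Agent.H665Simp.DefsD
import Pool.Agent.H665Simp.DefsG
import Pool.Agent.H665Simp.DefsM
import Pool.Agent.H665Simp.P_trNat_bval
import Pool.Agent.H665Simp.P_src
import Pool.Agent.H665Simp.P_wstp_iff
import Pool.Agent.H665Simp.P_mach_of_w

set_option autoImplicit false

namespace Pool.Agent.H665Simp



theorem machine_main (R : ℕ × ℕ × ℕ → Prop) (hR : ComputablePred R) :
    ∃ (nQ B : ℕ) (_ : NeZero B) (m : Mach 6 nQ B) (w0 : ℕ → ℕ), 1 ≤ nQ ∧ Computable w0 ∧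
      ∀ n, ((∀ c, HaltsF (m.stp (w0 n : ℤ)) c) ↔ ∀ x, ∃ y, R (n, x, y)) := by
  obtain ⟨Q, hQ, M, q0, w0, kc, k1, k0, hB, hw0, hh⟩ := src R hR
  obtain ⟨nQ, m, hnQ, hm⟩ := mach_of_w M hB q0 kc k1 k0
  refine ⟨nQ, M.B, ⟨M.hB.ne'⟩, m, w0, hnQ, hw0, fun n => ?_⟩
  refine (hm (w0 n)).trans ((wstp_iff M hB q0 kc k1 k0 (w0 n)).trans ?_)
  constructor
  · intro h x
    obtain ⟨l, hl⟩ := bval_surj x
    have h1 := (hh n l).1 (h l)
    rwa [hl, Nat.add_sub_cancel] at h1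
  · intro h l
    rw [hh n l]
    exact h _

end Pool.Agent.H665Simp
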