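import Mathlib
import Pool.Agent.H665Simp.DefsU

set_option autoImplicit false

namespace Pool.Agent.H665Simp



theorem ptr_one {α : Type} {rels : Set (FreeGroup α)} {r : FreeGroup α} (h : r ∈ rels) :
    PresentedGroup.mk rels r = 1 :=
  (QuotientGroup.eq_one_iff r).2 (Subgroup.subset_normalClosure h)

theorem ptr_lift {α β G : Type} [Group G] (g : α → β) (f : β → G) (r : FreeGroup α) :
    FreeGroup.lift f (FreeGroup.map g r) = FreeGroup.lift (fun x => f (g x)) r := by
  have h : (FreeGroup.lift f).comp (FreeGroup.map g) = FreeGroup.lift (fun x => f (g x)) := by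
    ext x
    simp
  exact DFunLike.congr_fun h r

theorem ptr_mk {α : Type} (rels : Set (FreeGroup α)) (r : FreeGroup α) :
    FreeGroup.lift (fun x => (PresentedGroup.of x : PresentedGroup rels)) r =
      PresentedGroup.mk rels r := by
  have h : FreeGroup.lift (fun x => (PresentedGroup.of x : PresentedGroup rels)) =
      PresentedGroup.mk rels := by
    ext x
    simp [PresentedGroup.of]
  rw [h]

theorem ptr_iso (X : Type) (K : ℕ) (e : X ≃ Fin K) (R' : Set (FreeGroup X)) :
    Nonempty (PresentedGroup R' ≃*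
      PresentedGroup ({r : FreeGroup ℕ | ∃ i : ℕ, K ≤ i ∧ r = FreeGroup.of i} ∪
        (FreeGroup.map (fun x => (e x : ℕ))) '' R')) := by
  obtain ⟨N, hN⟩ : ∃ N : Set (FreeGroup ℕ), N =
    ({r : FreeGroup ℕ | ∃ i : ℕ, K ≤ i ∧ r = FreeGroup.of i} ∪
        (FreeGroup.map (fun x => (e x : ℕ))) '' R') := ⟨_, rfl⟩
  rw [← hN]
  have hf : ∀ r ∈ R', FreeGroup.lift (fun x => (PresentedGroup.of ((e x : ℕ)) :
      PresentedGroup N)) r = 1 := by
    intro r hr
    have h1 := ptr_lift (fun x => (e x : ℕ)) (fun i => (PresentedGroup.of i : PresentedGroup N)) r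
    rw [← h1, ptr_mk]
    apply ptr_one
    rw [hN]
    exact Or.inr ⟨r, hr, rfl⟩
  have hg : ∀ r ∈ N, FreeGroup.lift (fun i => if h : i < K then
      (PresentedGroup.of (e.symm ⟨i, h⟩) : PresentedGroup R') else 1) r = 1 := by
    intro r hr
    rw [hN] at hr
    rcases hr with ⟨i, hi, rfl⟩ | ⟨s, hs, rfl⟩
    · rw [FreeGroup.lift_apply_of, dif_neg (by omega)]
    · rw [ptr_lift]
      have h2 : (fun x => if h : (e x : ℕ) < K then
          (PresentedGroup.of (e.symm ⟨(e x : ℕ), h⟩) : PresentedGroup R') else 1) =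
          fun x => (PresentedGroup.of x : PresentedGroup R') := by
        funext x
        rw [dif_pos (e x).isLt]
        simp
      rw [h2, ptr_mk]
      exact ptr_one hs
  refine ⟨MonoidHom.toMulEquiv (PresentedGroup.toGroup hf) (PresentedGroup.toGroup hg) ?_ ?_⟩
  · apply PresentedGroup.ext
    intro x
    rw [MonoidHom.comp_apply, PresentedGroup.toGroup.of, PresentedGroup.toGroup.of,
      dif_pos (e x).isLt]
    simp
  · apply PresentedGroup.ext
    intro i
    rw [MonoidHom.comp_apply, PresentedGroup.toGroup.of]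
    by_cases h : i < K
    · rw [dif_pos h, PresentedGroup.toGroup.of]
      simp
    · rw [dif_neg h, map_one, MonoidHom.id_apply]
      have : (PresentedGroup.of i : PresentedGroup N) = PresentedGroup.mk N (FreeGroup.of i) := rfl
      rw [this, eq_comm]
      apply ptr_one
      rw [hN]
      exact Or.inl ⟨i, by omega, rfl⟩

theorem ptr_word (iy ip w : ℕ) :
    FreeGroup.mk ((iy, false) :: List.replicate w (ip, true)) =
      (FreeGroup.of iy)⁻¹ * (FreeGroup.of ip) ^ w := by
  have h1 : ∀ w, FreeGroup.mk (List.replicate w (ip, true)) = (FreeGroup.of ip) ^ w := by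
    intro w
    induction w with
    | zero => rfl
    | succ w ih =>
      rw [List.replicate_succ, pow_succ', ← ih]
      rfl
  rw [← h1]
  rfl

/-- finite presentations with one varying relator, in the format of the target statement -/
theorem pres_transfer (X : Type) [Finite X] (R : Set (FreeGroup X)) (hR : R.Finite) (y p : X) :
    ∃ (K : ℕ) (L : List Wd) (iy ip : ℕ), ∀ w : ℕ,
      Nonempty (PresentedGroup (R ∪ {(FreeGroup.of y)⁻¹ * (FreeGroup.of p) ^ w}) ≃*
        PresentedGroup (relsN K (((iy, false) :: List.replicate w (ip, true)) :: L))) := by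
  obtain ⟨e⟩ : Nonempty (X ≃ Fin (Nat.card X)) := ⟨Finite.equivFin X⟩
  refine ⟨Nat.card X, hR.toFinset.toList.map
    (fun r => (FreeGroup.map (fun x => (e x : ℕ)) r).toWord), e y, e p, fun w => ?_⟩
  have h := ptr_iso X (Nat.card X) e (R ∪ {(FreeGroup.of y)⁻¹ * (FreeGroup.of p) ^ w})
  have hset : ({r : FreeGroup ℕ | ∃ i : ℕ, Nat.card X ≤ i ∧ r = FreeGroup.of i} ∪
        (FreeGroup.map (fun x => (e x : ℕ))) ''
          (R ∪ {(FreeGroup.of y)⁻¹ * (FreeGroup.of p) ^ w})) =
      relsN (Nat.card X) (((((e y : ℕ)), false) :: List.replicate w ((e p : ℕ), true)) ::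
        hR.toFinset.toList.map (fun r => (FreeGroup.map (fun x => (e x : ℕ)) r).toWord)) := by
    unfold relsN
    congr 1
    ext r
    constructor
    · rintro ⟨s, hs, rfl⟩
      rcases hs with hs | hs
      · refine ⟨(FreeGroup.map (fun x => (e x : ℕ)) s).toWord, ?_, FreeGroup.mk_toWord.symm⟩
        apply List.mem_cons_of_mem
        rw [List.mem_map]
        exact ⟨s, by rw [Finset.mem_toList, Set.Finite.mem_toFinset]; exact hs, rfl⟩
      · rw [Set.mem_singleton_iff] at hs
        refine ⟨_, List.mem_cons_self, ?_⟩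
        rw [ptr_word, hs]
        simp
    · rintro ⟨w', hw', rfl⟩
      rcases List.mem_cons.mp hw' with h1 | h1
      · rw [h1, ptr_word]
        refine ⟨(FreeGroup.of y)⁻¹ * (FreeGroup.of p) ^ w, Or.inr rfl, ?_⟩
        simp
      · rw [List.mem_map] at h1
        obtain ⟨s, hs, rfl⟩ := h1
        rw [Finset.mem_toList, Set.Finite.mem_toFinset] at hs
        exact ⟨s, Or.inl hs, FreeGroup.mk_toWord.symm⟩
  rw [hset] at h
  exact h

end Pool.Agent.H665Simp
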