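import Mathlib
import Pool.Agent.H665Simp.DefsA
import Pool.Agent.H665Simp.DefsD
import Pool.Agent.H665Simp.DefsG
import Pool.Agent.H665Simp.DefsM
import Pool.Agent.H665Simp.DefsU
import Pool.Agent.H665Simp.P_machine_main
import Pool.Agent.H665Simp.P_key
import Pool.Agent.H665Simp.P_pres_transfer

set_option autoImplicit false

namespace Pool.Agent.H665Simp



section

theorem isSimple_congr {G H : Type*} [Group G] [Group H] (e : G ≃* H) :
    IsSimpleGroup G ↔ IsSimpleGroup H := by
  constructor
  · intro h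
    haveI : Nontrivial H := e.symm.toEquiv.nontrivial
    exact IsSimpleGroup.isSimpleGroup_of_surjective e.toMonoidHom e.surjective
  · intro h
    haveI : Nontrivial G := e.toEquiv.nontrivial
    exact IsSimpleGroup.isSimpleGroup_of_surjective e.symm.toMonoidHom e.symm.surjective

theorem pr_replicate (a : ℕ × Bool) : Primrec fun w : ℕ => List.replicate w a := by
  have h : Primrec fun w : ℕ => (List.range w).map fun _ => a :=
    Primrec.list_map Primrec.list_range (Primrec₂.const a)
  refine h.of_eq fun w => ?_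
  simp

/-- hardness -/
theorem hard (B : ℕ → Prop)
    (hB : ∃ R : ℕ × ℕ × ℕ → Prop, ComputablePred R ∧ ∀ n, B n ↔ ∀ x, ∃ y, R (n, x, y)) :
    ∃ f : ℕ → ℕ, Computable f ∧ ∀ n, (B n ↔ ∃ p : ℕ × List (List (ℕ × Bool)),
      Encodable.decode (f n) = some p ∧ IsSimpleGroup (PresentedGroup (relsN p.1 p.2))) := by
  obtain ⟨R, hR, hBR⟩ := hB
  obtain ⟨nQ, B', hB', m, w0, hnQ, hw0, hm⟩ := machine_main R hR
  haveI := hB'
  obtain ⟨X, hX, R', hR', y, p, hkey⟩ := key m hnQ
  haveI := hX
  obtain ⟨K, L, iy, ip, hKL⟩ := pres_transfer X R' hR' y p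
  have hg : Primrec fun w : ℕ =>
      ((K, ((iy, false) :: List.replicate w (ip, true)) :: L) : ℕ × List (List (ℕ × Bool))) := by
    refine Primrec.pair (Primrec.const K) ?_
    refine Primrec.list_cons.comp ?_ (Primrec.const L)
    exact Primrec.list_cons.comp (Primrec.const (iy, false)) (pr_replicate (ip, true))
  refine ⟨fun n => Encodable.encode
    ((K, ((iy, false) :: List.replicate (w0 n) (ip, true)) :: L) :
      ℕ × List (List (ℕ × Bool))), ?_, ?_⟩
  · exact Computable.encode.comp (hg.to_comp.comp hw0)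
  · intro n
    obtain ⟨e⟩ := hKL (w0 n)
    rw [hBR n, ← hm n, ← hkey (w0 n), isSimple_congr e]
    constructor
    · intro h
      exact ⟨_, Encodable.encodek _, h⟩
    · rintro ⟨q, hq, h⟩
      rw [Encodable.encodek] at hq
      obtain rfl := Option.some.inj hq
      exact h

end

end Pool.Agent.H665Simp
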