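import Mathlib
import Pool.Agent.H665Simp.DefsU

set_option autoImplicit false

namespace Pool.Agent.H665Simp



/-- aux: membership of the trivial generators -/
lemma aux_le (K : ℕ) (L : List Wd) (v : Wd) :
    Subgroup.normalClosure (relsN K L) ≤ Subgroup.normalClosure (relsN K (v :: L)) := by
  apply Subgroup.normalClosure_mono
  rintro r (⟨i, hi, rfl⟩ | ⟨w, hw, rfl⟩)
  · exact Or.inl ⟨i, hi, rfl⟩
  · exact Or.inr ⟨w, List.mem_cons_of_mem _ hw, rfl⟩

/-- aux: a subgroup containing the relators and the generators is everything -/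
lemma aux_top (K : ℕ) (L : List Wd) (M : Subgroup (FreeGroup ℕ))
    (h1 : Subgroup.normalClosure (relsN K L) ≤ M)
    (h2 : ∀ i, i < K → FreeGroup.mk [(i, true)] ∈ M) : M = ⊤ := by
  have h3 : ∀ i : ℕ, FreeGroup.of i ∈ M := by
    intro i
    by_cases hi : i < K
    · exact h2 i hi
    · exact h1 (Subgroup.subset_normalClosure (Or.inl ⟨i, not_lt.mp hi, rfl⟩))
  rw [eq_top_iff]
  intro x _
  induction x using FreeGroup.induction_on with
  | C1 => exact M.one_mem
  | of i => exact h3 i
  | inv_of i h => exact M.inv_mem (h3 i)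
  | mul x y hx hy => exact M.mul_mem (hx trivial) (hy trivial)

/-- simplicity in terms of normal closures -/
theorem simple_iff (K : ℕ) (L : List Wd) :
    IsSimpleGroup (PresentedGroup (relsN K L)) ↔
      (¬ ∀ i, i < K → FreeGroup.mk [(i, true)] ∈ Subgroup.normalClosure (relsN K L)) ∧
      ∀ v : Wd, FreeGroup.mk v ∈ Subgroup.normalClosure (relsN K L) ∨
        ∀ i, i < K → FreeGroup.mk [(i, true)] ∈ Subgroup.normalClosure (relsN K (v :: L)) := by
  set π : FreeGroup ℕ →* PresentedGroup (relsN K L) := PresentedGroup.mk (relsN K L) with hπ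
  have hker : ∀ x : FreeGroup ℕ, π x = 1 ↔ x ∈ Subgroup.normalClosure (relsN K L) := fun x =>
    PresentedGroup.mk_eq_one_iff
  have hsurj : Function.Surjective π := PresentedGroup.mk_surjective _
  constructor
  · intro hs
    refine ⟨fun hall => ?_, fun v => ?_⟩
    · have ht := aux_top K L _ le_rfl hall
      obtain ⟨a, b, hab⟩ := hs.toNontrivial.exists_pair_ne
      apply hab
      obtain ⟨x, rfl⟩ := hsurj a
      obtain ⟨y, rfl⟩ := hsurj b
      rw [(hker x).2 (by rw [ht]; trivial), (hker y).2 (by rw [ht]; trivial)]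
    · have hn : ((Subgroup.normalClosure (relsN K (v :: L))).map π).Normal :=
        Subgroup.Normal.map inferInstance π hsurj
      rcases hs.eq_bot_or_eq_top_of_normal _ hn with h | h
      · left
        rw [← hker]
        have : π (FreeGroup.mk v) ∈ (Subgroup.normalClosure (relsN K (v :: L))).map π :=
          Subgroup.mem_map_of_mem π
            (Subgroup.subset_normalClosure (Or.inr ⟨v, List.mem_cons_self, rfl⟩))
        rw [h] at this
        exact Subgroup.mem_bot.1 this
      · right
        intro i _
        have : π (FreeGroup.mk [(i, true)]) ∈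
            (Subgroup.normalClosure (relsN K (v :: L))).map π := by
          rw [h]; trivial
        obtain ⟨m, hm, hme⟩ := Subgroup.mem_map.1 this
        have h4 : m⁻¹ * FreeGroup.mk [(i, true)] ∈ Subgroup.normalClosure (relsN K L) := by
          rw [← hker, map_mul, map_inv, hme, inv_mul_cancel]
        have h5 := Subgroup.mul_mem _ hm (aux_le K L v h4)
        rwa [mul_inv_cancel_left] at h5
  · rintro ⟨h1, h2⟩
    have hnt : Nontrivial (PresentedGroup (relsN K L)) := by
      by_contra hc
      rw [not_nontrivial_iff_subsingleton] at hc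
      exact h1 fun i _ => (hker _).1 (Subsingleton.elim _ _)
    refine { toNontrivial := hnt, eq_bot_or_eq_top_of_normal := fun H hH => ?_ }
    by_cases hb : H = ⊥
    · exact Or.inl hb
    right
    obtain ⟨x, hx, hx1⟩ := (Subgroup.ne_bot_iff_exists_ne_one.1 hb : ∃ a : H, a ≠ 1) |>.elim
      (fun a ha => (⟨a.1, a.2, fun h => ha (Subtype.ext h)⟩ :
        ∃ x : PresentedGroup (relsN K L), x ∈ H ∧ x ≠ 1))
    obtain ⟨y, rfl⟩ := hsurj x
    obtain ⟨v, rfl⟩ : ∃ v : Wd, FreeGroup.mk v = y := ⟨y.toWord, FreeGroup.mk_toWord⟩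
    have h3 : ∀ i, i < K → FreeGroup.mk [(i, true)] ∈
        Subgroup.normalClosure (relsN K (v :: L)) := by
      rcases h2 v with h | h
      · exact absurd ((hker _).2 h) hx1
      · exact h
    have h4 : Subgroup.normalClosure (relsN K (v :: L)) ≤ H.comap π := by
      apply Subgroup.normalClosure_le_normal
      rintro r (⟨i, hi, rfl⟩ | ⟨w, hw, rfl⟩)
      · have : π (FreeGroup.of i) = 1 :=
          (hker _).2 (Subgroup.subset_normalClosure (Or.inl ⟨i, hi, rfl⟩))
        show π (FreeGroup.of i) ∈ H
        rw [this]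
        exact H.one_mem
      · rcases List.mem_cons.1 hw with rfl | hw
        · exact hx
        · have : π (FreeGroup.mk w) = 1 :=
            (hker _).2 (Subgroup.subset_normalClosure (Or.inr ⟨w, hw, rfl⟩))
          show π (FreeGroup.mk w) ∈ H
          rw [this]
          exact H.one_mem
    have h5 : H.comap π = ⊤ :=
      aux_top K L _ ((aux_le K L v).trans h4) (fun i hi => h4 (h3 i hi))
    rw [eq_top_iff]
    intro a _
    obtain ⟨b, rfl⟩ := hsurj a
    have : b ∈ H.comap π := by rw [h5]; trivial
    exact this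

end Pool.Agent.H665Simp
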