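import Mathlib
import Pool.Agent.H665Simp.DefsU
import Pool.Agent.H665Simp.P_der_iff
import Pool.Agent.H665Simp.P_simple_iff

set_option autoImplicit false

namespace Pool.Agent.H665Simp



/-- the set of codes of presentations of simple groups is `Π₂` -/
theorem upper (A : ℕ → Prop)
    (hA : ∀ n : ℕ, A n ↔ ∃ p : ℕ × List (List (ℕ × Bool)), Encodable.decode n = some p ∧
      IsSimpleGroup (PresentedGroup (relsN p.1 p.2))) :
    ∃ R : ℕ × ℕ × ℕ → Prop, ComputablePred R ∧ ∀ n, A n ↔ ∀ x, ∃ y, R (n, x, y) := by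
  classical
  let dn : ℕ → ℕ × List Wd := fun n => ((Encodable.decode n : Option (ℕ × List Wd))).getD (0, [])
  let dx : ℕ → Wd × List Der := fun n => ((Encodable.decode n : Option (Wd × List Der))).getD ([], [])
  let dy : ℕ → List Der := fun n => ((Encodable.decode n : Option (List Der))).getD []
  have hdn : Primrec dn := Primrec.option_getD.comp Primrec.decode (Primrec.const _)
  have hdx : Primrec dx := Primrec.option_getD.comp Primrec.decode (Primrec.const _)
  have hdy : Primrec dy := Primrec.option_getD.comp Primrec.decode (Primrec.const _)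
  have sdx : ∀ z : Wd × List Der, ∃ n, dx n = z := fun z => ⟨Encodable.encode z, by
    show ((Encodable.decode (Encodable.encode z) : Option (Wd × List Der))).getD ([], []) = z
    rw [Encodable.encodek]
    rfl⟩
  have sdy : ∀ z : List Der, ∃ n, dy n = z := fun z => ⟨Encodable.encode z, by
    show ((Encodable.decode (Encodable.encode z) : Option (List Der))).getD [] = z
    rw [Encodable.encodek]
    rfl⟩
  let R : ℕ × ℕ × ℕ → Prop := fun q =>
    ((Encodable.decode q.1 : Option (ℕ × List Wd)).isSome = true) ∧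
    (¬ ∀ i ∈ List.range (dn q.1).1, ∃ d ∈ (dx q.2.1).2,
      IsDer (dn q.1).1 (dn q.1).2 [(i, true)] d) ∧
    ((∃ d ∈ dy q.2.2, IsDer (dn q.1).1 (dn q.1).2 (dx q.2.1).1 d) ∨
      ∀ i ∈ List.range (dn q.1).1, ∃ d ∈ dy q.2.2,
        IsDer (dn q.1).1 ((dx q.2.1).1 :: (dn q.1).2) [(i, true)] d)
  have hK : Primrec fun q : ℕ × ℕ × ℕ => (dn q.1).1 := Primrec.fst.comp (hdn.comp Primrec.fst)
  have hL : Primrec fun q : ℕ × ℕ × ℕ => (dn q.1).2 := Primrec.snd.comp (hdn.comp Primrec.fst)
  have hv : Primrec fun q : ℕ × ℕ × ℕ => (dx q.2.1).1 :=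
    Primrec.fst.comp (hdx.comp (Primrec.fst.comp Primrec.snd))
  have hD1 : Primrec fun q : ℕ × ℕ × ℕ => (dx q.2.1).2 :=
    Primrec.snd.comp (hdx.comp (Primrec.fst.comp Primrec.snd))
  have hD2 : Primrec fun q : ℕ × ℕ × ℕ => dy q.2.2 := hdy.comp (Primrec.snd.comp Primrec.snd)
  have hsing : Primrec fun i : ℕ => ([(i, true)] : Wd) :=
    Primrec.list_cons.comp (Primrec.pair Primrec.id (Primrec.const true)) (Primrec.const [])
  have hfirst : ∀ (Lf : ℕ × ℕ × ℕ → List Wd) (Df : ℕ × ℕ × ℕ → List Der), Primrec Lf → Primrec Df →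
      PrimrecPred fun q : ℕ × ℕ × ℕ => ∀ i ∈ List.range (dn q.1).1, ∃ d ∈ Df q,
        IsDer (dn q.1).1 (Lf q) [(i, true)] d := by
    intro Lf Df hLf hDf
    refine pp_forall (f := fun q : ℕ × ℕ × ℕ => List.range (dn q.1).1)
      (P := fun q i => ∃ d ∈ Df q, IsDer (dn q.1).1 (Lf q) [(i, true)] d)
      (Primrec.list_range.comp hK) ?_
    refine pp_exists (f := fun p : (ℕ × ℕ × ℕ) × ℕ => Df p.1)
      (P := fun p d => IsDer (dn p.1.1).1 (Lf p.1) [(p.2, true)] d) (hDf.comp Primrec.fst) ?_
    exact PrimrecPred.comp pp_isDer (Primrec.pair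
      (Primrec.pair (hK.comp (Primrec.fst.comp Primrec.fst))
        (hLf.comp (Primrec.fst.comp Primrec.fst)))
      (Primrec.pair (hsing.comp (Primrec.snd.comp Primrec.fst)) Primrec.snd))
  have hR : PrimrecPred R := by
    refine PrimrecPred.and ?_ (PrimrecPred.and ?_ (PrimrecPred.or ?_ ?_))
    · exact Primrec.eq.comp (Primrec.option_isSome.comp (Primrec.decode.comp Primrec.fst))
        (Primrec.const true)
    · exact (hfirst _ _ hL hD1).not
    · refine pp_exists (f := fun q : ℕ × ℕ × ℕ => dy q.2.2)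
        (P := fun q d => IsDer (dn q.1).1 (dn q.1).2 (dx q.2.1).1 d) hD2 ?_
      exact PrimrecPred.comp pp_isDer (Primrec.pair
        (Primrec.pair (hK.comp Primrec.fst) (hL.comp Primrec.fst))
        (Primrec.pair (hv.comp Primrec.fst) Primrec.snd))
    · exact hfirst _ _ (Primrec.list_cons.comp hv hL) hD2
  refine ⟨R, ?_, ?_⟩
  · obtain ⟨inst, h⟩ := hR
    exact ⟨inst, h.to_comp⟩
  · intro n
    have hex : ∀ (K : ℕ) (L : List Wd), (∀ i, i < K → ∃ d, IsDer K L [(i, true)] d) →
        ∃ D : List Der, ∀ i ∈ List.range K, ∃ d ∈ D, IsDer K L [(i, true)] d := by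
      intro K L h
      have h' : ∀ i, ∃ d, i < K → IsDer K L [(i, true)] d := by
        intro i
        by_cases hi : i < K
        · obtain ⟨d, hd⟩ := h i hi
          exact ⟨d, fun _ => hd⟩
        · exact ⟨[], fun h2 => absurd h2 hi⟩
      choose D hD using h'
      refine ⟨(List.range K).map D, fun i hi => ⟨D i, List.mem_map.2 ⟨i, hi, rfl⟩, ?_⟩⟩
      exact hD i (List.mem_range.1 hi)
    rw [hA]
    constructor
    · rintro ⟨⟨K, L⟩, hdec, hsimp⟩ x
      have hdnn : dn n = (K, L) := by
        show ((Encodable.decode n : Option (ℕ × List Wd))).getD (0, []) = (K, L)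
        rw [hdec]
        rfl
      dsimp only at hsimp
      rw [simple_iff] at hsimp
      obtain ⟨hs1, hs2⟩ := hsimp
      simp only [der_iff] at hs1 hs2
      have hy : ∃ D2 : List Der, (∃ d ∈ D2, IsDer K L (dx x).1 d) ∨
          ∀ i ∈ List.range K, ∃ d ∈ D2, IsDer K ((dx x).1 :: L) [(i, true)] d := by
        rcases hs2 (dx x).1 with ⟨d, hd⟩ | h
        · exact ⟨[d], Or.inl ⟨d, by simp, hd⟩⟩
        · obtain ⟨D, hD⟩ := hex K ((dx x).1 :: L) h
          exact ⟨D, Or.inr hD⟩
      obtain ⟨D2, hD2'⟩ := hy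
      obtain ⟨y, hy⟩ := sdy D2
      refine ⟨y, ?_, ?_, ?_⟩
      · show (Encodable.decode n : Option (ℕ × List Wd)).isSome = true
        rw [hdec]
        rfl
      · dsimp only
        rw [hdnn]
        intro hall
        apply hs1
        intro i hi
        obtain ⟨d, -, hd⟩ := hall i (List.mem_range.2 hi)
        exact ⟨d, hd⟩
      · dsimp only
        rw [hdnn, hy]
        exact hD2'
    · intro h
      obtain ⟨y0, hy0, -, -⟩ := h 0
      obtain ⟨⟨K, L⟩, hdec⟩ := Option.isSome_iff_exists.1 hy0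
      dsimp only at hdec
      have hdnn : dn n = (K, L) := by
        show ((Encodable.decode n : Option (ℕ × List Wd))).getD (0, []) = (K, L)
        rw [hdec]
        rfl
      refine ⟨(K, L), hdec, ?_⟩
      dsimp only
      rw [simple_iff]
      simp only [der_iff]
      constructor
      · intro hall
        obtain ⟨D, hD⟩ := hex K L hall
        obtain ⟨x, hx⟩ := sdx ([], D)
        obtain ⟨y, -, hy, -⟩ := h x
        dsimp only at hy
        rw [hdnn, hx] at hy
        exact hy hD
      · intro v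
        obtain ⟨x, hx⟩ := sdx (v, [])
        obtain ⟨y, -, -, hy⟩ := h x
        dsimp only at hy
        rw [hdnn, hx] at hy
        rcases hy with ⟨d, -, hd⟩ | hy
        · exact Or.inl ⟨d, hd⟩
        · refine Or.inr (fun i hi => ?_)
          obtain ⟨d, -, hd⟩ := hy i (List.mem_range.2 hi)
          exact ⟨d, hd⟩

end Pool.Agent.H665Simp
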